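import Mathlib

open Set Filter Topology MeasureTheory
open scoped ContDiff

namespace Pool.Agent.MP_845d3b_gt

/-- Unnormalised Gaussian density. -/
noncomputable def ph (z : ℂ) : ℝ := Real.exp (-‖z‖ ^ 2 / 2)

lemma ph_pos (z : ℂ) : 0 < ph z := Real.exp_pos _

lemma ph_le_one (z : ℂ) : ph z ≤ 1 := by
  unfold ph
  rw [Real.exp_le_one_iff]
  have := sq_nonneg ‖z‖
  linarith

lemma contDiff_ph : ContDiff ℝ ∞ ph := by
  unfold ph
  have h : ContDiff ℝ ∞ (fun z : ℂ => ‖z‖ ^ 2) := contDiff_norm_sq ℝ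
  exact (h.neg.div_const 2).exp

lemma continuous_ph : Continuous ph := contDiff_ph.continuous

lemma ph_lip (x y : ℂ) : |ph x - ph y| ≤ ‖x - y‖ := by
  have key : ∀ a b : ℝ, |Real.exp (-a ^ 2 / 2) - Real.exp (-b ^ 2 / 2)| ≤ |a - b| := by
    intro a b
    have hd : ∀ t : ℝ, HasDerivAt (fun t : ℝ => Real.exp (-t ^ 2 / 2))
        (Real.exp (-t ^ 2 / 2) * (-t)) t := by
      intro t
      have h1 : HasDerivAt (fun t : ℝ => -t ^ 2 / 2) (-t) t := by
        have := ((hasDerivAt_pow 2 t).neg).div_const 2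
        refine this.congr_deriv ?_
        simp
        ring
      exact h1.exp
    have hb : ∀ t ∈ (univ : Set ℝ), ‖Real.exp (-t ^ 2 / 2) * (-t)‖ ≤ 1 := by
      intro t _
      rw [norm_mul, norm_neg, Real.norm_eq_abs, Real.norm_eq_abs, abs_of_pos (Real.exp_pos _)]
      have h2 : |t| ≤ Real.exp (t ^ 2 / 2) := by
        have h3 := Real.add_one_le_exp (t ^ 2 / 2)
        have h4 : |t| ≤ t ^ 2 / 2 + 1 := by
          rw [abs_le]
          constructor <;> nlinarith [sq_nonneg (t - 1), sq_nonneg (t + 1)]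
        exact h4.trans h3
      have h5 : Real.exp (-t ^ 2 / 2) * Real.exp (t ^ 2 / 2) = 1 := by
        rw [← Real.exp_add]
        have : -t ^ 2 / 2 + t ^ 2 / 2 = 0 := by ring
        rw [this, Real.exp_zero]
      calc Real.exp (-t ^ 2 / 2) * |t| ≤ Real.exp (-t ^ 2 / 2) * Real.exp (t ^ 2 / 2) :=
            mul_le_mul_of_nonneg_left h2 (Real.exp_pos _).le
        _ = 1 := h5
    have := convex_univ.norm_image_sub_le_of_norm_hasDerivWithin_le
      (fun t _ => (hd t).hasDerivWithinAt) hb (mem_univ b) (mem_univ a)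
    simpa [Real.norm_eq_abs] using this
  exact (key ‖x‖ ‖y‖).trans (abs_norm_sub_norm_le x y)

/-- A smooth time cutoff. -/
noncomputable def bump : ContDiffBump (0 : ℝ) := ⟨1, 2, one_pos, one_lt_two⟩

lemma bump_one {t : ℝ} (ht : |t| ≤ 1) : bump t = 1 :=
  bump.one_of_mem_closedBall (by simpa [bump] using ht)

lemma bump_neg (t : ℝ) : bump (-t) = bump t := bump.neg t

lemma bump_integral_le (a : ℝ) : ∫ t in uIoc 0 a, bump t ≤ 4 := by
  have h1 : ∫ t in uIoc 0 a, bump t ≤ ∫ t, bump t :=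
    setIntegral_le_integral bump.integrable (Eventually.of_forall fun t => bump.nonneg)
  have h2 : ∫ t, bump t ≤ (volume : Measure ℝ).real (Metric.closedBall 0 bump.rOut) :=
    bump.integral_le_measure_closedBall volume
  have h3 : (volume : Measure ℝ).real (Metric.closedBall 0 bump.rOut) = 4 := by
    rw [measureReal_def, Real.volume_closedBall]
    simp [bump]
    norm_num
  linarith

/-- The integrand of the arc equation. -/
noncomputable def fld (ε : ℝ) (t : ℝ) (z : ℂ) : ℂ :=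
  ((ε * bump t * ph z : ℝ) : ℂ) * (Complex.I * Complex.exp (t * Complex.I))

lemma norm_fld {ε : ℝ} (h0 : 0 < ε) (t : ℝ) (z : ℂ) : ‖fld ε t z‖ = ε * bump t * ph z := by
  unfold fld
  rw [norm_mul, norm_mul, Complex.norm_I, Complex.norm_exp_ofReal_mul_I, Complex.norm_real,
    Real.norm_eq_abs, mul_one, mul_one, abs_of_nonneg]
  have := bump.nonneg (x := t)
  have := (ph_pos z).le
  positivity

lemma norm_fld_le {ε : ℝ} (h0 : 0 < ε) (t : ℝ) (z : ℂ) : ‖fld ε t z‖ ≤ ε * bump t := by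
  rw [norm_fld h0]
  have h1 : 0 ≤ ε * bump t := mul_nonneg h0.le bump.nonneg
  calc ε * bump t * ph z ≤ ε * bump t * 1 := mul_le_mul_of_nonneg_left (ph_le_one z) h1
    _ = _ := mul_one _

lemma norm_fld_sub_le {ε : ℝ} (h0 : 0 < ε) (t : ℝ) (z w : ℂ) :
    ‖fld ε t z - fld ε t w‖ ≤ ε * bump t * ‖z - w‖ := by
  have e : fld ε t z - fld ε t w = ((ε * bump t * (ph z - ph w) : ℝ) : ℂ) *
      (Complex.I * Complex.exp (t * Complex.I)) := by
    unfold fld; push_cast; ring
  rw [e, norm_mul, norm_mul, Complex.norm_I, Complex.norm_exp_ofReal_mul_I, Complex.norm_real,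
    Real.norm_eq_abs, mul_one, mul_one, abs_mul, abs_of_nonneg (mul_nonneg h0.le bump.nonneg)]
  exact mul_le_mul_of_nonneg_left (ph_lip z w) (mul_nonneg h0.le bump.nonneg)

lemma contDiff_fld (ε : ℝ) : ContDiff ℝ ∞ (fun p : ℝ × ℂ => fld ε p.1 p.2) := by
  unfold fld
  have h1 : ContDiff ℝ ∞ (fun p : ℝ × ℂ => bump p.1) := bump.contDiff.comp contDiff_fst
  have h2 : ContDiff ℝ ∞ (fun p : ℝ × ℂ => ph p.2) := contDiff_ph.comp contDiff_snd
  have h3 : ContDiff ℝ ∞ (fun p : ℝ × ℂ => ((ε * bump p.1 * ph p.2 : ℝ) : ℂ)) :=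
    Complex.ofRealCLM.contDiff.comp ((contDiff_const.mul h1).mul h2)
  have h4 : ContDiff ℝ ∞ (fun p : ℝ × ℂ => ((p.1 : ℝ) : ℂ)) :=
    Complex.ofRealCLM.contDiff.comp contDiff_fst
  exact h3.mul (contDiff_const.mul (h4.mul contDiff_const).cexp)

lemma continuous_fld_comp (ε : ℝ) {x : ℝ → ℂ} (hx : Continuous x) :
    Continuous fun t => fld ε t (x t) :=
  (contDiff_fld ε).continuous.comp (continuous_id.prodMk hx)

/-- The real constant fixed by the boundary condition at the vertex. -/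
noncomputable def rc (ε : ℝ) (x : ℝ → ℂ) : ℝ :=
  ((∫ t in (0 : ℝ)..(Real.pi / 6), fld ε t (x t)) *
    Complex.exp (-((Real.pi / 3 : ℝ) * Complex.I))).im / Real.sin (Real.pi / 3)

noncomputable def Top (ε : ℝ) (x : ℝ → ℂ) (a : ℝ) : ℂ :=
  (rc ε x : ℂ) + ∫ t in (0 : ℝ)..a, fld ε t (x t)

lemma int_fld_le {ε : ℝ} (h0 : 0 < ε) (x : ℝ → ℂ) (a : ℝ) :
    ‖∫ t in (0 : ℝ)..a, fld ε t (x t)‖ ≤ 4 * ε := by
  refine (intervalIntegral.norm_integral_le_integral_norm_uIoc).trans ?_
  calc ∫ t in uIoc 0 a, ‖fld ε t (x t)‖ ≤ ∫ t in uIoc 0 a, ε * bump t := by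
        refine integral_mono_of_nonneg (Eventually.of_forall fun t => norm_nonneg _)
          (bump.integrable.const_mul ε).integrableOn
          (Eventually.of_forall fun t => norm_fld_le h0 t _)
    _ = ε * ∫ t in uIoc 0 a, bump t := integral_const_mul _ _
    _ ≤ ε * 4 := mul_le_mul_of_nonneg_left (bump_integral_le a) h0.le
    _ = 4 * ε := mul_comm _ _

lemma sin_pi_div_three_ge : (4 : ℝ) / 5 ≤ Real.sin (Real.pi / 3) := by
  rw [Real.sin_pi_div_three]
  have : (8 : ℝ) / 5 ≤ √3 := by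
    apply Real.le_sqrt_of_sq_le
    norm_num
  linarith

lemma norm_exp_neg_aux (t : ℝ) : ‖Complex.exp (-(t * Complex.I))‖ = 1 := by
  have : -((t : ℂ) * Complex.I) = ((-t : ℝ) : ℂ) * Complex.I := by push_cast; ring
  rw [this, Complex.norm_exp_ofReal_mul_I]

lemma pi_div_six_lt : Real.pi / 6 < 3 / 5 := by
  have := Real.pi_lt_d2; linarith

lemma pi_div_six_gt : 1 / 2 < Real.pi / 6 := by
  have := Real.pi_gt_three; linarith

lemma rc_le {ε : ℝ} (h0 : 0 < ε) (x : ℝ → ℂ) : |rc ε x| ≤ ε := by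
  unfold rc
  have hs := sin_pi_div_three_ge
  rw [abs_div, abs_of_pos (by linarith : 0 < Real.sin (Real.pi / 3)),
    div_le_iff₀ (by linarith)]
  refine (Complex.abs_im_le_norm _).trans ?_
  rw [norm_mul, norm_exp_neg_aux, mul_one]
  have : ‖∫ t in (0 : ℝ)..(Real.pi / 6), fld ε t (x t)‖ ≤ ε * |Real.pi / 6 - 0| := by
    refine intervalIntegral.norm_integral_le_of_norm_le_const fun t _ => ?_
    refine (norm_fld_le h0 t _).trans ?_
    calc ε * bump t ≤ ε * 1 := mul_le_mul_of_nonneg_left bump.le_one h0.le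
      _ = ε := mul_one ε
  refine this.trans ?_
  rw [sub_zero, abs_of_pos (by positivity)]
  have := pi_div_six_lt
  nlinarith

lemma rc_sub_le {ε : ℝ} (h0 : 0 < ε) {x y : ℝ → ℂ} (hx : Continuous x) (hy : Continuous y)
    {d : ℝ} (hd : ∀ t, ‖x t - y t‖ ≤ d) : |rc ε x - rc ε y| ≤ ε * d := by
  unfold rc
  have hs := sin_pi_div_three_ge
  have hd0 : 0 ≤ d := (norm_nonneg _).trans (hd 0)
  rw [← sub_div, abs_div, abs_of_pos (by linarith : 0 < Real.sin (Real.pi / 3)),
    div_le_iff₀ (by linarith), ← Complex.sub_im, ← sub_mul,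
    ← intervalIntegral.integral_sub ((continuous_fld_comp ε hx).intervalIntegrable _ _)
      ((continuous_fld_comp ε hy).intervalIntegrable _ _)]
  refine (Complex.abs_im_le_norm _).trans ?_
  rw [norm_mul, norm_exp_neg_aux, mul_one]
  have : ‖∫ t in (0 : ℝ)..(Real.pi / 6), (fld ε t (x t) - fld ε t (y t))‖ ≤
      (ε * d) * |Real.pi / 6 - 0| := by
    refine intervalIntegral.norm_integral_le_of_norm_le_const fun t _ => ?_
    refine (norm_fld_sub_le h0 t _ _).trans ?_
    have h1 : ε * bump t ≤ ε * 1 := mul_le_mul_of_nonneg_left bump.le_one h0.le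
    rw [mul_one] at h1
    exact mul_le_mul h1 (hd t) (norm_nonneg _) h0.le
  refine this.trans ?_
  rw [sub_zero, abs_of_pos (by positivity)]
  have := pi_div_six_lt
  have : 0 ≤ ε * d := by positivity
  nlinarith

lemma int_fld_sub_le {ε : ℝ} (h0 : 0 < ε) {x y : ℝ → ℂ} (hx : Continuous x) (hy : Continuous y)
    {d : ℝ} (hd : ∀ t, ‖x t - y t‖ ≤ d) (a : ℝ) :
    ‖(∫ t in (0 : ℝ)..a, fld ε t (x t)) - ∫ t in (0 : ℝ)..a, fld ε t (y t)‖ ≤ 4 * ε * d := by
  have hd0 : 0 ≤ d := (norm_nonneg _).trans (hd 0)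
  rw [← intervalIntegral.integral_sub ((continuous_fld_comp ε hx).intervalIntegrable _ _)
      ((continuous_fld_comp ε hy).intervalIntegrable _ _)]
  refine (intervalIntegral.norm_integral_le_integral_norm_uIoc).trans ?_
  calc ∫ t in uIoc 0 a, ‖fld ε t (x t) - fld ε t (y t)‖ ≤ ∫ t in uIoc 0 a, (ε * d) * bump t := by
        refine integral_mono_of_nonneg (Eventually.of_forall fun t => norm_nonneg _)
          (bump.integrable.const_mul (ε * d)).integrableOn
          (Eventually.of_forall fun t => ?_)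
        refine (norm_fld_sub_le h0 t _ _).trans ?_
        have h1 : 0 ≤ ε * bump t := mul_nonneg h0.le bump.nonneg
        calc ε * bump t * ‖x t - y t‖ ≤ ε * bump t * d := mul_le_mul_of_nonneg_left (hd t) h1
          _ = ε * d * bump t := by ring
    _ = (ε * d) * ∫ t in uIoc 0 a, bump t := integral_const_mul _ _
    _ ≤ (ε * d) * 4 := mul_le_mul_of_nonneg_left (bump_integral_le a) (by positivity)
    _ = 4 * ε * d := by ring

lemma Top_continuous (ε : ℝ) {x : ℝ → ℂ} (hx : Continuous x) : Continuous (Top ε x) := by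
  unfold Top
  refine continuous_const.add ?_
  have h := continuous_fld_comp ε hx
  exact continuous_iff_continuousAt.mpr fun a =>
    (h.integral_hasStrictDerivAt 0 a).hasDerivAt.continuousAt

theorem exists_fixed {ε : ℝ} (h0 : 0 < ε) (h1 : ε ≤ 1 / 100) :
    ∃ c : ℝ → ℂ, Continuous c ∧ ∀ a, c a = Top ε c a := by
  let T : BoundedContinuousFunction ℝ ℂ → BoundedContinuousFunction ℝ ℂ := fun x =>
    BoundedContinuousFunction.ofNormedAddCommGroup (Top ε x) (Top_continuous ε x.continuous)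
      (5 * ε) (by
        intro a
        unfold Top
        refine (norm_add_le _ _).trans ?_
        rw [Complex.norm_real, Real.norm_eq_abs]
        have := rc_le h0 (x : ℝ → ℂ)
        have := int_fld_le h0 (x : ℝ → ℂ) a
        linarith)
  have hT : ContractingWith (1 / 2 : NNReal) T := by
    refine ⟨by rw [← NNReal.coe_lt_coe]; norm_num, ?_⟩
    refine LipschitzWith.of_dist_le_mul fun x y => ?_
    rw [BoundedContinuousFunction.dist_le (by positivity)]
    intro a
    have hd : ∀ t, ‖x t - y t‖ ≤ dist x y := fun t => by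
      rw [← dist_eq_norm]; exact BoundedContinuousFunction.dist_coe_le_dist t
    have e1 : T x a - T y a = ((rc ε x - rc ε y : ℝ) : ℂ) +
        ((∫ t in (0 : ℝ)..a, fld ε t (x t)) - ∫ t in (0 : ℝ)..a, fld ε t (y t)) := by
      change Top ε x a - Top ε y a = _
      unfold Top
      push_cast; ring
    rw [dist_eq_norm, e1]
    refine (norm_add_le _ _).trans ?_
    rw [Complex.norm_real, Real.norm_eq_abs]
    have a1 := rc_sub_le h0 x.continuous y.continuous hd
    have a2 := int_fld_sub_le h0 x.continuous y.continuous hd a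
    have hd0 : 0 ≤ dist x y := dist_nonneg
    have : ((1 / 2 : NNReal) : ℝ) = 1 / 2 := by norm_num
    rw [this]
    nlinarith
  obtain hfix := hT.fixedPoint_isFixedPt
  set x := hT.fixedPoint T
  refine ⟨x, x.continuous, fun a => ?_⟩
  have : (T x) a = x a := by rw [hfix]
  rw [← this]
  rfl

theorem exists_arc {ε : ℝ} (h0 : 0 < ε) (h1 : ε ≤ 1 / 100) :
    ∃ c : ℝ → ℂ, ContDiff ℝ ∞ c ∧ (∀ a, HasDerivAt c (fld ε a (c a)) a) ∧
      c 0 = (rc ε c : ℂ) ∧ |rc ε c| ≤ ε ∧
      (c (Real.pi / 6) * Complex.exp (-((Real.pi / 3 : ℝ) * Complex.I))).im = 0 := by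
  obtain ⟨c, hc, hfix⟩ := exists_fixed h0 h1
  have hder : ∀ a, HasDerivAt c (fld ε a (c a)) a := by
    intro a
    have h := continuous_fld_comp ε hc
    have h2 : HasDerivAt (Top ε c) (fld ε a (c a)) a := by
      unfold Top
      exact ((h.integral_hasStrictDerivAt 0 a).hasDerivAt).const_add _
    exact h2.congr_of_eventuallyEq (Eventually.of_forall hfix)
  refine ⟨c, ?_, hder, ?_, rc_le h0 c, ?_⟩
  · have hn : ∀ n : ℕ, ContDiff ℝ n c := by
      intro n
      induction n with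
      | zero => exact contDiff_zero.mpr hc
      | succ n ih =>
        have hd : deriv c = fun a => fld ε a (c a) := funext fun a => (hder a).deriv
        rw [show ((n + 1 : ℕ) : WithTop ℕ∞) = (n : WithTop ℕ∞) + 1 by push_cast; rfl,
          contDiff_succ_iff_deriv]
        refine ⟨fun a => (hder a).differentiableAt, by simp, ?_⟩
        rw [hd]
        exact ((contDiff_fld ε).of_le (by exact_mod_cast le_top)).comp (contDiff_id.prodMk ih)
    exact contDiff_infty.mpr hn
  · rw [hfix 0]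
    unfold Top
    simp
  · have hsin : 0 < Real.sin (Real.pi / 3) := by linarith [sin_pi_div_three_ge]
    rw [hfix (Real.pi / 6)]
    unfold Top
    rw [add_mul, Complex.add_im, Complex.im_ofReal_mul]
    have e1 : (Complex.exp (-((Real.pi / 3 : ℝ) * Complex.I))).im = -Real.sin (Real.pi / 3) := by
      have : -(((Real.pi / 3 : ℝ) : ℂ) * Complex.I) = ((-(Real.pi / 3) : ℝ) : ℂ) * Complex.I := by
        push_cast; ring
      rw [this, Complex.exp_ofReal_mul_I_im, Real.sin_neg]
    rw [e1]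
    have e2 : rc ε c * Real.sin (Real.pi / 3) = ((∫ t in (0 : ℝ)..(Real.pi / 6), fld ε t (c t)) *
        Complex.exp (-((Real.pi / 3 : ℝ) * Complex.I))).im := by
      unfold rc
      rw [div_mul_cancel₀ _ hsin.ne']
    linarith

end Pool.Agent.MP_845d3b_gt
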