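import Pool.Agent.MP_845d3b_gt.Arc

open Set Filter Topology MeasureTheory
open scoped ContDiff

namespace Pool.Agent.MP_845d3b_gt

lemma ph_eq (z : ℂ) : ph z = Real.exp (-(z.re ^ 2 + z.im ^ 2) / 2) := by
  unfold ph
  congr 2
  rw [← Complex.normSq_eq_norm_sq, Complex.normSq_apply]
  ring

lemma hasDerivAt_ph_comp {c : ℝ → ℂ} {c' : ℂ} {a : ℝ} (h : HasDerivAt c c' a) :
    HasDerivAt (fun a => ph (c a)) (-(ph (c a) * ((c a).re * c'.re + (c a).im * c'.im))) a := by
  have hre : HasDerivAt (fun a => (c a).re) c'.re a :=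
    Complex.reCLM.hasFDerivAt.comp_hasDerivAt a h
  have him : HasDerivAt (fun a => (c a).im) c'.im a :=
    Complex.imCLM.hasFDerivAt.comp_hasDerivAt a h
  have h1 : HasDerivAt (fun a => -((c a).re ^ 2 + (c a).im ^ 2) / 2)
      (-((c a).re * c'.re + (c a).im * c'.im)) a := by
    refine (((hre.pow 2).add (him.pow 2)).neg.div_const 2).congr_deriv ?_
    simp
    ring
  have h2 := h1.exp
  have e : (fun a => ph (c a)) = fun a => Real.exp (-((c a).re ^ 2 + (c a).im ^ 2) / 2) :=
    funext fun a => ph_eq _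
  rw [e]
  refine h2.congr_deriv ?_
  rw [← ph_eq]
  ring

lemma hasDerivAt_expI (t : ℝ) :
    HasDerivAt (fun s : ℝ => Complex.exp (s * Complex.I))
      (Complex.exp (t * Complex.I) * Complex.I) t := by
  have h : HasDerivAt (fun s : ℝ => (s : ℂ) * Complex.I) (1 * Complex.I) t :=
    (Complex.ofRealCLM.hasDerivAt (x := t)).mul_const Complex.I
  rw [one_mul] at h
  exact h.cexp

lemma hasDerivAt_expnI (t : ℝ) :
    HasDerivAt (fun s : ℝ => Complex.exp (-(s * Complex.I)))
      (Complex.exp (-(t * Complex.I)) * (-Complex.I)) t := by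
  have h : HasDerivAt (fun s : ℝ => (s : ℂ) * Complex.I) (1 * Complex.I) t :=
    (Complex.ofRealCLM.hasDerivAt (x := t)).mul_const Complex.I
  rw [one_mul] at h
  exact h.neg.cexp

lemma exp_mul_expn (t : ℝ) :
    Complex.exp (t * Complex.I) * Complex.exp (-(t * Complex.I)) = 1 := by
  rw [← Complex.exp_add]; simp

lemma expn_eq (t : ℝ) : Complex.exp (-(t * Complex.I)) = (Real.cos t : ℂ) - Real.sin t * Complex.I := by
  have : -((t : ℂ) * Complex.I) = ((-t : ℝ) : ℂ) * Complex.I := by push_cast; ring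
  rw [this, Complex.exp_mul_I]
  push_cast
  rw [Complex.cos_neg, Complex.sin_neg]
  ring

lemma expp_eq (t : ℝ) : Complex.exp (t * Complex.I) = (Real.cos t : ℂ) + Real.sin t * Complex.I := by
  rw [Complex.exp_mul_I]
  push_cast
  rfl

/-- The data of the half arc used in the construction. -/
structure IsArc (ε : ℝ) (c : ℝ → ℂ) (r0 lam : ℝ) : Prop where
  eps_pos : 0 < ε
  eps_le : ε ≤ 1 / 100
  smooth : ContDiff ℝ ∞ c
  der : ∀ a, |a| ≤ 1 → HasDerivAt c
    (((ε * ph (c a) : ℝ) : ℂ) * (Complex.I * Complex.exp (a * Complex.I))) a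
  conj : ∀ a, c (-a) = (starRingEnd ℂ) (c a)
  endp : c (Real.pi / 6) = (r0 : ℂ) * Complex.exp ((Real.pi / 3 : ℝ) * Complex.I)
  r0_pos : 0 < r0
  r0_le : r0 ≤ ε
  lam_eq : ∀ a, |a| ≤ 1 → lam = (ε * ph (c a))⁻¹ - (c a * Complex.exp (-(a * Complex.I))).re
  hN_ge : ∀ a, |a| ≤ Real.pi / 6 → ε / 3 ≤ (c a * Complex.exp (-(a * Complex.I))).re
  xT_ge : ∀ a, |a| ≤ Real.pi / 6 →
    ε / 4 ≤ ε * ph (c a) - (c a * Complex.exp (-(a * Complex.I))).re
  re_pos : ∀ a, |a| ≤ Real.pi / 6 → 0 < (c a).re
  norm_le : ∀ a, |a| ≤ 1 → ‖c a‖ ≤ 2 * ε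

lemma sqrt3_lo : (1732 : ℝ) / 1000 ≤ √3 := by
  apply Real.le_sqrt_of_sq_le
  norm_num

lemma sqrt3_hi : √3 ≤ (1733 : ℝ) / 1000 := by
  rw [Real.sqrt_le_left (by norm_num)]
  norm_num

lemma inv_sqrt3_eq : 1 / √3 = √3 / 3 := by
  have h : √3 * √3 = 3 := Real.mul_self_sqrt (by norm_num)
  have hp : 0 < √3 := Real.sqrt_pos.mpr (by norm_num)
  field_simp
  linarith

lemma ph_ge (z : ℂ) : 1 - ‖z‖ ^ 2 / 2 ≤ ph z := by
  unfold ph
  have := Real.add_one_le_exp (-‖z‖ ^ 2 / 2)
  linarith

theorem exists_isArc {ε : ℝ} (h0 : 0 < ε) (h1 : ε ≤ 1 / 100) :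
    ∃ (c : ℝ → ℂ) (r0 lam : ℝ), IsArc ε c r0 lam := by
  obtain ⟨c, hsm, hder, hc0, hR, hend⟩ := exists_arc h0 h1
  have hb0 : 0 < Real.pi / 6 := by positivity
  have hb1 := pi_div_six_lt
  have hb2 := pi_div_six_gt
  -- derivative on the unit interval
  have hder1 : ∀ a, |a| ≤ 1 → HasDerivAt c
      (((ε * ph (c a) : ℝ) : ℂ) * (Complex.I * Complex.exp (a * Complex.I))) a := by
    intro a ha
    have := hder a
    unfold fld at this
    rwa [bump_one ha, mul_one] at this
  -- integral representation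
  have hint : ∀ a, c a = (rc ε c : ℂ) + ∫ t in (0 : ℝ)..a, fld ε t (c t) := by
    intro a
    have h := intervalIntegral.integral_eq_sub_of_hasDerivAt (a := 0) (b := a)
      (fun t _ => hder t) ((continuous_fld_comp ε hsm.continuous).intervalIntegrable _ _)
    rw [h, hc0]
    ring
  have hnorm : ∀ a, |a| ≤ 1 → ‖c a‖ ≤ 2 * ε := by
    intro a ha
    rw [hint a]
    refine (norm_add_le _ _).trans ?_
    rw [Complex.norm_real, Real.norm_eq_abs]
    have : ‖∫ t in (0 : ℝ)..a, fld ε t (c t)‖ ≤ ε * |a - 0| := by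
      refine intervalIntegral.norm_integral_le_of_norm_le_const fun t _ => ?_
      refine (norm_fld_le h0 t _).trans ?_
      calc ε * bump t ≤ ε * 1 := mul_le_mul_of_nonneg_left bump.le_one h0.le
        _ = ε := mul_one ε
    rw [sub_zero] at this
    nlinarith
  have hph : ∀ a, |a| ≤ 1 → 1 - 2 * ε ^ 2 ≤ ph (c a) := by
    intro a ha
    have h2 := ph_ge (c a)
    have h3 := hnorm a ha
    have h4 : ‖c a‖ ^ 2 ≤ (2 * ε) ^ 2 := pow_le_pow_left₀ (norm_nonneg _) h3 2
    nlinarith
  -- comparison with the Euclidean arc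
  have hcomp : ∀ a, |a| ≤ 1 → ‖(∫ t in (0 : ℝ)..a, fld ε t (c t)) -
      (ε : ℂ) * (Complex.exp (a * Complex.I) - 1)‖ ≤ 2 * ε ^ 3 := by
    intro a ha
    have h2 : ∫ t in (0 : ℝ)..a, (ε : ℂ) * (Complex.I * Complex.exp (t * Complex.I)) =
        (ε : ℂ) * (Complex.exp (a * Complex.I) - 1) := by
      have h3 : ∀ t : ℝ, HasDerivAt (fun s : ℝ => (ε : ℂ) * Complex.exp (s * Complex.I))
          ((ε : ℂ) * (Complex.I * Complex.exp (t * Complex.I))) t := fun t => by
        have := (hasDerivAt_expI t).const_mul (ε : ℂ)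
        refine this.congr_deriv (by ring)
      rw [intervalIntegral.integral_eq_sub_of_hasDerivAt (fun t _ => h3 t)
        (Continuous.intervalIntegrable (by fun_prop) _ _)]
      simp
      ring
    rw [← h2, ← intervalIntegral.integral_sub
      ((continuous_fld_comp ε hsm.continuous).intervalIntegrable _ _)
      (Continuous.intervalIntegrable (by fun_prop) _ _)]
    have : ‖∫ t in (0 : ℝ)..a, (fld ε t (c t) -
        (ε : ℂ) * (Complex.I * Complex.exp (t * Complex.I)))‖ ≤ (2 * ε ^ 3) * |a - 0| := by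
      refine intervalIntegral.norm_integral_le_of_norm_le_const fun t ht => ?_
      have ht1 : |t| ≤ 1 := by
        rcases le_total 0 a with h | h
        · rw [uIoc_of_le h] at ht
          rw [abs_of_nonneg h] at ha
          rw [abs_of_pos ht.1]; linarith [ht.2]
        · rw [uIoc_of_ge h] at ht
          rw [abs_of_nonpos h] at ha
          rw [abs_of_nonpos ht.2]; linarith [ht.1]
      have e : fld ε t (c t) - (ε : ℂ) * (Complex.I * Complex.exp (t * Complex.I)) =
          ((ε * (ph (c t) - 1) : ℝ) : ℂ) * (Complex.I * Complex.exp (t * Complex.I)) := by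
        unfold fld
        rw [bump_one ht1]
        push_cast; ring
      rw [e, norm_mul, norm_mul, Complex.norm_I, Complex.norm_exp_ofReal_mul_I, mul_one, mul_one,
        Complex.norm_real, Real.norm_eq_abs, abs_mul, abs_of_pos h0]
      have h5 := hph t ht1
      have h6 := ph_le_one (c t)
      have h7 : |ph (c t) - 1| ≤ 2 * ε ^ 2 := by rw [abs_le]; constructor <;> nlinarith
      calc ε * |ph (c t) - 1| ≤ ε * (2 * ε ^ 2) := mul_le_mul_of_nonneg_left h7 h0.le
        _ = 2 * ε ^ 3 := by ring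
    rw [sub_zero] at this
    have h8 : 0 ≤ 2 * ε ^ 3 := by positivity
    nlinarith
  have hs3 : √3 * √3 = 3 := Real.mul_self_sqrt (by norm_num)
  have hs3lo := sqrt3_lo
  have hs3hi := sqrt3_hi
  have hεb : |Real.pi / 6| ≤ 1 := by rw [abs_of_pos hb0]; linarith
  -- the constant
  have hRest : |rc ε c - ε * (1 - √3 / 3)| ≤ 2.5 * ε ^ 3 := by
    have h2 := hcomp _ hεb
    set J := ∫ t in (0 : ℝ)..(Real.pi / 6), fld ε t (c t) with hJ
    have h3 : rc ε c - ε * (1 - √3 / 3) =
        ((J - (ε : ℂ) * (Complex.exp ((Real.pi / 6 : ℝ) * Complex.I) - 1)) *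
          Complex.exp (-((Real.pi / 3 : ℝ) * Complex.I))).im / Real.sin (Real.pi / 3) := by
      have e0 : rc ε c = (J * Complex.exp (-((Real.pi / 3 : ℝ) * Complex.I))).im /
        Real.sin (Real.pi / 3) := rfl
      rw [e0, sub_mul, Complex.sub_im, sub_div]
      congr 1
      rw [expn_eq, expp_eq, Real.cos_pi_div_six, Real.sin_pi_div_six, Real.sin_pi_div_three,
        Real.cos_pi_div_three]
      simp only [Complex.mul_im, Complex.mul_re, Complex.sub_im, Complex.sub_re, Complex.add_re,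
        Complex.add_im, Complex.ofReal_re, Complex.ofReal_im, Complex.I_re, Complex.I_im,
        Complex.one_re, Complex.one_im]
      rw [eq_div_iff (by positivity)]
      nlinarith [hs3]
    rw [h3, abs_div, Real.sin_pi_div_three, abs_of_pos (by positivity : 0 < √3 / 2),
      div_le_iff₀ (by positivity)]
    refine (Complex.abs_im_le_norm _).trans ?_
    rw [norm_mul, norm_exp_neg_aux, mul_one]
    refine h2.trans ?_
    have : 0 ≤ ε ^ 3 := by positivity
    nlinarith
  have hest : ∀ a, |a| ≤ 1 → ‖c a - (ε : ℂ) * (Complex.exp (a * Complex.I) - (√3 / 3 : ℝ))‖ ≤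
      4.5 * ε ^ 3 := by
    intro a ha
    have e : c a - (ε : ℂ) * (Complex.exp (a * Complex.I) - (√3 / 3 : ℝ)) =
        ((rc ε c - ε * (1 - √3 / 3) : ℝ) : ℂ) + ((∫ t in (0 : ℝ)..a, fld ε t (c t)) -
      (ε : ℂ) * (Complex.exp (a * Complex.I) - 1)) := by
      rw [hint a]; push_cast; ring
    rw [e]
    refine (norm_add_le _ _).trans ?_
    rw [Complex.norm_real, Real.norm_eq_abs]
    have := hcomp a ha
    linarith
  have hε3 : ε ^ 3 ≤ ε / 10000 := by
    have : ε ^ 2 ≤ 1 / 10000 := by nlinarith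
    have e : ε ^ 3 = ε * ε ^ 2 := by ring
    rw [e]; nlinarith
  have hcosge : ∀ a, |a| ≤ Real.pi / 6 → √3 / 2 ≤ Real.cos a := by
    intro a ha
    rw [← Real.cos_pi_div_six, ← Real.cos_abs a]
    exact Real.cos_le_cos_of_nonneg_of_le_pi (abs_nonneg a) (by linarith [Real.pi_pos]) ha
  have hb1' : ∀ a, |a| ≤ Real.pi / 6 → |a| ≤ 1 := fun a ha => by linarith
  -- the rotated estimate
  have hrot : ∀ a, |a| ≤ 1 → ‖c a * Complex.exp (-(a * Complex.I)) -
      (ε : ℂ) * (1 - (√3 / 3 : ℝ) * Complex.exp (-(a * Complex.I)))‖ ≤ 4.5 * ε ^ 3 := by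
    intro a ha
    have e : c a * Complex.exp (-(a * Complex.I)) -
      (ε : ℂ) * (1 - (√3 / 3 : ℝ) * Complex.exp (-(a * Complex.I))) =
      (c a - (ε : ℂ) * (Complex.exp (a * Complex.I) - (√3 / 3 : ℝ))) *
        Complex.exp (-(a * Complex.I)) := by
      have := exp_mul_expn a
      linear_combination (ε : ℂ) * this
    rw [e, norm_mul, norm_exp_neg_aux, mul_one]
    exact hest a ha
  have hrotre : ∀ a, |a| ≤ 1 → |(c a * Complex.exp (-(a * Complex.I))).re -
      ε * (1 - √3 / 3 * Real.cos a)| ≤ 4.5 * ε ^ 3 := by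
    intro a ha
    have h2 := (Complex.abs_re_le_norm _).trans (hrot a ha)
    have e : (c a * Complex.exp (-(a * Complex.I)) -
      (ε : ℂ) * (1 - (√3 / 3 : ℝ) * Complex.exp (-(a * Complex.I)))).re =
      (c a * Complex.exp (-(a * Complex.I))).re - ε * (1 - √3 / 3 * Real.cos a) := by
      rw [Complex.sub_re]
      congr 1
      rw [expn_eq]
      simp only [Complex.mul_im, Complex.mul_re, Complex.sub_im, Complex.sub_re, Complex.add_re,
          Complex.add_im, Complex.ofReal_re, Complex.ofReal_im, Complex.I_re, Complex.I_im,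
          Complex.one_re, Complex.one_im]
      ring
    rwa [e] at h2
  set w := c (Real.pi / 6) * Complex.exp (-((Real.pi / 3 : ℝ) * Complex.I)) with hw
  have hwest : |w.re - ε * (√3 / 3)| ≤ 4.5 * ε ^ 3 := by
    have h2 := hest _ hεb
    have e : w - (ε : ℂ) * (√3 / 3 : ℝ) =
        (c (Real.pi / 6) - (ε : ℂ) * (Complex.exp ((Real.pi / 6 : ℝ) * Complex.I) - (√3 / 3 : ℝ))) *
        Complex.exp (-((Real.pi / 3 : ℝ) * Complex.I)) +
        (ε : ℂ) * ((Complex.exp ((Real.pi / 6 : ℝ) * Complex.I) - (√3 / 3 : ℝ)) *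
        Complex.exp (-((Real.pi / 3 : ℝ) * Complex.I)) - (√3 / 3 : ℝ)) := by
      rw [hw]; ring
    have e2 : ((Complex.exp ((Real.pi / 6 : ℝ) * Complex.I) - (√3 / 3 : ℝ)) *
        Complex.exp (-((Real.pi / 3 : ℝ) * Complex.I)) - (√3 / 3 : ℝ)) = 0 := by
      rw [expn_eq, expp_eq, Real.cos_pi_div_six, Real.sin_pi_div_six, Real.sin_pi_div_three,
        Real.cos_pi_div_three]
      apply Complex.ext
      · simp only [Complex.mul_im, Complex.mul_re, Complex.sub_im, Complex.sub_re, Complex.add_re,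
          Complex.add_im, Complex.ofReal_re, Complex.ofReal_im, Complex.I_re, Complex.I_im,
          Complex.zero_re]
        ring
      · simp only [Complex.mul_im, Complex.mul_re, Complex.sub_im, Complex.sub_re, Complex.add_re,
          Complex.add_im, Complex.ofReal_re, Complex.ofReal_im, Complex.I_re, Complex.I_im,
          Complex.zero_im]
        nlinarith [hs3]
    rw [e2, mul_zero, add_zero] at e
    have e3 : w.re - ε * (√3 / 3) = (w - (ε : ℂ) * (√3 / 3 : ℝ)).re := by
      simp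
    rw [e3, e]
    refine (Complex.abs_re_le_norm _).trans ?_
    rw [norm_mul, norm_exp_neg_aux, mul_one]
    exact h2
  obtain ⟨hw1, hw2⟩ := abs_le.mp hwest
  refine ⟨c, w.re, (ε * ph (c 0))⁻¹ - (c 0 * Complex.exp (-((0 : ℝ) * Complex.I))).re, ?_⟩
  refine ⟨h0, h1, hsm, hder1, ?_, ?_, ?_, ?_, ?_, ?_, ?_, ?_, hnorm⟩
  · -- symmetry
    have hg : ∀ t, HasDerivAt (fun t => (starRingEnd ℂ) (c (-t)))
        (fld ε t ((starRingEnd ℂ) (c (-t)))) t := by
      intro t
      have h2 : HasDerivAt (fun t => c (-t)) (-(fld ε (-t) (c (-t)))) t := by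
        have := (hder (-t)).scomp t (hasDerivAt_neg t)
        refine this.congr_deriv ?_
        simp
      have h3 : HasDerivAt (fun t => (starRingEnd ℂ) (c (-t)))
          ((starRingEnd ℂ) (-(fld ε (-t) (c (-t))))) t :=
        ((Complex.conjCLE : ℂ ≃L[ℝ] ℂ) : ℂ →L[ℝ] ℂ).hasFDerivAt.comp_hasDerivAt t h2
      refine h3.congr_deriv ?_
      unfold fld
      rw [bump_neg]
      have e1 : ph ((starRingEnd ℂ) (c (-t))) = ph (c (-t)) := by
        unfold ph; rw [Complex.norm_conj]
      have e2 : (starRingEnd ℂ) (Complex.exp (((-t : ℝ) : ℂ) * Complex.I)) =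
          Complex.exp (t * Complex.I) := by
        rw [← Complex.exp_conj]
        congr 1
        simp
      rw [e1, map_neg, map_mul, map_mul, e2, Complex.conj_I, Complex.conj_ofReal]
      ring
    have hlip : ∀ t, LipschitzOnWith (Real.toNNReal ε) (fld ε t) univ := by
      intro t
      refine LipschitzOnWith.of_dist_le_mul fun x _ y _ => ?_
      rw [dist_eq_norm, dist_eq_norm, Real.coe_toNNReal _ h0.le]
      refine (norm_fld_sub_le h0 t x y).trans ?_
      have : ε * bump t ≤ ε := by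
        calc ε * bump t ≤ ε * 1 := mul_le_mul_of_nonneg_left bump.le_one h0.le
          _ = ε := mul_one ε
      exact mul_le_mul_of_nonneg_right this (norm_nonneg _)
    have heq := ODE_solution_unique_univ (v := fld ε) (s := fun _ => univ) (t₀ := 0) hlip
      (fun t => ⟨hder t, mem_univ _⟩) (fun t => ⟨hg t, mem_univ _⟩)
      (by rw [neg_zero, hc0, Complex.conj_ofReal])
    intro a
    have := congrFun heq (-a)
    simpa using this
  · -- end point
    have e : w = (w.re : ℂ) := by
      apply Complex.ext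
      · simp
      · simp only [Complex.ofReal_im]; exact hend
    rw [← e, hw, mul_assoc, mul_comm (Complex.exp _), exp_mul_expn, mul_one]
  · nlinarith
  · nlinarith
  · -- constancy of the multiplier
    intro a ha
    have hw' : ∀ t, |t| ≤ 1 → HasDerivAt (fun t : ℝ => c t * Complex.exp (-(t * Complex.I)))
        (((ε * ph (c t) : ℝ) : ℂ) * Complex.I - Complex.I *
          (c t * Complex.exp (-(t * Complex.I)))) t := by
      intro t ht
      refine ((hder1 t ht).mul (hasDerivAt_expnI t)).congr_deriv ?_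
      have := exp_mul_expn t
      linear_combination (((ε * ph (c t) : ℝ) : ℂ) * Complex.I) * this
    have hq' : ∀ t, |t| ≤ 1 → HasDerivAt (fun t : ℝ => (ε * ph (c t))⁻¹)
        (c t * Complex.exp (-(t * Complex.I))).im t := by
      intro t ht
      have h2 := (hasDerivAt_ph_comp (hder1 t ht)).const_mul ε
      have hne : ε * ph (c t) ≠ 0 := (mul_pos h0 (ph_pos _)).ne'
      refine (h2.inv hne).congr_deriv ?_
      rw [expn_eq, expp_eq]
      simp only [Complex.mul_im, Complex.mul_re, Complex.sub_im, Complex.sub_re, Complex.add_re,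
          Complex.add_im, Complex.ofReal_re, Complex.ofReal_im, Complex.I_re, Complex.I_im]
      have hp := (ph_pos (c t)).ne'
      have he := h0.ne'
      field_simp
      ring
    have hg : ∀ t, |t| ≤ 1 → HasDerivAt (fun t : ℝ => (ε * ph (c t))⁻¹ -
        (c t * Complex.exp (-(t * Complex.I))).re) 0 t := by
      intro t ht
      have h2 : HasDerivAt (fun t : ℝ => (c t * Complex.exp (-(t * Complex.I))).re)
          (((ε * ph (c t) : ℝ) : ℂ) * Complex.I - Complex.I *
          (c t * Complex.exp (-(t * Complex.I)))).re t :=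
        Complex.reCLM.hasFDerivAt.comp_hasDerivAt t (hw' t ht)
      refine ((hq' t ht).sub h2).congr_deriv ?_
      simp
    have hconst := (convex_Icc (-1 : ℝ) 1).norm_image_sub_le_of_norm_hasDerivWithin_le (C := 0)
      (f := fun t : ℝ => (ε * ph (c t))⁻¹ - (c t * Complex.exp (-(t * Complex.I))).re)
      (fun t ht => (hg t (abs_le.mpr ht)).hasDerivWithinAt) (fun t _ => by simp)
      (x := a) (y := 0) (abs_le.mp ha) (by constructor <;> norm_num)
    rw [zero_mul, norm_le_zero_iff, sub_eq_zero] at hconst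
    exact hconst
  · intro a ha
    have h2 := (abs_le.mp (hrotre a (hb1' a ha))).1
    have h3 := Real.cos_le_one a
    have h4 : √3 / 3 * Real.cos a ≤ √3 / 3 := by
      have : 0 ≤ √3 / 3 := by positivity
      nlinarith
    nlinarith
  · intro a ha
    have h2 := (abs_le.mp (hrotre a (hb1' a ha))).2
    have h3 := hcosge a ha
    have h4 : 1 / 2 ≤ √3 / 3 * Real.cos a := by
      have : 0 ≤ √3 / 3 := by positivity
      nlinarith
    have h5 := hph a (hb1' a ha)
    have h6 : ε * (1 - 2 * ε ^ 2) ≤ ε * ph (c a) := mul_le_mul_of_nonneg_left h5 h0.le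
    have h7 : ε * (1 - √3 / 3 * Real.cos a) ≤ ε * (1 / 2) :=
      mul_le_mul_of_nonneg_left (by linarith) h0.le
    have e3 : ε * (1 - 2 * ε ^ 2) = ε - 2 * ε ^ 3 := by ring
    linarith
  · intro a ha
    have h2 := (Complex.abs_re_le_norm _).trans (hest a (hb1' a ha))
    have e : (c a - (ε : ℂ) * (Complex.exp (a * Complex.I) - (√3 / 3 : ℝ))).re =
        (c a).re - ε * (Real.cos a - √3 / 3) := by
      rw [expp_eq]
      simp only [Complex.mul_im, Complex.mul_re, Complex.sub_im, Complex.sub_re, Complex.add_re,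
          Complex.add_im, Complex.ofReal_re, Complex.ofReal_im, Complex.I_re, Complex.I_im,
          Complex.one_re, Complex.one_im]
      ring
    rw [e] at h2
    have h3 := (abs_le.mp h2).1
    have h4 := hcosge a ha
    nlinarith

end Pool.Agent.MP_845d3b_gt
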