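import Pool.Agent.MP_845d3b_gt.OneDim

open Set Filter Topology MeasureTheory

namespace Pool.Agent.MP_845d3b_gt

/-- Sharp inequality for odd functions via the rotation field. -/
lemma odd_rot {b : ℝ} (hb : 0 < b) (hb1 : b ≤ 1) {q u n o o' : ℝ → ℝ}
    (hq : ∀ x, |x| ≤ 1 → HasDerivAt q (-(q x ^ 2 * u x)) x)
    (hu : ∀ x, |x| ≤ 1 → HasDerivAt u (q x - n x) x)
    (hn : ∀ x, |x| ≤ 1 → HasDerivAt n (u x) x) (hu0 : u 0 = 0)
    (hpos : ∀ x ∈ Icc 0 b, 0 < q x - n x)
    (ho : ∀ x, HasDerivAt o (o' x) x) (hco : Continuous o') (ho0 : o 0 = 0) :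
    (q b - n b) / u b * o b ^ 2 ≤ ∫ x in (0 : ℝ)..b, (o' x ^ 2 - (1 + q x ^ 2) * o x ^ 2) := by
  have habs : ∀ x ∈ Icc 0 b, |x| ≤ 1 := fun x hx => by
    rw [abs_of_nonneg hx.1]; linarith [hx.2]
  have hcu : ContinuousOn u (Icc 0 b) := fun x hx =>
    (hu x (habs x hx)).continuousAt.continuousWithinAt
  have hcq : ContinuousOn q (Icc 0 b) := fun x hx =>
    (hq x (habs x hx)).continuousAt.continuousWithinAt
  have hcn : ContinuousOn n (Icc 0 b) := fun x hx =>
    (hn x (habs x hx)).continuousAt.continuousWithinAt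
  have hoc : Continuous o := continuous_iff_continuousAt.mpr fun x => (ho x).continuousAt
  have hmono : StrictMonoOn u (Icc 0 b) := by
    refine strictMonoOn_of_deriv_pos (convex_Icc 0 b) hcu fun x hx => ?_
    rw [interior_Icc] at hx
    have hx' : x ∈ Icc 0 b := ⟨hx.1.le, hx.2.le⟩
    rw [(hu x (habs x hx')).deriv]
    exact hpos x hx'
  have hupos : ∀ x ∈ Ioc 0 b, 0 < u x := fun x hx => by
    rw [← hu0]
    exact hmono ⟨le_rfl, hb.le⟩ ⟨hx.1.le, hx.2⟩ hx.1
  have hcI : ContinuousOn (fun x => o' x ^ 2 - (1 + q x ^ 2) * o x ^ 2) (Icc 0 b) :=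
    ((hco.pow 2).continuousOn).sub
      ((continuousOn_const.add (hcq.pow 2)).mul (hoc.pow 2).continuousOn)
  -- inequality on [d, b]
  have hstep : ∀ d ∈ Ioc 0 b, (q b - n b) / u b * o b ^ 2 - (q d - n d) / u d * o d ^ 2 ≤
      ∫ x in d..b, (o' x ^ 2 - (1 + q x ^ 2) * o x ^ 2) := by
    intro d hd
    have hsub : Icc d b ⊆ Icc 0 b := Icc_subset_Icc_left hd.1.le
    have hup : ∀ x ∈ Icc d b, 0 < u x := fun x hx => hupos x ⟨lt_of_lt_of_le hd.1 hx.1, hx.2⟩
    have := picone hd.2 (v := o) (v' := o') (P := fun x => (q x - n x) / u x)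
      (P' := fun x => ((-(q x ^ 2 * u x) - u x) * u x - (q x - n x) * (q x - n x)) / u x ^ 2)
      (p := fun _ => 1) (V := fun x => 1 + q x ^ 2) (fun x _ => ho x)
      (fun x hx => ((hq x (habs x (hsub hx))).sub (hn x (habs x (hsub hx)))).div
        (hu x (habs x (hsub hx))) (hup x hx).ne')
      hco.continuousOn (by
        refine ContinuousOn.div ?_ ?_ ?_
        · have c1 := hcq.mono hsub
          have c2 := hcu.mono hsub
          have c3 := hcn.mono hsub
          exact ((((c1.pow 2).mul c2).neg.sub c2).mul c2).sub ((c1.sub c3).mul (c1.sub c3))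
        · exact (hcu.mono hsub).pow 2
        · intro x hx; exact pow_ne_zero 2 (hup x hx).ne')
      (fun _ _ => one_pos) continuousOn_const (continuousOn_const.add ((hcq.mono hsub).pow 2))
      (by
        intro x hx
        have h1 := (hup x hx).ne'
        have : ((-(q x ^ 2 * u x) - u x) * u x - (q x - n x) * (q x - n x)) / u x ^ 2 +
            ((q x - n x) / u x) ^ 2 / 1 = -(1 + q x ^ 2) := by
          field_simp
          ring
        rw [this])
    simpa using this
  -- limits as d tends to zero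
  have hlim1 : Tendsto (fun d => ∫ x in d..b, (o' x ^ 2 - (1 + q x ^ 2) * o x ^ 2)) (𝓝[>] 0)
      (𝓝 (∫ x in (0 : ℝ)..b, (o' x ^ 2 - (1 + q x ^ 2) * o x ^ 2))) := by
    have hII : IntervalIntegrable (fun x => o' x ^ 2 - (1 + q x ^ 2) * o x ^ 2) volume 0 b :=
      hcI.intervalIntegrable_of_Icc hb.le
    have hc : ContinuousOn (fun d => ∫ x in (0:ℝ)..d, (o' x ^ 2 - (1 + q x ^ 2) * o x ^ 2))
        (Icc 0 b) := by
      have := intervalIntegral.continuousOn_primitive_interval
        (f := fun x => o' x ^ 2 - (1 + q x ^ 2) * o x ^ 2) (μ := volume) (a := 0) (b := b)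
        (by
          rw [uIcc_of_le hb.le]
          exact hcI.integrableOn_Icc)
      rwa [uIcc_of_le hb.le] at this
    have h0 : Tendsto (fun d => ∫ x in (0:ℝ)..d, (o' x ^ 2 - (1 + q x ^ 2) * o x ^ 2)) (𝓝[>] 0)
        (𝓝 0) := by
      have h1 := hc 0 ⟨le_rfl, hb.le⟩
      have h2 : ContinuousWithinAt (fun d => ∫ x in (0:ℝ)..d,
          (o' x ^ 2 - (1 + q x ^ 2) * o x ^ 2)) (Ioo 0 b) 0 := h1.mono Ioo_subset_Icc_self
      have h3 := h2.tendsto
      rw [intervalIntegral.integral_same, nhdsWithin_Ioo_eq_nhdsGT hb] at h3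
      exact h3
    have h4 : Tendsto (fun d => (∫ x in (0 : ℝ)..b, (o' x ^ 2 - (1 + q x ^ 2) * o x ^ 2)) -
        ∫ x in (0:ℝ)..d, (o' x ^ 2 - (1 + q x ^ 2) * o x ^ 2)) (𝓝[>] 0)
      (𝓝 ((∫ x in (0 : ℝ)..b, (o' x ^ 2 - (1 + q x ^ 2) * o x ^ 2)) - 0)) :=
      tendsto_const_nhds.sub h0
    rw [sub_zero] at h4
    refine h4.congr' ?_
    filter_upwards [Ioc_mem_nhdsGT hb] with d hd
    have hi1 : IntervalIntegrable (fun x => o' x ^ 2 - (1 + q x ^ 2) * o x ^ 2) volume 0 d :=
      (hcI.mono (Icc_subset_Icc_right hd.2)).intervalIntegrable_of_Icc hd.1.le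
    rw [intervalIntegral.integral_interval_sub_left hII hi1]
  have hlim2 : Tendsto (fun d => (q d - n d) / u d * o d ^ 2) (𝓝[>] 0) (𝓝 0) := by
    have h0abs : |(0 : ℝ)| ≤ 1 := by simp
    have t1 : Tendsto (fun d => d⁻¹ • (o (0 + d) - o 0)) (𝓝[>] 0) (𝓝 (o' 0)) :=
      ((ho 0).tendsto_slope_zero).mono_left (nhdsWithin_mono _ (fun x hx => ne_of_gt hx))
    have t2 : Tendsto (fun d => d⁻¹ • (u (0 + d) - u 0)) (𝓝[>] 0) (𝓝 (q 0 - n 0)) :=
      ((hu 0 h0abs).tendsto_slope_zero).mono_left (nhdsWithin_mono _ (fun x hx => ne_of_gt hx))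
    have t3 : Tendsto (fun d => q d - n d) (𝓝[>] 0) (𝓝 (q 0 - n 0)) :=
      (((hq 0 h0abs).sub (hn 0 h0abs)).continuousAt.tendsto).mono_left nhdsWithin_le_nhds
    have t4 : Tendsto (fun d : ℝ => d) (𝓝[>] 0) (𝓝 0) := tendsto_id.mono_left nhdsWithin_le_nhds
    have hne : q 0 - n 0 ≠ 0 := (hpos 0 ⟨le_rfl, hb.le⟩).ne'
    have t5 := (((t1.pow 2).mul t4).mul t3).div t2 hne
    have e : (o' 0) ^ 2 * 0 * (q 0 - n 0) / (q 0 - n 0) = 0 := by simp
    rw [e] at t5
    refine t5.congr' ?_
    filter_upwards [Ioc_mem_nhdsGT hb] with d hd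
    have hd0 : d ≠ 0 := hd.1.ne'
    have hud : u d ≠ 0 := (hupos d hd).ne'
    simp only [Pi.div_apply, smul_eq_mul, zero_add, ho0, hu0, sub_zero]
    field_simp
  have hlim3 : Tendsto (fun d => (q b - n b) / u b * o b ^ 2 - (q d - n d) / u d * o d ^ 2)
      (𝓝[>] 0) (𝓝 ((q b - n b) / u b * o b ^ 2 - 0)) := tendsto_const_nhds.sub hlim2
  rw [sub_zero] at hlim3
  refine le_of_tendsto_of_tendsto hlim3 hlim1 ?_
  filter_upwards [Ioc_mem_nhdsGT hb] with d hd
  exact hstep d hd

/-- Inequality for even functions with zero weighted mean. -/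
lemma even_mean {b ε : ℝ} (hb : 0 < b) (hb1 : b ≤ 3 / 5) (hε : 0 < ε) (hε1 : ε ≤ 1 / 100)
    {q w e e' : ℝ → ℝ} (hqc : ContinuousOn q (Icc 0 b)) (hq : ∀ x ∈ Icc 0 b, q x ^ 2 ≤ ε ^ 2)
    (hwc : ContinuousOn w (Icc 0 b)) (hw : ∀ x ∈ Icc 0 b, 0 < w x)
    (he : ∀ x, HasDerivAt e (e' x) x) (hce : Continuous e')
    (hmean : ∫ x in (0 : ℝ)..b, w x * e x = 0) :
    1 / √3 * e b ^ 2 ≤ ∫ x in (0 : ℝ)..b, (e' x ^ 2 - (1 + q x ^ 2) * e x ^ 2) := by
  have hec : Continuous e := continuous_iff_continuousAt.mpr fun x => (he x).continuousAt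
  -- a zero of `e`
  obtain ⟨z, hz, hez⟩ : ∃ z ∈ Icc 0 b, e z = 0 := by
    by_contra hcon
    push Not at hcon
    have hsign : (∀ x ∈ Icc 0 b, 0 < e x) ∨ (∀ x ∈ Icc 0 b, e x < 0) := by
      rcases lt_or_gt_of_ne (hcon 0 ⟨le_rfl, hb.le⟩) with h | h
      · right
        intro x hx
        by_contra hx2
        push Not at hx2
        obtain ⟨y, hy, hy2⟩ := intermediate_value_Icc hx.1 hec.continuousOn ⟨h.le, hx2⟩
        exact hcon y ⟨hy.1, hy.2.trans hx.2⟩ hy2
      · left
        intro x hx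
        by_contra hx2
        push Not at hx2
        obtain ⟨y, hy, hy2⟩ := intermediate_value_Icc' hx.1 hec.continuousOn ⟨hx2, h.le⟩
        exact hcon y ⟨hy.1, hy.2.trans hx.2⟩ hy2
    have hcw : ContinuousOn (fun x => w x * e x) (Icc 0 b) := hwc.mul hec.continuousOn
    rcases hsign with h | h
    · have : 0 < ∫ x in (0 : ℝ)..b, w x * e x := by
        refine intervalIntegral.intervalIntegral_pos_of_pos_on
          (hcw.intervalIntegrable_of_Icc hb.le) (fun x hx => ?_) hb
        exact mul_pos (hw x ⟨hx.1.le, hx.2.le⟩) (h x ⟨hx.1.le, hx.2.le⟩)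
      linarith
    · have : 0 < ∫ x in (0 : ℝ)..b, -(w x * e x) := by
        refine intervalIntegral.intervalIntegral_pos_of_pos_on
          (hcw.neg.intervalIntegrable_of_Icc hb.le) (fun x hx => ?_) hb
        have := mul_neg_of_pos_of_neg (hw x ⟨hx.1.le, hx.2.le⟩) (h x ⟨hx.1.le, hx.2.le⟩)
        linarith
      rw [intervalIntegral.integral_neg] at this
      linarith
  set S := ∫ x in (0 : ℝ)..b, e' x ^ 2 with hS
  have hS0 : 0 ≤ S := intervalIntegral.integral_nonneg hb.le fun x _ => sq_nonneg _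
  -- pointwise bound
  have hpt : ∀ x ∈ Icc 0 b, e x ^ 2 ≤ b * S := by
    intro x hx
    have h1 : e x = ∫ t in z..x, e' t := by
      rw [intervalIntegral.integral_eq_sub_of_hasDerivAt (fun t _ => he t)
        (hce.intervalIntegrable _ _), hez, sub_zero]
    -- Cauchy Schwarz by a square trick
    have hcs : ∀ {s t : ℝ}, s ∈ Icc 0 b → t ∈ Icc 0 b → s ≤ t →
        (∫ y in s..t, e' y) ^ 2 ≤ b * S := by
      intro s t hs ht hst
      set I := ∫ y in s..t, e' y with hI
      have hle : ∫ y in s..t, e' y ^ 2 ≤ S := by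
        have h2 : S = (∫ y in (0 : ℝ)..s, e' y ^ 2) + (∫ y in s..t, e' y ^ 2) +
            ∫ y in t..b, e' y ^ 2 := by
          rw [intervalIntegral.integral_add_adjacent_intervals
            (Continuous.intervalIntegrable (by fun_prop) _ _)
            (Continuous.intervalIntegrable (by fun_prop) _ _),
            intervalIntegral.integral_add_adjacent_intervals
            (Continuous.intervalIntegrable (by fun_prop) _ _)
            (Continuous.intervalIntegrable (by fun_prop) _ _)]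
        have h3 : 0 ≤ ∫ y in (0 : ℝ)..s, e' y ^ 2 :=
          intervalIntegral.integral_nonneg hs.1 fun x _ => sq_nonneg _
        have h4 : 0 ≤ ∫ y in t..b, e' y ^ 2 :=
          intervalIntegral.integral_nonneg ht.2 fun x _ => sq_nonneg _
        linarith
      rcases eq_or_lt_of_le hst with h | h
      · have : I = 0 := by rw [hI, h, intervalIntegral.integral_same]
        rw [this]
        have : 0 ≤ b * S := by positivity
        simpa using this
      · have hl : 0 < t - s := by linarith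
        have h5 : 0 ≤ ∫ y in s..t, (e' y - I / (t - s)) ^ 2 :=
          intervalIntegral.integral_nonneg hst fun x _ => sq_nonneg _
        have h6 : ∫ y in s..t, (e' y - I / (t - s)) ^ 2 =
            (∫ y in s..t, e' y ^ 2) - I ^ 2 / (t - s) := by
          have e1 : (fun y => (e' y - I / (t - s)) ^ 2) = fun y =>
              e' y ^ 2 - (2 * (I / (t - s))) * e' y + (I / (t - s)) ^ 2 := by
            funext y; ring
          rw [e1, intervalIntegral.integral_add (Continuous.intervalIntegrable (by fun_prop) _ _)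
            (Continuous.intervalIntegrable (by fun_prop) _ _), intervalIntegral.integral_sub
            (Continuous.intervalIntegrable (by fun_prop) _ _)
            (Continuous.intervalIntegrable (by fun_prop) _ _),
            intervalIntegral.integral_const_mul, intervalIntegral.integral_const, ← hI, smul_eq_mul]
          field_simp
          ring
        rw [h6] at h5
        have h7 : I ^ 2 / (t - s) ≤ S := by linarith
        rw [div_le_iff₀ hl] at h7
        have h8 : t - s ≤ b := by linarith [hs.1, ht.2]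
        nlinarith
    rcases le_total z x with h | h
    · rw [h1]; exact hcs hz hx h
    · rw [h1, intervalIntegral.integral_symm, neg_sq]; exact hcs hx hz h
  have hcI : ContinuousOn (fun x => (1 + q x ^ 2) * e x ^ 2) (Icc 0 b) :=
    (continuousOn_const.add (hqc.pow 2)).mul (hec.pow 2).continuousOn
  rw [intervalIntegral.integral_sub (Continuous.intervalIntegrable (by fun_prop) _ _)
    (hcI.intervalIntegrable_of_Icc hb.le), ← hS]
  have h9 : ∫ x in (0 : ℝ)..b, (1 + q x ^ 2) * e x ^ 2 ≤ ∫ x in (0 : ℝ)..b, (1 + ε ^ 2) * (b * S) := by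
    refine intervalIntegral.integral_mono_on hb.le (hcI.intervalIntegrable_of_Icc hb.le)
      (by simp) fun x hx => ?_
    exact mul_le_mul (by linarith [hq x hx]) (hpt x hx) (sq_nonneg _) (by positivity)
  rw [intervalIntegral.integral_const, smul_eq_mul, sub_zero] at h9
  have h10 := hpt b ⟨hb.le, le_rfl⟩
  have h11 : 1 / √3 ≤ 6 / 10 := by
    have h12 : (1732 : ℝ) / 1000 ≤ √3 := by
      apply Real.le_sqrt_of_sq_le
      norm_num
    rw [div_le_iff₀ (by linarith)]
    nlinarith
  have h13 : 1 / √3 * e b ^ 2 ≤ 6 / 10 * (b * S) :=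
    mul_le_mul h11 h10 (sq_nonneg _) (by norm_num)
  have h14 : b * ((1 + ε ^ 2) * (b * S)) ≤ (61 / 100) * (b * S) := by
    have h15 : b * (1 + ε ^ 2) ≤ 61 / 100 := by nlinarith
    have h16 : 0 ≤ b * S := by positivity
    nlinarith
  have h17 : b * S ≤ 3 / 5 * S := mul_le_mul_of_nonneg_right hb1 hS0
  nlinarith

end Pool.Agent.MP_845d3b_gt
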