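import Pool.Agent.MP_845d3b_gt.Ident

open Set Filter Topology MeasureTheory
open scoped ContDiff

namespace Pool.Agent.MP_845d3b_gt

lemma dot_mul {N : ℂ} (h : dot N N = 1) (z w : ℂ) : dot (N * z) (N * w) = dot z w := by
  unfold dot at *
  simp only [Complex.mul_re, Complex.mul_im]
  linear_combination (z.re * w.re + z.im * w.im) * h

lemma wedge_mul {N : ℂ} (h : dot N N = 1) (z w : ℂ) : wedge (N * z) (N * w) = wedge z w := by
  unfold dot at h
  unfold wedge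
  simp only [Complex.mul_re, Complex.mul_im]
  linear_combination (z.re * w.im - z.im * w.re) * h

lemma dot_self_eq (z : ℂ) : dot z z = ‖z‖ ^ 2 := by
  rw [← Complex.normSq_eq_norm_sq, Complex.normSq_apply]; rfl

lemma mul_conj_one {N : ℂ} (h : ‖N‖ = 1) : N * (starRingEnd ℂ) N = 1 := by
  rw [Complex.mul_conj, Complex.normSq_eq_norm_sq, h]; norm_num

lemma ph_mul {N : ℂ} (h : ‖N‖ = 1) (z : ℂ) : ph (N * z) = ph z := by
  unfold ph; rw [norm_mul, h, one_mul]

/-- The moving frame along the arc. -/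
noncomputable def fr (om : ℂ) (s : ℝ) : ℂ := (starRingEnd ℂ) om * Complex.exp (-(s * Complex.I))

/-- frame components -/
noncomputable def fc (Y : ℝ × ℝ → ℂ) (om : ℂ) (s : ℝ) : ℂ := Y (0, s) * fr om s

noncomputable def fc' (Y : ℝ × ℝ → ℂ) (om : ℂ) (s : ℝ) : ℂ :=
  ds Y (0, s) * fr om s - Complex.I * fc Y om s

lemma hasDerivAt_fr (om : ℂ) (s : ℝ) : HasDerivAt (fr om) (fr om s * (-Complex.I)) s := by
  refine ((hasDerivAt_expnI s).const_mul ((starRingEnd ℂ) om)).congr_deriv ?_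
  unfold fr; ring

lemma hasDerivAt_fc {Y : ℝ × ℝ → ℂ} (h : ContDiff ℝ ∞ Y) (om : ℂ) (s : ℝ) :
    HasDerivAt (fc Y om) (fc' Y om s) s := by
  refine ((hasDerivAt_ds h 0 s).mul (hasDerivAt_fr om s)).congr_deriv ?_
  unfold fc' fc; ring

lemma continuous_fr (om : ℂ) : Continuous (fr om) :=
  continuous_iff_continuousAt.mpr fun s => (hasDerivAt_fr om s).continuousAt

lemma continuous_fc {Y : ℝ × ℝ → ℂ} (h : Continuous Y) (om : ℂ) : Continuous (fc Y om) :=
  (h.comp (by fun_prop)).mul (continuous_fr om)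

lemma continuous_fc' {Y : ℝ × ℝ → ℂ} (h : ContDiff ℝ ∞ Y) (om : ℂ) : Continuous (fc' Y om) :=
  (((contDiff_ds h).continuous.comp (by fun_prop)).mul (continuous_fr om)).sub
    (continuous_const.mul (continuous_fc h.continuous om))

/-- the unit normal -/
noncomputable def nv (om : ℂ) (s : ℝ) : ℂ := om * Complex.exp (s * Complex.I)

lemma norm_nv {om : ℂ} (h : ‖om‖ = 1) (s : ℝ) : ‖nv om s‖ = 1 := by
  unfold nv; rw [norm_mul, h, Complex.norm_exp_ofReal_mul_I, mul_one]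

lemma dot_nv {om : ℂ} (h : ‖om‖ = 1) (s : ℝ) : dot (nv om s) (nv om s) = 1 := by
  rw [dot_self_eq, norm_nv h]; norm_num

lemma nv_mul_fr {om : ℂ} (h : ‖om‖ = 1) (s : ℝ) : nv om s * fr om s = 1 := by
  unfold nv fr
  have h1 := mul_conj_one h
  have h2 := exp_mul_expn s
  linear_combination h1 * Complex.exp (s * Complex.I) * Complex.exp (-(s * Complex.I)) + h2

/-- Everything at time zero, along an arc, in the frame. -/
structure ArcAt (ε : ℝ) (c : ℝ → ℂ) (om : ℂ) (Φ : ℝ × ℝ → ℂ) (s : ℝ) : Prop where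
  pos : Φ (0, s) = nv om s * wv c s
  vel : ds Φ (0, s) = nv om s * (Complex.I * (ε * ph (c s) : ℝ))
  nvel : ‖ds Φ (0, s)‖ = ε * ph (c s)
  phv : ph (Φ (0, s)) = ph (c s)
  xi : dt Φ (0, s) = nv om s * fc (dt Φ) om s
  eta : dt (ds Φ) (0, s) = nv om s * (fc' (dt Φ) om s + Complex.I * fc (dt Φ) om s)
  zeta : dt (dt Φ) (0, s) = nv om s * fc (dt (dt Φ)) om s
  theta : dt (dt (ds Φ)) (0, s) =
    nv om s * (fc' (dt (dt Φ)) om s + Complex.I * fc (dt (dt Φ)) om s)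

lemma arcAt {ε r0 lam : ℝ} {c : ℝ → ℂ} (A : IsArc ε c r0 lam) {om : ℂ} (hom : ‖om‖ = 1)
    {Φ : ℝ × ℝ → ℂ} (h : ContDiff ℝ ∞ Φ) (h0 : ∀ s, Φ (0, s) = om * c s) {s : ℝ} (hs : |s| ≤ 1) :
    ArcAt ε c om Φ s := by
  have hnf := nv_mul_fr hom s
  have hv : ds Φ (0, s) = nv om s * (Complex.I * (ε * ph (c s) : ℝ)) := by
    have h1 := hasDerivAt_ds h 0 s
    have h2 := (A.der s hs).const_mul om
    have h3 : (fun s => Φ (0, s)) = fun s => om * c s := funext h0
    rw [h3] at h1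
    rw [h1.unique h2]
    unfold nv; ring
  have hpos : 0 < ε * ph (c s) := mul_pos A.eps_pos (ph_pos _)
  have key : ∀ Y : ℝ × ℝ → ℂ, Y (0, s) = nv om s * fc Y om s := by
    intro Y
    unfold fc
    linear_combination -(Y (0, s)) * hnf
  have key2 : ∀ Y : ℝ × ℝ → ℂ, ds Y (0, s) = nv om s * (fc' Y om s + Complex.I * fc Y om s) := by
    intro Y
    unfold fc'
    linear_combination -(ds Y (0, s)) * hnf
  refine ⟨?_, hv, ?_, ?_, key _, ?_, key _, ?_⟩
  · rw [h0]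
    unfold nv wv
    have := exp_mul_expn s
    linear_combination -(om * c s) * this
  · rw [hv, norm_mul, norm_nv hom, norm_mul, Complex.norm_I, Complex.norm_real, Real.norm_eq_abs,
      abs_of_pos hpos]
    ring
  · rw [h0, ph_mul hom]
  · rw [dt_ds_comm h]
    exact key2 _
  · have c2 : ds (dt (dt Φ)) (0, s) = dt (dt (ds Φ)) (0, s) := by
      rw [← dt_ds_comm (contDiff_dt h)]
      congr 1
      exact (funext fun p => (dt_ds_comm h p)).symm
    rw [← c2]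
    exact key2 _

section

variable {ε r0 lam : ℝ} {c : ℝ → ℂ} {om : ℂ} {Φ : ℝ × ℝ → ℂ}

/-- boundary term of the second variation along an arc, rotation invariant part -/
noncomputable def BArc (ε : ℝ) (c : ℝ → ℂ) (om : ℂ) (Φ : ℝ × ℝ → ℂ) (s : ℝ) : ℝ :=
  -(1 / ε * ((1 + ε * ph (c s) * (wv c s).re) * ((fc (dt Φ) om s).re * (fc (dt Φ) om s).im) +
    ε * ph (c s) * (wv c s).im * (fc (dt Φ) om s).im ^ 2)) +
  ε * ph (c s) / ε * (fc (dt (dt Φ)) om s).im

lemma lam_eq' (A : IsArc ε c r0 lam) {s : ℝ} (hs : |s| ≤ 1) :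
    lam = 1 / (ε * ph (c s)) - (wv c s).re := by
  rw [A.lam_eq s hs, one_div]; rfl

lemma arc_first_pt (A : IsArc ε c r0 lam) (hom : ‖om‖ = 1) (h : ContDiff ℝ ∞ Φ)
    (h0 : ∀ s, Φ (0, s) = om * c s) (hε : ε ≤ 1 / 1000) {s : ℝ} (hs : |s| ≤ 1) :
    HasDerivAt (fun s => ε * ph (c s) / ε * (fc (dt Φ) om s).im)
      (La1 Φ (0, s) - lam * (ph (Φ (0, s)) * wedge (dt Φ (0, s)) (ds Φ (0, s)))) s := by
  have B := arcAt A hom h h0 hs
  have AF := A.toArcFun hε
  have hq : ε * ph (c s) ≠ 0 := (mul_pos A.eps_pos (ph_pos _)).ne'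
  have hε0 : ε ≠ 0 := A.eps_pos.ne'
  refine (((AF.dq s hs).div_const ε).mul
    (hasDerivAt_im (hasDerivAt_fc (contDiff_dt h) om s))).congr_deriv ?_
  have hN := dot_nv hom s
  unfold La1
  rw [B.nvel, B.phv, B.vel, B.eta, B.xi, B.pos, dot_mul hN, dot_mul hN, wedge_mul hN,
    lam_eq' A hs]
  unfold dot wedge
  simp only [Complex.mul_re, Complex.mul_im, Complex.add_re, Complex.add_im, Complex.I_re,
    Complex.I_im, Complex.ofReal_re, Complex.ofReal_im]
  generalize hQ : ε * ph (c s) = Q at *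
  have hph : ph (c s) = Q / ε := by rw [← hQ]; field_simp
  rw [hph]
  field_simp
  ring

lemma arc_second_pt (A : IsArc ε c r0 lam) (hom : ‖om‖ = 1) (h : ContDiff ℝ ∞ Φ)
    (h0 : ∀ s, Φ (0, s) = om * c s) (hε : ε ≤ 1 / 1000) {s : ℝ} (hs : |s| ≤ 1) :
    HasDerivAt (BArc ε c om Φ)
      (La2 Φ (0, s) - lam * (-(ph (Φ (0, s)) * dot (Φ (0, s)) (dt Φ (0, s))) *
          wedge (dt Φ (0, s)) (ds Φ (0, s)) +
        ph (Φ (0, s)) * (wedge (dt (dt Φ) (0, s)) (ds Φ (0, s)) +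
          wedge (dt Φ (0, s)) (dt (ds Φ) (0, s)))) -
        1 / ε * ((fc' (dt Φ) om s).re ^ 2 -
          (1 + (ε * ph (c s)) ^ 2) * (fc (dt Φ) om s).re ^ 2)) s := by
  have B := arcAt A hom h h0 hs
  have AF := A.toArcFun hε
  have hq : ε * ph (c s) ≠ 0 := (mul_pos A.eps_pos (ph_pos _)).ne'
  have hε0 : ε ≠ 0 := A.eps_pos.ne'
  have d1 := hasDerivAt_re (hasDerivAt_fc (contDiff_dt h) om s)
  have d2 := hasDerivAt_im (hasDerivAt_fc (contDiff_dt h) om s)
  have d3 := hasDerivAt_im (hasDerivAt_fc (contDiff_dt (contDiff_dt h)) om s)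
  have dq := AF.dq s hs
  have du := AF.du s hs
  have dn := AF.dn s hs
  have hD := (((((hasDerivAt_const s (1 : ℝ)).add (dq.mul dn)).mul (d1.mul d2)).add
    ((dq.mul du).mul (d2.pow 2))).const_mul (1 / ε)).neg.add ((dq.div_const ε).mul d3)
  refine HasDerivAt.congr_deriv (f := BArc ε c om Φ) hD ?_
  have hN := dot_nv hom s
  have key := arc_second ε (ε * ph (c s)) (wv c s).re (wv c s).im (fc (dt Φ) om s).re
    (fc (dt Φ) om s).im (fc' (dt Φ) om s).re (fc' (dt Φ) om s).im (fc (dt (dt Φ)) om s).re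
    (fc (dt (dt Φ)) om s).im (fc' (dt (dt Φ)) om s).re (fc' (dt (dt Φ)) om s).im hε0 hq
  unfold La2
  rw [B.nvel, B.phv, B.theta, B.vel, B.eta, B.zeta, B.xi, B.pos]
  simp only [dot_mul hN, wedge_mul hN]
  rw [lam_eq' A hs]
  unfold dot wedge
  simp only [Complex.mul_re, Complex.mul_im, Complex.add_re, Complex.add_im, Complex.I_re,
    Complex.I_im, Complex.ofReal_re, Complex.ofReal_im, Pi.mul_apply, Pi.add_apply, Pi.pow_apply]
  generalize hQ : ε * ph (c s) = Q at *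
  have hph : ph (c s) = Q / ε := by rw [← hQ]; field_simp
  rw [hph]
  ring_nf at key ⊢
  linear_combination -key

lemma mem_abs_le {s : ℝ} (hs : s ∈ uIcc (-(Real.pi / 6)) (Real.pi / 6)) : |s| ≤ 1 := by
  obtain ⟨h1, h2, h3⟩ := pi6_facts
  rw [uIcc_of_le (by linarith)] at hs
  rw [abs_le]
  constructor <;> linarith [hs.1, hs.2]

lemma arc_ds_ne (A : IsArc ε c r0 lam) (hom : ‖om‖ = 1) (h : ContDiff ℝ ∞ Φ)
    (h0 : ∀ s, Φ (0, s) = om * c s) {s : ℝ} (hs : |s| ≤ 1) : ds Φ (0, s) ≠ 0 := by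
  have B := arcAt A hom h h0 hs
  rw [← norm_ne_zero_iff, B.nvel]
  exact (mul_pos A.eps_pos (ph_pos _)).ne'

lemma slice_cont {g : ℝ × ℝ → ℝ} (hg : Continuous g) : Continuous fun s : ℝ => g (0, s) :=
  hg.comp (by fun_prop)

lemma slice_contOn {g : ℝ × ℝ → ℝ} {S : Set ℝ} (hg : ContinuousOn g ({(0 : ℝ)} ×ˢ S)) :
    ContinuousOn (fun s : ℝ => g (0, s)) S :=
  hg.comp (by fun_prop) (fun s hs => ⟨rfl, hs⟩)

lemma arc_int_La1 (A : IsArc ε c r0 lam) (hom : ‖om‖ = 1) (h : ContDiff ℝ ∞ Φ)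
    (h0 : ∀ s, Φ (0, s) = om * c s) :
    IntervalIntegrable (fun s => La1 Φ (0, s)) volume (-(Real.pi / 6)) (Real.pi / 6) := by
  refine ContinuousOn.intervalIntegrable (slice_contOn (continuousOn_La1 h ?_))
  rintro ⟨t, s⟩ ⟨h1, h2⟩
  have ht : t = 0 := h1
  subst ht
  exact arc_ds_ne A hom h h0 (mem_abs_le h2)

lemma arc_int_La2 (A : IsArc ε c r0 lam) (hom : ‖om‖ = 1) (h : ContDiff ℝ ∞ Φ)
    (h0 : ∀ s, Φ (0, s) = om * c s) :
    IntervalIntegrable (fun s => La2 Φ (0, s)) volume (-(Real.pi / 6)) (Real.pi / 6) := by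
  refine ContinuousOn.intervalIntegrable (slice_contOn (continuousOn_La2 h ?_))
  rintro ⟨t, s⟩ ⟨h1, h2⟩
  have ht : t = 0 := h1
  subst ht
  exact arc_ds_ne A hom h h0 (mem_abs_le h2)

/-- boundary term of the first variation -/
noncomputable def T1 (ε lam : ℝ) (c : ℝ → ℂ) (om : ℂ) (Φ : ℝ × ℝ → ℂ) (s : ℝ) : ℝ :=
  ε * ph (c s) / ε * (fc (dt Φ) om s).im - lam * (pot (Φ (0, s)) * (dt Φ (0, s)).im)

/-- boundary term of the second variation -/
noncomputable def T2 (ε lam : ℝ) (c : ℝ → ℂ) (om : ℂ) (Φ : ℝ × ℝ → ℂ) (s : ℝ) : ℝ :=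
  BArc ε c om Φ s - lam * (potT Φ (0, s) * (dt Φ (0, s)).im +
    pot (Φ (0, s)) * (dt (dt Φ) (0, s)).im)

lemma arc_first_int (A : IsArc ε c r0 lam) (hom : ‖om‖ = 1) (h : ContDiff ℝ ∞ Φ)
    (h0 : ∀ s, Φ (0, s) = om * c s) (hε : ε ≤ 1 / 1000) :
    (∫ s in (-(Real.pi / 6))..(Real.pi / 6), La1 Φ (0, s)) -
      lam * (∫ s in (-(Real.pi / 6))..(Real.pi / 6), Lw1 Φ (0, s)) =
    T1 ε lam c om Φ (Real.pi / 6) - T1 ε lam c om Φ (-(Real.pi / 6)) := by
  have i1 := arc_int_La1 A hom h h0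
  have i2 : IntervalIntegrable (fun s => Lw1 Φ (0, s)) volume (-(Real.pi / 6)) (Real.pi / 6) :=
    (slice_cont (continuous_Lw1 h)).intervalIntegrable _ _
  rw [← intervalIntegral.integral_const_mul, ← intervalIntegral.integral_sub i1 (i2.const_mul lam)]
  refine intervalIntegral.integral_eq_sub_of_hasDerivAt (fun s hs => ?_) (i1.sub (i2.const_mul lam))
  refine ((arc_first_pt A hom h h0 hε (mem_abs_le hs)).sub
    ((Lw1_split h 0 s).const_mul lam)).congr_deriv ?_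
  ring

lemma arc_second_int (A : IsArc ε c r0 lam) (hom : ‖om‖ = 1) (h : ContDiff ℝ ∞ Φ)
    (h0 : ∀ s, Φ (0, s) = om * c s) (hε : ε ≤ 1 / 1000) :
    (∫ s in (-(Real.pi / 6))..(Real.pi / 6), La2 Φ (0, s)) -
      lam * (∫ s in (-(Real.pi / 6))..(Real.pi / 6), Lw2 Φ (0, s)) =
    1 / ε * (∫ s in (-(Real.pi / 6))..(Real.pi / 6), ((fc' (dt Φ) om s).re ^ 2 -
          (1 + (ε * ph (c s)) ^ 2) * (fc (dt Φ) om s).re ^ 2)) +
    (T2 ε lam c om Φ (Real.pi / 6) - T2 ε lam c om Φ (-(Real.pi / 6))) := by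
  have i1 := arc_int_La2 A hom h h0
  have i2 : IntervalIntegrable (fun s => Lw2 Φ (0, s)) volume (-(Real.pi / 6)) (Real.pi / 6) :=
    (slice_cont (continuous_Lw2 h)).intervalIntegrable _ _
  have k1 := continuous_fc (contDiff_dt h).continuous om
  have k2 := continuous_fc' (contDiff_dt h) om
  have i3 : IntervalIntegrable (fun s => (fc' (dt Φ) om s).re ^ 2 -
          (1 + (ε * ph (c s)) ^ 2) * (fc (dt Φ) om s).re ^ 2) volume
          (-(Real.pi / 6)) (Real.pi / 6) := by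
    refine Continuous.intervalIntegrable ?_ _ _
    exact ((Complex.continuous_re.comp k2).pow 2).sub ((continuous_const.add
      ((continuous_const.mul (continuous_ph.comp A.smooth.continuous)).pow 2)).mul
      ((Complex.continuous_re.comp k1).pow 2))
  have key : ∫ s in (-(Real.pi / 6))..(Real.pi / 6), (La2 Φ (0, s) - lam * Lw2 Φ (0, s) -
      1 / ε * ((fc' (dt Φ) om s).re ^ 2 -
          (1 + (ε * ph (c s)) ^ 2) * (fc (dt Φ) om s).re ^ 2)) =
      T2 ε lam c om Φ (Real.pi / 6) - T2 ε lam c om Φ (-(Real.pi / 6)) := by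
    refine intervalIntegral.integral_eq_sub_of_hasDerivAt (fun s hs => ?_)
      ((i1.sub (i2.const_mul lam)).sub (i3.const_mul (1 / ε)))
    refine ((arc_second_pt A hom h h0 hε (mem_abs_le hs)).sub
      ((Lw2_split h 0 s).const_mul lam)).congr_deriv ?_
    ring
  rw [intervalIntegral.integral_sub (i1.sub (i2.const_mul lam)) (i3.const_mul (1 / ε)),
    intervalIntegral.integral_sub i1 (i2.const_mul lam), intervalIntegral.integral_const_mul,
    intervalIntegral.integral_const_mul] at key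
  linarith

lemma arc_mass (A : IsArc ε c r0 lam) (hom : ‖om‖ = 1) (h : ContDiff ℝ ∞ Φ)
    (h0 : ∀ s, Φ (0, s) = om * c s) :
    (∫ s in (-(Real.pi / 6))..(Real.pi / 6), Lw1 Φ (0, s)) =
    (∫ s in (-(Real.pi / 6))..(Real.pi / 6), (ε * ph (c s)) ^ 2 / ε * (fc (dt Φ) om s).re) +
    (pot (Φ (0, Real.pi / 6)) * (dt Φ (0, Real.pi / 6)).im -
      pot (Φ (0, -(Real.pi / 6))) * (dt Φ (0, -(Real.pi / 6))).im) := by
  have i2 : IntervalIntegrable (fun s => Lw1 Φ (0, s)) volume (-(Real.pi / 6)) (Real.pi / 6) :=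
    (slice_cont (continuous_Lw1 h)).intervalIntegrable _ _
  have k1 := continuous_fc (contDiff_dt h).continuous om
  have i3 : IntervalIntegrable (fun s => (ε * ph (c s)) ^ 2 / ε * (fc (dt Φ) om s).re) volume
          (-(Real.pi / 6)) (Real.pi / 6) := by
    refine Continuous.intervalIntegrable ?_ _ _
    exact (((continuous_const.mul (continuous_ph.comp A.smooth.continuous)).pow 2).div_const _).mul
      (Complex.continuous_re.comp k1)
  have key : ∫ s in (-(Real.pi / 6))..(Real.pi / 6), (Lw1 Φ (0, s) -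
      (ε * ph (c s)) ^ 2 / ε * (fc (dt Φ) om s).re) =
      (pot (Φ (0, Real.pi / 6)) * (dt Φ (0, Real.pi / 6)).im -
      pot (Φ (0, -(Real.pi / 6))) * (dt Φ (0, -(Real.pi / 6))).im) := by
    refine intervalIntegral.integral_eq_sub_of_hasDerivAt
      (f := fun s => pot (Φ (0, s)) * (dt Φ (0, s)).im) (fun s hs => ?_) (i2.sub i3)
    refine (Lw1_split h 0 s).congr_deriv ?_
    have B := arcAt A hom h h0 (mem_abs_le hs)
    have hN := dot_nv hom s
    rw [B.phv, B.xi, B.vel, wedge_mul hN]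
    unfold wedge
    have hε0 : ε ≠ 0 := A.eps_pos.ne'
    simp only [Complex.mul_re, Complex.mul_im, Complex.I_re,
      Complex.I_im, Complex.ofReal_re, Complex.ofReal_im]
    field_simp
    ring
  rw [intervalIntegral.integral_sub i2 i3] at key
  linarith

end

end Pool.Agent.MP_845d3b_gt
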