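import Mathlib

open Set Filter Topology MeasureTheory

namespace Pool.Agent.MP_845d3b_gt

/-- Picone type inequality on an interval. -/
lemma picone {a b : ℝ} (hab : a ≤ b) {v v' P P' p V : ℝ → ℝ}
    (hv : ∀ x ∈ Icc a b, HasDerivAt v (v' x) x) (hP : ∀ x ∈ Icc a b, HasDerivAt P (P' x) x)
    (hcv' : ContinuousOn v' (Icc a b)) (hcP' : ContinuousOn P' (Icc a b))
    (hp : ∀ x ∈ Icc a b, 0 < p x) (hcp : ContinuousOn p (Icc a b))
    (hcV : ContinuousOn V (Icc a b))
    (hric : ∀ x ∈ Icc a b, P' x + P x ^ 2 / p x ≤ -V x) :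
    P b * v b ^ 2 - P a * v a ^ 2 ≤ ∫ x in a..b, (p x * v' x ^ 2 - V x * v x ^ 2) := by
  have hcv : ContinuousOn v (Icc a b) := fun x hx => (hv x hx).continuousAt.continuousWithinAt
  have hcP : ContinuousOn P (Icc a b) := fun x hx => (hP x hx).continuousAt.continuousWithinAt
  have hder : ∀ x ∈ Icc a b, HasDerivAt (fun x => P x * v x ^ 2)
      (P' x * v x ^ 2 + P x * (2 * v x * v' x)) x := by
    intro x hx
    refine ((hP x hx).mul ((hv x hx).pow 2)).congr_deriv ?_
    simp
  have hc1 : ContinuousOn (fun x => P' x * v x ^ 2 + P x * (2 * v x * v' x)) (Icc a b) :=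
    (hcP'.mul (hcv.pow 2)).add (hcP.mul ((continuousOn_const.mul hcv).mul hcv'))
  have hc2 : ContinuousOn (fun x => p x * v' x ^ 2 - V x * v x ^ 2) (Icc a b) :=
    (hcp.mul (hcv'.pow 2)).sub (hcV.mul (hcv.pow 2))
  have h1 : ∫ x in a..b, (P' x * v x ^ 2 + P x * (2 * v x * v' x)) =
      P b * v b ^ 2 - P a * v a ^ 2 :=
    intervalIntegral.integral_eq_sub_of_hasDerivAt
      (fun x hx => hder x (by rwa [uIcc_of_le hab] at hx))
      (hc1.intervalIntegrable_of_Icc hab)
  rw [← h1]
  refine intervalIntegral.integral_mono_on hab (hc1.intervalIntegrable_of_Icc hab)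
    (hc2.intervalIntegrable_of_Icc hab) fun x hx => ?_
  have h2 := hric x hx
  have h3 := hp x hx
  have h4 : p x * v' x ^ 2 - V x * v x ^ 2 - (P' x * v x ^ 2 + P x * (2 * v x * v' x)) =
      p x * (v' x - P x / p x * v x) ^ 2 + (-V x - (P' x + P x ^ 2 / p x)) * v x ^ 2 := by
    field_simp
    ring
  have h5 : 0 ≤ p x * (v' x - P x / p x * v x) ^ 2 := by positivity
  have h6 : 0 ≤ (-V x - (P' x + P x ^ 2 / p x)) * v x ^ 2 :=
    mul_nonneg (by linarith) (sq_nonneg _)
  linarith

/-- One dimensional Gaussian weight. -/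
noncomputable def gw (r : ℝ) : ℝ := Real.exp (-r ^ 2 / 2)

lemma gw_pos (r : ℝ) : 0 < gw r := Real.exp_pos _

lemma hasDerivAt_gw (r : ℝ) : HasDerivAt gw (-(r * gw r)) r := by
  have h1 : HasDerivAt (fun t : ℝ => -t ^ 2 / 2) (-r) r := by
    have := ((hasDerivAt_pow 2 r).neg).div_const 2
    refine this.congr_deriv ?_
    simp
    ring
  refine h1.exp.congr_deriv ?_
  unfold gw
  ring

lemma continuous_gw : Continuous gw := by
  unfold gw
  fun_prop

lemma gw_le_one (r : ℝ) : gw r ≤ 1 := by
  unfold gw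
  rw [Real.exp_le_one_iff]
  have := sq_nonneg r
  linarith

lemma gw_ge {r : ℝ} (h0 : 0 ≤ r) (h1 : r ≤ 1) : 3 / 5 ≤ gw r := by
  unfold gw
  have h2 : Real.exp (-1 / 2) ≤ Real.exp (-r ^ 2 / 2) := by
    rw [Real.exp_le_exp]
    nlinarith
  have h3 : (3 : ℝ) / 5 ≤ Real.exp (-1 / 2) := by
    have h4 : Real.exp (-1 / 2) * Real.exp (-1 / 2) = Real.exp (-1) := by
      rw [← Real.exp_add]; norm_num
    have h5 := Real.exp_neg_one_gt_d9
    have h6 := Real.exp_pos (-1 / 2 : ℝ)
    nlinarith
  linarith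

/-- Ray inequality with the rotation field. -/
lemma ray_rot {r0 R : ℝ} (h0 : 0 < r0) (hR : r0 ≤ R) {h h' : ℝ → ℝ}
    (hh : ∀ x, HasDerivAt h (h' x) x) (hch : Continuous h') (hR0 : h R = 0) :
    -(gw r0 / r0 * h r0 ^ 2) ≤ ∫ x in r0..R, (gw x * h' x ^ 2 - gw x * h x ^ 2) := by
  have hpos : ∀ x ∈ Icc r0 R, 0 < x := fun x hx => lt_of_lt_of_le h0 hx.1
  have := picone hR (v := h) (v' := h') (P := fun x => gw x / x)
    (P' := fun x => (-(x * gw x) * x - gw x * 1) / x ^ 2) (p := gw) (V := gw)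
    (fun x _ => hh x) (fun x hx => (hasDerivAt_gw x).div (hasDerivAt_id x) (hpos x hx).ne')
    hch.continuousOn (by
      refine ContinuousOn.div ?_ ?_ ?_
      · have := continuous_gw; fun_prop
      · fun_prop
      · intro x hx; exact pow_ne_zero 2 (hpos x hx).ne') (fun x _ => gw_pos x)
    continuous_gw.continuousOn continuous_gw.continuousOn (by
      intro x hx
      have h1 := hpos x hx
      have h2 := gw_pos x
      have : (-(x * gw x) * x - gw x * 1) / x ^ 2 + (gw x / x) ^ 2 / gw x = -gw x := by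
        field_simp
        ring
      rw [this])
  rw [hR0] at this
  simpa using this

/-- Weighted Poincare inequality on `[r0, R]`. -/
lemma poinc {r0 R : ℝ} (h0 : 0 < r0) (hR : r0 ≤ R) {h h' : ℝ → ℝ}
    (hh : ∀ x, HasDerivAt h (h' x) x) (hch : Continuous h')
    (hmean : ∫ x in r0..R, gw x * h x = 0) :
    ∫ x in r0..R, gw x * h x ^ 2 ≤ 1 / 2 * ∫ x in r0..R, gw x * h' x ^ 2 := by
  have hchc : Continuous h := continuous_iff_continuousAt.mpr fun x => (hh x).continuousAt
  have hgc := continuous_gw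
  have hpos : ∀ x ∈ Icc r0 R, 0 < x := fun x hx => lt_of_lt_of_le h0 hx.1
  set G : ℝ → ℝ := fun r => ∫ x in r0..r, gw x * h x with hG
  have hGd : ∀ r, HasDerivAt G (gw r * h r) r := fun r =>
    ((hgc.mul hchc).integral_hasStrictDerivAt r0 r).hasDerivAt
  have hGc : Continuous G := continuous_iff_continuousAt.mpr fun x => (hGd x).continuousAt
  have hG0 : G r0 = 0 := by simp [hG]
  have hGR : G R = 0 := hmean
  have hne : ∀ x, gw x ≠ 0 := fun x => (gw_pos x).ne'
  -- dual inequality
  have h1 := picone hR (v := G) (v' := fun x => gw x * h x)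
    (P := fun x => (1 - x ^ 2) / (x * gw x))
    (P' := fun x => ((-(2 * x)) * (x * gw x) - (1 - x ^ 2) * (1 * gw x + x * (-(x * gw x)))) /
      (x * gw x) ^ 2)
    (p := fun x => (gw x)⁻¹) (V := fun x => 2 * (gw x)⁻¹)
    (fun x _ => hGd x) (fun x hx => by
      have d1 : HasDerivAt (fun x : ℝ => 1 - x ^ 2) (-(2 * x)) x := by
        refine ((hasDerivAt_pow 2 x).const_sub 1).congr_deriv ?_
        simp
      have d2 : HasDerivAt (fun x : ℝ => x * gw x) (1 * gw x + x * (-(x * gw x))) x :=
        (hasDerivAt_id x).mul (hasDerivAt_gw x)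
      exact d1.div d2 (mul_ne_zero (hpos x hx).ne' (hne x)))
    (by fun_prop) (by
      refine ContinuousOn.div ?_ ?_ ?_
      · fun_prop
      · fun_prop
      · intro x hx; exact pow_ne_zero 2 (mul_ne_zero (hpos x hx).ne' (hne x)))
    (fun x _ => inv_pos.mpr (gw_pos x))
    (hgc.inv₀ hne).continuousOn (continuous_const.mul (hgc.inv₀ hne)).continuousOn (by
      intro x hx
      have h1 := (hpos x hx).ne'
      have h2 := hne x
      have : ((-(2 * x)) * (x * gw x) - (1 - x ^ 2) * (1 * gw x + x * (-(x * gw x)))) /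
          (x * gw x) ^ 2 + ((1 - x ^ 2) / (x * gw x)) ^ 2 / (gw x)⁻¹ = -(2 * (gw x)⁻¹) := by
        field_simp
        ring
      rw [this])
  rw [hG0, hGR] at h1
  have hi1 : Continuous fun x => gw x * h x ^ 2 := by fun_prop
  have hi2 : Continuous fun x => (gw x)⁻¹ * G x ^ 2 := (hgc.inv₀ hne).mul (hGc.pow 2)
  have hi3 : Continuous fun x => gw x * h' x ^ 2 := by fun_prop
  have hi4 : Continuous fun x => 2 * ((gw x)⁻¹ * G x ^ 2) := continuous_const.mul hi2
  have hi5 : Continuous fun x => h' x * G x := hch.mul hGc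
  have hi6 : Continuous fun x => 1 / 4 * (gw x * h' x ^ 2) := continuous_const.mul hi3
  have h2 : ∫ x in r0..R, ((gw x)⁻¹ * (gw x * h x) ^ 2 - 2 * (gw x)⁻¹ * G x ^ 2) =
      (∫ x in r0..R, gw x * h x ^ 2) - 2 * ∫ x in r0..R, (gw x)⁻¹ * G x ^ 2 := by
    rw [← intervalIntegral.integral_const_mul, ← intervalIntegral.integral_sub
      (hi1.intervalIntegrable _ _) (hi4.intervalIntegrable _ _)]
    congr 1
    funext x
    have := hne x
    field_simp
  rw [h2] at h1
  -- integration by parts
  have h3 : ∫ x in r0..R, (gw x * h x ^ 2 + h' x * G x) = 0 := by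
    have hd : ∀ x, HasDerivAt (fun x => h x * G x) (gw x * h x ^ 2 + h' x * G x) x := fun x => by
      refine ((hh x).mul (hGd x)).congr_deriv ?_
      ring
    rw [intervalIntegral.integral_eq_sub_of_hasDerivAt (fun x _ => hd x)
      (Continuous.intervalIntegrable (by fun_prop) _ _), hG0, hGR]
    ring
  rw [intervalIntegral.integral_add (hi1.intervalIntegrable _ _)
    (hi5.intervalIntegrable _ _)] at h3
  have h4 : -∫ x in r0..R, h' x * G x ≤
      ∫ x in r0..R, (1 / 4 * (gw x * h' x ^ 2) + (gw x)⁻¹ * G x ^ 2) := by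
    rw [← intervalIntegral.integral_neg]
    refine intervalIntegral.integral_mono_on hR
      (hi5.neg.intervalIntegrable _ _)
      ((hi6.add hi2).intervalIntegrable _ _) fun x _ => ?_
    have hp := gw_pos x
    have : 1 / 4 * (gw x * h' x ^ 2) + (gw x)⁻¹ * G x ^ 2 - -(h' x * G x) =
        gw x * (1 / 2 * h' x + (gw x)⁻¹ * G x) ^ 2 := by
      field_simp
      ring
    have h5 : 0 ≤ gw x * (1 / 2 * h' x + (gw x)⁻¹ * G x) ^ 2 := by positivity
    linarith
  rw [intervalIntegral.integral_add (hi6.intervalIntegrable _ _)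
    (hi2.intervalIntegrable _ _), intervalIntegral.integral_const_mul] at h4
  norm_num at h1
  linarith

/-- Trace inequality at the inner end of the ray. -/
lemma trace_ray {r0 R A m : ℝ} (h0 : 0 < r0) (h01 : r0 ≤ 1 / 100) (hR : 1 ≤ R) {h h' : ℝ → ℝ}
    (hh : ∀ x, HasDerivAt h (h' x) x) (hch : Continuous h')
    (hA : ∫ x in r0..R, gw x * h' x ^ 2 = A)
    (hm : ∫ x in r0..R, gw x * (h x - m) ^ 2 ≤ 1 / 2 * A) :
    (h r0 - m) ^ 2 ≤ 4 * A := by
  have hchc : Continuous h := continuous_iff_continuousAt.mpr fun x => (hh x).continuousAt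
  have hgc := continuous_gw
  have hr1 : r0 ≤ 1 := by linarith
  have hl : 0 < 1 - r0 := by linarith
  set k : ℝ → ℝ := fun x => h x - m with hk
  have hkd : ∀ x, HasDerivAt k (h' x) x := fun x => (hh x).sub_const m
  have hkc : Continuous k := hchc.sub continuous_const
  -- restriction of the integrals to the unit interval
  have e1 : ∫ x in r0..1, k x ^ 2 ≤ 5 / 3 * (1 / 2 * A) := by
    have c1 : ∫ x in r0..1, 3 / 5 * k x ^ 2 ≤ ∫ x in r0..1, gw x * k x ^ 2 := by
      refine intervalIntegral.integral_mono_on hr1 (Continuous.intervalIntegrable (by fun_prop) _ _)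
        (Continuous.intervalIntegrable (by fun_prop) _ _) fun x hx => ?_
      exact mul_le_mul_of_nonneg_right (gw_ge (h0.le.trans hx.1) hx.2) (sq_nonneg _)
    have c2 : ∫ x in r0..1, gw x * k x ^ 2 ≤ ∫ x in r0..R, gw x * k x ^ 2 := by
      rw [← intervalIntegral.integral_add_adjacent_intervals (b := 1) (c := R)
        (Continuous.intervalIntegrable (by fun_prop) _ _)
        (Continuous.intervalIntegrable (by fun_prop) _ _)]
      have : 0 ≤ ∫ x in (1 : ℝ)..R, gw x * k x ^ 2 :=
        intervalIntegral.integral_nonneg hR fun x _ => mul_nonneg (gw_pos x).le (sq_nonneg _)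
      linarith
    rw [intervalIntegral.integral_const_mul] at c1
    linarith
  have e2 : ∫ x in r0..1, h' x ^ 2 ≤ 5 / 3 * A := by
    have c1 : ∫ x in r0..1, 3 / 5 * h' x ^ 2 ≤ ∫ x in r0..1, gw x * h' x ^ 2 := by
      refine intervalIntegral.integral_mono_on hr1 (Continuous.intervalIntegrable (by fun_prop) _ _)
        (Continuous.intervalIntegrable (by fun_prop) _ _) fun x hx => ?_
      exact mul_le_mul_of_nonneg_right (gw_ge (h0.le.trans hx.1) hx.2) (sq_nonneg _)
    have c2 : ∫ x in r0..1, gw x * h' x ^ 2 ≤ ∫ x in r0..R, gw x * h' x ^ 2 := by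
      rw [← intervalIntegral.integral_add_adjacent_intervals (b := 1) (c := R)
        (Continuous.intervalIntegrable (by fun_prop) _ _)
        (Continuous.intervalIntegrable (by fun_prop) _ _)]
      have : 0 ≤ ∫ x in (1 : ℝ)..R, gw x * h' x ^ 2 :=
        intervalIntegral.integral_nonneg hR fun x _ => mul_nonneg (gw_pos x).le (sq_nonneg _)
      linarith
    rw [intervalIntegral.integral_const_mul] at c1
    linarith
  -- cut-off argument
  have hd : ∀ x, HasDerivAt (fun x => (1 - x) / (1 - r0) * k x ^ 2)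
      (-1 / (1 - r0) * k x ^ 2 + (1 - x) / (1 - r0) * (2 * k x * h' x)) x := fun x => by
    have d1 : HasDerivAt (fun x : ℝ => (1 - x) / (1 - r0)) (-1 / (1 - r0)) x :=
      ((hasDerivAt_id x).const_sub 1).div_const _
    refine (d1.mul ((hkd x).pow 2)).congr_deriv ?_
    simp
  have hint : ∫ x in r0..1, (-1 / (1 - r0) * k x ^ 2 + (1 - x) / (1 - r0) * (2 * k x * h' x)) =
      -(k r0 ^ 2) := by
    rw [intervalIntegral.integral_eq_sub_of_hasDerivAt (fun x _ => hd x)
      (Continuous.intervalIntegrable (by fun_prop) _ _)]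
    field_simp
    ring
  have hle : ∫ x in r0..1, -(-1 / (1 - r0) * k x ^ 2 + (1 - x) / (1 - r0) * (2 * k x * h' x)) ≤
      ∫ x in r0..1, ((1 / (1 - r0) + 1) * k x ^ 2 + h' x ^ 2) := by
    refine intervalIntegral.integral_mono_on hr1 (Continuous.intervalIntegrable (by fun_prop) _ _)
        (Continuous.intervalIntegrable (by fun_prop) _ _) fun x hx => ?_
    have h1 : 0 ≤ (1 - x) / (1 - r0) := div_nonneg (by linarith [hx.2]) hl.le
    have h2 : (1 - x) / (1 - r0) ≤ 1 := by rw [div_le_one hl]; linarith [hx.1]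
    set t := (1 - x) / (1 - r0)
    have h3 : -(t * (2 * k x * h' x)) ≤ k x ^ 2 + h' x ^ 2 := by
      nlinarith [sq_nonneg (k x + t * h' x), sq_nonneg (h' x), mul_nonneg h1 h1,
        mul_le_mul h2 h2 h1 zero_le_one]
    have e : -(-1 / (1 - r0) * k x ^ 2 + t * (2 * k x * h' x)) =
        1 / (1 - r0) * k x ^ 2 + -(t * (2 * k x * h' x)) := by ring
    rw [e]
    linarith
  rw [intervalIntegral.integral_neg, hint, neg_neg, intervalIntegral.integral_add
    (Continuous.intervalIntegrable (by fun_prop) _ _)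
    (Continuous.intervalIntegrable (by fun_prop) _ _), intervalIntegral.integral_const_mul] at hle
  have hA0 : 0 ≤ A := by
    rw [← hA]
    exact intervalIntegral.integral_nonneg (by linarith) fun x _ =>
      mul_nonneg (gw_pos x).le (sq_nonneg _)
  have hl2 : 1 / (1 - r0) ≤ 11 / 10 := by
    rw [div_le_iff₀ hl]; linarith
  have hk0 : 0 ≤ ∫ x in r0..1, k x ^ 2 :=
    intervalIntegral.integral_nonneg hr1 fun x _ => sq_nonneg _
  have : k r0 ^ 2 ≤ (11 / 10 + 1) * (5 / 3 * (1 / 2 * A)) + 5 / 3 * A := by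
    refine hle.trans (add_le_add ?_ e2)
    exact mul_le_mul (by linarith) e1 hk0 (by norm_num)
  linarith

/-- Combined lower bound on a ray. -/
lemma ray_bound {r0 R H : ℝ} (h0 : 0 < r0) (h01 : r0 ≤ 1 / 100) (hR : 1 ≤ R) {h h' : ℝ → ℝ}
    (hh : ∀ x, HasDerivAt h (h' x) x) (hch : Continuous h')
    (hH : ∫ x in r0..R, gw x * h x = H) :
    1 / 16 * h r0 ^ 2 - 5 / 2 * H ^ 2 ≤ ∫ x in r0..R, (gw x * h' x ^ 2 - gw x * h x ^ 2) := by
  have hchc : Continuous h := continuous_iff_continuousAt.mpr fun x => (hh x).continuousAt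
  have hgc := continuous_gw
  have hrR : r0 ≤ R := by linarith
  set W := ∫ x in r0..R, gw x with hW
  have hWlo : 1 / 2 ≤ W := by
    have c1 : ∫ x in r0..1, (3 / 5 : ℝ) ≤ ∫ x in r0..1, gw x := by
      refine intervalIntegral.integral_mono_on (by linarith) (by simp)
        (Continuous.intervalIntegrable (by fun_prop) _ _) fun x hx => ?_
      exact gw_ge (h0.le.trans hx.1) hx.2
    have c2 : ∫ x in r0..1, gw x ≤ W := by
      rw [hW, ← intervalIntegral.integral_add_adjacent_intervals (b := 1) (c := R)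
        (Continuous.intervalIntegrable (by fun_prop) _ _)
        (Continuous.intervalIntegrable (by fun_prop) _ _)]
      have : 0 ≤ ∫ x in (1 : ℝ)..R, gw x :=
        intervalIntegral.integral_nonneg hR fun x _ => (gw_pos x).le
      linarith
    rw [intervalIntegral.integral_const, smul_eq_mul] at c1
    nlinarith
  have hWpos : 0 < W := by linarith
  set m := H / W with hm
  have hmean : ∫ x in r0..R, gw x * (h x - m) = 0 := by
    have e : (fun x => gw x * (h x - m)) = fun x => gw x * h x - m * gw x := by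
      funext x; ring
    rw [e, intervalIntegral.integral_sub (Continuous.intervalIntegrable (by fun_prop) _ _)
      (Continuous.intervalIntegrable (by fun_prop) _ _), intervalIntegral.integral_const_mul, hH,
      ← hW, hm]
    field_simp
    ring
  have hkd : ∀ x, HasDerivAt (fun x => h x - m) (h' x) x := fun x => (hh x).sub_const m
  have hp := poinc h0 hrR hkd hch hmean
  set A := ∫ x in r0..R, gw x * h' x ^ 2 with hA
  have ht := trace_ray h0 h01 hR hh hch hA.symm hp
  -- expansion of the square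
  have hexp : ∫ x in r0..R, gw x * (h x - m) ^ 2 =
      (∫ x in r0..R, gw x * h x ^ 2) - H ^ 2 / W := by
    have e : (fun x => gw x * (h x - m) ^ 2) = fun x =>
        gw x * h x ^ 2 - (2 * m) * (gw x * h x) + m ^ 2 * gw x := by
      funext x; ring
    rw [e, intervalIntegral.integral_add (Continuous.intervalIntegrable (by fun_prop) _ _)
      (Continuous.intervalIntegrable (by fun_prop) _ _), intervalIntegral.integral_sub
      (Continuous.intervalIntegrable (by fun_prop) _ _)
      (Continuous.intervalIntegrable (by fun_prop) _ _), intervalIntegral.integral_const_mul,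
      intervalIntegral.integral_const_mul, hH, ← hW, hm]
    field_simp
    ring
  rw [hexp] at hp
  rw [intervalIntegral.integral_sub (Continuous.intervalIntegrable (by fun_prop) _ _)
      (Continuous.intervalIntegrable (by fun_prop) _ _), ← hA]
  have hm2 : m ^ 2 ≤ 4 * H ^ 2 := by
    rw [hm, div_pow, div_le_iff₀ (by positivity)]
    have : 1 / 4 ≤ W ^ 2 := by nlinarith
    nlinarith [sq_nonneg H]
  have hHW : H ^ 2 / W ≤ 2 * H ^ 2 := by
    rw [div_le_iff₀ hWpos]
    nlinarith [sq_nonneg H]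
  have hsq : 1 / 2 * h r0 ^ 2 - m ^ 2 ≤ (h r0 - m) ^ 2 := by
    nlinarith [sq_nonneg (h r0 - 2 * m)]
  nlinarith

end Pool.Agent.MP_845d3b_gt
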