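import Pool.Agent.MP_845d3b_gt.ArcGeom
import Pool.Agent.MP_845d3b_gt.OneDim

open Set Filter Topology MeasureTheory
open scoped ContDiff

namespace Pool.Agent.MP_845d3b_gt

/-- Derivative in the first variable. -/
noncomputable def dt (Φ : ℝ × ℝ → ℂ) (p : ℝ × ℝ) : ℂ := fderiv ℝ Φ p (1, 0)

/-- Derivative in the second variable. -/
noncomputable def ds (Φ : ℝ × ℝ → ℂ) (p : ℝ × ℝ) : ℂ := fderiv ℝ Φ p (0, 1)

lemma contDiff_dt {Φ : ℝ × ℝ → ℂ} (h : ContDiff ℝ ∞ Φ) : ContDiff ℝ ∞ (dt Φ) :=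
  (h.fderiv_right (m := ∞) (by exact_mod_cast le_top)).clm_apply contDiff_const

lemma contDiff_ds {Φ : ℝ × ℝ → ℂ} (h : ContDiff ℝ ∞ Φ) : ContDiff ℝ ∞ (ds Φ) :=
  (h.fderiv_right (m := ∞) (by exact_mod_cast le_top)).clm_apply contDiff_const

lemma hasDerivAt_dt {Φ : ℝ × ℝ → ℂ} (h : ContDiff ℝ ∞ Φ) (t s : ℝ) :
    HasDerivAt (fun t => Φ (t, s)) (dt Φ (t, s)) t := by
  have h1 : HasFDerivAt Φ (fderiv ℝ Φ (t, s)) (t, s) :=
    (h.differentiable (by simp) _).hasFDerivAt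
  have h2 : HasDerivAt (fun t : ℝ => (t, s)) ((1 : ℝ), (0 : ℝ)) t :=
    (hasDerivAt_id t).prodMk (hasDerivAt_const t s)
  exact h1.comp_hasDerivAt t h2

lemma hasDerivAt_ds {Φ : ℝ × ℝ → ℂ} (h : ContDiff ℝ ∞ Φ) (t s : ℝ) :
    HasDerivAt (fun s => Φ (t, s)) (ds Φ (t, s)) s := by
  have h1 : HasFDerivAt Φ (fderiv ℝ Φ (t, s)) (t, s) :=
    (h.differentiable (by simp) _).hasFDerivAt
  have h2 : HasDerivAt (fun s : ℝ => (t, s)) ((0 : ℝ), (1 : ℝ)) s :=
    (hasDerivAt_const s t).prodMk (hasDerivAt_id s)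
  exact h1.comp_hasDerivAt s h2

lemma dt_ds_comm {Φ : ℝ × ℝ → ℂ} (h : ContDiff ℝ ∞ Φ) (p : ℝ × ℝ) :
    dt (ds Φ) p = ds (dt Φ) p := by
  have hd : DifferentiableAt ℝ (fderiv ℝ Φ) p :=
    (h.fderiv_right (m := ∞) (by exact_mod_cast le_top)).differentiable (by simp) p
  have h1 : ∀ v : ℝ × ℝ, fderiv ℝ (fun q => fderiv ℝ Φ q v) p =
      (fderiv ℝ (fderiv ℝ Φ) p).flip v := by
    intro v
    rw [fderiv_clm_apply hd (differentiableAt_const v)]
    simp
  have hs : IsSymmSndFDerivAt ℝ Φ p :=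
    h.contDiffAt.isSymmSndFDerivAt (by simp only [minSmoothness_of_isRCLikeNormedField]; exact ENat.LEInfty.out)
  unfold dt ds
  change fderiv ℝ (fun q => fderiv ℝ Φ q (0, 1)) p (1, 0) =
    fderiv ℝ (fun q => fderiv ℝ Φ q (1, 0)) p (0, 1)
  rw [h1, h1]
  exact hs.eq (1, 0) (0, 1)

/-- Differentiation under the integral sign. -/
lemma param_deriv {f f' : ℝ × ℝ → ℝ} {a b : ℝ} (hab : a ≤ b)
    (hf : ContinuousOn f (univ ×ˢ Icc a b)) (hf' : ContinuousOn f' (univ ×ˢ Icc a b))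
    (hd : ∀ t, ∀ s ∈ Icc a b, HasDerivAt (fun t => f (t, s)) (f' (t, s)) t) (t0 : ℝ) :
    HasDerivAt (fun t => ∫ s in a..b, f (t, s)) (∫ s in a..b, f' (t0, s)) t0 := by
  have hK : IsCompact (Icc (t0 - 1) (t0 + 1) ×ˢ Icc a b) := isCompact_Icc.prod isCompact_Icc
  obtain ⟨C, hC⟩ := hK.exists_bound_of_continuousOn
    (hf'.mono (prod_mono (subset_univ _) subset_rfl))
  have hsl : ∀ {g : ℝ × ℝ → ℝ}, ContinuousOn g (univ ×ˢ Icc a b) → ∀ t : ℝ,
      ContinuousOn (fun s => g (t, s)) (Icc a b) := by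
    intro g hg t
    exact hg.comp (by fun_prop) (fun s hs => ⟨mem_univ _, hs⟩)
  have hms : ∀ {g : ℝ × ℝ → ℝ}, ContinuousOn g (univ ×ˢ Icc a b) → ∀ t : ℝ,
      AEStronglyMeasurable (fun s => g (t, s)) (volume.restrict (uIoc a b)) := by
    intro g hg t
    rw [uIoc_of_le hab]
    exact ((hsl hg t).mono Ioc_subset_Icc_self).aestronglyMeasurable measurableSet_Ioc
  have := intervalIntegral.hasDerivAt_integral_of_dominated_loc_of_deriv_le
    (F := fun t s => f (t, s)) (F' := fun t s => f' (t, s)) (x₀ := t0) (a := a) (b := b)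
    (μ := volume) (bound := fun _ => C) (s := Metric.ball t0 1) (Metric.ball_mem_nhds t0 one_pos)
    (Eventually.of_forall (hms hf)) ((hsl hf t0).intervalIntegrable_of_Icc hab) (hms hf' t0) ?_
    intervalIntegrable_const ?_
  · exact this.2
  · refine Eventually.of_forall fun s hs t ht => hC (t, s) ⟨?_, ?_⟩
    · rw [Metric.mem_ball, Real.dist_eq, abs_lt] at ht
      exact ⟨by linarith [ht.1], by linarith [ht.2]⟩
    · rw [uIoc_of_le hab] at hs
      exact ⟨hs.1.le, hs.2⟩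
  · refine Eventually.of_forall fun s hs t ht => hd t s ?_
    rw [uIoc_of_le hab] at hs
    exact ⟨hs.1.le, hs.2⟩

/-- Euclidean inner product in coordinates. -/
def dot (z w : ℂ) : ℝ := z.re * w.re + z.im * w.im

/-- Signed area in coordinates. -/
def wedge (z w : ℂ) : ℝ := z.re * w.im - z.im * w.re

lemma hasDerivAt_re {f : ℝ → ℂ} {f' : ℂ} {t : ℝ} (h : HasDerivAt f f' t) :
    HasDerivAt (fun t => (f t).re) f'.re t := Complex.reCLM.hasFDerivAt.comp_hasDerivAt t h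

lemma hasDerivAt_im {f : ℝ → ℂ} {f' : ℂ} {t : ℝ} (h : HasDerivAt f f' t) :
    HasDerivAt (fun t => (f t).im) f'.im t := Complex.imCLM.hasFDerivAt.comp_hasDerivAt t h

lemma hasDerivAt_dot {f g : ℝ → ℂ} {f' g' : ℂ} {t : ℝ} (h : HasDerivAt f f' t)
    (k : HasDerivAt g g' t) : HasDerivAt (fun t => dot (f t) (g t)) (dot f' (g t) + dot (f t) g') t := by
  refine (((hasDerivAt_re h).mul (hasDerivAt_re k)).add
    ((hasDerivAt_im h).mul (hasDerivAt_im k))).congr_deriv ?_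
  unfold dot; ring

lemma hasDerivAt_wedge {f g : ℝ → ℂ} {f' g' : ℂ} {t : ℝ} (h : HasDerivAt f f' t)
    (k : HasDerivAt g g' t) :
    HasDerivAt (fun t => wedge (f t) (g t)) (wedge f' (g t) + wedge (f t) g') t := by
  refine (((hasDerivAt_re h).mul (hasDerivAt_im k)).sub
    ((hasDerivAt_im h).mul (hasDerivAt_re k))).congr_deriv ?_
  unfold wedge; ring

lemma norm_eq_sqrt_dot (z : ℂ) : ‖z‖ = √(dot z z) := by
  rw [Complex.norm_def, Complex.normSq_apply]
  rfl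

lemma dot_self_pos {z : ℂ} (hz : z ≠ 0) : 0 < dot z z := by
  have := Complex.normSq_pos.mpr hz
  rwa [Complex.normSq_apply] at this

lemma hasDerivAt_norm {f : ℝ → ℂ} {f' : ℂ} {t : ℝ} (h : HasDerivAt f f' t) (h0 : f t ≠ 0) :
    HasDerivAt (fun t => ‖f t‖) (dot (f t) f' / ‖f t‖) t := by
  have h1 := (hasDerivAt_dot h h).sqrt (dot_self_pos h0).ne'
  have e : (fun t => ‖f t‖) = fun t => √(dot (f t) (f t)) := funext fun t => norm_eq_sqrt_dot _
  rw [e, norm_eq_sqrt_dot (f t)]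
  refine h1.congr_deriv ?_
  have : dot f' (f t) = dot (f t) f' := by unfold dot; ring
  rw [this]
  have h2 : √(dot (f t) (f t)) ≠ 0 := (Real.sqrt_pos.mpr (dot_self_pos h0)).ne'
  field_simp
  ring

lemma hasDerivAt_ph {f : ℝ → ℂ} {f' : ℂ} {t : ℝ} (h : HasDerivAt f f' t) :
    HasDerivAt (fun t => ph (f t)) (-(ph (f t) * dot (f t) f')) t := hasDerivAt_ph_comp h

/-- One dimensional primitive of the Gaussian. -/
noncomputable def psi (x : ℝ) : ℝ := ∫ a in (0 : ℝ)..x, gw a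

lemma hasDerivAt_psi (x : ℝ) : HasDerivAt psi (gw x) x :=
  (continuous_gw.integral_hasStrictDerivAt 0 x).hasDerivAt

/-- A potential of the Gaussian density. -/
noncomputable def pot (z : ℂ) : ℝ := psi z.re * gw z.im

lemma continuous_pot : Continuous pot := by
  have h1 : Continuous psi := continuous_iff_continuousAt.mpr fun x => (hasDerivAt_psi x).continuousAt
  unfold pot
  exact (h1.comp Complex.continuous_re).mul (continuous_gw.comp Complex.continuous_im)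

lemma ph_eq_gw (z : ℂ) : ph z = gw z.re * gw z.im := by
  rw [ph_eq, gw, gw, ← Real.exp_add]
  congr 1
  ring

lemma hasDerivAt_pot {f : ℝ → ℂ} {f' : ℂ} {t : ℝ} (h : HasDerivAt f f' t) :
    HasDerivAt (fun t => pot (f t)) (ph (f t) * f'.re - (f t).im * pot (f t) * f'.im) t := by
  have h1 := (hasDerivAt_psi (f t).re).comp t (hasDerivAt_re h)
  have h2 := (hasDerivAt_gw (f t).im).comp t (hasDerivAt_im h)
  refine (h1.mul h2).congr_deriv ?_
  rw [ph_eq_gw, pot]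
  simp only [Function.comp_apply]
  ring

end Pool.Agent.MP_845d3b_gt
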