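import Pool.Agent.MP_845d3b_gt.Gauge

open Set Filter Topology MeasureTheory
open scoped ContDiff

namespace Pool.Agent.MP_845d3b_gt

/-- outer cells -/
def cell (ε r0 : ℝ) (c : ℝ → ℂ) (j : Fin 3) : Set ℂ := {z | z ∈ Sec j ∧ r0 < gau ε r0 c z}

/-- the curved triangle -/
def tri (ε r0 : ℝ) (c : ℝ → ℂ) : Set ℂ := {z | gau ε r0 c z < r0}

section

variable {ε r0 lam : ℝ} {c : ℝ → ℂ}

lemma isOpen_cell (A : IsArc ε c r0 lam) (j : Fin 3) : IsOpen (cell ε r0 c j) :=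
  (isOpen_Sec j).inter (isOpen_lt continuous_const (continuous_gau A))

lemma isOpen_tri (A : IsArc ε c r0 lam) : IsOpen (tri ε r0 c) :=
  isOpen_lt (continuous_gau A) continuous_const

lemma gau_zero (A : IsArc ε c r0 lam) : gau ε r0 c 0 = 0 := by
  have := gau_Kp A 0 (le_refl 0) Iv_facts.2.2
  unfold Kp at this
  simpa using this

/-- polar description of points -/
lemma polar (A : IsArc ε c r0 lam) {j : Fin 3} {z : ℂ} (hz : z ∈ cSec j) :
    ∃ r ≥ 0, ∃ α ∈ Iv, z = Kp r0 c j (r, α) := by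
  by_cases h0 : z = 0
  · refine ⟨0, le_rfl, 0, Iv_facts.2.2, ?_⟩
    rw [h0]
    unfold Kp
    simp
  · obtain ⟨r, hr, α, hα, he⟩ := surj A hz h0
    exact ⟨r, hr.le, α, hα, he⟩

lemma gau_nonneg (A : IsArc ε c r0 lam) (z : ℂ) : 0 ≤ gau ε r0 c z := by
  obtain ⟨j, hj⟩ := cSec_cover z
  obtain ⟨r, hr, α, hα, rfl⟩ := polar A hj
  rw [gau_Kp A j hr hα]
  exact hr

lemma gau_smul (A : IsArc ε c r0 lam) {s : ℝ} (hs : 0 ≤ s) (z : ℂ) :
    gau ε r0 c ((s : ℂ) * z) = s * gau ε r0 c z := by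
  obtain ⟨j, hj⟩ := cSec_cover z
  obtain ⟨r, hr, α, hα, rfl⟩ := polar A hj
  rw [gau_Kp A j hr hα]
  have e : (s : ℂ) * Kp r0 c j (r, α) = Kp r0 c j (s * r, α) := by
    unfold Kp
    push_cast
    ring
  rw [e, gau_Kp A j (mul_nonneg hs hr) hα]

lemma gau_norm (A : IsArc ε c r0 lam) (z : ℂ) :
    gau ε r0 c z / 3 ≤ ‖z‖ ∧ ‖z‖ ≤ gau ε r0 c z * (2 * ε / r0) := by
  obtain ⟨j, hj⟩ := cSec_cover z
  obtain ⟨r, hr, α, hα, rfl⟩ := polar A hj
  rw [gau_Kp A j hr hα]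
  exact Kp_norm A j hr hα

lemma closure_tri (A : IsArc ε c r0 lam) : closure (tri ε r0 c) = {z | gau ε r0 c z ≤ r0} := by
  apply subset_antisymm
  · refine closure_minimal (fun z hz => ?_) (isClosed_le (continuous_gau A) continuous_const)
    exact le_of_lt (show gau ε r0 c z < r0 from hz)
  · intro z hz
    have hz' : gau ε r0 c z ≤ r0 := hz
    have hlim : Tendsto (fun n : ℕ => (((1 - 1 / ((n : ℝ) + 1) : ℝ)) : ℂ) * z) atTop (𝓝 z) := by
      have h1 : Tendsto (fun n : ℕ => 1 - 1 / ((n : ℝ) + 1)) atTop (𝓝 (1 - 0)) :=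
        tendsto_const_nhds.sub tendsto_one_div_add_atTop_nhds_zero_nat
      have h2 := (Complex.continuous_ofReal.tendsto _).comp h1
      have h3 := h2.mul_const z
      simpa using h3
    refine mem_closure_of_tendsto hlim (Eventually.of_forall fun n => ?_)
    have h4 : 0 ≤ 1 - 1 / ((n : ℝ) + 1) := by
      rw [sub_nonneg, div_le_one (by positivity)]
      have : (0 : ℝ) ≤ n := Nat.cast_nonneg n
      linarith
    have h5 : 1 - 1 / ((n : ℝ) + 1) < 1 := by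
      have : 0 < 1 / ((n : ℝ) + 1) := by positivity
      linarith
    change gau ε r0 c _ < r0
    rw [gau_smul A h4]
    have h6 := gau_nonneg A z
    rcases h6.eq_or_lt with h7 | h7
    · rw [← h7, mul_zero]
      exact A.r0_pos
    · calc _ < 1 * gau ε r0 c z := mul_lt_mul_of_pos_right h5 h7
        _ ≤ r0 := by rw [one_mul]; exact hz'

lemma closure_cell (A : IsArc ε c r0 lam) (j : Fin 3) :
    closure (cell ε r0 c j) = {z | z ∈ cSec j ∧ r0 ≤ gau ε r0 c z} := by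
  apply subset_antisymm
  · refine closure_minimal (fun z hz => ?_)
      ((isClosed_cSec j).inter (isClosed_le continuous_const (continuous_gau A)))
    exact ⟨Sec_subset j hz.1, le_of_lt hz.2⟩
  · rintro z ⟨hz1, hz2⟩
    obtain ⟨r, hr, α, hα, rfl⟩ := polar A hz1
    rw [gau_Kp A j hr hα] at hz2
    -- approximate by interior parameters
    have hKc : Continuous (Kp r0 c j) := by
      unfold Kp
      have := A.smooth.continuous
      fun_prop
    have hin : Kp r0 c j '' (Ioi r0 ×ˢ Io) ⊆ cell ε r0 c j := by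
      rintro _ ⟨⟨r', α'⟩, ⟨h1, h2⟩, rfl⟩
      have hr' : (0 : ℝ) < r' := A.r0_pos.trans h1
      refine ⟨Kp_mem_Sec A j hr' h2, ?_⟩
      rw [gau_Kp A j hr'.le ⟨h2.1.le, h2.2.le⟩]
      exact h1
    have hcl : (r, α) ∈ closure (Ioi r0 ×ˢ Io) := by
      rw [closure_prod_eq, closure_Ioi, Io, closure_Ioo (by linarith [pi6_facts.1])]
      exact ⟨hz2, hα⟩
    exact closure_mono hin (image_closure_subset_closure_image hKc ⟨_, hcl, rfl⟩)

lemma frontier_tri (A : IsArc ε c r0 lam) : frontier (tri ε r0 c) = {z | gau ε r0 c z = r0} := by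
  rw [(isOpen_tri A).frontier_eq, closure_tri A]
  ext z
  constructor
  · rintro ⟨h1, h2⟩
    exact le_antisymm h1 (not_lt.mp h2)
  · intro h
    have h' : gau ε r0 c z = r0 := h
    exact ⟨h'.le, fun h2 => absurd (show gau ε r0 c z < r0 from h2) (by rw [h']; exact lt_irrefl _)⟩

lemma frontier_cell (A : IsArc ε c r0 lam) (j : Fin 3) : frontier (cell ε r0 c j) =
    {z | z ∈ cSec j ∧ r0 ≤ gau ε r0 c z ∧ (z ∈ Sec j → gau ε r0 c z = r0)} := by
  rw [(isOpen_cell A j).frontier_eq, closure_cell A]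
  ext z
  constructor
  · rintro ⟨⟨h1, h2⟩, h3⟩
    refine ⟨h1, h2, fun h4 => ?_⟩
    by_contra h5
    exact h3 ⟨h4, lt_of_le_of_ne h2 (Ne.symm h5)⟩
  · rintro ⟨h1, h2, h3⟩
    refine ⟨⟨h1, h2⟩, fun h4 => ?_⟩
    have h5 := h3 h4.1
    exact absurd h4.2 (by rw [h5]; exact lt_irrefl _)

lemma arc_eq_Kp (A : IsArc ε c r0 lam) (j : Fin 3) (α : ℝ) : arc c j α = Kp r0 c j (r0, α) := by
  unfold arc Kp
  have := A.r0_pos.ne'
  simp only
  rw [div_self this]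
  simp

/-- interface of an outer cell with the triangle -/
lemma iface_arc (A : IsArc ε c r0 lam) (j : Fin 3) :
    frontier (cell ε r0 c j) ∩ frontier (tri ε r0 c) = arc c j '' Iv := by
  rw [frontier_cell A, frontier_tri A]
  ext z
  constructor
  · rintro ⟨⟨h1, h2, h3⟩, h4⟩
    obtain ⟨r, hr, α, hα, rfl⟩ := polar A h1
    have h4' : gau ε r0 c (Kp r0 c j (r, α)) = r0 := h4
    rw [gau_Kp A j hr hα] at h4'
    exact ⟨α, hα, by rw [arc_eq_Kp A, h4']⟩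
  · rintro ⟨α, hα, rfl⟩
    rw [arc_eq_Kp A]
    have h1 := gau_Kp A j A.r0_pos.le hα
    exact ⟨⟨Kp_mem_cSec A j A.r0_pos.le hα, h1.ge, fun _ => h1⟩, h1⟩

/-- interface of adjacent outer cells -/
lemma iface_ray (A : IsArc ε c r0 lam) (j : Fin 3) :
    frontier (cell ε r0 c j) ∩ frontier (cell ε r0 c (j + 1)) = ray j '' Ici r0 := by
  have hne : j ≠ j + 1 := by fin_cases j <;> decide
  rw [frontier_cell A, frontier_cell A]
  ext z
  constructor
  · rintro ⟨⟨h1, h2, h3⟩, h4, _, _⟩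
    obtain ⟨r, hr, rfl⟩ := (cSec_inter j z).mp ⟨h1, h4⟩
    rw [← (Kp_b A j r).1, gau_Kp A j hr Iv_facts.2.1] at h2
    exact ⟨r, h2, rfl⟩
  · rintro ⟨r, hr, rfl⟩
    have hr0 : (0 : ℝ) ≤ r := A.r0_pos.le.trans hr
    obtain ⟨h1, h2⟩ := (cSec_inter j (ray j r)).mpr ⟨r, hr0, rfl⟩
    have h3 : gau ε r0 c (ray j r) = r := by
      rw [← (Kp_b A j r).1, gau_Kp A j hr0 Iv_facts.2.1]
    have h3' : r0 ≤ gau ε r0 c (ray j r) := by rw [h3]; exact hr
    exact ⟨⟨h1, h3', fun h => absurd h2 (Sec_disj hne h)⟩,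
      h2, h3', fun h => absurd h1 (Sec_disj hne.symm h)⟩

lemma cell_disj (j k : Fin 3) (h : j ≠ k) :
    Disjoint (cell ε r0 c j) (cell ε r0 c k) := by
  rw [Set.disjoint_left]
  intro z hz hz'
  exact Sec_disj h hz.1 (Sec_subset k hz'.1)

lemma cell_tri_disj (j : Fin 3) : Disjoint (cell ε r0 c j) (tri ε r0 c) := by
  rw [Set.disjoint_left]
  rintro z ⟨_, h1⟩ h2
  have h2' : gau ε r0 c z < r0 := h2
  exact lt_asymm h1 h2'

lemma cover (A : IsArc ε c r0 lam) (z : ℂ) :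
    (∃ j, z ∈ closure (cell ε r0 c j)) ∨ z ∈ closure (tri ε r0 c) := by
  rw [closure_tri A]
  rcases le_total (gau ε r0 c z) r0 with h | h
  · exact Or.inr h
  · obtain ⟨j, hj⟩ := cSec_cover z
    refine Or.inl ⟨j, ?_⟩
    rw [closure_cell A]
    exact ⟨hj, h⟩

lemma cell_eq (A : IsArc ε c r0 lam) (j : Fin 3) :
    cell ε r0 c j = Kp r0 c j '' (Ioi r0 ×ˢ Io) := by
  ext z
  constructor
  · rintro ⟨h1, h2⟩
    obtain ⟨r, hr, α, hα, rfl⟩ := (mem_Sec_iff A).mp h1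
    rw [gau_Kp A j hr.le ⟨hα.1.le, hα.2.le⟩] at h2
    exact ⟨(r, α), ⟨h2, hα⟩, rfl⟩
  · rintro ⟨⟨r, α⟩, ⟨h1, h2⟩, rfl⟩
    have hr' : (0 : ℝ) < r := A.r0_pos.trans h1
    refine ⟨Kp_mem_Sec A j hr' h2, ?_⟩
    rw [gau_Kp A j hr'.le ⟨h2.1.le, h2.2.le⟩]
    exact h1

/-- part of the triangle in an open sector -/
lemma tri_inter (A : IsArc ε c r0 lam) (j : Fin 3) :
    tri ε r0 c ∩ Sec j = Kp r0 c j '' (Ioo 0 r0 ×ˢ Io) := by
  ext z
  constructor
  · rintro ⟨h1, h2⟩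
    obtain ⟨r, hr, α, hα, rfl⟩ := (mem_Sec_iff A).mp h2
    have h1' : gau ε r0 c (Kp r0 c j (r, α)) < r0 := h1
    rw [gau_Kp A j hr.le ⟨hα.1.le, hα.2.le⟩] at h1'
    exact ⟨(r, α), ⟨⟨hr, h1'⟩, hα⟩, rfl⟩
  · rintro ⟨⟨r, α⟩, ⟨h1, h2⟩, rfl⟩
    refine ⟨?_, Kp_mem_Sec A j h1.1 h2⟩
    change gau ε r0 c _ < r0
    rw [gau_Kp A j h1.1.le ⟨h2.1.le, h2.2.le⟩]
    exact h1.2

end

end Pool.Agent.MP_845d3b_gt
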