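import Mathlib

open Set Filter Topology MeasureTheory Measure
open scoped ENNReal NNReal

namespace Pool.Agent.MP_845d3b_gt

/-- Local two sided bounds for the length measure of a curve. -/
lemma haus_bounds {γ : ℝ → ℂ} {v : ℂ} {c : ℝ} (hγ : HasStrictDerivAt γ v c) {ε : ℝ} (hε : 0 < ε) :
    ∃ δ > 0, ∀ S ⊆ Metric.ball c δ,
      μH[1] (γ '' S) ≤ ENNReal.ofReal (‖v‖ + ε) * volume S ∧
      ENNReal.ofReal (‖v‖ - ε) * volume S ≤ μH[1] (γ '' S) := by
  have h1 := hγ.hasStrictFDerivAt.isLittleO.def hε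
  obtain ⟨δ, hδ, h2⟩ := Metric.eventually_nhds_iff_ball.mp h1
  refine ⟨δ, hδ, fun S hS => ?_⟩
  have key : ∀ x ∈ S, ∀ y ∈ S, ‖γ x - γ y - (x - y) • v‖ ≤ ε * |x - y| := by
    intro x hx y hy
    have hxy : (x, y) ∈ Metric.ball ((c, c) : ℝ × ℝ) δ := by
      rw [← ball_prod_same]
      exact ⟨hS hx, hS hy⟩
    have := h2 (x, y) hxy
    simpa [ContinuousLinearMap.toSpanSingleton_apply] using this
  constructor
  · have hL : LipschitzOnWith (Real.toNNReal (‖v‖ + ε)) γ S := by
      refine LipschitzOnWith.of_dist_le_mul fun x hx y hy => ?_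
      rw [dist_eq_norm, dist_eq_norm, Real.coe_toNNReal _ (by positivity)]
      have := key x hx y hy
      have e : γ x - γ y = (γ x - γ y - (x - y) • v) + (x - y) • v := by ring
      rw [e]
      refine (norm_add_le _ _).trans ?_
      rw [norm_smul, Real.norm_eq_abs]
      linarith
    have := hL.hausdorffMeasure_image_le (d := 1) zero_le_one
    rw [ENNReal.rpow_one, hausdorffMeasure_real] at this
    exact this
  · by_cases hneg : ‖v‖ - ε ≤ 0
    · rw [ENNReal.ofReal_of_nonpos hneg, zero_mul]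
      exact zero_le
    · push Not at hneg
      set K : ℝ≥0 := (Real.toNNReal (‖v‖ - ε))⁻¹ with hK
      have hKpos : 0 < Real.toNNReal (‖v‖ - ε) := Real.toNNReal_pos.mpr hneg
      have hf : AntilipschitzWith K (fun x : S => γ x) := by
        refine AntilipschitzWith.of_le_mul_dist fun x y => ?_
        rw [hK, NNReal.coe_inv, Real.coe_toNNReal _ hneg.le, inv_mul_eq_div, le_div_iff₀ hneg]
        have := key x x.2 y y.2
        rw [Subtype.dist_eq, dist_eq_norm, dist_eq_norm, Real.norm_eq_abs]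
        have h3 : |(x : ℝ) - y| * ‖v‖ ≤ ‖γ x - γ y‖ + ε * |(x : ℝ) - y| := by
          have e : ((x : ℝ) - y) • v = (γ x - γ y) - (γ x - γ y - ((x : ℝ) - y) • v) := by ring
          have h4 : ‖((x : ℝ) - y) • v‖ ≤ ‖γ x - γ y‖ + ‖γ x - γ y - ((x : ℝ) - y) • v‖ := by
            nth_rw 1 [e]
            exact norm_sub_le _ _
          rw [norm_smul, Real.norm_eq_abs] at h4
          linarith
        nlinarith
      have h5 := hf.le_hausdorffMeasure_image (d := 1) zero_le_one univ
      have h6 : (fun x : S => γ x) '' univ = γ '' S := by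
        ext z; simp
      have h7 : μH[1] (univ : Set S) = volume S := by
        have := (isometry_subtype_coe (s := S)).hausdorffMeasure_image (d := 1)
          (Or.inl zero_le_one) univ
        rw [← this, hausdorffMeasure_real]
        simp
      rw [h6, h7, ENNReal.rpow_one] at h5
      have hK2 : (K : ℝ≥0∞) = (ENNReal.ofReal (‖v‖ - ε))⁻¹ := by
        rw [hK, ENNReal.coe_inv hKpos.ne']
        rfl
      rw [hK2] at h5
      have h8 : ENNReal.ofReal (‖v‖ - ε) ≠ 0 := by
        rw [Ne, ENNReal.ofReal_eq_zero, not_le]; exact hneg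
      calc ENNReal.ofReal (‖v‖ - ε) * volume S ≤
            ENNReal.ofReal (‖v‖ - ε) * ((ENNReal.ofReal (‖v‖ - ε))⁻¹ * μH[1] (γ '' S)) := by gcongr
        _ = μH[1] (γ '' S) := by
          rw [← mul_assoc, ENNReal.mul_inv_cancel h8 ENNReal.ofReal_ne_top, one_mul]

/-- The length measure of an injective curve on an interval is the weighted Lebesgue measure. -/
theorem curve_measure {γ γ' : ℝ → ℂ} {a b : ℝ} (hab : a ≤ b)
    (hd : ∀ x ∈ Icc a b, HasStrictDerivAt γ (γ' x) x) (hc : ContinuousOn γ' (Icc a b))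
    (hinj : InjOn γ (Icc a b)) {g : ℂ → ℝ≥0∞} (hg : Measurable g) :
    ∫⁻ z in γ '' Icc a b, g z ∂(μH[1]) =
      ∫⁻ s in Ioc a b, g (γ s) * ENNReal.ofReal ‖γ' s‖ := by
  have hγc : ContinuousOn γ (Icc a b) := fun x hx => (hd x hx).hasDerivAt.continuousAt.continuousWithinAt
  set f : ↥(Icc a b) → ℂ := fun x => γ x with hf
  have hfc : Continuous f := continuousOn_iff_continuous_domRestrict.mp hγc
  have hfi : Function.Injective f := fun x y h => Subtype.ext (hinj x.2 y.2 h)
  have hfe : MeasurableEmbedding f := (hfc.isClosedEmbedding hfi).measurableEmbedding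
  set ν : Measure ℝ := Measure.map Subtype.val (Measure.comap f μH[1]) with hν
  have hνS : ∀ S, MeasurableSet S → ν S = μH[1] (γ '' (S ∩ Icc a b)) := by
    intro S hS
    rw [hν, Measure.map_apply measurable_subtype_coe hS, hfe.comap_apply]
    congr 1
    ext z
    simp only [mem_image, mem_preimage, hf, mem_inter_iff]
    constructor
    · rintro ⟨x, hx, rfl⟩
      exact ⟨x, ⟨hx, x.2⟩, rfl⟩
    · rintro ⟨x, ⟨hx1, hx2⟩, rfl⟩
      exact ⟨⟨x, hx2⟩, hx1, rfl⟩
  have hνI : ∀ c d, a ≤ c → d ≤ b → ν (Ioc c d) = μH[1] (γ '' Ioc c d) := by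
    intro c d hc' hd'
    rw [hνS _ measurableSet_Ioc]
    congr 2
    rw [inter_eq_left]
    exact fun x hx => ⟨hc'.trans hx.1.le, hx.2.trans hd'⟩
  -- global Lipschitz bound
  obtain ⟨C, hC⟩ := isCompact_Icc.exists_bound_of_continuousOn hc
  have hC0 : 0 ≤ C := by
    have := hC a ⟨le_rfl, hab⟩
    exact (norm_nonneg _).trans this
  have hLip : LipschitzOnWith (Real.toNNReal C) γ (Icc a b) := by
    refine LipschitzOnWith.of_dist_le_mul fun x hx y hy => ?_
    rw [dist_eq_norm, dist_eq_norm, Real.coe_toNNReal _ hC0]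
    exact (convex_Icc a b).norm_image_sub_le_of_norm_hasDerivWithin_le
      (fun z hz => (hd z hz).hasDerivAt.hasDerivWithinAt) hC hy hx
  have hνle : ∀ c d, a ≤ c → d ≤ b → ν (Ioc c d) ≤ ENNReal.ofReal (C * (d - c)) := by
    intro c d hc' hd'
    rw [hνI c d hc' hd']
    have h1 : Ioc c d ⊆ Icc a b := fun x hx => ⟨hc'.trans hx.1.le, hx.2.trans hd'⟩
    have := (hLip.mono h1).hausdorffMeasure_image_le (d := 1) zero_le_one
    rw [ENNReal.rpow_one, hausdorffMeasure_real, Real.volume_Ioc] at this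
    refine this.trans ?_
    rw [ENNReal.ofReal_mul hC0]
    rfl
  have hνfin : ∀ c d, a ≤ c → d ≤ b → ν (Ioc c d) ≠ ∞ := fun c d h1 h2 =>
    ne_top_of_le_ne_top ENNReal.ofReal_ne_top (hνle c d h1 h2)
  -- the distribution function
  set V : ℝ → ℝ := fun d => (ν (Ioc a d)).toReal with hV
  have hVdiff : ∀ c d, a ≤ c → c ≤ d → d ≤ b → V d - V c = (ν (Ioc c d)).toReal := by
    intro c d h1 h2 h3
    have e : Ioc a d = Ioc a c ∪ Ioc c d := (Ioc_union_Ioc_eq_Ioc h1 h2).symm
    have e2 : ν (Ioc a d) = ν (Ioc a c) + ν (Ioc c d) := by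
      rw [e, measure_union (Ioc_disjoint_Ioc_of_le le_rfl) measurableSet_Ioc]
    rw [hV]
    simp only
    rw [e2, ENNReal.toReal_add (hνfin a c le_rfl (h2.trans h3)) (hνfin c d h1 h3)]
    ring
  have hVle : ∀ c d, a ≤ c → c ≤ d → d ≤ b → V d - V c ≤ C * (d - c) := by
    intro c d h1 h2 h3
    rw [hVdiff c d h1 h2 h3]
    refine ENNReal.toReal_le_of_le_ofReal ?_ (hνle c d h1 h3)
    exact mul_nonneg hC0 (by linarith)
  have hVc : ContinuousOn V (Icc a b) := by
    have : LipschitzOnWith (Real.toNNReal C) V (Icc a b) := by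
      refine LipschitzOnWith.of_dist_le_mul fun x hx y hy => ?_
      rw [Real.dist_eq, Real.dist_eq, Real.coe_toNNReal _ hC0]
      rcases le_total x y with h | h
      · have h1 := hVdiff x y hx.1 h hy.2
        have h2 := hVle x y hx.1 h hy.2
        have h3 : 0 ≤ V y - V x := by rw [h1]; exact ENNReal.toReal_nonneg
        rw [abs_sub_comm, abs_of_nonneg h3, abs_sub_comm, abs_of_nonneg (by linarith)]
        exact h2
      · have h1 := hVdiff y x hy.1 h hx.2
        have h2 := hVle y x hy.1 h hx.2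
        have h3 : 0 ≤ V x - V y := by rw [h1]; exact ENNReal.toReal_nonneg
        rw [abs_of_nonneg h3, abs_of_nonneg (by linarith)]
        exact h2
    exact this.continuousOn
  have hVder : ∀ c ∈ Ico a b, HasDerivWithinAt V ‖γ' c‖ (Ici c) c := by
    intro c hc'
    rw [hasDerivWithinAt_iff_isLittleO, Asymptotics.isLittleO_iff]
    intro ε hε
    obtain ⟨δ, hδ, hb⟩ := haus_bounds (hd c ⟨hc'.1, hc'.2.le⟩) hε
    have hmem : Ico c (min (c + δ) b) ∈ 𝓝[≥] c :=
      Ico_mem_nhdsGE (lt_min (by linarith) hc'.2)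
    filter_upwards [hmem] with d hd'
    have hcd := hd'.1
    have hdb : d ≤ b := (hd'.2.trans_le (min_le_right _ _)).le
    have hdδ : d < c + δ := hd'.2.trans_le (min_le_left _ _)
    have hsub : Ioc c d ⊆ Metric.ball c δ := fun x hx => by
      rw [Metric.mem_ball, Real.dist_eq, abs_of_pos (by linarith [hx.1])]
      linarith [hx.2]
    obtain ⟨h1, h2⟩ := hb _ hsub
    rw [← hνI c d hc'.1 hdb, Real.volume_Ioc] at h1 h2
    rw [hVdiff c d hc'.1 hcd hdb, Real.norm_eq_abs, Real.norm_eq_abs, smul_eq_mul,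
      abs_of_nonneg (by linarith : 0 ≤ d - c), abs_le]
    have hdc : 0 ≤ d - c := by linarith
    constructor
    · have h3 : (‖γ' c‖ - ε) * (d - c) ≤ (ν (Ioc c d)).toReal := by
        by_cases hneg : ‖γ' c‖ - ε ≤ 0
        · exact (mul_nonpos_of_nonpos_of_nonneg hneg hdc).trans ENNReal.toReal_nonneg
        · push Not at hneg
          rw [← ENNReal.ofReal_mul hneg.le] at h2
          have := ENNReal.toReal_mono (hνfin c d hc'.1 hdb) h2
          rwa [ENNReal.toReal_ofReal (mul_nonneg hneg.le hdc)] at this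
      linarith
    · have h3 : (ν (Ioc c d)).toReal ≤ (‖γ' c‖ + ε) * (d - c) := by
        rw [← ENNReal.ofReal_mul (by positivity)] at h1
        exact ENNReal.toReal_le_of_le_ofReal (by positivity) h1
      linarith
  have hnc : ContinuousOn (fun x => ‖γ' x‖) (Icc a b) := hc.norm
  have hint : ∀ d ∈ Icc a b, V d = ∫ s in a..d, ‖γ' s‖ := by
    have hII : IntegrableOn (fun x => ‖γ' x‖) (Icc a b) := hnc.integrableOn_Icc
    refine eq_of_has_deriv_right_eq (f' := fun x => ‖γ' x‖) hVder ?_ hVc ?_ ?_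
    · intro x hx
      have hi : IntervalIntegrable (fun x => ‖γ' x‖) volume a x :=
        (hnc.mono (Icc_subset_Icc_right hx.2.le)).intervalIntegrable_of_Icc hx.1
      have hcw : ContinuousWithinAt (fun x => ‖γ' x‖) (Ici x) x := by
        refine (hnc x ⟨hx.1, hx.2.le⟩).mono_of_mem_nhdsWithin ?_
        exact mem_of_superset (Icc_mem_nhdsGE hx.2) (Icc_subset_Icc_left hx.1)
      refine intervalIntegral.integral_hasDerivWithinAt_right hi (s := Ici x) (t := Ioi x) ?_
        (hcw.mono Ioi_subset_Ici_self)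
      have : ContinuousOn (fun x => ‖γ' x‖) (Ioo x b) :=
        hnc.mono fun y hy => ⟨hx.1.trans hy.1.le, hy.2.le⟩
      refine ⟨Ioo x b, Ioo_mem_nhdsGT hx.2, ?_⟩
      exact this.aestronglyMeasurable measurableSet_Ioo
    · have := intervalIntegral.continuousOn_primitive_interval (f := fun x => ‖γ' x‖)
        (μ := volume) (a := a) (b := b) (by rwa [uIcc_of_le hab])
      rwa [uIcc_of_le hab] at this
    · simp [hV]
  -- identification of the measures
  have hmeas : ν.restrict (Ioc a b) =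
      (volume.restrict (Ioc a b)).withDensity (fun s => ENNReal.ofReal ‖γ' s‖) := by
    have : IsFiniteMeasure (ν.restrict (Ioc a b)) :=
      ⟨by rw [Measure.restrict_apply_univ]; exact lt_top_iff_ne_top.mpr (hνfin a b le_rfl le_rfl)⟩
    refine Measure.ext_of_Ioc _ _ fun x y hxy => ?_
    rw [Measure.restrict_apply measurableSet_Ioc, withDensity_apply _ measurableSet_Ioc,
      Measure.restrict_restrict measurableSet_Ioc, Ioc_inter_Ioc]
    rcases le_or_gt (y ⊓ b) (x ⊔ a) with h | h
    · rw [Ioc_eq_empty (not_lt.mpr h)]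
      simp
    · have h1 : a ≤ x ⊔ a := le_sup_right
      have h2 : y ⊓ b ≤ b := inf_le_right
      have h3 := hVdiff _ _ h1 h.le h2
      rw [hint _ ⟨h1.trans h.le, h2⟩, hint _ ⟨h1, h.le.trans h2⟩] at h3
      have i1 : IntervalIntegrable (fun x => ‖γ' x‖) volume a (y ⊓ b) :=
        (hnc.mono (Icc_subset_Icc_right h2)).intervalIntegrable_of_Icc (h1.trans h.le)
      have i2 : IntervalIntegrable (fun x => ‖γ' x‖) volume a (x ⊔ a) :=
        (hnc.mono (Icc_subset_Icc_right (h.le.trans h2))).intervalIntegrable_of_Icc h1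
      rw [intervalIntegral.integral_interval_sub_left i1 i2] at h3
      rw [← ENNReal.ofReal_toReal (hνfin _ _ h1 h2), ← h3,
        intervalIntegral.integral_of_le h.le, ofReal_integral_eq_lintegral_ofReal]
      · have : IntegrableOn (fun x => ‖γ' x‖) (Icc a b) := hnc.integrableOn_Icc
        exact this.mono_set fun z hz => ⟨h1.trans hz.1.le, hz.2.trans h2⟩
      · exact Eventually.of_forall fun x => norm_nonneg _
  -- the image measure
  have hmap : (μH[1] : Measure ℂ).restrict (γ '' Ioc a b) =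
      ((Measure.comap f μH[1]).map f).restrict (γ '' Ioc a b) := by
    have hsub : γ '' Ioc a b ⊆ range f := by
      rintro _ ⟨x, hx, rfl⟩
      exact ⟨⟨x, hx.1.le, hx.2⟩, rfl⟩
    rw [hfe.map_comap, Measure.restrict_restrict_of_subset hsub]
  have hImeas : MeasurableSet (γ '' Ioc a b) := by
    have : γ '' Ioc a b = f '' (Subtype.val ⁻¹' Ioc a b) := by
      ext z
      simp only [mem_image, mem_preimage, hf]
      constructor
      · rintro ⟨x, hx, rfl⟩
        exact ⟨⟨x, hx.1.le, hx.2⟩, hx, rfl⟩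
      · rintro ⟨x, hx, rfl⟩
        exact ⟨x, hx, rfl⟩
    rw [this]
    exact hfe.measurableSet_image.mpr (measurable_subtype_coe measurableSet_Ioc)
  have hsplit : γ '' Icc a b = {γ a} ∪ γ '' Ioc a b := by
    rw [← image_singleton, ← image_union, singleton_union, Ioc_insert_left hab]
  have hnull : (μH[1] : Measure ℂ) {γ a} = 0 := by
    have := nullSingletonClass_hausdorff (X := ℂ) (d := 1) one_pos
    exact measure_singleton _
  have h1 : ∫⁻ z in γ '' Icc a b, g z ∂(μH[1]) = ∫⁻ z in γ '' Ioc a b, g z ∂(μH[1]) := by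
    refine setLIntegral_congr ?_
    rw [hsplit]
    refine (union_ae_eq_right_of_ae_eq_empty ?_)
    exact ae_eq_empty.mpr hnull
  rw [h1, hmap, ← lintegral_indicator hImeas, hfe.lintegral_map]
  -- pass to the real line
  have h2 : ∫⁻ x : ↥(Icc a b), (γ '' Ioc a b).indicator g (f x) ∂(Measure.comap f μH[1]) =
      ∫⁻ x : ↥(Icc a b), (Subtype.val ⁻¹' Ioc a b).indicator (fun x => g (f x)) x
        ∂(Measure.comap f μH[1]) := by
    refine lintegral_congr fun x => ?_
    by_cases hx : (x : ℝ) ∈ Ioc a b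
    · rw [indicator_of_mem (show f x ∈ γ '' Ioc a b from ⟨x, hx, rfl⟩),
        indicator_of_mem (show x ∈ Subtype.val ⁻¹' Ioc a b from hx)]
    · rw [indicator_of_notMem, indicator_of_notMem (show x ∉ Subtype.val ⁻¹' Ioc a b from hx)]
      rintro ⟨y, hy, hxy⟩
      have : y = x := hinj ⟨hy.1.le, hy.2⟩ x.2 hxy
      exact hx (this ▸ hy)
  rw [h2]
  -- extend `g ∘ γ` measurably
  set G : ℝ → ℝ≥0∞ := fun s => g (γ (projIcc a b hab s)) with hG
  have hGm : Measurable G := hg.comp (hfc.comp continuous_projIcc).measurable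
  have h3 : ∫⁻ x : ↥(Icc a b), (Subtype.val ⁻¹' Ioc a b).indicator (fun x => g (f x)) x
        ∂(Measure.comap f μH[1]) = ∫⁻ s, (Ioc a b).indicator G s ∂ν := by
    rw [hν, lintegral_map (hGm.indicator measurableSet_Ioc) measurable_subtype_coe]
    refine lintegral_congr fun x => ?_
    by_cases hx : (x : ℝ) ∈ Ioc a b
    · rw [indicator_of_mem (show x ∈ Subtype.val ⁻¹' Ioc a b from hx), indicator_of_mem hx, hG]
      simp only [hf]
      rw [projIcc_of_mem hab x.2]
    · rw [indicator_of_notMem (show x ∉ Subtype.val ⁻¹' Ioc a b from hx), indicator_of_notMem hx]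
  rw [h3, lintegral_indicator measurableSet_Ioc, hmeas]
  have hdm : AEMeasurable (fun s => ENNReal.ofReal ‖γ' s‖) (volume.restrict (Ioc a b)) := by
    refine ENNReal.measurable_ofReal.comp_aemeasurable ?_
    exact ((hnc.mono Ioc_subset_Icc_self).aestronglyMeasurable measurableSet_Ioc).aemeasurable
  rw [lintegral_withDensity_eq_lintegral_mul₀ hdm hGm.aemeasurable]
  refine setLIntegral_congr_fun measurableSet_Ioc fun s hs => ?_
  simp only [Pi.mul_apply, hG]
  rw [projIcc_of_mem hab ⟨hs.1.le, hs.2⟩, mul_comm]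

end Pool.Agent.MP_845d3b_gt
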