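import Mathlib

open Set Filter Topology MeasureTheory Measure
open scoped ContDiff ENNReal

namespace Pool.Agent.MP_845d3b_gt

/-- Standard Gaussian density of the plane. The plane is `ℂ` with its Euclidean norm. -/
noncomputable def gdens (x : ℂ) : ℝ := (2 * Real.pi)⁻¹ * Real.exp (-‖x‖ ^ 2 / 2)

/-- Gaussian measure of a subset of the plane. -/
noncomputable def gvol (S : Set ℂ) : ℝ := ∫ x in S, gdens x

/-- Gaussian length of a subset of the plane: the integral of the Gaussian density with respect to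
one-dimensional Hausdorff measure. -/
noncomputable def glen (S : Set ℂ) : ℝ≥0∞ := ∫⁻ x in S, ENNReal.ofReal (gdens x) ∂μH[1]

variable {q : ℕ}

/-- The interface between two cells. -/
def iface (Ω : Fin q → Set ℂ) (i j : Fin q) : Set ℂ := frontier (Ω i) ∩ frontier (Ω j)

/-- Gaussian area of a partition: the total Gaussian length of the interfaces with `i < j`. -/
noncomputable def garea (Ω : Fin q → Set ℂ) : ℝ≥0∞ :=
  ∑ i, ∑ j, if i < j then glen (iface Ω i j) else 0

/-- Finite Gaussian perimeter in the sense of De Giorgi. -/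
def FinitePerimeter (S : Set ℂ) : Prop :=
  ∃ C : ℝ, ∀ X : ℂ → ℂ, ContDiff ℝ ∞ X → HasCompactSupport X → (∀ x, ‖X x‖ ≤ 1) →
    ∫ x in S, ((fderiv ℝ X x 1).re + (fderiv ℝ X x Complex.I).im -
      (x.re * (X x).re + x.im * (X x).im)) * gdens x ≤ C

/-- A partition of the plane into `q` cells: nonempty pairwise disjoint open sets of finite
perimeter whose closures cover the plane. -/
structure IsPartition (Ω : Fin q → Set ℂ) : Prop where
  isOpen : ∀ i, IsOpen (Ω i)
  nonempty : ∀ i, (Ω i).Nonempty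
  disjoint : ∀ i j, i ≠ j → Disjoint (Ω i) (Ω j)
  cover : ⋃ i, closure (Ω i) = univ
  perimeter : ∀ i, FinitePerimeter (Ω i)

/-- Near `x` the cells `i` and `j` lie on the two sides of a smooth embedded curve, and no other
cell is present. -/
def RegularPoint (Ω : Fin q → Set ℂ) (i j : Fin q) (x : ℂ) : Prop :=
  ∃ U : Set ℂ, IsOpen U ∧ x ∈ U ∧ ∃ φ : ℂ → ℝ, ContDiffOn ℝ ∞ φ U ∧
    (∀ y ∈ U, fderiv ℝ φ y ≠ 0) ∧ (∀ y ∈ U, (y ∈ Ω i ↔ φ y < 0) ∧ (y ∈ Ω j ↔ 0 < φ y)) ∧
    ∀ k, k ≠ i → k ≠ j → Disjoint U (Ω k)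

/-- Near `x` exactly three cells are present, and their three interfaces are smooth embedded
curves starting at `x` and making angles of 120 degrees: the three unit initial tangent vectors
add up to zero. -/
def TriplePoint (Ω : Fin q → Set ℂ) (x : ℂ) : Prop :=
  ∃ i j k : Fin q, i ≠ j ∧ j ≠ k ∧ k ≠ i ∧ ∃ U : Set ℂ, IsOpen U ∧ x ∈ U ∧
    ∃ (a b c : ℝ → ℂ) (δ : ℝ), 0 < δ ∧
      (ContDiff ℝ ∞ a ∧ ContDiff ℝ ∞ b ∧ ContDiff ℝ ∞ c) ∧
      (a 0 = x ∧ b 0 = x ∧ c 0 = x) ∧
      (∀ s ∈ Icc 0 δ, deriv a s ≠ 0 ∧ deriv b s ≠ 0 ∧ deriv c s ≠ 0) ∧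
      (InjOn a (Icc 0 δ) ∧ InjOn b (Icc 0 δ) ∧ InjOn c (Icc 0 δ)) ∧
      (iface Ω i j ∩ U = a '' Icc 0 δ ∩ U ∧ iface Ω j k ∩ U = b '' Icc 0 δ ∩ U ∧
        iface Ω k i ∩ U = c '' Icc 0 δ ∩ U) ∧
      (deriv a 0 / ‖deriv a 0‖ + deriv b 0 / ‖deriv b 0‖ + deriv c 0 / ‖deriv c 0‖ = 0) ∧
      ∀ l, l ≠ i → l ≠ j → l ≠ k → Disjoint U (Ω l)

/-- Regularity in the plane: apart from finitely many triple points with angles of 120 degrees,
every point of an interface is a regular point. -/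
def IsRegular (Ω : Fin q → Set ℂ) : Prop :=
  ∃ S : Set ℂ, S.Finite ∧ (∀ x ∈ S, TriplePoint Ω x) ∧
    ∀ i j, i ≠ j → ∀ x ∈ iface Ω i j, x ∉ S → RegularPoint Ω i j x

/-- A smooth compactly supported isotopy of the plane, for instance the flow of a smooth compactly
supported vector field. -/
structure IsVariation (F : ℝ → ℂ → ℂ) : Prop where
  smooth : ContDiff ℝ ∞ fun p : ℝ × ℂ => F p.1 p.2
  zero : ∀ x, F 0 x = x
  diffeo : ∀ t, ∃ H : ℂ → ℂ, ContDiff ℝ ∞ H ∧ (∀ x, H (F t x) = x) ∧ ∀ x, F t (H x) = x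
  support : ∃ K : Set ℂ, IsCompact K ∧ ∀ t, ∀ x ∉ K, F t x = x

/-- The moved partition. -/
def moved (F : ℝ → ℂ → ℂ) (Ω : Fin q → Set ℂ) (t : ℝ) : Fin q → Set ℂ := fun i => F t '' Ω i

/-- Gaussian area along a variation, as a real function of time. -/
noncomputable def areaAt (F : ℝ → ℂ → ℂ) (Ω : Fin q → Set ℂ) (t : ℝ) : ℝ :=
  (garea (moved F Ω t)).toReal

/-- Gaussian measure of a cell along a variation. -/
noncomputable def volAt (F : ℝ → ℂ → ℂ) (Ω : Fin q → Set ℂ) (i : Fin q) (t : ℝ) : ℝ :=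
  gvol (moved F Ω t i)

/-- Stationarity: the area is finite along every variation, and its derivative vanishes whenever
the derivatives of all cell measures vanish. -/
def Stationary (Ω : Fin q → Set ℂ) : Prop :=
  ∀ F, IsVariation F → (∀ t, garea (moved F Ω t) ≠ ⊤) ∧
    ((∀ i, HasDerivAt (volAt F Ω i) 0 0) → HasDerivAt (areaAt F Ω) 0 0)

/-- The area has nonnegative second derivative at time zero along every variation that keeps all
cell measures fixed for small times. -/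
def Stable (Ω : Fin q → Set ℂ) : Prop :=
  Stationary Ω ∧ ∀ F, IsVariation F → (∀ i, ∀ᶠ t in 𝓝 0, volAt F Ω i t = volAt F Ω i 0) →
    ∃ (A' : ℝ → ℝ) (a : ℝ), (∀ t, HasDerivAt (areaAt F Ω) (A' t) t) ∧ HasDerivAt A' a 0 ∧ 0 ≤ a

/-- Stability in terms of the index form. There are multipliers `lam i` such that along every
variation the first derivative at time zero of the area minus the sum of `lam i` times the measure
of cell `i` vanishes, and its second derivative is nonnegative whenever the first derivatives of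
all cell measures vanish at time zero. -/
def IndexStable (Ω : Fin q → Set ℂ) : Prop :=
  ∃ lam : Fin q → ℝ, ∀ F, IsVariation F →
    ∃ (A' : ℝ → ℝ) (a : ℝ) (V' : Fin q → ℝ → ℝ) (v : Fin q → ℝ),
      (∀ t, HasDerivAt (areaAt F Ω) (A' t) t) ∧ HasDerivAt A' a 0 ∧
      (∀ i t, HasDerivAt (volAt F Ω i) (V' i t) t) ∧ (∀ i, HasDerivAt (V' i) (v i) 0) ∧
      A' 0 = ∑ i, lam i * V' i 0 ∧
      ((∀ i, V' i 0 = 0) → 0 ≤ a - ∑ i, lam i * v i)

/-- Product structure: all cells are preimages of subsets of the line under the coordinate in one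
fixed direction. -/
def HasProductStructure (Ω : Fin q → Set ℂ) : Prop :=
  ∃ (v : ℂ) (Ω' : Fin q → Set ℝ), ‖v‖ = 1 ∧ ∀ i, Ω i = {x | v.re * x.re + v.im * x.im ∈ Ω' i}

/-- Every interface lies in an affine line. -/
def FlatInterfaces (Ω : Fin q → Set ℂ) : Prop :=
  ∀ i j, i < j → ∃ (v : ℂ) (k : ℝ), v ≠ 0 ∧ ∀ x ∈ iface Ω i j, v.re * x.re + v.im * x.im = k

end Pool.Agent.MP_845d3b_gt
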