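import Pool.Agent.MP_845d3b_gt.ArcIneq

open Set Filter Topology MeasureTheory

namespace Pool.Agent.MP_845d3b_gt

lemma pi6_facts : 0 < Real.pi / 6 ∧ Real.pi / 6 < 3 / 5 ∧ Real.pi / 6 ≤ 1 := by
  have := Real.pi_lt_d2
  have := Real.pi_pos
  refine ⟨by linarith, by linarith, by linarith⟩

lemma sqrt3_facts : (1732 : ℝ) / 1000 ≤ √3 ∧ √3 ≤ (1733 : ℝ) / 1000 ∧ √3 * √3 = 3 := by
  refine ⟨?_, ?_, Real.mul_self_sqrt (by norm_num)⟩
  · apply Real.le_sqrt_of_sq_le; norm_num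
  · rw [Real.sqrt_le_left (by norm_num)]; norm_num

lemma even_E {ε : ℝ} (hε : 0 < ε) (hε1 : ε ≤ 1 / 100)
    {q e e' : ℝ → ℝ} (hqc : ContinuousOn q (Icc 0 (Real.pi / 6)))
    (hq : ∀ x ∈ Icc 0 (Real.pi / 6), q x ^ 2 ≤ ε ^ 2)
    (he : ∀ x, HasDerivAt e (e' x) x) (hce : Continuous e') :
    -((√3 / 3 + 2 * ε ^ 2) * e (Real.pi / 6) ^ 2) + ε ^ 2 * ∫ x in (0 : ℝ)..(Real.pi / 6), e x ^ 2 ≤
      ∫ x in (0 : ℝ)..(Real.pi / 6), (e' x ^ 2 - (1 + q x ^ 2) * e x ^ 2) := by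
  obtain ⟨hb0, hb1, hb2⟩ := pi6_facts
  obtain ⟨s1, s2, s3⟩ := sqrt3_facts
  have hec : Continuous e := continuous_iff_continuousAt.mpr fun x => (he x).continuousAt
  have hε2 : ε ^ 2 ≤ 1 / 10000 := by nlinarith
  have hε20 : 0 < ε ^ 2 := by positivity
  set b := Real.pi / 6 with hb
  have hcos : ∀ x ∈ Icc 0 b, √3 / 2 ≤ Real.cos x := by
    intro x hx
    rw [← Real.cos_pi_div_six]
    exact Real.cos_le_cos_of_nonneg_of_le_pi hx.1 (by linarith [Real.pi_pos]) hx.2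
  have hup : ∀ x ∈ Icc 0 b, 0 < Real.cos x - 2 * ε ^ 2 := fun x hx => by
    have := hcos x hx; linarith
  have hpic := picone hb0.le (v := e) (v' := e') (P := fun x => -Real.sin x / (Real.cos x - 2 * ε ^ 2))
    (P' := fun x => (-Real.cos x * (Real.cos x - 2 * ε ^ 2) - -Real.sin x * (-Real.sin x)) /
      (Real.cos x - 2 * ε ^ 2) ^ 2)
    (p := fun _ => 1) (V := fun _ => 1 + 2 * ε ^ 2) (fun x _ => he x)
    (fun x hx => ((Real.hasDerivAt_sin x).neg).div ((Real.hasDerivAt_cos x).sub_const _)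
      (hup x hx).ne')
    hce.continuousOn (by
      refine ContinuousOn.div ?_ ?_ ?_
      · have := Real.continuous_cos; have := Real.continuous_sin; fun_prop
      · have := Real.continuous_cos; fun_prop
      · intro x hx; exact pow_ne_zero 2 (hup x hx).ne') (fun _ _ => one_pos) continuousOn_const
    continuousOn_const (by
      intro x hx
      have h1 := hup x hx
      have h2 : (-Real.cos x * (Real.cos x - 2 * ε ^ 2) - -Real.sin x * (-Real.sin x)) /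
          (Real.cos x - 2 * ε ^ 2) ^ 2 + (-Real.sin x / (Real.cos x - 2 * ε ^ 2)) ^ 2 / 1 =
          -Real.cos x / (Real.cos x - 2 * ε ^ 2) := by
        have := h1.ne'
        field_simp
        ring
      rw [h2, div_le_iff₀ h1]
      have := Real.cos_le_one x
      nlinarith)
  have hPb : -(√3 / 3 + 2 * ε ^ 2) ≤ -Real.sin b / (Real.cos b - 2 * ε ^ 2) := by
    rw [le_div_iff₀ (hup b ⟨hb0.le, le_rfl⟩), hb, Real.cos_pi_div_six, Real.sin_pi_div_six]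
    nlinarith
  have hPa : -Real.sin (0:ℝ) / (Real.cos 0 - 2 * ε ^ 2) * e 0 ^ 2 = 0 := by
    rw [Real.sin_zero]; simp
  simp only [hPa, sub_zero, one_mul] at hpic
  have hmono : ε ^ 2 * (∫ x in (0 : ℝ)..b, e x ^ 2) +
      ∫ x in (0 : ℝ)..b, (e' x ^ 2 - (1 + 2 * ε ^ 2) * e x ^ 2) ≤
      ∫ x in (0 : ℝ)..b, (e' x ^ 2 - (1 + q x ^ 2) * e x ^ 2) := by
    rw [← intervalIntegral.integral_const_mul, ← intervalIntegral.integral_add
      (Continuous.intervalIntegrable (by fun_prop) _ _)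
      (Continuous.intervalIntegrable (by fun_prop) _ _)]
    refine intervalIntegral.integral_mono_on hb0.le (Continuous.intervalIntegrable (by fun_prop) _ _)
      ?_ fun x hx => ?_
    · refine ContinuousOn.intervalIntegrable_of_Icc hb0.le ?_
      exact ((hce.pow 2).continuousOn).sub
        ((continuousOn_const.add (hqc.pow 2)).mul (hec.pow 2).continuousOn)
    · have := hq x hx
      nlinarith [sq_nonneg (e x)]
  have h3 : -((√3 / 3 + 2 * ε ^ 2) * e b ^ 2) ≤ -Real.sin b / (Real.cos b - 2 * ε ^ 2) * e b ^ 2 := by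
    have := mul_le_mul_of_nonneg_right hPb (sq_nonneg (e b))
    linarith
  linarith

lemma odd_E {ε : ℝ} (hε : 0 < ε) (hε1 : ε ≤ 1 / 100)
    {q e e' : ℝ → ℝ} (hqc : ContinuousOn q (Icc 0 (Real.pi / 6)))
    (hq : ∀ x ∈ Icc 0 (Real.pi / 6), q x ^ 2 ≤ ε ^ 2)
    (he : ∀ x, HasDerivAt e (e' x) x) (hce : Continuous e') (he0 : e 0 = 0) :
    (√3 - 8 * ε ^ 2) * e (Real.pi / 6) ^ 2 ≤
      ∫ x in (0 : ℝ)..(Real.pi / 6), (e' x ^ 2 - (1 + q x ^ 2) * e x ^ 2) := by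
  obtain ⟨hb0, hb1, hb2⟩ := pi6_facts
  obtain ⟨s1, s2, s3⟩ := sqrt3_facts
  have hec : Continuous e := continuous_iff_continuousAt.mpr fun x => (he x).continuousAt
  have hε2 : ε ^ 2 ≤ 1 / 10000 := by nlinarith
  have hε20 : 0 < ε ^ 2 := by positivity
  set b := Real.pi / 6 with hb
  have hsin : ∀ x ∈ Icc 0 b, 0 ≤ Real.sin x ∧ Real.sin x ≤ 1 / 2 := by
    intro x hx
    refine ⟨Real.sin_nonneg_of_nonneg_of_le_pi hx.1 (by linarith [hx.2, Real.pi_pos, hb]), ?_⟩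
    rw [← Real.sin_pi_div_six]
    exact Real.sin_le_sin_of_le_of_le_pi_div_two (by linarith [hx.1, Real.pi_pos])
      (by linarith [Real.pi_pos]) hx.2
  have hx2 : ∀ x ∈ Icc 0 b, x ^ 2 ≤ 36 / 100 := by
    intro x hx
    nlinarith [hx.1, hx.2]
  have hup : ∀ x ∈ Icc 0 b, 0 < ε ^ 2 + Real.sin x - ε ^ 2 * x ^ 2 := fun x hx => by
    have h1 := (hsin x hx).1
    have h2 := hx2 x hx
    nlinarith
  have hder1 : ∀ x, HasDerivAt (fun x => ε ^ 2 + Real.sin x - ε ^ 2 * x ^ 2)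
      (Real.cos x - ε ^ 2 * (2 * x)) x := fun x => by
    refine (((Real.hasDerivAt_sin x).const_add (ε ^ 2)).sub
      ((hasDerivAt_pow 2 x).const_mul (ε ^ 2))).congr_deriv ?_
    simp
  have hder2 : ∀ x, HasDerivAt (fun x => Real.cos x - ε ^ 2 * (2 * x))
      (-Real.sin x - ε ^ 2 * (2 * 1)) x := fun x =>
    (Real.hasDerivAt_cos x).sub (((hasDerivAt_id x).const_mul 2).const_mul (ε ^ 2))
  have hpic := picone hb0.le (v := e) (v' := e')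
    (P := fun x => (Real.cos x - ε ^ 2 * (2 * x)) / (ε ^ 2 + Real.sin x - ε ^ 2 * x ^ 2))
    (P' := fun x => ((-Real.sin x - ε ^ 2 * (2 * 1)) * (ε ^ 2 + Real.sin x - ε ^ 2 * x ^ 2) -
      (Real.cos x - ε ^ 2 * (2 * x)) * (Real.cos x - ε ^ 2 * (2 * x))) /
      (ε ^ 2 + Real.sin x - ε ^ 2 * x ^ 2) ^ 2)
    (p := fun _ => 1) (V := fun x => 1 + q x ^ 2) (fun x _ => he x)
    (fun x hx => (hder2 x).div (hder1 x) (hup x hx).ne')
    hce.continuousOn (by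
      have := Real.continuous_cos
      have := Real.continuous_sin
      refine ContinuousOn.div ?_ ?_ ?_
      · fun_prop
      · fun_prop
      · intro x hx; exact pow_ne_zero 2 (hup x hx).ne') (fun _ _ => one_pos) continuousOn_const
    (continuousOn_const.add (hqc.pow 2)) (by
      intro x hx
      have h1 := hup x hx
      have h2 : ((-Real.sin x - ε ^ 2 * (2 * 1)) * (ε ^ 2 + Real.sin x - ε ^ 2 * x ^ 2) -
          (Real.cos x - ε ^ 2 * (2 * x)) * (Real.cos x - ε ^ 2 * (2 * x))) /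
          (ε ^ 2 + Real.sin x - ε ^ 2 * x ^ 2) ^ 2 +
          ((Real.cos x - ε ^ 2 * (2 * x)) / (ε ^ 2 + Real.sin x - ε ^ 2 * x ^ 2)) ^ 2 / 1 =
          (-Real.sin x - 2 * ε ^ 2) / (ε ^ 2 + Real.sin x - ε ^ 2 * x ^ 2) := by
        have := h1.ne'
        field_simp
        ring
      rw [h2, div_le_iff₀ h1]
      have h3 := hq x hx
      have h4 := (hsin x hx)
      have h5 := hx2 x hx
      have h6 : 0 ≤ ε ^ 2 * x ^ 2 := by positivity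
      have h7 : (1 + q x ^ 2) * (ε ^ 2 + Real.sin x - ε ^ 2 * x ^ 2) ≤
          (1 + ε ^ 2) * (ε ^ 2 + Real.sin x) := by
        have := sq_nonneg (q x)
        apply mul_le_mul (by linarith) (by linarith) h1.le (by positivity)
      nlinarith [h4.1, h4.2])
  have hPb : √3 - 8 * ε ^ 2 ≤ (Real.cos b - ε ^ 2 * (2 * b)) / (ε ^ 2 + Real.sin b - ε ^ 2 * b ^ 2) := by
    rw [le_div_iff₀ (hup b ⟨hb0.le, le_rfl⟩), hb, Real.cos_pi_div_six, Real.sin_pi_div_six, ← hb]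
    have h8 : 0 ≤ ε ^ 2 * b ^ 2 := by positivity
    have h9 : (√3 - 8 * ε ^ 2) * (ε ^ 2 + 1 / 2 - ε ^ 2 * b ^ 2) ≤
        (√3 - 8 * ε ^ 2) * (ε ^ 2 + 1 / 2) :=
      mul_le_mul_of_nonneg_left (by linarith) (by linarith)
    nlinarith
  have hPa : (Real.cos (0:ℝ) - ε ^ 2 * (2 * 0)) / (ε ^ 2 + Real.sin 0 - ε ^ 2 * 0 ^ 2) * e 0 ^ 2 = 0 := by
    rw [he0]; simp
  simp only [hPa, sub_zero, one_mul] at hpic
  have h3 : (√3 - 8 * ε ^ 2) * e b ^ 2 ≤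
      (Real.cos b - ε ^ 2 * (2 * b)) / (ε ^ 2 + Real.sin b - ε ^ 2 * b ^ 2) * e b ^ 2 :=
    mul_le_mul_of_nonneg_right hPb (sq_nonneg (e b))
  linarith

/-- Weighted mean bound. -/
lemma mean_bound {b ε : ℝ} (hb : 0 < b) (hb1 : b ≤ 3 / 5) (hε : 0 < ε) {w e : ℝ → ℝ}
    (hwc : ContinuousOn w (Icc 0 b)) (hw0 : ∀ x ∈ Icc 0 b, 0 ≤ w x) (hw : ∀ x ∈ Icc 0 b, w x ≤ ε)
    (hec : Continuous e) :
    (2 * ∫ x in (0 : ℝ)..b, w x * e x) ^ 2 ≤ 12 / 5 * ε ^ 2 * ∫ x in (0 : ℝ)..b, e x ^ 2 := by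
  set I := ∫ x in (0 : ℝ)..b, w x * e x with hI
  set S := ∫ x in (0 : ℝ)..b, e x ^ 2 with hS
  have hcw : ContinuousOn (fun x => w x * e x) (Icc 0 b) := hwc.mul hec.continuousOn
  -- quadratic trick
  have key : ∀ t : ℝ, 2 * t * I ≤ t ^ 2 * (b * ε ^ 2) + S := by
    intro t
    have h1 : ∫ x in (0 : ℝ)..b, 2 * t * (w x * e x) ≤
        ∫ x in (0 : ℝ)..b, (t ^ 2 * ε ^ 2 + e x ^ 2) := by
      refine intervalIntegral.integral_mono_on hb.le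
        ((continuousOn_const.mul hcw).intervalIntegrable_of_Icc hb.le)
        (Continuous.intervalIntegrable (by fun_prop) _ _) fun x hx => ?_
      have h2 := hw0 x hx
      have h3 := hw x hx
      have h4 : w x ^ 2 ≤ ε ^ 2 := pow_le_pow_left₀ h2 h3 2
      nlinarith [sq_nonneg (t * w x - e x), sq_nonneg t]
    rw [intervalIntegral.integral_const_mul, intervalIntegral.integral_add (by simp)
      (Continuous.intervalIntegrable (by fun_prop) _ _), intervalIntegral.integral_const,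
      smul_eq_mul, sub_zero] at h1
    linarith
  have hbe : 0 < b * ε ^ 2 := by positivity
  have h5 := key (I / (b * ε ^ 2))
  have h6 : I ^ 2 / (b * ε ^ 2) ≤ S := by
    have e1 : 2 * (I / (b * ε ^ 2)) * I - (I / (b * ε ^ 2)) ^ 2 * (b * ε ^ 2) =
        I ^ 2 / (b * ε ^ 2) := by
      field_simp
      ring
    linarith
  rw [div_le_iff₀ hbe] at h6
  have hS0 : 0 ≤ S := intervalIntegral.integral_nonneg hb.le fun x _ => sq_nonneg _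
  have h7 : S * (b * ε ^ 2) ≤ S * (3 / 5 * ε ^ 2) := by
    apply mul_le_mul_of_nonneg_left _ hS0
    nlinarith [sq_nonneg ε]
  nlinarith

lemma alg_id (s ε E0 E1 O0 O1 : ℝ) :
    (-((s / 3 + 2 * ε ^ 2) * E0 ^ 2) + (s - 8 * ε ^ 2) * O0 ^ 2) +
        (-((s / 3 + 2 * ε ^ 2) * E1 ^ 2) + (s - 8 * ε ^ 2) * O1 ^ 2) +
        (-((s / 3 + 2 * ε ^ 2) * (-E0 - E1) ^ 2) + (s - 8 * ε ^ 2) * (-O0 - O1) ^ 2) +
      s / 6 * (((E0 + O0) ^ 2 + (E1 - O1) ^ 2 - 4 * (E0 + O0) * (E1 - O1)) +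
        ((E1 + O1) ^ 2 + ((-E0 - E1) - (-O0 - O1)) ^ 2 - 4 * (E1 + O1) * ((-E0 - E1) - (-O0 - O1))) +
        (((-E0 - E1) + (-O0 - O1)) ^ 2 + (E0 - O0) ^ 2 -
          4 * ((-E0 - E1) + (-O0 - O1)) * (E0 - O0))) =
      s / 9 * ((E1 - (-E0 - E1) - 3 * O0) ^ 2 + ((-E0 - E1) - E0 - 3 * O1) ^ 2 +
        (E0 - E1 - 3 * (-O0 - O1)) ^ 2) - 2 * ε ^ 2 * (E0 ^ 2 + E1 ^ 2 + (-E0 - E1) ^ 2) -
        8 * ε ^ 2 * (O0 ^ 2 + O1 ^ 2 + (-O0 - O1) ^ 2) := by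
  ring

lemma alg_core {ε Ys Os Es Hs s : ℝ} (hε : 0 < ε) (hε1 : ε ≤ 1 / 1000) (hs : 1732 / 1000 ≤ s)
    (hYs0 : 0 ≤ Ys) (hOs0 : 0 ≤ Os)
    (hEE : Es ≤ 2 / 3 * Ys + 6 * Os) (hH : 2 * Os - Ys ≤ Hs) :
    0 ≤ s / 9 * Ys - 2 * ε ^ 2 * Es - 8 * ε ^ 2 * Os + ε / 32 * Hs := by
  have f1 : 2 * ε ^ 2 * Es ≤ 2 * ε ^ 2 * (2 / 3 * Ys + 6 * Os) :=
    mul_le_mul_of_nonneg_left hEE (by positivity)
  have f2 : ε / 32 * (2 * Os - Ys) ≤ ε / 32 * Hs :=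
    mul_le_mul_of_nonneg_left hH (by positivity)
  have f3 : ε ^ 2 ≤ ε / 1000 := by nlinarith
  have f4 : 0 ≤ (s / 9 - 4 / 3 * ε ^ 2 - ε / 32) * Ys := by
    apply mul_nonneg _ hYs0
    linarith
  have f5 : 0 ≤ (ε / 16 - 20 * ε ^ 2) * Os := by
    apply mul_nonneg _ hOs0
    linarith
  linarith

/-- The final algebraic inequality in the two dimensional sector. -/
lemma alg_E {ε : ℝ} (hε : 0 < ε) (hε1 : ε ≤ 1 / 1000) (E0 E1 E2 O0 O1 O2 : ℝ)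
    (hE : E0 + E1 + E2 = 0) (hO : O0 + O1 + O2 = 0) :
    0 ≤ 2 / ε * ((-((√3 / 3 + 2 * ε ^ 2) * E0 ^ 2) + (√3 - 8 * ε ^ 2) * O0 ^ 2) +
        (-((√3 / 3 + 2 * ε ^ 2) * E1 ^ 2) + (√3 - 8 * ε ^ 2) * O1 ^ 2) +
        (-((√3 / 3 + 2 * ε ^ 2) * E2 ^ 2) + (√3 - 8 * ε ^ 2) * O2 ^ 2)) +
      1 / (√3 * ε) * (((E0 + O0) ^ 2 + (E1 - O1) ^ 2 - 4 * (E0 + O0) * (E1 - O1)) +
        ((E1 + O1) ^ 2 + (E2 - O2) ^ 2 - 4 * (E1 + O1) * (E2 - O2)) +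
        ((E2 + O2) ^ 2 + (E0 - O0) ^ 2 - 4 * (E2 + O2) * (E0 - O0))) +
      1 / 16 * (((E0 + O0) - (E1 - O1)) ^ 2 + ((E1 + O1) - (E2 - O2)) ^ 2 +
        ((E2 + O2) - (E0 - O0)) ^ 2) := by
  obtain ⟨s1, s2, s3⟩ := sqrt3_facts
  have hs : 0 < √3 := by linarith
  have hE2 : E2 = -E0 - E1 := by linarith
  have hO2 : O2 = -O0 - O1 := by linarith
  have hinv : 1 / (√3 * ε) = 2 / ε * (√3 / 6) := by
    have h1 : 1 / √3 = √3 / 3 := by
      field_simp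
      linarith
    have h2 : 1 / (√3 * ε) = 1 / √3 * (1 / ε) := by field_simp
    rw [h2, h1]
    ring
  have h16 : (1 / 16 : ℝ) = 2 / ε * (ε / 32) := by
    field_simp
    norm_num
  have key : ∀ A B C : ℝ, 2 / ε * A + 1 / (√3 * ε) * B + 1 / 16 * C =
      2 / ε * (A + √3 / 6 * B + ε / 32 * C) := by
    intro A B C
    rw [hinv, h16]
    ring
  rw [key]
  apply mul_nonneg (by positivity)
  subst hE2 hO2
  rw [alg_id]
  have e1 : ∀ a b : ℝ, (a + 3 * b) ^ 2 ≤ 2 * a ^ 2 + 18 * b ^ 2 := fun a b => by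
    nlinarith [sq_nonneg (a - 3 * b)]
  have e2 : ∀ a b : ℝ, 2 * b ^ 2 - a ^ 2 ≤ (a + 2 * b) ^ 2 := fun a b => by
    nlinarith [sq_nonneg (a + b)]
  refine alg_core hε hε1 s1 (by positivity) (by positivity) ?_ ?_
  · have g0 := e1 (E1 - (-E0 - E1) - 3 * O0) O0
    have g1 := e1 ((-E0 - E1) - E0 - 3 * O1) O1
    have g2 := e1 (E0 - E1 - 3 * (-O0 - O1)) (-O0 - O1)
    have g3 : E0 ^ 2 + E1 ^ 2 + (-E0 - E1) ^ 2 =
      1 / 3 * ((E1 - (-E0 - E1) - 3 * O0 + 3 * O0) ^ 2 + ((-E0 - E1) - E0 - 3 * O1 + 3 * O1) ^ 2 +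
        (E0 - E1 - 3 * (-O0 - O1) + 3 * (-O0 - O1)) ^ 2) := by ring
    rw [g3]
    linarith
  · have g0 := e2 (E1 - (-E0 - E1) - 3 * O0) O0
    have g1 := e2 ((-E0 - E1) - E0 - 3 * O1) O1
    have g2 := e2 (E0 - E1 - 3 * (-O0 - O1)) (-O0 - O1)
    have g3 : (E0 + O0 - (E1 - O1)) ^ 2 + (E1 + O1 - (-E0 - E1 - (-O0 - O1))) ^ 2 +
        (-E0 - E1 + (-O0 - O1) - (E0 - O0)) ^ 2 =
        (E1 - (-E0 - E1) - 3 * O0 + 2 * O0) ^ 2 + ((-E0 - E1) - E0 - 3 * O1 + 2 * O1) ^ 2 +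
        (E0 - E1 - 3 * (-O0 - O1) + 2 * (-O0 - O1)) ^ 2 := by ring
    rw [g3]
    linarith

end Pool.Agent.MP_845d3b_gt
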