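import Pool.Agent.MP_845d3b_gt.Calc

open Set Filter Topology MeasureTheory
open scoped ContDiff

namespace Pool.Agent.MP_845d3b_gt

/-- length integrand -/
noncomputable def La (Φ : ℝ × ℝ → ℂ) (p : ℝ × ℝ) : ℝ := ph (Φ p) * ‖ds Φ p‖

/-- first time derivative of the length integrand -/
noncomputable def La1 (Φ : ℝ × ℝ → ℂ) (p : ℝ × ℝ) : ℝ :=
  -(ph (Φ p) * dot (Φ p) (dt Φ p)) * ‖ds Φ p‖ + ph (Φ p) * (dot (ds Φ p) (dt (ds Φ) p) / ‖ds Φ p‖)

/-- second time derivative of the length integrand -/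
noncomputable def La2 (Φ : ℝ × ℝ → ℂ) (p : ℝ × ℝ) : ℝ :=
  (ph (Φ p) * dot (Φ p) (dt Φ p) ^ 2 -
      ph (Φ p) * (dot (dt Φ p) (dt Φ p) + dot (Φ p) (dt (dt Φ) p))) * ‖ds Φ p‖ +
    2 * (-(ph (Φ p) * dot (Φ p) (dt Φ p))) * (dot (ds Φ p) (dt (ds Φ) p) / ‖ds Φ p‖) +
    ph (Φ p) * ((dot (dt (ds Φ) p) (dt (ds Φ) p) + dot (ds Φ p) (dt (dt (ds Φ)) p)) / ‖ds Φ p‖ -
      dot (ds Φ p) (dt (ds Φ) p) ^ 2 / ‖ds Φ p‖ ^ 3)

/-- area integrand -/
noncomputable def Lw (Φ : ℝ × ℝ → ℂ) (p : ℝ × ℝ) : ℝ := pot (Φ p) * (ds Φ p).im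

/-- derivative of the potential -/
noncomputable def potT (Φ : ℝ × ℝ → ℂ) (p : ℝ × ℝ) : ℝ :=
  ph (Φ p) * (dt Φ p).re - (Φ p).im * pot (Φ p) * (dt Φ p).im

/-- first time derivative of the area integrand -/
noncomputable def Lw1 (Φ : ℝ × ℝ → ℂ) (p : ℝ × ℝ) : ℝ :=
  potT Φ p * (ds Φ p).im + pot (Φ p) * (dt (ds Φ) p).im

/-- second time derivative of the potential -/
noncomputable def potTT (Φ : ℝ × ℝ → ℂ) (p : ℝ × ℝ) : ℝ :=
  -(ph (Φ p) * dot (Φ p) (dt Φ p)) * (dt Φ p).re + ph (Φ p) * (dt (dt Φ) p).re -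
    ((dt Φ p).im * pot (Φ p) * (dt Φ p).im + (Φ p).im * potT Φ p * (dt Φ p).im +
      (Φ p).im * pot (Φ p) * (dt (dt Φ) p).im)

/-- second time derivative of the area integrand -/
noncomputable def Lw2 (Φ : ℝ × ℝ → ℂ) (p : ℝ × ℝ) : ℝ :=
  potTT Φ p * (ds Φ p).im + 2 * potT Φ p * (dt (ds Φ) p).im + pot (Φ p) * (dt (dt (ds Φ)) p).im

variable {Φ : ℝ × ℝ → ℂ}

lemma cont_all (h : ContDiff ℝ ∞ Φ) : Continuous Φ ∧ Continuous (dt Φ) ∧ Continuous (ds Φ) ∧
    Continuous (dt (ds Φ)) ∧ Continuous (dt (dt Φ)) ∧ Continuous (dt (dt (ds Φ))) :=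
  ⟨h.continuous, (contDiff_dt h).continuous, (contDiff_ds h).continuous,
    (contDiff_dt (contDiff_ds h)).continuous, (contDiff_dt (contDiff_dt h)).continuous,
    (contDiff_dt (contDiff_dt (contDiff_ds h))).continuous⟩

lemma continuous_dot {X : Type*} [TopologicalSpace X] {f g : X → ℂ} (hf : Continuous f)
    (hg : Continuous g) : Continuous fun x => dot (f x) (g x) := by
  unfold dot
  exact ((Complex.continuous_re.comp hf).mul (Complex.continuous_re.comp hg)).add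
    ((Complex.continuous_im.comp hf).mul (Complex.continuous_im.comp hg))

lemma continuous_wedge {X : Type*} [TopologicalSpace X] {f g : X → ℂ} (hf : Continuous f)
    (hg : Continuous g) : Continuous fun x => wedge (f x) (g x) := by
  unfold wedge
  exact ((Complex.continuous_re.comp hf).mul (Complex.continuous_im.comp hg)).sub
    ((Complex.continuous_im.comp hf).mul (Complex.continuous_re.comp hg))

lemma continuous_La (h : ContDiff ℝ ∞ Φ) : Continuous (La Φ) := by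
  obtain ⟨c1, c2, c3, c4, c5, c6⟩ := cont_all h
  unfold La
  exact (continuous_ph.comp c1).mul c3.norm

lemma continuousOn_La1 (h : ContDiff ℝ ∞ Φ) {U : Set (ℝ × ℝ)} (hU : ∀ p ∈ U, ds Φ p ≠ 0) :
    ContinuousOn (La1 Φ) U := by
  obtain ⟨c1, c2, c3, c4, c5, c6⟩ := cont_all h
  have k1 := continuous_ph.comp c1
  have k2 := continuous_dot c1 c2
  have k3 := continuous_dot c3 c4
  have k4 := c3.norm
  have hn : ∀ p ∈ U, ‖ds Φ p‖ ≠ 0 := fun p hp => norm_ne_zero_iff.mpr (hU p hp)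
  unfold La1
  exact (((k1.mul k2).neg.mul k4).continuousOn).add
    (k1.continuousOn.mul (k3.continuousOn.div k4.continuousOn hn))

lemma continuousOn_La2 (h : ContDiff ℝ ∞ Φ) {U : Set (ℝ × ℝ)} (hU : ∀ p ∈ U, ds Φ p ≠ 0) :
    ContinuousOn (La2 Φ) U := by
  obtain ⟨c1, c2, c3, c4, c5, c6⟩ := cont_all h
  have k1 := continuous_ph.comp c1
  have k2 := continuous_dot c1 c2
  have k3 := continuous_dot c3 c4
  have k4 := c3.norm
  have k5 := continuous_dot c2 c2
  have k6 := continuous_dot c1 c5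
  have k7 := continuous_dot c4 c4
  have k8 := continuous_dot c3 c6
  have hn : ∀ p ∈ U, ‖ds Φ p‖ ≠ 0 := fun p hp => norm_ne_zero_iff.mpr (hU p hp)
  have hn3 : ∀ p ∈ U, ‖ds Φ p‖ ^ 3 ≠ 0 := fun p hp => pow_ne_zero 3 (hn p hp)
  unfold La2
  refine ((Continuous.continuousOn ?_).add ?_).add ?_
  · exact ((k1.mul (k2.pow 2)).sub (k1.mul (k5.add k6))).mul k4
  · exact ((continuous_const.mul (k1.mul k2).neg).continuousOn).mul
      (k3.continuousOn.div k4.continuousOn hn)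
  · exact k1.continuousOn.mul (((k7.add k8).continuousOn.div k4.continuousOn hn).sub
      ((k3.pow 2).continuousOn.div (k4.pow 3).continuousOn hn3))

lemma continuous_Lw (h : ContDiff ℝ ∞ Φ) : Continuous (Lw Φ) := by
  obtain ⟨c1, c2, c3, c4, c5, c6⟩ := cont_all h
  unfold Lw
  exact (continuous_pot.comp c1).mul (Complex.continuous_im.comp c3)

lemma continuous_potT (h : ContDiff ℝ ∞ Φ) : Continuous (potT Φ) := by
  obtain ⟨c1, c2, c3, c4, c5, c6⟩ := cont_all h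
  unfold potT
  exact ((continuous_ph.comp c1).mul (Complex.continuous_re.comp c2)).sub
    (((Complex.continuous_im.comp c1).mul (continuous_pot.comp c1)).mul
      (Complex.continuous_im.comp c2))

lemma continuous_Lw1 (h : ContDiff ℝ ∞ Φ) : Continuous (Lw1 Φ) := by
  obtain ⟨c1, c2, c3, c4, c5, c6⟩ := cont_all h
  unfold Lw1
  exact ((continuous_potT h).mul (Complex.continuous_im.comp c3)).add
    ((continuous_pot.comp c1).mul (Complex.continuous_im.comp c4))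

lemma continuous_potTT (h : ContDiff ℝ ∞ Φ) : Continuous (potTT Φ) := by
  obtain ⟨c1, c2, c3, c4, c5, c6⟩ := cont_all h
  have k0 := continuous_potT h
  have k1 := continuous_ph.comp c1
  have k2 := continuous_dot c1 c2
  have k3 := Complex.continuous_re.comp c2
  have k4 := Complex.continuous_re.comp c5
  have k5 := Complex.continuous_im.comp c2
  have k6 := Complex.continuous_im.comp c1
  have k7 := Complex.continuous_im.comp c5
  have k8 := continuous_pot.comp c1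
  unfold potTT
  exact (((k1.mul k2).neg.mul k3).add (k1.mul k4)).sub
    ((((k5.mul k8).mul k5).add ((k6.mul k0).mul k5)).add ((k6.mul k8).mul k7))

lemma continuous_Lw2 (h : ContDiff ℝ ∞ Φ) : Continuous (Lw2 Φ) := by
  obtain ⟨c1, c2, c3, c4, c5, c6⟩ := cont_all h
  unfold Lw2
  exact (((continuous_potTT h).mul (Complex.continuous_im.comp c3)).add
    ((continuous_const.mul (continuous_potT h)).mul (Complex.continuous_im.comp c4))).add
    ((continuous_pot.comp c1).mul (Complex.continuous_im.comp c6))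

lemma hasDerivAt_La (h : ContDiff ℝ ∞ Φ) {t s : ℝ} (h0 : ds Φ (t, s) ≠ 0) :
    HasDerivAt (fun t => La Φ (t, s)) (La1 Φ (t, s)) t := by
  have d1 := hasDerivAt_dt h t s
  have d3 := hasDerivAt_dt (contDiff_ds h) t s
  have e1 := hasDerivAt_ph d1
  have e2 := hasDerivAt_norm d3 h0
  exact e1.mul e2

lemma hasDerivAt_La1 (h : ContDiff ℝ ∞ Φ) {t s : ℝ} (h0 : ds Φ (t, s) ≠ 0) :
    HasDerivAt (fun t => La1 Φ (t, s)) (La2 Φ (t, s)) t := by
  have d1 := hasDerivAt_dt h t s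
  have d2 := hasDerivAt_dt (contDiff_dt h) t s
  have d3 := hasDerivAt_dt (contDiff_ds h) t s
  have d4 := hasDerivAt_dt (contDiff_dt (contDiff_ds h)) t s
  have e1 := hasDerivAt_ph d1
  have e2 := hasDerivAt_norm d3 h0
  have e3 := hasDerivAt_dot d1 d2
  have e4 := hasDerivAt_dot d3 d4
  have hn : ‖ds Φ (t, s)‖ ≠ 0 := norm_ne_zero_iff.mpr h0
  refine ((((e1.mul e3).neg).mul e2).add (e1.mul (e4.div e2 hn))).congr_deriv ?_
  unfold La2
  simp only [Pi.mul_apply, Pi.neg_apply, Pi.div_apply]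
  field_simp
  ring

lemma hasDerivAt_potT0 (h : ContDiff ℝ ∞ Φ) (t s : ℝ) :
    HasDerivAt (fun t => pot (Φ (t, s))) (potT Φ (t, s)) t :=
  hasDerivAt_pot (hasDerivAt_dt h t s)

lemma hasDerivAt_potT (h : ContDiff ℝ ∞ Φ) (t s : ℝ) :
    HasDerivAt (fun t => potT Φ (t, s)) (potTT Φ (t, s)) t := by
  have d1 := hasDerivAt_dt h t s
  have d2 := hasDerivAt_dt (contDiff_dt h) t s
  have e1 := hasDerivAt_ph d1
  have e2 := hasDerivAt_potT0 h t s
  refine ((e1.mul (hasDerivAt_re d2)).sub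
    (((hasDerivAt_im d1).mul e2).mul (hasDerivAt_im d2))).congr_deriv ?_
  unfold potTT
  simp only [Pi.mul_apply]
  ring

lemma hasDerivAt_Lw (h : ContDiff ℝ ∞ Φ) (t s : ℝ) :
    HasDerivAt (fun t => Lw Φ (t, s)) (Lw1 Φ (t, s)) t := by
  have d3 := hasDerivAt_dt (contDiff_ds h) t s
  exact (hasDerivAt_potT0 h t s).mul (hasDerivAt_im d3)

lemma hasDerivAt_Lw1 (h : ContDiff ℝ ∞ Φ) (t s : ℝ) :
    HasDerivAt (fun t => Lw1 Φ (t, s)) (Lw2 Φ (t, s)) t := by
  have d3 := hasDerivAt_dt (contDiff_ds h) t s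
  have d4 := hasDerivAt_dt (contDiff_dt (contDiff_ds h)) t s
  refine (((hasDerivAt_potT h t s).mul (hasDerivAt_im d3)).add
    ((hasDerivAt_potT0 h t s).mul (hasDerivAt_im d4))).congr_deriv ?_
  unfold Lw2
  ring

/-- The first time derivative of the area integrand splits. -/
lemma Lw1_split (h : ContDiff ℝ ∞ Φ) (t s : ℝ) :
    HasDerivAt (fun s => pot (Φ (t, s)) * (dt Φ (t, s)).im)
      (Lw1 Φ (t, s) - ph (Φ (t, s)) * wedge (dt Φ (t, s)) (ds Φ (t, s))) s := by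
  have d1 := hasDerivAt_ds h t s
  have d2 := hasDerivAt_ds (contDiff_dt h) t s
  have e1 := hasDerivAt_pot d1
  refine (e1.mul (hasDerivAt_im d2)).congr_deriv ?_
  rw [← dt_ds_comm h]
  unfold Lw1 potT wedge
  ring

/-- The second time derivative of the area integrand splits. -/
lemma Lw2_split (h : ContDiff ℝ ∞ Φ) (t s : ℝ) :
    HasDerivAt (fun s => potT Φ (t, s) * (dt Φ (t, s)).im + pot (Φ (t, s)) * (dt (dt Φ) (t, s)).im)
      (Lw2 Φ (t, s) - (-(ph (Φ (t, s)) * dot (Φ (t, s)) (dt Φ (t, s))) *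
          wedge (dt Φ (t, s)) (ds Φ (t, s)) +
        ph (Φ (t, s)) * (wedge (dt (dt Φ) (t, s)) (ds Φ (t, s)) +
          wedge (dt Φ (t, s)) (dt (ds Φ) (t, s))))) s := by
  have d1 := hasDerivAt_ds h t s
  have d2 := hasDerivAt_ds (contDiff_dt h) t s
  have d3 := hasDerivAt_ds (contDiff_dt (contDiff_dt h)) t s
  have e0 := hasDerivAt_ph d1
  have e1 := hasDerivAt_pot d1
  have e2 : HasDerivAt (fun s => potT Φ (t, s))
      (-(ph (Φ (t, s)) * dot (Φ (t, s)) (ds Φ (t, s))) * (dt Φ (t, s)).re +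
        ph (Φ (t, s)) * (ds (dt Φ) (t, s)).re -
        (((ds Φ (t, s)).im * pot (Φ (t, s)) + (Φ (t, s)).im *
          (ph (Φ (t, s)) * (ds Φ (t, s)).re - (Φ (t, s)).im * pot (Φ (t, s)) * (ds Φ (t, s)).im)) *
          (dt Φ (t, s)).im + (Φ (t, s)).im * pot (Φ (t, s)) * (ds (dt Φ) (t, s)).im)) s :=
    (e0.mul (hasDerivAt_re d2)).sub (((hasDerivAt_im d1).mul e1).mul (hasDerivAt_im d2))
  refine ((e2.mul (hasDerivAt_im d2)).add (e1.mul (hasDerivAt_im d3))).congr_deriv ?_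
  have c1 : ds (dt Φ) (t, s) = dt (ds Φ) (t, s) := (dt_ds_comm h _).symm
  have c2 : ds (dt (dt Φ)) (t, s) = dt (dt (ds Φ)) (t, s) := by
    rw [← dt_ds_comm (contDiff_dt h)]
    congr 1
    exact (funext fun p => (dt_ds_comm h p)).symm
  rw [c1, c2]
  unfold Lw2 potTT potT wedge dot
  ring

end Pool.Agent.MP_845d3b_gt
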