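import Pool.Agent.MP_845d3b_gt.Regular

open Set Filter Topology MeasureTheory Measure
open scoped ContDiff

namespace Pool.Agent.MP_845d3b_gt

section

variable {ε r0 lam : ℝ} {c : ℝ → ℂ}

lemma iface_cs (A : IsArc ε c r0 lam) (j : Fin 3) :
    iface (Om ε r0 c) (Fin.castSucc j) (Fin.castSucc (j + 1)) = ray j '' Ici r0 ∧
    iface (Om ε r0 c) (Fin.castSucc j) (Fin.last 3) = arc c j '' Iv := by
  unfold iface
  rw [Om_castSucc, Om_castSucc, Om_last]
  exact ⟨iface_ray A j, iface_arc A j⟩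

lemma iface_symm {q : ℕ} (Ω : Fin q → Set ℂ) (i j : Fin q) : iface Ω i j = iface Ω j i :=
  inter_comm _ _

lemma arc_inj (A : IsArc ε c r0 lam) (j : Fin 3) : InjOn (arc c j) Iv := by
  intro x hx y hy h
  unfold arc at h
  have hne : om j ≠ 0 := by rw [← norm_ne_zero_iff, norm_om]; norm_num
  exact c_inj A hx hy (mul_left_cancel₀ hne h)

lemma hasDerivAt_arc (A : IsArc ε c r0 lam) (j : Fin 3) {α : ℝ} (hα : |α| ≤ 1) :
    HasDerivAt (arc c j) (om j * (((ε * ph (c α) : ℝ) : ℂ) *
      (Complex.I * Complex.exp (α * Complex.I)))) α := (A.der α hα).const_mul (om j)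

/-- The vertices are triple points. -/
lemma triple (A : IsArc ε c r0 lam) (j : Fin 3) : TriplePoint (Om ε r0 c) (ray j r0) := by
  have hb := pi6_facts
  have hr0 := A.r0_pos
  have hpi : (0 : ℝ) < Real.pi / 3 := by positivity
  have hne1 : j ≠ j + 1 := by fin_cases j <;> decide
  have db : ∀ s, |-(Real.pi / 6) + s| ≤ 1 → HasDerivAt (fun s => arc c (j + 1) (-(Real.pi / 6) + s))
      (om (j + 1) * (((ε * ph (c (-(Real.pi / 6) + s)) : ℝ) : ℂ) *
      (Complex.I * Complex.exp (((-(Real.pi / 6) + s : ℝ) : ℂ) * Complex.I)))) s := by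
    intro s hs
    have h1 := hasDerivAt_arc A (j + 1) hs
    have h2 : HasDerivAt (fun s : ℝ => -(Real.pi / 6) + s) 1 s := (hasDerivAt_id s).const_add _
    have h3 := h1.scomp s h2
    rw [one_smul] at h3
    exact h3
  have dc : ∀ s, |Real.pi / 6 - s| ≤ 1 → HasDerivAt (fun s => arc c j (Real.pi / 6 - s))
      (-(om j * (((ε * ph (c (Real.pi / 6 - s)) : ℝ) : ℂ) *
      (Complex.I * Complex.exp (((Real.pi / 6 - s : ℝ) : ℂ) * Complex.I))))) s := by
    intro s hs
    have h1 := hasDerivAt_arc A j hs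
    have h2 : HasDerivAt (fun s : ℝ => Real.pi / 6 - s) (-1) s := (hasDerivAt_id s).const_sub _
    have h3 := h1.scomp s h2
    rw [neg_smul, one_smul] at h3
    exact h3
  have da : ∀ s, HasDerivAt (fun s => ray j (r0 + s)) (om j * e3) s := by
    intro s
    have h2 : HasDerivAt (fun s : ℝ => r0 + s) 1 s := (hasDerivAt_id s).const_add _
    have h3 := (hasDerivAt_ray j (r0 + s)).scomp s h2
    rw [one_smul] at h3
    exact h3
  have rb : ∀ s ∈ Icc (0 : ℝ) (Real.pi / 3), -(Real.pi / 6) + s ∈ Iv := by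
    intro s hs
    exact ⟨by linarith [hs.1], by linarith [hs.2]⟩
  have rc' : ∀ s ∈ Icc (0 : ℝ) (Real.pi / 3), Real.pi / 6 - s ∈ Iv := by
    intro s hs
    exact ⟨by linarith [hs.2], by linarith [hs.1]⟩
  have h00 : (0 : ℝ) ∈ Icc (0 : ℝ) (Real.pi / 3) := ⟨le_rfl, hpi.le⟩
  have hq : ∀ x, ε * ph x ≠ 0 := fun x => (mul_pos A.eps_pos (ph_pos x)).ne'
  have nrm : ∀ (k : Fin 3) (x : ℂ) (s : ℝ), ‖om k * (((ε * ph x : ℝ) : ℂ) *
      (Complex.I * Complex.exp ((s : ℂ) * Complex.I)))‖ = ε * ph x := by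
    intro k x s
    rw [norm_mul, norm_om, norm_mul, norm_mul, Complex.norm_I, Complex.norm_exp_ofReal_mul_I,
      Complex.norm_real, Real.norm_eq_abs, abs_of_pos (mul_pos A.eps_pos (ph_pos x))]
    ring
  refine ⟨Fin.castSucc j, Fin.castSucc (j + 1), Fin.last 3, ?_, ?_, ?_,
    Metric.ball (ray j r0) (Real.pi / 3) ∩ {y | 0 < (yj j y).re}, ?_, ?_,
    fun s => ray j (r0 + s), fun s => arc c (j + 1) (-(Real.pi / 6) + s),
    fun s => arc c j (Real.pi / 6 - s), Real.pi / 3, hpi, ?_, ?_, ?_, ?_, ?_, ?_, ?_⟩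
  · intro h
    exact hne1 (Fin.castSucc_injective 3 h)
  · exact (Fin.castSucc_lt_last _).ne
  · exact (Fin.castSucc_lt_last _).ne'
  · exact Metric.isOpen_ball.inter
      (isOpen_lt continuous_const (Complex.continuous_re.comp (continuous_yj j)))
  · refine ⟨Metric.mem_ball_self hpi, ?_⟩
    change 0 < (yj j (ray j r0)).re
    rw [yj_ray, Complex.ofReal_re]
    exact hr0
  · exact ⟨(contDiff_ray' j).comp (contDiff_const.add contDiff_id),
      (contDiff_arc' A (j + 1)).comp (contDiff_const.add contDiff_id),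
      (contDiff_arc' A j).comp (contDiff_const.sub contDiff_id)⟩
  · refine ⟨?_, ?_, ?_⟩
    · change ray j (r0 + 0) = _
      rw [add_zero]
    · change arc c (j + 1) (-(Real.pi / 6) + 0) = _
      rw [add_zero, (arc_next A j).2]
    · change arc c j (Real.pi / 6 - 0) = _
      rw [sub_zero, (arc_next A j).1]
  · intro s hs
    refine ⟨?_, ?_, ?_⟩
    · rw [(da s).deriv, ← norm_ne_zero_iff, norm_ray_dir]
      norm_num
    · rw [(db s (Iv_abs1 (rb s hs))).deriv, ← norm_ne_zero_iff, nrm]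
      exact hq _
    · rw [(dc s (Iv_abs1 (rc' s hs))).deriv, ← norm_ne_zero_iff, norm_neg, nrm]
      exact hq _
  · refine ⟨?_, ?_, ?_⟩
    · intro x _ y _ h
      have := ray_inj j h
      linarith
    · intro x hx y hy h
      have := arc_inj A (j + 1) (rb x hx) (rb y hy) h
      linarith
    · intro x hx y hy h
      have := arc_inj A j (rc' x hx) (rc' y hy) h
      linarith
  · refine ⟨?_, ?_, ?_⟩
    · rw [(iface_cs A j).1]
      ext z
      constructor
      · rintro ⟨⟨r, hr, rfl⟩, hz⟩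
        refine ⟨⟨r - r0, ⟨by linarith [show r0 ≤ r from hr], ?_⟩, ?_⟩, hz⟩
        · have h1 := hz.1
          rw [Metric.mem_ball, (isometry_ray j).dist_eq, Real.dist_eq] at h1
          exact (le_abs_self _).trans h1.le
        · change ray j (r0 + (r - r0)) = _
          congr 1
          ring
      · rintro ⟨⟨s, hs, rfl⟩, hz⟩
        exact ⟨⟨r0 + s, by change r0 ≤ r0 + s; linarith [hs.1], rfl⟩, hz⟩
    · rw [(iface_cs A (j + 1)).2]
      congr 1
      ext z
      constructor
      · rintro ⟨α, hα, rfl⟩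
        refine ⟨α + Real.pi / 6, ⟨by linarith [hα.1], by linarith [hα.2]⟩, ?_⟩
        change arc c (j + 1) (-(Real.pi / 6) + (α + Real.pi / 6)) = _
        congr 1
        ring
      · rintro ⟨s, hs, rfl⟩
        exact ⟨_, rb s hs, rfl⟩
    · rw [iface_symm, (iface_cs A j).2]
      congr 1
      ext z
      constructor
      · rintro ⟨α, hα, rfl⟩
        refine ⟨Real.pi / 6 - α, ⟨by linarith [hα.2], by linarith [hα.1]⟩, ?_⟩
        change arc c j (Real.pi / 6 - (Real.pi / 6 - α)) = _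
        congr 1
        ring
      · rintro ⟨s, hs, rfl⟩
        exact ⟨_, rc' s hs, rfl⟩
  · rw [(da 0).deriv, (db 0 (Iv_abs1 (rb 0 h00))).deriv, (dc 0 (Iv_abs1 (rc' 0 h00))).deriv,
      norm_neg, nrm, nrm, norm_ray_dir]
    have ex1 : Complex.exp (((-(Real.pi / 6) + 0 : ℝ) : ℂ) * Complex.I) =
        (√3 / 2 : ℝ) - (1 / 2 : ℝ) * Complex.I := by
      rw [← expn6]
      congr 1
      push_cast
      ring
    have ex2 : Complex.exp (((Real.pi / 6 - 0 : ℝ) : ℂ) * Complex.I) =
        (√3 / 2 : ℝ) + (1 / 2 : ℝ) * Complex.I := by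
      rw [← expn6']
      congr 1
      push_cast
      ring
    rw [ex1, ex2, om_next]
    have q1 : ((ε * ph (c (-(Real.pi / 6) + 0)) : ℝ) : ℂ) ≠ 0 := by exact_mod_cast hq _
    have q2 : ((ε * ph (c (Real.pi / 6 - 0)) : ℝ) : ℂ) ≠ 0 := by exact_mod_cast hq _
    have q3 : om j * e3 / ((1 : ℝ) : ℂ) = om j * e3 := by simp
    have q4 : w3 * om j * (((ε * ph (c (-(Real.pi / 6) + 0)) : ℝ) : ℂ) *
        (Complex.I * ((√3 / 2 : ℝ) - (1 / 2 : ℝ) * Complex.I))) /
        ((ε * ph (c (-(Real.pi / 6) + 0)) : ℝ) : ℂ) =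
        om j * (w3 * (Complex.I * ((√3 / 2 : ℝ) - (1 / 2 : ℝ) * Complex.I))) := by
      rw [div_eq_iff q1]
      ring
    have q5 : -(om j * (((ε * ph (c (Real.pi / 6 - 0)) : ℝ) : ℂ) *
        (Complex.I * ((√3 / 2 : ℝ) + (1 / 2 : ℝ) * Complex.I)))) /
        ((ε * ph (c (Real.pi / 6 - 0)) : ℝ) : ℂ) =
        om j * (-(Complex.I * ((√3 / 2 : ℝ) + (1 / 2 : ℝ) * Complex.I))) := by
      rw [div_eq_iff q2]
      ring
    rw [q3, q4, q5, ← mul_add, ← mul_add]
    have q6 : e3 + w3 * (Complex.I * ((√3 / 2 : ℝ) - (1 / 2 : ℝ) * Complex.I)) +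
        -(Complex.I * ((√3 / 2 : ℝ) + (1 / 2 : ℝ) * Complex.I)) = 0 := by
      obtain ⟨_, _, h⟩ := sqrt3_facts
      apply Complex.ext
      · simp only [Complex.add_re, Complex.neg_re, Complex.mul_re, Complex.mul_im, Complex.sub_re,
          Complex.sub_im, Complex.add_im, Complex.I_re, Complex.I_im, Complex.ofReal_re,
          Complex.ofReal_im, e3_re, w3_re, w3_im, Complex.zero_re]
        linear_combination -h / 4
      · simp only [Complex.add_re, Complex.neg_im, Complex.mul_re, Complex.mul_im, Complex.sub_re,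
          Complex.sub_im, Complex.add_im, Complex.I_re, Complex.I_im, Complex.ofReal_re,
          Complex.ofReal_im, e3_im, w3_re, w3_im, Complex.zero_im]
        ring
    rw [q6, mul_zero]
  · intro l hl1 hl2 hl3
    obtain ⟨k, rfl⟩ := Fin.exists_castSucc_eq.mpr hl3
    rw [Om_castSucc, Set.disjoint_left]
    rintro y ⟨_, hy2⟩ hy3
    have hy2' : 0 < (yj j y).re := hy2
    have hk : k = j + 2 := by
      have a1 : k ≠ j := fun h => hl1 (by rw [h])
      have a2 : k ≠ j + 1 := fun h => hl2 (by rw [h])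
      revert a1 a2
      clear * -
      fin_cases j <;> fin_cases k <;> simp
    rw [hk] at hy3
    have := (mem_Sec_yj j y).2.2 hy3.1
    linarith

lemma reg_pair (A : IsArc ε c r0 lam) (j : Fin 3) {x : ℂ}
    (hx : x ∈ iface (Om ε r0 c) (Fin.castSucc j) (Fin.castSucc (j + 1)))
    (hS : x ∉ range fun j : Fin 3 => ray j r0) :
    RegularPoint (Om ε r0 c) (Fin.castSucc j) (Fin.castSucc (j + 1)) x := by
  rw [(iface_cs A j).1] at hx
  obtain ⟨r, hr, rfl⟩ := hx
  refine regular_ray A j (lt_of_le_of_ne hr ?_)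
  rintro rfl
  exact hS ⟨j, rfl⟩

lemma reg_last (A : IsArc ε c r0 lam) (j : Fin 3) {x : ℂ}
    (hx : x ∈ iface (Om ε r0 c) (Fin.castSucc j) (Fin.last 3))
    (hS : x ∉ range fun j : Fin 3 => ray j r0) :
    RegularPoint (Om ε r0 c) (Fin.castSucc j) (Fin.last 3) x := by
  rw [(iface_cs A j).2] at hx
  obtain ⟨α, hα, rfl⟩ := hx
  refine regular_arc A j ⟨lt_of_le_of_ne hα.1 ?_, lt_of_le_of_ne hα.2 ?_⟩
  · intro h
    refine hS ⟨j + 2, ?_⟩
    have := (arc_next A (j + 2)).2
    rw [show j + 2 + 1 = j by fin_cases j <;> rfl] at this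
    change ray (j + 2) r0 = _
    rw [← this, h]
  · intro h
    refine hS ⟨j, ?_⟩
    change ray j r0 = _
    rw [h, (arc_next A j).1]

theorem isRegular (A : IsArc ε c r0 lam) : IsRegular (Om ε r0 c) := by
  refine ⟨range fun j : Fin 3 => ray j r0, finite_range _, ?_, ?_⟩
  · rintro _ ⟨j, rfl⟩
    exact triple A j
  · intro i k hik x hx hS
    revert hik hx
    refine Fin.lastCases ?_ (fun a => ?_) i
    · refine Fin.lastCases ?_ (fun b => ?_) k
      · intro h _
        exact absurd rfl h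
      · intro _ hx
        rw [iface_symm] at hx
        exact regularPoint_symm (reg_last A b hx hS)
    · refine Fin.lastCases ?_ (fun b => ?_) k
      · intro _ hx
        exact reg_last A a hx hS
      · intro hne hx
        have hab : b = a + 1 ∨ a = b + 1 := by
          have h1 : a ≠ b := fun h => hne (by rw [h])
          revert h1
          clear * -
          fin_cases a <;> fin_cases b <;> simp
        rcases hab with rfl | rfl
        · exact reg_pair A a hx hS
        · rw [iface_symm] at hx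
          exact regularPoint_symm (reg_pair A b hx hS)

theorem isPartition (A : IsArc ε c r0 lam) : IsPartition (Om ε r0 c) := by
  have hr0 := A.r0_pos
  refine ⟨fun i => ?_, fun i => ?_, fun i k hik => ?_, ?_, fun i => ?_⟩
  · refine Fin.lastCases ?_ (fun a => ?_) i
    · exact isOpen_tri A
    · rw [Om_castSucc]; exact isOpen_cell A a
  · refine Fin.lastCases ?_ (fun a => ?_) i
    · refine ⟨0, ?_⟩
      change gau ε r0 c 0 < r0
      rw [gau_zero A]
      exact hr0
    · rw [Om_castSucc, cell_eq A]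
      refine ⟨_, (2 * r0, 0), ⟨?_, ?_⟩, rfl⟩
      · change r0 < 2 * r0
        linarith
      · exact ⟨by linarith [pi6_facts.1], pi6_facts.1⟩
  · revert hik
    refine Fin.lastCases ?_ (fun a => ?_) i
    · refine Fin.lastCases ?_ (fun b => ?_) k
      · intro h
        exact absurd rfl h
      · intro _
        rw [Om_castSucc, Om_last]
        exact (cell_tri_disj b).symm
    · refine Fin.lastCases ?_ (fun b => ?_) k
      · intro _
        rw [Om_castSucc, Om_last]
        exact cell_tri_disj a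
      · intro hne
        rw [Om_castSucc, Om_castSucc]
        exact cell_disj a b fun h => hne (by rw [h])
  · rw [eq_univ_iff_forall]
    intro z
    rcases cover A z with ⟨j, hj⟩ | h
    · refine mem_iUnion.mpr ⟨Fin.castSucc j, ?_⟩
      rw [Om_castSucc]
      exact hj
    · exact mem_iUnion.mpr ⟨Fin.last 3, h⟩
  · refine Fin.lastCases ?_ (fun a => ?_) i
    · exact perimeter_tri A
    · rw [Om_castSucc]; exact perimeter_cell A a

theorem not_product (A : IsArc ε c r0 lam) : ¬ HasProductStructure (Om ε r0 c) := by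
  rintro ⟨v, Ω', hv, h⟩
  have hr0 := A.r0_pos
  have hl := h (Fin.last 3)
  rw [Om_last] at hl
  have h0 : (0 : ℂ) ∈ tri ε r0 c := by
    change gau ε r0 c 0 < r0
    rw [gau_zero A]
    exact hr0
  have h1 := h0
  rw [hl] at h1
  have h1' : v.re * (0 : ℂ).re + v.im * (0 : ℂ).im ∈ Ω' (Fin.last 3) := h1
  simp only [Complex.zero_re, Complex.zero_im, mul_zero, add_zero] at h1'
  have h2 : ((1 : ℝ) : ℂ) * (Complex.I * v) ∈ tri ε r0 c := by
    rw [hl]
    change v.re * (((1 : ℝ) : ℂ) * (Complex.I * v)).re +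
      v.im * (((1 : ℝ) : ℂ) * (Complex.I * v)).im ∈ Ω' (Fin.last 3)
    have e : v.re * (((1 : ℝ) : ℂ) * (Complex.I * v)).re +
        v.im * (((1 : ℝ) : ℂ) * (Complex.I * v)).im = 0 := by
      simp
      ring
    rw [e]
    exact h1'
  have h3 := (gau_norm A (((1 : ℝ) : ℂ) * (Complex.I * v))).2
  have h4 : gau ε r0 c (((1 : ℝ) : ℂ) * (Complex.I * v)) < r0 := h2
  have h5 : ‖((1 : ℝ) : ℂ) * (Complex.I * v)‖ = 1 := by
    rw [norm_mul, norm_mul, hv, Complex.norm_I, Complex.norm_real]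
    norm_num
  have h6 := A.eps_le
  have h7 := A.eps_pos
  have h8 : gau ε r0 c (((1 : ℝ) : ℂ) * (Complex.I * v)) * (2 * ε / r0) ≤ r0 * (2 * ε / r0) :=
    mul_le_mul_of_nonneg_right h4.le (by positivity)
  have h9 : r0 * (2 * ε / r0) = 2 * ε := by field_simp
  rw [h5] at h3
  linarith

theorem not_flat (A : IsArc ε c r0 lam) : ¬ FlatInterfaces (Om ε r0 c) := by
  intro h
  have hb := pi6_facts
  have hr0 := A.r0_pos
  obtain ⟨v, k, hv, hk⟩ := h 0 3 (by decide)
  have hi : iface (Om ε r0 c) 0 3 = arc c 0 '' Iv := (ifaces A).2.2.2.1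
  rw [hi] at hk
  have harc : ∀ α, arc c 0 α = c α := fun α => by unfold arc; rw [om_zero, one_mul]
  obtain ⟨i1, i2, i3⟩ := Iv_facts
  have k1 := hk _ ⟨_, i1, rfl⟩
  have k2 := hk _ ⟨_, i2, rfl⟩
  have k3 := hk _ ⟨_, i3, rfl⟩
  rw [harc] at k1 k2 k3
  rw [A.conj] at k1
  have c0 : (c 0).im = 0 := by
    have := A.conj 0
    rw [neg_zero] at this
    exact Complex.conj_eq_iff_im.mp this.symm
  have cb : (c (Real.pi / 6)).im = r0 * (√3 / 2) := by
    rw [c_end A, Complex.im_ofReal_mul, e3_im]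
  simp only [Complex.conj_re, Complex.conj_im] at k1
  rw [c0] at k3
  have hs3 : (0 : ℝ) < √3 := by positivity
  have v1 : v.im = 0 := by
    have : v.im * (r0 * (√3 / 2)) = 0 := by
      rw [cb] at k1 k2
      linarith
    exact (mul_eq_zero.mp this).resolve_right (by positivity)
  have v2 : v.re ≠ 0 := by
    intro h0
    exact hv (Complex.ext h0 v1)
  have e1 : (c 0).re = (c (Real.pi / 6)).re := by
    rw [v1] at k2 k3
    have : v.re * ((c 0).re - (c (Real.pi / 6)).re) = 0 := by linarith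
    have := (mul_eq_zero.mp this).resolve_left v2
    linarith
  -- strict monotonicity of the real part
  have hd : ∀ α ∈ Icc (0 : ℝ) (Real.pi / 6), HasDerivAt (fun α => (c α).re)
      (-(ε * ph (c α) * Real.sin α)) α := by
    intro α hα
    have hα1 : |α| ≤ 1 := by rw [abs_of_nonneg hα.1]; linarith [hα.2]
    refine (hasDerivAt_re (A.der α hα1)).congr_deriv ?_
    rw [expp_eq]
    simp only [Complex.mul_re, Complex.mul_im, Complex.add_re, Complex.add_im, Complex.I_re,
      Complex.I_im, Complex.ofReal_re, Complex.ofReal_im]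
    ring
  have hanti : StrictAntiOn (fun α => (c α).re) (Icc 0 (Real.pi / 6)) := by
    refine strictAntiOn_of_deriv_neg (convex_Icc _ _)
      (fun α hα => (hd α hα).continuousAt.continuousWithinAt) ?_
    intro x hx
    rw [interior_Icc] at hx
    rw [(hd x ⟨hx.1.le, hx.2.le⟩).deriv]
    have h1 : 0 < Real.sin x := Real.sin_pos_of_pos_of_lt_pi hx.1 (by linarith [hx.2, Real.pi_pos])
    have := mul_pos (mul_pos A.eps_pos (ph_pos (c x))) h1
    linarith
  have := hanti (⟨le_rfl, hb.1.le⟩ : (0 : ℝ) ∈ Icc 0 (Real.pi / 6)) ⟨hb.1.le, le_rfl⟩ hb.1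
  simp only at this
  linarith

end

/-- The counterexample. -/
theorem main : ∃ Ω : Fin 4 → Set ℂ, IsPartition Ω ∧ IsRegular Ω ∧ Stationary Ω ∧ Stable Ω ∧
    IndexStable Ω ∧ ¬ HasProductStructure Ω ∧ ¬ FlatInterfaces Ω := by
  obtain ⟨c, r0, lam, A⟩ := exists_isArc (ε := 1 / 1000) (by norm_num) (by norm_num)
  exact ⟨Om (1 / 1000) r0 c, isPartition A, isRegular A, stationary A le_rfl, stable A le_rfl,
    indexStable A le_rfl, not_product A, not_flat A⟩

end Pool.Agent.MP_845d3b_gt
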