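import Pool.Agent.MP_845d3b_gt.Sector

open Set Filter Topology MeasureTheory
open scoped ContDiff

namespace Pool.Agent.MP_845d3b_gt

/-- the closed angular interval -/
def Iv : Set ℝ := Icc (-(Real.pi / 6)) (Real.pi / 6)

/-- the open angular interval -/
def Io : Set ℝ := Ioo (-(Real.pi / 6)) (Real.pi / 6)

lemma Iv_abs {a : ℝ} (ha : a ∈ Iv) : |a| ≤ Real.pi / 6 := abs_le.mpr ha

lemma Iv_abs1 {a : ℝ} (ha : a ∈ Iv) : |a| ≤ 1 := (Iv_abs ha).trans pi6_facts.2.2

/-- parametrisation of the closed sector -/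
noncomputable def Kp (r0 : ℝ) (c : ℝ → ℂ) (j : Fin 3) (p : ℝ × ℝ) : ℂ :=
  ((p.1 / r0 : ℝ) : ℂ) * (om j * c p.2)

/-- the angular function whose monotonicity gives the supporting inequality -/
noncomputable def Dk (c : ℝ → ℂ) (k : Fin 3) (β α : ℝ) : ℝ :=
  (om k * c α * Complex.exp (-(β * Complex.I))).re

section

variable {ε r0 lam : ℝ} {c : ℝ → ℂ}

lemma exp_sub (α β : ℝ) : Complex.exp (α * Complex.I) * Complex.exp (-(β * Complex.I)) =
    (Real.cos (α - β) : ℂ) + Real.sin (α - β) * Complex.I := by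
  rw [← Complex.exp_add, ← expp_eq]
  congr 1
  push_cast
  ring

lemma hasDerivAt_Dk (A : IsArc ε c r0 lam) (k : Fin 3) (β : ℝ) {α : ℝ} (hα : |α| ≤ 1) :
    HasDerivAt (Dk c k β) (-(ε * ph (c α)) *
      ((om k).im * Real.cos (α - β) + (om k).re * Real.sin (α - β))) α := by
  have h1 := ((A.der α hα).const_mul (om k)).mul_const (Complex.exp (-(β * Complex.I)))
  have h2 := hasDerivAt_re h1
  refine h2.congr_deriv ?_
  have e : om k * (((ε * ph (c α) : ℝ) : ℂ) * (Complex.I * Complex.exp (α * Complex.I))) *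
      Complex.exp (-(β * Complex.I)) =
      ((ε * ph (c α) : ℝ) : ℂ) * (om k * (Complex.I * ((Real.cos (α - β) : ℂ) +
        Real.sin (α - β) * Complex.I))) := by
    rw [← exp_sub]; ring
  rw [e]
  simp only [Complex.mul_re, Complex.mul_im, Complex.add_re, Complex.add_im, Complex.I_re,
    Complex.I_im, Complex.ofReal_re, Complex.ofReal_im]
  ring

lemma Dk_self (k : Fin 3) (hk : k = 0) (c : ℝ → ℂ) (β : ℝ) : Dk c k β β = (wv c β).re := by
  subst hk
  unfold Dk wv
  rw [om_zero, one_mul]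

lemma Dk_cont (A : IsArc ε c r0 lam) (k : Fin 3) (β : ℝ) {S : Set ℝ} (hS : S ⊆ Iv) :
    ContinuousOn (Dk c k β) S := fun α hα =>
  (hasDerivAt_Dk A k β (Iv_abs1 (hS hα))).continuousAt.continuousWithinAt

lemma Dk_zero_le (A : IsArc ε c r0 lam) {α β : ℝ} (hα : α ∈ Iv) (hβ : β ∈ Iv) :
    Dk c 0 β α ≤ (wv c β).re := by
  obtain ⟨p1, p2, p3⟩ := pi6_facts
  have hpi : Real.pi / 6 + Real.pi / 6 ≤ Real.pi := by linarith
  rw [← Dk_self 0 rfl]
  have hre : (om 0).re = 1 := by rw [om_zero]; rfl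
  have him : (om 0).im = 0 := by rw [om_zero]; rfl
  rcases le_total α β with h | h
  · have hsub : Icc α β ⊆ Iv := Icc_subset_Icc hα.1 hβ.2
    have hm : MonotoneOn (Dk c 0 β) (Icc α β) := by
      refine monotoneOn_of_deriv_nonneg (convex_Icc _ _) (Dk_cont A 0 β hsub) ?_ ?_
      · intro x hx
        rw [interior_Icc] at hx
        exact (hasDerivAt_Dk A 0 β (Iv_abs1 (hsub ⟨hx.1.le, hx.2.le⟩))).differentiableAt.differentiableWithinAt
      · intro x hx
        rw [interior_Icc] at hx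
        have hx' := hsub ⟨hx.1.le, hx.2.le⟩
        rw [(hasDerivAt_Dk A 0 β (Iv_abs1 hx')).deriv, hre, him]
        have h1 : Real.sin (x - β) ≤ 0 :=
          Real.sin_nonpos_of_nonpos_of_neg_pi_le (by linarith [hx.2]) (by linarith [hx'.1, hβ.2])
        have h2 : 0 < ε * ph (c x) := mul_pos A.eps_pos (ph_pos _)
        nlinarith
    exact hm ⟨le_rfl, h⟩ ⟨h, le_rfl⟩ h
  · have hsub : Icc β α ⊆ Iv := Icc_subset_Icc hβ.1 hα.2
    have hm : AntitoneOn (Dk c 0 β) (Icc β α) := by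
      refine antitoneOn_of_deriv_nonpos (convex_Icc _ _) (Dk_cont A 0 β hsub) ?_ ?_
      · intro x hx
        rw [interior_Icc] at hx
        exact (hasDerivAt_Dk A 0 β (Iv_abs1 (hsub ⟨hx.1.le, hx.2.le⟩))).differentiableAt.differentiableWithinAt
      · intro x hx
        rw [interior_Icc] at hx
        have hx' := hsub ⟨hx.1.le, hx.2.le⟩
        rw [(hasDerivAt_Dk A 0 β (Iv_abs1 hx')).deriv, hre, him]
        have h1 : 0 ≤ Real.sin (x - β) :=
          Real.sin_nonneg_of_nonneg_of_le_pi (by linarith [hx.1]) (by linarith [hx'.2, hβ.1])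
        have h2 : 0 < ε * ph (c x) := mul_pos A.eps_pos (ph_pos _)
        nlinarith
    exact hm ⟨le_rfl, h⟩ ⟨h, le_rfl⟩ h

lemma sin_two_pi_div_three' : Real.sin (2 * Real.pi / 3) = √3 / 2 := by
  have : 2 * Real.pi / 3 = Real.pi - Real.pi / 3 := by ring
  rw [this, Real.sin_pi_sub, Real.sin_pi_div_three]

lemma cos_two_pi_div_three' : Real.cos (2 * Real.pi / 3) = -(1 / 2) := by
  have : 2 * Real.pi / 3 = Real.pi - Real.pi / 3 := by ring
  rw [this, Real.cos_pi_sub, Real.cos_pi_div_three]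

lemma Dk_one_le (A : IsArc ε c r0 lam) {α β : ℝ} (hα : α ∈ Iv) (hβ : β ∈ Iv) :
    Dk c 1 β α ≤ (wv c β).re := by
  obtain ⟨p1, p2, p3⟩ := pi6_facts
  have hre : (om 1).re = -(1 / 2) := w3_re
  have him : (om 1).im = √3 / 2 := w3_im
  have hm : AntitoneOn (Dk c 1 β) Iv := by
    refine antitoneOn_of_deriv_nonpos (convex_Icc _ _) (Dk_cont A 1 β subset_rfl) ?_ ?_
    · intro x hx
      exact (hasDerivAt_Dk A 1 β (Iv_abs1 (interior_subset hx))).differentiableAt.differentiableWithinAt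
    · intro x hx
      have hx' : x ∈ Iv := interior_subset hx
      rw [(hasDerivAt_Dk A 1 β (Iv_abs1 hx')).deriv, hre, him]
      have h1 : 0 ≤ Real.sin (2 * Real.pi / 3 + (x - β)) :=
        Real.sin_nonneg_of_nonneg_of_le_pi (by linarith [hx'.1, hβ.2]) (by linarith [hx'.2, hβ.1])
      rw [Real.sin_add, sin_two_pi_div_three', cos_two_pi_div_three'] at h1
      have h2 : 0 < ε * ph (c x) := mul_pos A.eps_pos (ph_pos _)
      nlinarith
  have hm1 : -(Real.pi / 6) ∈ Iv := ⟨le_rfl, by linarith⟩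
  have hb : Real.pi / 6 ∈ Iv := ⟨by linarith, le_rfl⟩
  refine (hm hm1 hα hα.1).trans ?_
  have e : Dk c 1 β (-(Real.pi / 6)) = Dk c 0 β (Real.pi / 6) := by
    unfold Dk
    rw [om_one, om_zero, c_end' A, ← c_end A, one_mul]
  rw [e]
  exact Dk_zero_le A hb hβ

lemma Dk_two_le (A : IsArc ε c r0 lam) {α β : ℝ} (hα : α ∈ Iv) (hβ : β ∈ Iv) :
    Dk c 2 β α ≤ (wv c β).re := by
  obtain ⟨p1, p2, p3⟩ := pi6_facts
  have hre : (om 2).re = -(1 / 2) := w3sq_re
  have him : (om 2).im = -(√3 / 2) := w3sq_im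
  have hm : MonotoneOn (Dk c 2 β) Iv := by
    refine monotoneOn_of_deriv_nonneg (convex_Icc _ _) (Dk_cont A 2 β subset_rfl) ?_ ?_
    · intro x hx
      exact (hasDerivAt_Dk A 2 β (Iv_abs1 (interior_subset hx))).differentiableAt.differentiableWithinAt
    · intro x hx
      have hx' : x ∈ Iv := interior_subset hx
      rw [(hasDerivAt_Dk A 2 β (Iv_abs1 hx')).deriv, hre, him]
      have h1 : 0 ≤ Real.sin (2 * Real.pi / 3 - (x - β)) :=
        Real.sin_nonneg_of_nonneg_of_le_pi (by linarith [hx'.2, hβ.1]) (by linarith [hx'.1, hβ.2])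
      rw [Real.sin_sub, sin_two_pi_div_three', cos_two_pi_div_three'] at h1
      have h2 : 0 < ε * ph (c x) := mul_pos A.eps_pos (ph_pos _)
      nlinarith
  have hm1 : -(Real.pi / 6) ∈ Iv := ⟨le_rfl, by linarith⟩
  have hb : Real.pi / 6 ∈ Iv := ⟨by linarith, le_rfl⟩
  refine (hm hα hb hα.2).trans ?_
  have e : Dk c 2 β (Real.pi / 6) = Dk c 0 β (-(Real.pi / 6)) := by
    unfold Dk
    rw [om_two, om_zero, c_end A, ← c_end' A, one_mul]
    congr 2
    linear_combination c (-(Real.pi / 6)) * w3_cube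
  rw [e]
  exact Dk_zero_le A hm1 hβ

lemma Dk_le (A : IsArc ε c r0 lam) (k : Fin 3) {α β : ℝ} (hα : α ∈ Iv) (hβ : β ∈ Iv) :
    Dk c k β α ≤ (wv c β).re := by
  fin_cases k
  · exact Dk_zero_le A hα hβ
  · exact Dk_one_le A hα hβ
  · exact Dk_two_le A hα hβ

lemma om_mul_conj (j k : Fin 3) : ∃ m : Fin 3, om j * (starRingEnd ℂ) (om k) = om m := by
  have c0 : (starRingEnd ℂ) (om 0) = om 0 := by rw [om_zero, map_one]
  have cw : (starRingEnd ℂ) w3 = w3 * w3 := by
    obtain ⟨_, _, h⟩ := sqrt3_facts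
    apply Complex.ext
    · rw [w3sq_re, Complex.conj_re, w3_re]
    · rw [w3sq_im, Complex.conj_im, w3_im]
  have c1 : (starRingEnd ℂ) (om 1) = om 2 := by rw [om_one, om_two, cw]
  have c2 : (starRingEnd ℂ) (om 2) = om 1 := by
    rw [om_one, om_two, map_mul, cw]
    linear_combination w3 * w3_cube
  fin_cases j <;> fin_cases k
  · exact ⟨0, by change om 0 * (starRingEnd ℂ) (om 0) = om 0; rw [c0, om_zero, mul_one]⟩
  · exact ⟨2, by change om 0 * (starRingEnd ℂ) (om 1) = om 2; rw [c1, om_zero, one_mul]⟩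
  · exact ⟨1, by change om 0 * (starRingEnd ℂ) (om 2) = om 1; rw [c2, om_zero, one_mul]⟩
  · exact ⟨1, by change om 1 * (starRingEnd ℂ) (om 0) = om 1; rw [c0, om_zero, mul_one]⟩
  · exact ⟨0, by
      change om 1 * (starRingEnd ℂ) (om 1) = om 0; rw [c1, om_zero, om_one, om_two, w3_cube]⟩
  · exact ⟨2, by change om 1 * (starRingEnd ℂ) (om 2) = om 2; rw [c2, om_one, om_two]⟩
  · exact ⟨2, by change om 2 * (starRingEnd ℂ) (om 0) = om 2; rw [c0, om_zero, mul_one]⟩
  · exact ⟨1, by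
      change om 2 * (starRingEnd ℂ) (om 1) = om 1
      rw [c1, om_two, om_one]
      linear_combination w3 * w3_cube⟩
  · exact ⟨0, by
      change om 2 * (starRingEnd ℂ) (om 2) = om 0
      rw [c2, om_zero, om_one, om_two]
      linear_combination w3_cube⟩

/-- kernel of the gauge -/
noncomputable def gk (ε : ℝ) (c : ℝ → ℂ) (z : ℂ) (p : Fin 3 × ℝ) : ℝ :=
  (rot p.1 z * Complex.exp (-(p.2 * Complex.I))).re / max (wv c p.2).re (ε / 10)

/-- the gauge of the curved triangle, normalised to be `r0` on its boundary -/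
noncomputable def gau (ε r0 : ℝ) (c : ℝ → ℂ) (z : ℂ) : ℝ :=
  r0 * sSup (gk ε c z '' ((univ : Set (Fin 3)) ×ˢ Iv))

lemma continuous_gau (A : IsArc ε c r0 lam) : Continuous (gau ε r0 c) := by
  have hK : IsCompact ((univ : Set (Fin 3)) ×ˢ Iv) := isCompact_univ.prod isCompact_Icc
  have hf : Continuous (↿(gk ε c)) := by
    change Continuous fun q : ℂ × (Fin 3 × ℝ) => gk ε c q.1 q.2
    unfold gk
    have h1 : Continuous fun q : ℂ × (Fin 3 × ℝ) => rot q.2.1 q.1 := by
      unfold rot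
      have : Continuous fun j : Fin 3 => (starRingEnd ℂ) (om j) := continuous_of_discreteTopology
      exact continuous_fst.mul (this.comp (continuous_fst.comp continuous_snd))
    have h2 : Continuous fun q : ℂ × (Fin 3 × ℝ) => Complex.exp (-((q.2.2 : ℂ) * Complex.I)) := by
      fun_prop
    have h3 : Continuous fun q : ℂ × (Fin 3 × ℝ) => (wv c q.2.2).re := by
      unfold wv
      have hc := A.smooth.continuous
      fun_prop
    refine (Complex.continuous_re.comp (h1.mul h2)).div (h3.max continuous_const) ?_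
    intro q
    have : 0 < ε / 10 := by have := A.eps_pos; positivity
    exact (lt_max_of_lt_right this).ne'
  exact continuous_const.mul (hK.continuous_sSup hf)

lemma gk_Kp (A : IsArc ε c r0 lam) (j k : Fin 3) {r α β : ℝ} (hr : 0 ≤ r) (hα : α ∈ Iv)
    (hβ : β ∈ Iv) : gk ε c (Kp r0 c j (r, α)) (k, β) ≤ r / r0 ∧
      gk ε c (Kp r0 c j (r, α)) (j, α) = r / r0 := by
  have hn : ∀ {β : ℝ}, β ∈ Iv → max (wv c β).re (ε / 10) = (wv c β).re ∧ 0 < (wv c β).re := by
    intro β hβ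
    have := A.hN_ge β (Iv_abs hβ)
    have h0 := A.eps_pos
    change ε / 3 ≤ (wv c β).re at this
    exact ⟨max_eq_left (by linarith), by linarith⟩
  have hr0 := A.r0_pos
  constructor
  · unfold gk
    rw [(hn hβ).1, div_le_iff₀ (hn hβ).2]
    obtain ⟨m, hm⟩ := om_mul_conj j k
    have e : (rot k (Kp r0 c j (r, α)) * Complex.exp (-(β * Complex.I))).re =
        r / r0 * Dk c m β α := by
      unfold rot Kp Dk
      rw [← hm, ← Complex.re_ofReal_mul]
      congr 1
      ring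
    change (rot k (Kp r0 c j (r, α)) * Complex.exp (-(β * Complex.I))).re ≤ _
    rw [e]
    exact mul_le_mul_of_nonneg_left (Dk_le A m hα hβ) (by positivity)
  · unfold gk
    change (rot j (Kp r0 c j (r, α)) * Complex.exp (-(α * Complex.I))).re /
      max (wv c α).re (ε / 10) = _
    rw [(hn hα).1, div_eq_iff (hn hα).2.ne']
    have e : (rot j (Kp r0 c j (r, α)) * Complex.exp (-(α * Complex.I))) =
        ((r / r0 : ℝ) : ℂ) * wv c α := by
      unfold rot Kp wv
      have := mul_conj_one (norm_om j)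
      linear_combination ((r / r0 : ℝ) : ℂ) * c α * Complex.exp (-(α * Complex.I)) * this
    rw [e, Complex.re_ofReal_mul]

lemma gau_Kp (A : IsArc ε c r0 lam) (j : Fin 3) {r α : ℝ} (hr : 0 ≤ r) (hα : α ∈ Iv) :
    gau ε r0 c (Kp r0 c j (r, α)) = r := by
  have hg : IsGreatest (gk ε c (Kp r0 c j (r, α)) '' ((univ : Set (Fin 3)) ×ˢ Iv)) (r / r0) := by
    constructor
    · exact ⟨(j, α), ⟨mem_univ _, hα⟩, (gk_Kp A j j hr hα hα).2⟩
    · rintro _ ⟨⟨k, β⟩, ⟨_, hβ⟩, rfl⟩
      exact (gk_Kp A j k hr hα hβ).1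
  unfold gau
  rw [hg.csSup_eq]
  have := A.r0_pos.ne'
  field_simp

/-- position relative to the lines bounding the sector -/
lemma c_side (A : IsArc ε c r0 lam) :
    StrictMonoOn (fun α => (c α * (starRingEnd ℂ) e3).im) Iv := by
  have hd : ∀ α ∈ Iv, HasDerivAt (fun α => (c α * (starRingEnd ℂ) e3).im)
      (ε * ph (c α) * Real.cos (α - Real.pi / 3)) α := by
    intro α hα
    refine (hasDerivAt_im ((A.der α (Iv_abs1 hα)).mul_const ((starRingEnd ℂ) e3))).congr_deriv ?_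
    rw [Real.cos_sub, Real.cos_pi_div_three, Real.sin_pi_div_three, expp_eq]
    simp only [Complex.mul_re, Complex.mul_im, Complex.add_re, Complex.add_im, Complex.I_re,
      Complex.I_im, Complex.ofReal_re, Complex.ofReal_im, Complex.conj_re, Complex.conj_im,
      e3_re, e3_im]
    ring
  refine strictMonoOn_of_deriv_pos (convex_Icc _ _)
    (fun α hα => (hd α hα).continuousAt.continuousWithinAt) ?_
  intro x hx
  have hx' : x ∈ Iv := interior_subset hx
  rw [interior_Icc] at hx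
  rw [(hd x hx').deriv]
  have h1 : 0 < Real.cos (x - Real.pi / 3) := by
    apply Real.cos_pos_of_mem_Ioo
    constructor <;> linarith [hx.1, hx.2, Real.pi_pos]
  exact mul_pos (mul_pos A.eps_pos (ph_pos _)) h1

lemma c_side_b (A : IsArc ε c r0 lam) : (c (Real.pi / 6) * (starRingEnd ℂ) e3).im = 0 := by
  rw [c_end A]
  have := mul_conj_one norm_e3
  have e : (r0 : ℂ) * e3 * (starRingEnd ℂ) e3 = (r0 : ℂ) := by linear_combination (r0 : ℂ) * this
  rw [e, Complex.ofReal_im]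

lemma Iv_facts : -(Real.pi / 6) ∈ Iv ∧ Real.pi / 6 ∈ Iv ∧ (0 : ℝ) ∈ Iv := by
  obtain ⟨p1, p2, p3⟩ := pi6_facts
  exact ⟨⟨le_rfl, by linarith⟩, ⟨by linarith, le_rfl⟩, ⟨by linarith, by linarith⟩⟩

lemma c_upper (A : IsArc ε c r0 lam) {α : ℝ} (hα : α ∈ Iv) :
    (c α).im ≤ √3 * (c α).re ∧ (α < Real.pi / 6 → (c α).im < √3 * (c α).re) := by
  have h1 := c_side_b A
  have e : (c α * (starRingEnd ℂ) e3).im = (1 / 2) * ((c α).im - √3 * (c α).re) := by
    simp only [Complex.mul_im, Complex.conj_re, Complex.conj_im, e3_re, e3_im]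
    ring
  constructor
  · have h2 : (c α * (starRingEnd ℂ) e3).im ≤ (c (Real.pi / 6) * (starRingEnd ℂ) e3).im :=
      (c_side A).monotoneOn hα Iv_facts.2.1 hα.2
    rw [h1, e] at h2
    linarith
  · intro hlt
    have h2 : (c α * (starRingEnd ℂ) e3).im < (c (Real.pi / 6) * (starRingEnd ℂ) e3).im :=
      (c_side A) hα Iv_facts.2.1 hlt
    rw [h1, e] at h2
    linarith

lemma Iv_neg {α : ℝ} (hα : α ∈ Iv) : -α ∈ Iv := ⟨by linarith [hα.2], by linarith [hα.1]⟩

lemma c_lower (A : IsArc ε c r0 lam) {α : ℝ} (hα : α ∈ Iv) :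
    -(c α).im ≤ √3 * (c α).re ∧ (-(Real.pi / 6) < α → -(c α).im < √3 * (c α).re) := by
  have h := c_upper A (Iv_neg hα)
  rw [A.conj] at h
  simp only [Complex.conj_re, Complex.conj_im] at h
  exact ⟨h.1, fun hlt => h.2 (by linarith)⟩

/-- surjectivity of the parametrisation in the standard sector -/
lemma surj_zero (A : IsArc ε c r0 lam) {w : ℂ} (hw : |w.im| ≤ √3 * w.re) (h0 : w ≠ 0) :
    ∃ x : ℝ, 0 < x ∧ ∃ α ∈ Iv, w = (x : ℂ) * c α := by
  obtain ⟨s1, s2, hs⟩ := sqrt3_facts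
  obtain ⟨hw1, hw2⟩ := abs_le.mp hw
  have hre : 0 < w.re := by
    rcases lt_trichotomy w.re 0 with h | h | h
    · exfalso; nlinarith
    · exfalso
      rw [h, mul_zero] at hw1 hw2
      exact h0 (Complex.ext h (by simp; linarith))
    · exact h
  have hr0 := A.r0_pos
  -- the angular function
  have hcont : ContinuousOn (fun α => ((starRingEnd ℂ) w * c α).im) Iv :=
    (Complex.continuous_im.comp (continuous_const.mul A.smooth.continuous)).continuousOn
  have hb : 0 ≤ ((starRingEnd ℂ) w * c (Real.pi / 6)).im := by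
    rw [c_end A]
    simp only [Complex.mul_im, Complex.mul_re, Complex.conj_re, Complex.conj_im, Complex.ofReal_re,
      Complex.ofReal_im, e3_re, e3_im]
    have : 0 ≤ r0 * (√3 * w.re - w.im) := mul_nonneg hr0.le (by linarith)
    nlinarith
  have hmb : ((starRingEnd ℂ) w * c (-(Real.pi / 6))).im ≤ 0 := by
    rw [A.conj, c_end A]
    simp only [Complex.mul_im, Complex.mul_re, Complex.conj_re, Complex.conj_im, Complex.ofReal_re,
      Complex.ofReal_im, e3_re, e3_im]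
    have : 0 ≤ r0 * (√3 * w.re + w.im) := mul_nonneg hr0.le (by linarith)
    nlinarith
  obtain ⟨α, hα, hα0⟩ := intermediate_value_Icc (by linarith [pi6_facts.1]) hcont
    (show (0 : ℝ) ∈ Icc _ _ from ⟨hmb, hb⟩)
  have hα0' : w.re * (c α).im - w.im * (c α).re = 0 := by
    simp only [Complex.mul_im, Complex.conj_re, Complex.conj_im] at hα0
    linarith
  have hc := A.re_pos α (Iv_abs hα)
  refine ⟨w.re / (c α).re, by positivity, α, hα, ?_⟩
  apply Complex.ext
  · rw [Complex.re_ofReal_mul]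
    field_simp
  · rw [Complex.im_ofReal_mul]
    field_simp
    linarith

lemma surj (A : IsArc ε c r0 lam) {j : Fin 3} {z : ℂ} (hz : z ∈ cSec j) (h0 : z ≠ 0) :
    ∃ r > 0, ∃ α ∈ Iv, z = Kp r0 c j (r, α) := by
  have hu := mul_conj_one (norm_om j)
  have hrot : rot j z ≠ 0 := by
    intro h
    apply h0
    have : z = om j * rot j z := by unfold rot; linear_combination -z * hu
    rw [this, h, mul_zero]
  obtain ⟨x, hx, α, hα, he⟩ := surj_zero A hz hrot
  have hr0 := A.r0_pos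
  refine ⟨x * r0, mul_pos hx hr0, α, hα, ?_⟩
  unfold Kp
  have e1 : x * r0 / r0 = x := by field_simp
  simp only
  rw [e1]
  have : z = om j * rot j z := by unfold rot; linear_combination -z * hu
  rw [this, he]
  ring

lemma rot_Kp (r0 : ℝ) (c : ℝ → ℂ) (j : Fin 3) (r α : ℝ) :
    rot j (Kp r0 c j (r, α)) = ((r / r0 : ℝ) : ℂ) * c α := by
  unfold rot Kp
  have := mul_conj_one (norm_om j)
  linear_combination ((r / r0 : ℝ) : ℂ) * c α * this

lemma Kp_mem_cSec (A : IsArc ε c r0 lam) (j : Fin 3) {r α : ℝ} (hr : 0 ≤ r) (hα : α ∈ Iv) :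
    Kp r0 c j (r, α) ∈ cSec j := by
  change |(rot j _).im| ≤ √3 * (rot j _).re
  rw [rot_Kp, Complex.re_ofReal_mul, Complex.im_ofReal_mul, abs_mul,
    abs_of_nonneg (div_nonneg hr A.r0_pos.le)]
  have h1 := (c_upper A hα).1
  have h2 := (c_lower A hα).1
  have h3 : |(c α).im| ≤ √3 * (c α).re := abs_le.mpr ⟨by linarith, h1⟩
  have h4 : 0 ≤ r / r0 := div_nonneg hr A.r0_pos.le
  nlinarith

lemma Kp_mem_Sec (A : IsArc ε c r0 lam) (j : Fin 3) {r α : ℝ} (hr : 0 < r) (hα : α ∈ Io) :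
    Kp r0 c j (r, α) ∈ Sec j := by
  change |(rot j _).im| < √3 * (rot j _).re
  have hα' : α ∈ Iv := ⟨hα.1.le, hα.2.le⟩
  rw [rot_Kp, Complex.re_ofReal_mul, Complex.im_ofReal_mul, abs_mul,
    abs_of_nonneg (div_nonneg hr.le A.r0_pos.le)]
  have h1 := (c_upper A hα').2 hα.2
  have h2 := (c_lower A hα').2 hα.1
  have h3 : |(c α).im| < √3 * (c α).re := abs_lt.mpr ⟨by linarith, h1⟩
  have h4 : 0 < r / r0 := div_pos hr A.r0_pos
  nlinarith

lemma Kp_b (A : IsArc ε c r0 lam) (j : Fin 3) (r : ℝ) :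
    Kp r0 c j (r, Real.pi / 6) = ray j r ∧ Kp r0 c (j + 1) (r, -(Real.pi / 6)) = ray j r := by
  obtain ⟨h1, h2⟩ := arc_next A j
  have hr0 : (r0 : ℂ) ≠ 0 := by exact_mod_cast A.r0_pos.ne'
  have e : ∀ r : ℝ, ray j r = (r / r0 : ℝ) * ray j r0 := by
    intro r
    unfold ray
    push_cast
    field_simp
  constructor
  · rw [e, ← h1]; rfl
  · rw [e, ← h2]; rfl

lemma mem_Sec_iff (A : IsArc ε c r0 lam) {j : Fin 3} {z : ℂ} :
    z ∈ Sec j ↔ ∃ r > 0, ∃ α ∈ Io, z = Kp r0 c j (r, α) := by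
  constructor
  · intro hz
    have h0 : z ≠ 0 := by
      rintro rfl
      have : |(rot j 0).im| < √3 * (rot j 0).re := hz
      simp [rot] at this
    obtain ⟨r, hr, α, hα, he⟩ := surj A (Sec_subset j hz) h0
    refine ⟨r, hr, α, ⟨lt_of_le_of_ne hα.1 ?_, lt_of_le_of_ne hα.2 ?_⟩, he⟩
    · intro h
      have e2 := (Kp_b A (j + 2) r).2
      rw [show j + 2 + 1 = j by fin_cases j <;> rfl] at e2
      rw [← h, e2] at he
      have := ((cSec_inter (j + 2) z).mpr ⟨r, hr.le, he⟩).1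
      exact Sec_disj (by fin_cases j <;> decide) hz this
    · intro h
      rw [h, (Kp_b A j r).1] at he
      have := ((cSec_inter j z).mpr ⟨r, hr.le, he⟩).2
      exact Sec_disj (by fin_cases j <;> decide) hz this
  · rintro ⟨r, hr, α, hα, rfl⟩
    exact Kp_mem_Sec A j hr hα

lemma c_im_mono (A : IsArc ε c r0 lam) : StrictMonoOn (fun α => (c α).im) Iv := by
  have hd : ∀ α ∈ Iv, HasDerivAt (fun α => (c α).im) (ε * ph (c α) * Real.cos α) α := by
    intro α hα
    refine (hasDerivAt_im (A.der α (Iv_abs1 hα))).congr_deriv ?_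
    rw [expp_eq]
    simp only [Complex.mul_re, Complex.mul_im, Complex.add_re, Complex.add_im, Complex.I_re,
      Complex.I_im, Complex.ofReal_re, Complex.ofReal_im]
    ring
  refine strictMonoOn_of_deriv_pos (convex_Icc _ _)
    (fun α hα => (hd α hα).continuousAt.continuousWithinAt) ?_
  intro x hx
  have hx' : x ∈ Iv := interior_subset hx
  rw [interior_Icc] at hx
  rw [(hd x hx').deriv]
  have h1 : 0 < Real.cos x := by
    apply Real.cos_pos_of_mem_Ioo
    constructor <;> linarith [hx.1, hx.2, Real.pi_pos]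
  exact mul_pos (mul_pos A.eps_pos (ph_pos _)) h1

lemma c_inj (A : IsArc ε c r0 lam) : InjOn c Iv := by
  intro a ha b hb h
  exact (c_im_mono A).injOn ha hb (congrArg Complex.im h)

lemma Kp_inj (A : IsArc ε c r0 lam) (j : Fin 3) : InjOn (Kp r0 c j) (Ioi 0 ×ˢ Iv) := by
  rintro ⟨r, α⟩ ⟨hr, hα⟩ ⟨r', α'⟩ ⟨hr', hα'⟩ h
  have hr1 : (0 : ℝ) < r := hr
  have hr2 : (0 : ℝ) < r' := hr'
  have hr0 := A.r0_pos
  have e1 := gau_Kp A j hr1.le hα
  have e2 := gau_Kp A j hr2.le hα'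
  rw [h, e2] at e1
  subst e1
  have e3 : rot j (Kp r0 c j (r', α)) = rot j (Kp r0 c j (r', α')) := by rw [h]
  rw [rot_Kp, rot_Kp] at e3
  have hne : ((r' / r0 : ℝ) : ℂ) ≠ 0 := by exact_mod_cast (div_pos hr2 hr0).ne'
  have e4 := c_inj A hα hα' (mul_left_cancel₀ hne e3)
  exact Prod.ext rfl e4

lemma Kp_norm (A : IsArc ε c r0 lam) (j : Fin 3) {r α : ℝ} (hr : 0 ≤ r) (hα : α ∈ Iv) :
    r / 3 ≤ ‖Kp r0 c j (r, α)‖ ∧ ‖Kp r0 c j (r, α)‖ ≤ r * (2 * ε / r0) := by
  have hr0 := A.r0_pos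
  have e : ‖Kp r0 c j (r, α)‖ = r / r0 * ‖c α‖ := by
    unfold Kp
    rw [norm_mul, norm_mul, norm_om, one_mul, Complex.norm_real, Real.norm_eq_abs,
      abs_of_nonneg (div_nonneg hr hr0.le)]
  have h1 : ε / 3 ≤ ‖c α‖ := by
    refine (A.hN_ge α (Iv_abs hα)).trans ((Complex.re_le_norm _).trans ?_)
    rw [norm_mul, norm_exp_neg_aux, mul_one]
  have h2 := A.norm_le α (Iv_abs1 hα)
  have h3 := A.r0_le
  rw [e]
  constructor
  · rw [div_mul_eq_mul_div, div_le_div_iff₀ (by norm_num) hr0]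
    nlinarith
  · have : r / r0 * ‖c α‖ ≤ r / r0 * (2 * ε) :=
      mul_le_mul_of_nonneg_left h2 (div_nonneg hr hr0.le)
    refine this.trans (le_of_eq ?_)
    ring

end

end Pool.Agent.MP_845d3b_gt
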