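import Pool.Agent.MP_845d3b_gt.Energy

open Set Filter Topology MeasureTheory
open scoped ContDiff

namespace Pool.Agent.MP_845d3b_gt

lemma contDiff_gw : ContDiff ℝ ∞ gw := by
  unfold gw
  exact ((contDiff_id.pow 2).neg.div_const 2).exp

lemma contDiff_psi : ContDiff ℝ ∞ psi := by
  rw [contDiff_infty_iff_deriv]
  refine ⟨fun x => (hasDerivAt_psi x).differentiableAt, ?_⟩
  have : deriv psi = gw := funext fun x => (hasDerivAt_psi x).deriv
  rw [this]
  exact contDiff_gw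

lemma contDiff_pot : ContDiff ℝ ∞ pot := by
  unfold pot
  exact (contDiff_psi.comp Complex.reCLM.contDiff).mul (contDiff_gw.comp Complex.imCLM.contDiff)

lemma fderiv_slice1 {f : ℝ × ℝ → ℝ} {p : ℝ × ℝ} (hf : DifferentiableAt ℝ f p) {d : ℝ}
    (h : HasDerivAt (fun t => f (t, p.2)) d p.1) : fderiv ℝ f p (1, 0) = d := by
  have h2 : HasDerivAt (fun t : ℝ => (t, p.2)) ((1 : ℝ), (0 : ℝ)) p.1 :=
    (hasDerivAt_id p.1).prodMk (hasDerivAt_const p.1 p.2)
  exact (hf.hasFDerivAt.comp_hasDerivAt p.1 h2).unique h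

lemma fderiv_slice2 {f : ℝ × ℝ → ℝ} {p : ℝ × ℝ} (hf : DifferentiableAt ℝ f p) {d : ℝ}
    (h : HasDerivAt (fun s => f (p.1, s)) d p.2) : fderiv ℝ f p (0, 1) = d := by
  have h2 : HasDerivAt (fun s : ℝ => (p.1, s)) ((0 : ℝ), (1 : ℝ)) p.2 :=
    (hasDerivAt_const p.2 p.1).prodMk (hasDerivAt_id p.2)
  exact (hf.hasFDerivAt.comp_hasDerivAt p.2 h2).unique h

/-- boundary integrand in the first direction -/
noncomputable def Lt (Ψ : ℝ × ℝ → ℂ) (p : ℝ × ℝ) : ℝ := pot (Ψ p) * (dt Ψ p).im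

/-- Green's formula for the Gaussian area of a parametrised rectangle. -/
theorem green {Ψ : ℝ × ℝ → ℂ} (h : ContDiff ℝ ∞ Ψ) (r1 r2 a b : ℝ) :
    ∫ x in r1..r2, ∫ y in a..b, ph (Ψ (x, y)) * wedge (dt Ψ (x, y)) (ds Ψ (x, y)) =
      (∫ y in a..b, Lw Ψ (r2, y)) - (∫ y in a..b, Lw Ψ (r1, y)) -
        ((∫ x in r1..r2, Lt Ψ (x, b)) - ∫ x in r1..r2, Lt Ψ (x, a)) := by
  have kf : ContDiff ℝ ∞ (Lw Ψ) :=
    (contDiff_pot.comp h).mul (Complex.imCLM.contDiff.comp (contDiff_ds h))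
  have kg : ContDiff ℝ ∞ (Lt Ψ) :=
    (contDiff_pot.comp h).mul (Complex.imCLM.contDiff.comp (contDiff_dt h))
  have df : ∀ p, DifferentiableAt ℝ (Lw Ψ) p := fun p => kf.differentiable (by simp) p
  have dg : ∀ p, DifferentiableAt ℝ (Lt Ψ) p := fun p => kg.differentiable (by simp) p
  have e1 : ∀ p : ℝ × ℝ, fderiv ℝ (Lw Ψ) p (1, 0) + (-fderiv ℝ (Lt Ψ) p) (0, 1) =
      ph (Ψ p) * wedge (dt Ψ p) (ds Ψ p) := by
    rintro ⟨x, y⟩
    have h2 : fderiv ℝ (Lt Ψ) (x, y) (0, 1) = Lw1 Ψ (x, y) -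
        ph (Ψ (x, y)) * wedge (dt Ψ (x, y)) (ds Ψ (x, y)) :=
      fderiv_slice2 (p := (x, y)) (dg _) (Lw1_split h x y)
    rw [neg_apply, fderiv_slice1 (df _) (hasDerivAt_Lw h x y), h2]
    ring
  have hcont : Continuous fun p : ℝ × ℝ => ph (Ψ p) * wedge (dt Ψ p) (ds Ψ p) :=
    (continuous_ph.comp h.continuous).mul
      (continuous_wedge (contDiff_dt h).continuous (contDiff_ds h).continuous)
  have key := integral2_divergence_prod_of_hasFDerivAt (Lw Ψ) (fun p => -Lt Ψ p)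
    (fun p => fderiv ℝ (Lw Ψ) p) (fun p => -fderiv ℝ (Lt Ψ) p) r1 a r2 b
    kf.continuous.continuousOn kg.continuous.neg.continuousOn
    (fun p _ => (df p).hasFDerivAt) (fun p _ => (dg p).hasFDerivAt.neg) (by
      have : (fun p : ℝ × ℝ => fderiv ℝ (Lw Ψ) p (1, 0) + (-fderiv ℝ (Lt Ψ) p) (0, 1)) =
        fun p => ph (Ψ p) * wedge (dt Ψ p) (ds Ψ p) := funext e1
      rw [this]
      exact hcont.continuousOn.integrableOn_compact (isCompact_uIcc.prod isCompact_uIcc))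
  simp only [e1] at key
  rw [key, intervalIntegral.integral_neg, intervalIntegral.integral_neg]
  ring

lemma det_prod (L : ℝ × ℝ →L[ℝ] ℝ × ℝ) :
    L.det = (L (1, 0)).1 * (L (0, 1)).2 - (L (1, 0)).2 * (L (0, 1)).1 := by
  rw [ContinuousLinearMap.det, ← LinearMap.det_toMatrix (Module.Basis.finTwoProd ℝ),
    Matrix.det_fin_two]
  simp [LinearMap.toMatrix_apply]
  ring

/-- Change of variables. -/
theorem int_image {Ψ : ℝ × ℝ → ℂ} (h : ContDiff ℝ ∞ Ψ) {S : Set (ℝ × ℝ)} (hS : MeasurableSet S)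
    (hinj : InjOn Ψ S) (g : ℂ → ℝ) :
    ∫ z in Ψ '' S, g z = ∫ p in S, |wedge (dt Ψ p) (ds Ψ p)| * g (Ψ p) := by
  have hmp := Complex.volume_preserving_equiv_real_prod.symm
  have hemb := Complex.measurableEquivRealProd.symm.measurableEmbedding
  rw [← hmp.setIntegral_preimage_emb hemb g (Ψ '' S)]
  set f : ℝ × ℝ → ℝ × ℝ := fun p => ((Ψ p).re, (Ψ p).im) with hf
  have e1 : Complex.measurableEquivRealProd.symm ⁻¹' (Ψ '' S) = f '' S := by
    ext ⟨x, y⟩
    simp only [mem_preimage, mem_image, hf]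
    constructor
    · rintro ⟨p, hp, he⟩
      refine ⟨p, hp, ?_⟩
      rw [he]
      simp
    · rintro ⟨p, hp, he⟩
      refine ⟨p, hp, ?_⟩
      rw [← he]
      apply Complex.ext <;> simp
  rw [e1]
  have hd : ∀ p ∈ S, HasFDerivWithinAt f ((Complex.reCLM.comp (fderiv ℝ Ψ p)).prod
      (Complex.imCLM.comp (fderiv ℝ Ψ p))) S p := by
    intro p _
    have h1 : HasFDerivAt Ψ (fderiv ℝ Ψ p) p := (h.differentiable (by simp) p).hasFDerivAt
    exact ((Complex.reCLM.hasFDerivAt.comp p h1).prodMk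
      (Complex.imCLM.hasFDerivAt.comp p h1)).hasFDerivWithinAt
  have hfi : InjOn f S := by
    intro p hp q hq hpq
    simp only [hf, Prod.mk.injEq] at hpq
    exact hinj hp hq (Complex.ext hpq.1 hpq.2)
  rw [integral_image_eq_integral_abs_det_fderiv_smul volume hS hd hfi]
  refine setIntegral_congr_fun hS fun p hp => ?_
  simp only [smul_eq_mul]
  congr 1
  rw [det_prod]
  rfl

end Pool.Agent.MP_845d3b_gt
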