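import Pool.Agent.MP_845d3b_gt.QuadIneq

open Set Filter Topology MeasureTheory

namespace Pool.Agent.MP_845d3b_gt

lemma vertex_alg (E0 E1 E2 O0 O1 O2 : ℝ) :
    ((E0 + O0) ^ 2 + (E1 - O1) ^ 2 - 4 * (E0 + O0) * (E1 - O1)) +
      ((E1 + O1) ^ 2 + (E2 - O2) ^ 2 - 4 * (E1 + O1) * (E2 - O2)) +
      ((E2 + O2) ^ 2 + (E0 - O0) ^ 2 - 4 * (E2 + O2) * (E0 - O0)) =
    3 * (((E0 + E1 + E2) / 3 + (O0 + O1 + O2) / 3) ^ 2 +
        ((E0 + E1 + E2) / 3 - (O0 + O1 + O2) / 3) ^ 2 -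
        4 * ((E0 + E1 + E2) / 3 + (O0 + O1 + O2) / 3) *
          ((E0 + E1 + E2) / 3 - (O0 + O1 + O2) / 3)) +
      ((((E0 - (E0 + E1 + E2) / 3) + (O0 - (O0 + O1 + O2) / 3)) ^ 2 +
        ((E1 - (E0 + E1 + E2) / 3) - (O1 - (O0 + O1 + O2) / 3)) ^ 2 -
        4 * ((E0 - (E0 + E1 + E2) / 3) + (O0 - (O0 + O1 + O2) / 3)) *
          ((E1 - (E0 + E1 + E2) / 3) - (O1 - (O0 + O1 + O2) / 3))) +
      (((E1 - (E0 + E1 + E2) / 3) + (O1 - (O0 + O1 + O2) / 3)) ^ 2 +
        ((E2 - (E0 + E1 + E2) / 3) - (O2 - (O0 + O1 + O2) / 3)) ^ 2 -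
        4 * ((E1 - (E0 + E1 + E2) / 3) + (O1 - (O0 + O1 + O2) / 3)) *
          ((E2 - (E0 + E1 + E2) / 3) - (O2 - (O0 + O1 + O2) / 3))) +
      (((E2 - (E0 + E1 + E2) / 3) + (O2 - (O0 + O1 + O2) / 3)) ^ 2 +
        ((E0 - (E0 + E1 + E2) / 3) - (O0 - (O0 + O1 + O2) / 3)) ^ 2 -
        4 * ((E2 - (E0 + E1 + E2) / 3) + (O2 - (O0 + O1 + O2) / 3)) *
          ((E0 - (E0 + E1 + E2) / 3) - (O0 - (O0 + O1 + O2) / 3)))) := by
  ring

/-- Nonnegativity of the index form on the constrained space. -/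
theorem quad_nonneg {ε r0 R : ℝ} {q u n : ℝ → ℝ} (A : ArcFun ε r0 q u n) (hR : 1 ≤ R)
    {f0 f0' f1 f1' f2 f2' h0 h0' h1 h1' h2 h2' : ℝ → ℝ}
    (df0 : ∀ x, HasDerivAt f0 (f0' x) x) (cf0 : Continuous f0')
    (df1 : ∀ x, HasDerivAt f1 (f1' x) x) (cf1 : Continuous f1')
    (df2 : ∀ x, HasDerivAt f2 (f2' x) x) (cf2 : Continuous f2')
    (dh0 : ∀ x, HasDerivAt h0 (h0' x) x) (ch0 : Continuous h0') (r0R : h0 R = 0)
    (dh1 : ∀ x, HasDerivAt h1 (h1' x) x) (ch1 : Continuous h1') (r1R : h1 R = 0)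
    (dh2 : ∀ x, HasDerivAt h2 (h2' x) x) (ch2 : Continuous h2') (r2R : h2 R = 0)
    (v0 : h0 r0 = f0 (Real.pi / 6) - f1 (-(Real.pi / 6)))
    (v1 : h1 r0 = f1 (Real.pi / 6) - f2 (-(Real.pi / 6)))
    (v2 : h2 r0 = f2 (Real.pi / 6) - f0 (-(Real.pi / 6)))
    (m0 : (∫ x in (-(Real.pi / 6))..(Real.pi / 6), q x ^ 2 / ε * f0 x) +
      (∫ x in r0..R, gw x * h0 x) - (∫ x in r0..R, gw x * h2 x) = 0)
    (m1 : (∫ x in (-(Real.pi / 6))..(Real.pi / 6), q x ^ 2 / ε * f1 x) +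
      (∫ x in r0..R, gw x * h1 x) - (∫ x in r0..R, gw x * h0 x) = 0)
    (m2 : (∫ x in (-(Real.pi / 6))..(Real.pi / 6), q x ^ 2 / ε * f2 x) +
      (∫ x in r0..R, gw x * h2 x) - (∫ x in r0..R, gw x * h1 x) = 0) :
    0 ≤ 1 / ε *
        ((∫ x in (-(Real.pi / 6))..(Real.pi / 6), (f0' x ^ 2 - (1 + q x ^ 2) * f0 x ^ 2)) +
        (∫ x in (-(Real.pi / 6))..(Real.pi / 6), (f1' x ^ 2 - (1 + q x ^ 2) * f1 x ^ 2)) +
        (∫ x in (-(Real.pi / 6))..(Real.pi / 6), (f2' x ^ 2 - (1 + q x ^ 2) * f2 x ^ 2))) +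
      1 / (√3 * ε) *
        ((f0 (Real.pi / 6) ^ 2 + f1 (-(Real.pi / 6)) ^ 2 -
          4 * f0 (Real.pi / 6) * f1 (-(Real.pi / 6))) +
        (f1 (Real.pi / 6) ^ 2 + f2 (-(Real.pi / 6)) ^ 2 -
          4 * f1 (Real.pi / 6) * f2 (-(Real.pi / 6))) +
        (f2 (Real.pi / 6) ^ 2 + f0 (-(Real.pi / 6)) ^ 2 -
          4 * f2 (Real.pi / 6) * f0 (-(Real.pi / 6)))) +
      ((∫ x in r0..R, (gw x * h0' x ^ 2 - gw x * h0 x ^ 2)) +
        (∫ x in r0..R, (gw x * h1' x ^ 2 - gw x * h1 x ^ 2)) +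
        (∫ x in r0..R, (gw x * h2' x ^ 2 - gw x * h2 x ^ 2))) := by
  obtain ⟨hb0, hb1, hb2⟩ := pi6_facts
  have hε := A.eps_pos
  have hqc := A.qcont
  have hgc := continuous_gw
  have hq0 : ContinuousOn q (Icc 0 (Real.pi / 6)) :=
    hqc.mono (Icc_subset_Icc_left (by linarith))
  have ec : ∀ {e e' : ℝ → ℝ}, (∀ x, HasDerivAt e (e' x) x) → Continuous e := fun h =>
    continuous_iff_continuousAt.mpr fun x => (h x).continuousAt
  have kf0 := ec df0
  have kf1 := ec df1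
  have kf2 := ec df2
  have kh0 := ec dh0
  have kh1 := ec dh1
  have kh2 := ec dh2
  rw [full_split hqc A.q_even kf0 cf0, full_split hqc A.q_even kf1 cf1,
    full_split hqc A.q_even kf2 cf2]
  rw [mass_split hqc A.q_even kf0] at m0
  rw [mass_split hqc A.q_even kf1] at m1
  rw [mass_split hqc A.q_even kf2] at m2
  change 0 ≤ _ + _ + (rayQ r0 R h0 h0' + rayQ r0 R h1 h1' + rayQ r0 R h2 h2')
  -- values at the ends
  have vp : ∀ f : ℝ → ℝ, f (Real.pi / 6) = ev f (Real.pi / 6) + od f (Real.pi / 6) := fun f => by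
    unfold ev od; ring
  have vm : ∀ f : ℝ → ℝ, f (-(Real.pi / 6)) = ev f (Real.pi / 6) - od f (Real.pi / 6) := fun f => by
    unfold ev od; ring
  rw [vp f0, vm f1] at v0
  rw [vp f1, vm f2] at v1
  rw [vp f2, vm f0] at v2
  rw [vp f0, vm f1, vp f1, vm f2, vp f2, vm f0]
  -- continuity and derivatives of the parts
  have de0 := ev_der df0
  have de1 := ev_der df1
  have de2 := ev_der df2
  have do0 := od_der df0
  have do1 := od_der df1
  have do2 := od_der df2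
  have ce0 := ev_cont kf0
  have ce1 := ev_cont kf1
  have ce2 := ev_cont kf2
  have co0 := od_cont kf0
  have co1 := od_cont kf1
  have co2 := od_cont kf2
  have ce0' := ev_cont cf0
  have ce1' := ev_cont cf1
  have ce2' := ev_cont cf2
  have co0' := od_cont cf0
  have co1' := od_cont cf1
  have co2' := od_cont cf2
  have z0 : od f0 0 = 0 := by unfold od; simp
  have z1 : od f1 0 = 0 := by unfold od; simp
  have z2 : od f2 0 = 0 := by unfold od; simp
  generalize ev f0 = e0 at *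
  generalize ev f1 = e1 at *
  generalize ev f2 = e2 at *
  generalize od f0 = o0 at *
  generalize od f1 = o1 at *
  generalize od f2 = o2 at *
  generalize ev f0' = o0' at *
  generalize ev f1' = o1' at *
  generalize ev f2' = o2' at *
  generalize od f0' = e0' at *
  generalize od f1' = e1' at *
  generalize od f2' = e2' at *
  have sp1 := arcQ_split hq0 ce0 co0' ce1 co1' ce2 co2'
  have sp2 := arcQ_split hq0 co0 ce0' co1 ce1' co2 ce2'
  have sp3 := rayQ_split (r0 := r0) (R := R) kh0 ch0 kh1 ch1 kh2 ch2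
  -- integrals with weights
  have hwc : ContinuousOn (fun x => q x ^ 2 / ε) (Icc 0 (Real.pi / 6)) :=
    (hq0.pow 2).div_const ε
  have iw : ∀ {e : ℝ → ℝ}, Continuous e →
      IntervalIntegrable (fun x => q x ^ 2 / ε * e x) volume 0 (Real.pi / 6) := fun he =>
    (hwc.mul he.continuousOn).intervalIntegrable_of_Icc hb0.le
  have ig : ∀ {e : ℝ → ℝ}, Continuous e →
      IntervalIntegrable (fun x => gw x * e x) volume r0 R := fun he =>
    (hgc.mul he).intervalIntegrable _ _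
  set M0 := ∫ x in (0 : ℝ)..(Real.pi / 6), q x ^ 2 / ε * e0 x with hM0
  set M1 := ∫ x in (0 : ℝ)..(Real.pi / 6), q x ^ 2 / ε * e1 x with hM1
  set M2 := ∫ x in (0 : ℝ)..(Real.pi / 6), q x ^ 2 / ε * e2 x with hM2
  set H0 := ∫ x in r0..R, gw x * h0 x with hH0
  set H1 := ∫ x in r0..R, gw x * h1 x with hH1
  set H2 := ∫ x in r0..R, gw x * h2 x with hH2
  have hMs : M0 + M1 + M2 = 0 := by linarith
  have mm : ∫ x in (0 : ℝ)..(Real.pi / 6), q x ^ 2 / ε * ((e0 x + e1 x + e2 x) / 3) = 0 := by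
    have e : (fun x => q x ^ 2 / ε * ((e0 x + e1 x + e2 x) / 3)) = fun x =>
        (q x ^ 2 / ε * e0 x + q x ^ 2 / ε * e1 x + q x ^ 2 / ε * e2 x) / 3 := by
      funext x; ring
    rw [e, intervalIntegral.integral_div, intervalIntegral.integral_add
      ((iw ce0).add (iw ce1)) (iw ce2), intervalIntegral.integral_add (iw ce0) (iw ce1)]
    linarith
  have mmc : Continuous fun x => (e0 x + e1 x + e2 x) / 3 := by fun_prop
  have md : ∀ {e : ℝ → ℝ}, Continuous e →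
      ∫ x in (0 : ℝ)..(Real.pi / 6), q x ^ 2 / ε * (e x - (e0 x + e1 x + e2 x) / 3) =
      ∫ x in (0 : ℝ)..(Real.pi / 6), q x ^ 2 / ε * e x := by
    intro e he
    have e' : (fun x => q x ^ 2 / ε * (e x - (e0 x + e1 x + e2 x) / 3)) = fun x =>
        q x ^ 2 / ε * e x - q x ^ 2 / ε * ((e0 x + e1 x + e2 x) / 3) := by
      funext x; ring
    rw [e', intervalIntegral.integral_sub (iw he) (iw mmc), mm, sub_zero]
  have hd : ∀ {h : ℝ → ℝ}, Continuous h →
      ∫ x in r0..R, gw x * (h x - (h0 x + h1 x + h2 x) / 3) =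
      (∫ x in r0..R, gw x * h x) - (H0 + H1 + H2) / 3 := by
    intro h hh
    have e' : (fun x => gw x * (h x - (h0 x + h1 x + h2 x) / 3)) = fun x =>
        gw x * h x - (gw x * h0 x + gw x * h1 x + gw x * h2 x) / 3 := by
      funext x; ring
    rw [e', intervalIntegral.integral_sub (ig hh) ((((ig kh0).add (ig kh1)).add (ig kh2)).div_const 3),
      intervalIntegral.integral_div, intervalIntegral.integral_add
      ((ig kh0).add (ig kh1)) (ig kh2), intervalIntegral.integral_add (ig kh0) (ig kh1)]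
  have sA := sector_A A hR
    (e := fun x => (e0 x + e1 x + e2 x) / 3) (e' := fun x => (e0' x + e1' x + e2' x) / 3)
    (o := fun x => (o0 x + o1 x + o2 x) / 3) (o' := fun x => (o0' x + o1' x + o2' x) / 3)
    (h := fun x => (h0 x + h1 x + h2 x) / 3) (h' := fun x => (h0' x + h1' x + h2' x) / 3)
    (fun x => (((de0 x).add (de1 x)).add (de2 x)).div_const 3) (by fun_prop)
    (fun x => (((do0 x).add (do1 x)).add (do2 x)).div_const 3) (by fun_prop)
    (by rw [z0, z1, z2]; norm_num)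
    (fun x => (((dh0 x).add (dh1 x)).add (dh2 x)).div_const 3) (by fun_prop)
    (by rw [r0R, r1R, r2R]; norm_num)
    (by rw [v0, v1, v2]; ring) mm
  have sE := sector_E A hR
    (e0 := fun x => e0 x - (e0 x + e1 x + e2 x) / 3)
    (e0' := fun x => e0' x - (e0' x + e1' x + e2' x) / 3)
    (e1 := fun x => e1 x - (e0 x + e1 x + e2 x) / 3)
    (e1' := fun x => e1' x - (e0' x + e1' x + e2' x) / 3)
    (e2 := fun x => e2 x - (e0 x + e1 x + e2 x) / 3)
    (e2' := fun x => e2' x - (e0' x + e1' x + e2' x) / 3)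
    (o0 := fun x => o0 x - (o0 x + o1 x + o2 x) / 3)
    (o0' := fun x => o0' x - (o0' x + o1' x + o2' x) / 3)
    (o1 := fun x => o1 x - (o0 x + o1 x + o2 x) / 3)
    (o1' := fun x => o1' x - (o0' x + o1' x + o2' x) / 3)
    (o2 := fun x => o2 x - (o0 x + o1 x + o2 x) / 3)
    (o2' := fun x => o2' x - (o0' x + o1' x + o2' x) / 3)
    (h0 := fun x => h0 x - (h0 x + h1 x + h2 x) / 3)
    (h0' := fun x => h0' x - (h0' x + h1' x + h2' x) / 3)
    (h1 := fun x => h1 x - (h0 x + h1 x + h2 x) / 3)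
    (h1' := fun x => h1' x - (h0' x + h1' x + h2' x) / 3)
    (h2 := fun x => h2 x - (h0 x + h1 x + h2 x) / 3)
    (h2' := fun x => h2' x - (h0' x + h1' x + h2' x) / 3)
    (fun x => (de0 x).sub ((((de0 x).add (de1 x)).add (de2 x)).div_const 3)) (by fun_prop)
    (fun x => (de1 x).sub ((((de0 x).add (de1 x)).add (de2 x)).div_const 3)) (by fun_prop)
    (fun x => (de2 x).sub ((((de0 x).add (de1 x)).add (de2 x)).div_const 3)) (by fun_prop)
    (fun x => (do0 x).sub ((((do0 x).add (do1 x)).add (do2 x)).div_const 3)) (by fun_prop)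
    (by simp only [z0, z1, z2]; norm_num)
    (fun x => (do1 x).sub ((((do0 x).add (do1 x)).add (do2 x)).div_const 3)) (by fun_prop)
    (by simp only [z0, z1, z2]; norm_num)
    (fun x => (do2 x).sub ((((do0 x).add (do1 x)).add (do2 x)).div_const 3)) (by fun_prop)
    (by simp only [z0, z1, z2]; norm_num)
    (fun x => (dh0 x).sub ((((dh0 x).add (dh1 x)).add (dh2 x)).div_const 3)) (by fun_prop)
    (fun x => (dh1 x).sub ((((dh0 x).add (dh1 x)).add (dh2 x)).div_const 3)) (by fun_prop)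
    (fun x => (dh2 x).sub ((((dh0 x).add (dh1 x)).add (dh2 x)).div_const 3)) (by fun_prop)
    (by ring) (by ring)
    (by simp only [v0, v1, v2]; ring) (by simp only [v0, v1, v2]; ring)
    (by simp only [v0, v1, v2]; ring)
    (hd kh0) (hd kh1) (hd kh2) (by ring)
    (by rw [md ce0]; linarith) (by rw [md ce1]; linarith) (by rw [md ce2]; linarith)
  have hva := vertex_alg (e0 (Real.pi / 6)) (e1 (Real.pi / 6)) (e2 (Real.pi / 6))
    (o0 (Real.pi / 6)) (o1 (Real.pi / 6)) (o2 (Real.pi / 6))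
  rw [hva, sp3]
  have e1 : 1 / ε * (2 * arcQ q e0 e0' + 2 * arcQ q o0 o0' + (2 * arcQ q e1 e1' + 2 * arcQ q o1 o1') +
      (2 * arcQ q e2 e2' + 2 * arcQ q o2 o2')) =
      2 / ε * ((arcQ q e0 e0' + arcQ q e1 e1' + arcQ q e2 e2') +
        (arcQ q o0 o0' + arcQ q o1 o1' + arcQ q o2 o2')) := by ring
  rw [e1, sp1, sp2]
  linarith

end Pool.Agent.MP_845d3b_gt
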