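import Pool.Agent.MP_845d3b_gt.ArcGeom
import Pool.Agent.MP_845d3b_gt.Quad

open Set Filter Topology MeasureTheory
open scoped ContDiff

namespace Pool.Agent.MP_845d3b_gt

/-- rotated position vector -/
noncomputable def wv (c : ℝ → ℂ) (a : ℝ) : ℂ := c a * Complex.exp (-(a * Complex.I))

lemma IsArc.hasDerivAt_wv {ε r0 lam : ℝ} {c : ℝ → ℂ} (A : IsArc ε c r0 lam) {a : ℝ}
    (ha : |a| ≤ 1) : HasDerivAt (wv c)
      (((ε * ph (c a) : ℝ) : ℂ) * Complex.I - Complex.I * wv c a) a := by
  refine ((A.der a ha).mul (hasDerivAt_expnI a)).congr_deriv ?_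
  have := exp_mul_expn a
  unfold wv
  linear_combination (((ε * ph (c a) : ℝ) : ℂ) * Complex.I) * this

lemma ph_real_mul_exp (r t : ℝ) : ph ((r : ℂ) * Complex.exp (t * Complex.I)) = gw r := by
  unfold ph gw
  rw [norm_mul, Complex.norm_exp_ofReal_mul_I, mul_one, Complex.norm_real, Real.norm_eq_abs, sq_abs]

theorem IsArc.toArcFun {ε r0 lam : ℝ} {c : ℝ → ℂ} (A : IsArc ε c r0 lam) (hε : ε ≤ 1 / 1000) :
    ArcFun ε r0 (fun a => ε * ph (c a)) (fun a => (wv c a).im) (fun a => (wv c a).re) := by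
  have hb := pi6_facts
  have hend : wv c (Real.pi / 6) = (r0 : ℂ) * Complex.exp ((Real.pi / 6 : ℝ) * Complex.I) := by
    unfold wv
    rw [A.endp, mul_assoc, ← Complex.exp_add]
    congr 2
    push_cast
    ring
  refine ⟨A.eps_pos, hε, A.r0_pos, A.r0_le, ?_, ?_, ?_, ?_, ?_, ?_, ?_, ?_, ?_, ?_, ?_⟩
  · intro x hx
    refine ((hasDerivAt_ph_comp (A.der x hx)).const_mul ε).congr_deriv ?_
    unfold wv
    rw [expn_eq, expp_eq]
    simp only [Complex.mul_im, Complex.mul_re, Complex.sub_im, Complex.sub_re, Complex.add_re,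
          Complex.add_im, Complex.ofReal_re, Complex.ofReal_im, Complex.I_re, Complex.I_im]
    ring
  · intro x hx
    have : HasDerivAt (fun a => (wv c a).im) (((ε * ph (c x) : ℝ) : ℂ) * Complex.I -
        Complex.I * wv c x).im x := Complex.imCLM.hasFDerivAt.comp_hasDerivAt x (A.hasDerivAt_wv hx)
    refine this.congr_deriv ?_
    simp
  · intro x hx
    have : HasDerivAt (fun a => (wv c a).re) (((ε * ph (c x) : ℝ) : ℂ) * Complex.I -
        Complex.I * wv c x).re x := Complex.reCLM.hasFDerivAt.comp_hasDerivAt x (A.hasDerivAt_wv hx)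
    refine this.congr_deriv ?_
    simp
  · intro x
    exact mul_pos A.eps_pos (ph_pos _)
  · intro x
    have := ph_le_one (c x)
    have := A.eps_pos
    nlinarith
  · intro x
    rw [A.conj, ph, Complex.norm_conj, ← ph]
  · have h : c 0 = (starRingEnd ℂ) (c 0) := by
      have := A.conj 0
      rwa [neg_zero] at this
    have h2 : (c 0).im = 0 := Complex.conj_eq_iff_im.mp h.symm
    simp [wv, h2]
  · intro x hx
    have := A.xT_ge x (by rw [abs_of_nonneg hx.1]; exact hx.2)
    have := A.eps_pos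
    simp only [wv]
    linarith
  · rw [hend, expp_eq, Real.sin_pi_div_six, Real.cos_pi_div_six]
    simp
    ring
  · rw [hend, expp_eq, Real.sin_pi_div_six, Real.cos_pi_div_six]
    simp
    ring
  · rw [A.endp, ph_real_mul_exp]

end Pool.Agent.MP_845d3b_gt
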