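import Pool.Agent.MP_845d3b_gt.Energy
import Pool.Agent.MP_845d3b_gt.ToArcFun

open Set Filter Topology MeasureTheory
open scoped ContDiff

namespace Pool.Agent.MP_845d3b_gt

lemma arc_second (ε q n u f g f' g' k l k' l' : ℝ) (hε : ε ≠ 0) (hq : q ≠ 0) :
    (q / ε * (n * f + u * g) ^ 2 - q / ε * ((f ^ 2 + g ^ 2) + (n * k + u * l))) * q +
      2 * (-(q / ε * (n * f + u * g))) * (q * (g' + f) / q) +
      q / ε * (((f' - g) ^ 2 + (g' + f) ^ 2 + q * (l' + k)) / q - (q * (g' + f)) ^ 2 / q ^ 3) -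
      (1 / q - n) * (-(q / ε * (n * f + u * g)) * (f * q) +
        q / ε * (k * q + (f * (g' + f) - g * (f' - g)))) =
    1 / ε * (f' ^ 2 - (1 + q ^ 2) * f ^ 2) +
      (-(1 / ε * (((-(q ^ 2 * u)) * n + q * u) * (f * g) + (1 + q * n) * (f' * g + f * g') +
        ((-(q ^ 2 * u)) * u + q * (q - n)) * g ^ 2 + q * u * (2 * g * g'))) +
        ((-(q ^ 2 * u)) / ε * l + q / ε * l')) := by
  field_simp
  ring

lemma ray_second (r f g f' g' k l k' l' H : ℝ) :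
    (H * (r * g) ^ 2 - H * ((f ^ 2 + g ^ 2) + (r * l))) * 1 +
      2 * (-(H * (r * g))) * (g' / 1) +
      H * (((f' ^ 2 + g' ^ 2) + l') / 1 - g' ^ 2 / 1 ^ 3) =
    (H * f' ^ 2 - H * f ^ 2) +
      (-((-(r * H)) * r * g ^ 2 + H * g ^ 2 + H * r * (2 * g * g')) + ((-(r * H)) * l + H * l')) := by
  ring

end Pool.Agent.MP_845d3b_gt
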