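import Pool.Agent.MP_845d3b_gt.RayVar

open Set Filter Topology MeasureTheory
open scoped ContDiff

namespace Pool.Agent.MP_845d3b_gt

/-- time derivative of a family of maps -/
noncomputable def tder (G : ℝ × ℂ → ℂ) (p : ℝ × ℂ) : ℂ := fderiv ℝ G p (1, 0)

lemma contDiff_tder {G : ℝ × ℂ → ℂ} (h : ContDiff ℝ ∞ G) : ContDiff ℝ ∞ (tder G) :=
  (h.fderiv_right (m := ∞) (by exact_mod_cast le_top)).clm_apply contDiff_const

/-- the moved curve -/
def cur (G : ℝ × ℂ → ℂ) (γ : ℝ → ℂ) (p : ℝ × ℝ) : ℂ := G (p.1, γ p.2)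

lemma contDiff_cur {G : ℝ × ℂ → ℂ} (h : ContDiff ℝ ∞ G) {γ : ℝ → ℂ} (k : ContDiff ℝ ∞ γ) :
    ContDiff ℝ ∞ (cur G γ) :=
  h.comp (contDiff_fst.prodMk (k.comp contDiff_snd))

lemma dt_cur {G : ℝ × ℂ → ℂ} (h : ContDiff ℝ ∞ G) {γ : ℝ → ℂ} (k : ContDiff ℝ ∞ γ) :
    dt (cur G γ) = cur (tder G) γ := by
  funext ⟨t, s⟩
  have h1 := hasDerivAt_dt (contDiff_cur h k) t s
  have h2 : HasFDerivAt G (fderiv ℝ G (t, γ s)) (t, γ s) :=
    (h.differentiable (by simp) _).hasFDerivAt
  have h3 : HasDerivAt (fun t : ℝ => (t, γ s)) ((1 : ℝ), (0 : ℂ)) t :=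
    (hasDerivAt_id t).prodMk (hasDerivAt_const t (γ s))
  exact h1.unique (h2.comp_hasDerivAt t h3)

/-- third root of unity -/
noncomputable def w3 : ℂ := -(1 / 2) + (√3 / 2 : ℝ) * Complex.I

lemma w3_re : w3.re = -(1 / 2) := by simp [w3]
lemma w3_im : w3.im = √3 / 2 := by simp [w3]

lemma w3_cube : w3 * (w3 * w3) = 1 := by
  obtain ⟨_, _, h⟩ := sqrt3_facts
  apply Complex.ext
  · simp only [Complex.mul_re, Complex.mul_im, w3_re, w3_im, Complex.one_re]
    linear_combination (3 / 8) * h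
  · simp only [Complex.mul_re, Complex.mul_im, w3_re, w3_im, Complex.one_im]
    linear_combination -(√3 / 8) * h

lemma norm_w3 : ‖w3‖ = 1 := by
  obtain ⟨_, _, h⟩ := sqrt3_facts
  rw [norm_eq_sqrt_dot]
  unfold dot
  rw [w3_re, w3_im]
  have : -(1 / 2 : ℝ) * -(1 / 2) + √3 / 2 * (√3 / 2) = 1 := by linear_combination h / 4
  rw [this, Real.sqrt_one]

/-- unit vector at angle sixty degrees -/
noncomputable def e3 : ℂ := (1 / 2) + (√3 / 2 : ℝ) * Complex.I

lemma e3_re : e3.re = 1 / 2 := by simp [e3]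
lemma e3_im : e3.im = √3 / 2 := by simp [e3]

lemma e3_eq : Complex.exp ((Real.pi / 3 : ℝ) * Complex.I) = e3 := by
  rw [expp_eq, Real.cos_pi_div_three, Real.sin_pi_div_three]
  unfold e3
  push_cast
  ring

lemma norm_e3 : ‖e3‖ = 1 := by
  rw [← e3_eq, Complex.norm_exp_ofReal_mul_I]

lemma w3_conj_e3 : w3 * (starRingEnd ℂ) e3 = e3 := by
  obtain ⟨_, _, h⟩ := sqrt3_facts
  apply Complex.ext
  · simp only [Complex.mul_re, Complex.conj_re, Complex.conj_im, w3_re, w3_im, e3_re, e3_im]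
    linear_combination h / 4
  · simp only [Complex.mul_im, Complex.conj_re, Complex.conj_im, w3_re, w3_im, e3_re, e3_im]
    ring

lemma expn6 : Complex.exp (-((Real.pi / 6 : ℝ) * Complex.I)) = (√3 / 2 : ℝ) - (1 / 2 : ℝ) * Complex.I := by
  rw [expn_eq, Real.cos_pi_div_six, Real.sin_pi_div_six]

lemma expn6' : Complex.exp (-((-(Real.pi / 6) : ℝ) * Complex.I)) =
    (√3 / 2 : ℝ) + (1 / 2 : ℝ) * Complex.I := by
  rw [expn_eq, Real.cos_neg, Real.sin_neg, Real.cos_pi_div_six, Real.sin_pi_div_six]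
  push_cast
  ring

section

variable {ε r0 lam : ℝ} {c : ℝ → ℂ} {G : ℝ × ℂ → ℂ} {om : ℂ}

lemma contDiff_arc (A : IsArc ε c r0 lam) (om : ℂ) : ContDiff ℝ ∞ (fun s => om * c s) :=
  contDiff_const.mul A.smooth

lemma contDiff_ray (e : ℂ) : ContDiff ℝ ∞ (fun s : ℝ => (s : ℂ) * e) :=
  Complex.ofRealCLM.contDiff.mul contDiff_const

lemma c_end (A : IsArc ε c r0 lam) : c (Real.pi / 6) = r0 * e3 := by
  rw [A.endp, e3_eq]

lemma c_end' (A : IsArc ε c r0 lam) : w3 * c (-(Real.pi / 6)) = r0 * e3 := by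
  rw [A.conj, c_end A, map_mul, Complex.conj_ofReal]
  linear_combination (r0 : ℂ) * w3_conj_e3

lemma cur_arc_b (A : IsArc ε c r0 lam) (G : ℝ × ℂ → ℂ) (om : ℂ) (t : ℝ) :
    cur G (fun s => om * c s) (t, Real.pi / 6) = G (t, r0 * (om * e3)) := by
  unfold cur
  congr 2
  change om * c (Real.pi / 6) = _
  rw [c_end A]
  ring

lemma cur_arc_mb (A : IsArc ε c r0 lam) (G : ℝ × ℂ → ℂ) (om : ℂ) (t : ℝ) :
    cur G (fun s => (w3 * om) * c s) (t, -(Real.pi / 6)) = G (t, r0 * (om * e3)) := by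
  unfold cur
  congr 2
  have := c_end' A
  change w3 * om * c (-(Real.pi / 6)) = _
  linear_combination om * this

/-- frame components at the vertex -/
lemma fr_b (om : ℂ) : fr om (Real.pi / 6) =
    (starRingEnd ℂ) om * ((√3 / 2 : ℝ) - (1 / 2 : ℝ) * Complex.I) := by
  unfold fr
  rw [expn6]

lemma fr_mb (om : ℂ) : fr (w3 * om) (-(Real.pi / 6)) = (starRingEnd ℂ) om * (-Complex.I) := by
  unfold fr
  rw [expn6', map_mul]
  have : (starRingEnd ℂ) w3 * ((√3 / 2 : ℝ) + (1 / 2 : ℝ) * Complex.I) = -Complex.I := by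
    obtain ⟨_, _, h⟩ := sqrt3_facts
    apply Complex.ext
    · simp only [Complex.mul_re, Complex.mul_im, Complex.add_re, Complex.add_im, Complex.sub_re,
      Complex.sub_im, Complex.neg_re, Complex.neg_im, Complex.I_re, Complex.I_im, Complex.ofReal_re,
      Complex.ofReal_im, Complex.conj_re, Complex.conj_im, w3_re, w3_im]
      ring
    · simp only [Complex.mul_re, Complex.mul_im, Complex.add_re, Complex.add_im, Complex.sub_re,
      Complex.sub_im, Complex.neg_re, Complex.neg_im, Complex.I_re, Complex.I_im, Complex.ofReal_re,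
      Complex.ofReal_im, Complex.conj_re, Complex.conj_im, w3_re, w3_im]
      linear_combination -h / 4
  linear_combination (starRingEnd ℂ) om * this

lemma fr_ray (om : ℂ) : Complex.I * (starRingEnd ℂ) (om * e3) =
    (starRingEnd ℂ) om * ((√3 / 2 : ℝ) + (1 / 2 : ℝ) * Complex.I) := by
  rw [map_mul]
  have : Complex.I * (starRingEnd ℂ) e3 = (√3 / 2 : ℝ) + (1 / 2 : ℝ) * Complex.I := by
    apply Complex.ext
    · simp only [Complex.mul_re, Complex.mul_im, Complex.add_re, Complex.add_im, Complex.sub_re,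
      Complex.sub_im, Complex.neg_re, Complex.neg_im, Complex.I_re, Complex.I_im, Complex.ofReal_re,
      Complex.ofReal_im, Complex.conj_re, Complex.conj_im, e3_re, e3_im]
      ring
    · simp only [Complex.mul_re, Complex.mul_im, Complex.add_re, Complex.add_im, Complex.sub_re,
      Complex.sub_im, Complex.neg_re, Complex.neg_im, Complex.I_re, Complex.I_im, Complex.ofReal_re,
      Complex.ofReal_im, Complex.conj_re, Complex.conj_im, e3_re, e3_im]
      ring
  linear_combination (starRingEnd ℂ) om * this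

lemma wv_b (A : IsArc ε c r0 lam) :
    (wv c (Real.pi / 6)).re = √3 / 2 * r0 ∧ (wv c (Real.pi / 6)).im = r0 / 2 := by
  unfold wv
  rw [c_end A, expn6]
  obtain ⟨_, _, h⟩ := sqrt3_facts
  constructor
  · simp only [Complex.mul_re, Complex.mul_im, Complex.add_re, Complex.add_im, Complex.sub_re,
      Complex.sub_im, Complex.neg_re, Complex.neg_im, Complex.I_re, Complex.I_im, Complex.ofReal_re,
      Complex.ofReal_im, Complex.conj_re, Complex.conj_im, e3_re, e3_im]
    ring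
  · simp only [Complex.mul_re, Complex.mul_im, Complex.add_re, Complex.add_im, Complex.sub_re,
      Complex.sub_im, Complex.neg_re, Complex.neg_im, Complex.I_re, Complex.I_im, Complex.ofReal_re,
      Complex.ofReal_im, Complex.conj_re, Complex.conj_im, e3_re, e3_im]
    linear_combination r0 * h / 4

lemma wv_mb (A : IsArc ε c r0 lam) :
    (wv c (-(Real.pi / 6))).re = √3 / 2 * r0 ∧ (wv c (-(Real.pi / 6))).im = -(r0 / 2) := by
  unfold wv
  rw [A.conj, c_end A, expn6']
  obtain ⟨_, _, h⟩ := sqrt3_facts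
  constructor
  · simp only [Complex.mul_re, Complex.mul_im, Complex.add_re, Complex.add_im, Complex.sub_re,
      Complex.sub_im, Complex.neg_re, Complex.neg_im, Complex.I_re, Complex.I_im, Complex.ofReal_re,
      Complex.ofReal_im, Complex.conj_re, Complex.conj_im, e3_re, e3_im]
    ring
  · simp only [Complex.mul_re, Complex.mul_im, Complex.add_re, Complex.add_im, Complex.sub_re,
      Complex.sub_im, Complex.neg_re, Complex.neg_im, Complex.I_re, Complex.I_im, Complex.ofReal_re,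
      Complex.ofReal_im, Complex.conj_re, Complex.conj_im, e3_re, e3_im]
    linear_combination -r0 * h / 4

lemma ph_b (A : IsArc ε c r0 lam) : ph (c (Real.pi / 6)) = gw r0 := by
  rw [A.endp, ph_real_mul_exp]

lemma ph_mb (A : IsArc ε c r0 lam) : ph (c (-(Real.pi / 6))) = gw r0 := by
  rw [A.conj, ← ph_b A]
  unfold ph
  rw [Complex.norm_conj]

lemma vertex_first (A : IsArc ε c r0 lam) (hG : ContDiff ℝ ∞ G) (om : ℂ) :
    T1 ε lam c om (cur G fun s => om * c s) (Real.pi / 6) -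
      T1 ε lam c (w3 * om) (cur G fun s => (w3 * om) * c s) (-(Real.pi / 6)) -
      gw r0 * (rcp (dt (cur G fun s : ℝ => (s : ℂ) * (om * e3))) (om * e3) r0).im = 0 := by
  unfold T1 fc rcp
  rw [dt_cur hG (contDiff_arc A _), dt_cur hG (contDiff_arc A _), dt_cur hG (contDiff_ray _),
    cur_arc_b A, cur_arc_mb A, cur_arc_b A, cur_arc_mb A, fr_b, fr_mb, fr_ray, ph_b A, ph_mb A]
  have e1 : cur (tder G) (fun s : ℝ => (s : ℂ) * (om * e3)) (0, r0) =
    tder G (0, r0 * (om * e3)) := rfl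
  rw [e1]
  generalize tder G (0, (r0 : ℂ) * (om * e3)) = ξ
  generalize pot (G (0, (r0 : ℂ) * (om * e3))) = P
  have hε := A.eps_pos.ne'
  have e2 : ∀ z : ℂ, ξ * ((starRingEnd ℂ) om * z) = ξ * (starRingEnd ℂ) om * z := fun z => by ring
  rw [e2, e2, e2]
  generalize ξ * (starRingEnd ℂ) om = y
  simp only [Complex.mul_re, Complex.mul_im, Complex.add_re, Complex.add_im, Complex.sub_re,
      Complex.sub_im, Complex.neg_re, Complex.neg_im, Complex.I_re, Complex.I_im, Complex.ofReal_re,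
      Complex.ofReal_im, Complex.conj_re, Complex.conj_im]
  field_simp
  ring

lemma vertex_ray (A : IsArc ε c r0 lam) (hG : ContDiff ℝ ∞ G) (om : ℂ) :
    (rcp (dt (cur G fun s : ℝ => (s : ℂ) * (om * e3))) (om * e3) r0).re =
      (fc (dt (cur G fun s => om * c s)) om (Real.pi / 6)).re -
      (fc (dt (cur G fun s => (w3 * om) * c s)) (w3 * om) (-(Real.pi / 6))).re := by
  unfold fc rcp
  rw [dt_cur hG (contDiff_arc A _), dt_cur hG (contDiff_arc A _), dt_cur hG (contDiff_ray _),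
    cur_arc_b A, cur_arc_mb A, fr_b, fr_mb, fr_ray]
  have e1 : cur (tder G) (fun s : ℝ => (s : ℂ) * (om * e3)) (0, r0) =
    tder G (0, r0 * (om * e3)) := rfl
  rw [e1]
  generalize tder G (0, (r0 : ℂ) * (om * e3)) = ξ
  have e2 : ∀ z : ℂ, ξ * ((starRingEnd ℂ) om * z) = ξ * (starRingEnd ℂ) om * z := fun z => by ring
  rw [e2, e2, e2]
  generalize ξ * (starRingEnd ℂ) om = y
  simp only [Complex.mul_re, Complex.mul_im, Complex.add_re, Complex.add_im, Complex.sub_re,
      Complex.sub_im, Complex.neg_re, Complex.neg_im, Complex.I_re, Complex.I_im, Complex.ofReal_re,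
      Complex.ofReal_im, Complex.conj_re, Complex.conj_im]
  ring

lemma vertex_second (A : IsArc ε c r0 lam) (hG : ContDiff ℝ ∞ G) (om : ℂ) :
    T2 ε lam c om (cur G fun s => om * c s) (Real.pi / 6) -
      T2 ε lam c (w3 * om) (cur G fun s => (w3 * om) * c s) (-(Real.pi / 6)) -
      BRay (om * e3) (cur G fun s : ℝ => (s : ℂ) * (om * e3)) r0 =
    1 / (√3 * ε) * ((fc (dt (cur G fun s => om * c s)) om (Real.pi / 6)).re ^ 2 +
      (fc (dt (cur G fun s => (w3 * om) * c s)) (w3 * om) (-(Real.pi / 6))).re ^ 2 -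
      4 * (fc (dt (cur G fun s => om * c s)) om (Real.pi / 6)).re *
        (fc (dt (cur G fun s => (w3 * om) * c s)) (w3 * om) (-(Real.pi / 6))).re) := by
  unfold T2 BArc BRay potT fc rcp
  rw [dt_cur hG (contDiff_arc A _), dt_cur hG (contDiff_arc A _), dt_cur hG (contDiff_ray _),
    dt_cur (contDiff_tder hG) (contDiff_arc A _), dt_cur (contDiff_tder hG) (contDiff_arc A _),
    dt_cur (contDiff_tder hG) (contDiff_ray _)]
  simp only [cur_arc_b A, cur_arc_mb A]
  rw [fr_b, fr_mb, fr_ray, ph_b A, ph_mb A, (wv_b A).1, (wv_b A).2, (wv_mb A).1, (wv_mb A).2]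
  have e1 : ∀ H : ℝ × ℂ → ℂ, cur H (fun s : ℝ => (s : ℂ) * (om * e3)) (0, r0) =
    H (0, r0 * (om * e3)) := fun H => rfl
  rw [e1, e1]
  generalize tder G (0, (r0 : ℂ) * (om * e3)) = ξ
  generalize tder (tder G) (0, (r0 : ℂ) * (om * e3)) = ζ
  generalize G (0, (r0 : ℂ) * (om * e3)) = P
  generalize gw r0 = g
  have hε := A.eps_pos.ne'
  have e2 : ∀ x z : ℂ, x * ((starRingEnd ℂ) om * z) = x * (starRingEnd ℂ) om * z :=
    fun x z => by ring
  rw [e2, e2, e2, e2, e2, e2]
  generalize ξ * (starRingEnd ℂ) om = y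
  generalize ζ * (starRingEnd ℂ) om = z
  obtain ⟨_, _, h⟩ := sqrt3_facts
  have h3 : √3 ≠ 0 := by positivity
  simp only [Complex.mul_re, Complex.mul_im, Complex.add_re, Complex.add_im, Complex.sub_re,
      Complex.sub_im, Complex.neg_re, Complex.neg_im, Complex.I_re, Complex.I_im, Complex.ofReal_re,
      Complex.ofReal_im, Complex.conj_re, Complex.conj_im]
  generalize √3 = S at *
  generalize y.re = y1
  generalize y.im = y2
  generalize z.re = z1
  generalize z.im = z2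
  field_simp
  linear_combination (-2 * y2 ^ 2 - 2 * S * y1 * y2 + ε * g * r0 * S * y1 ^ 2 -
    ε * g * r0 * S ^ 2 * y1 * y2) * h

end

/-- the three rotations -/
noncomputable def om : Fin 3 → ℂ := ![1, w3, w3 * w3]

lemma om_next (j : Fin 3) : om (j + 1) = w3 * om j := by
  fin_cases j
  · simp [om]
  · simp [om]
  · simp only [om]
    change (1 : ℂ) = w3 * (w3 * w3)
    exact w3_cube.symm

lemma norm_om (j : Fin 3) : ‖om j‖ = 1 := by
  fin_cases j
  · simp [om]
  · simp [om, norm_w3]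
  · simp [om, norm_w3]

/-- arcs and rays -/
noncomputable def arc (c : ℝ → ℂ) (j : Fin 3) (s : ℝ) : ℂ := om j * c s

noncomputable def ray (j : Fin 3) (s : ℝ) : ℂ := s * (om j * e3)

lemma norm_ray_dir (j : Fin 3) : ‖om j * e3‖ = 1 := by
  rw [norm_mul, norm_om, norm_e3, one_mul]

section

variable {ε r0 lam : ℝ} {c : ℝ → ℂ} {G : ℝ × ℂ → ℂ}

lemma arc_next (A : IsArc ε c r0 lam) (j : Fin 3) :
    arc c j (Real.pi / 6) = ray j r0 ∧ arc c (j + 1) (-(Real.pi / 6)) = ray j r0 := by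
  unfold arc ray
  rw [om_next, c_end A]
  constructor
  · ring
  · linear_combination om j * c_end' A

lemma contDiff_arc' (A : IsArc ε c r0 lam) (j : Fin 3) : ContDiff ℝ ∞ (arc c j) :=
  contDiff_arc A _

lemma contDiff_ray' (j : Fin 3) : ContDiff ℝ ∞ (ray j) := contDiff_ray _

/-- The first variation vanishes up to the multiplier. -/
theorem first_zero (A : IsArc ε c r0 lam) (hε : ε ≤ 1 / 1000) (hG : ContDiff ℝ ∞ G)
    (hG0 : ∀ z, G (0, z) = z) {R : ℝ} (hR : ∀ j, tder G (0, ray j R) = 0) :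
    ∑ j : Fin 3, ((∫ s in (-(Real.pi / 6))..(Real.pi / 6), La1 (cur G (arc c j)) (0, s)) -
      lam * (∫ s in (-(Real.pi / 6))..(Real.pi / 6), Lw1 (cur G (arc c j)) (0, s))) +
    ∑ j : Fin 3, (∫ s in r0..R, La1 (cur G (ray j)) (0, s)) = 0 := by
  have h1 : ∀ j, (∫ s in (-(Real.pi / 6))..(Real.pi / 6), La1 (cur G (arc c j)) (0, s)) -
      lam * (∫ s in (-(Real.pi / 6))..(Real.pi / 6), Lw1 (cur G (arc c j)) (0, s)) =
      T1 ε lam c (om j) (cur G (arc c j)) (Real.pi / 6) -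
      T1 ε lam c (om j) (cur G (arc c j)) (-(Real.pi / 6)) := fun j =>
    arc_first_int A (norm_om j) (contDiff_cur hG (contDiff_arc' A j)) (fun s => hG0 _) hε
  have h2 : ∀ j, (∫ s in r0..R, La1 (cur G (ray j)) (0, s)) =
      - (gw r0 * (rcp (dt (cur G (ray j))) (om j * e3) r0).im) := by
    intro j
    rw [ray_first_int (norm_ray_dir j) (contDiff_cur hG (contDiff_ray' j)) (fun s => hG0 _)]
    have : rcp (dt (cur G (ray j))) (om j * e3) R = 0 := by
      unfold rcp
      rw [dt_cur hG (contDiff_ray' j)]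
      unfold cur
      simp only
      rw [hR j, zero_mul]
    rw [this]
    simp
  have h3 : ∀ j : Fin 3, T1 ε lam c (om j) (cur G (arc c j)) (Real.pi / 6) -
      T1 ε lam c (om (j + 1)) (cur G (arc c (j + 1))) (-(Real.pi / 6)) -
      gw r0 * (rcp (dt (cur G (ray j))) (om j * e3) r0).im = 0 := by
    intro j
    have := vertex_first A hG (om j)
    rw [← om_next] at this
    exact this
  simp only [h1, h2, Fin.sum_univ_three]
  have a0 := h3 0
  have a1 := h3 1
  have a2 := h3 2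
  rw [show (0 : Fin 3) + 1 = 1 from rfl] at a0
  rw [show (1 : Fin 3) + 1 = 2 from rfl] at a1
  rw [show (2 : Fin 3) + 1 = 0 from rfl] at a2
  linarith

/-- The second variation is nonnegative under the constraints. -/
theorem index_nonneg (A : IsArc ε c r0 lam) (hε : ε ≤ 1 / 1000) (hG : ContDiff ℝ ∞ G)
    (hG0 : ∀ z, G (0, z) = z) {R : ℝ} (hR1 : 1 ≤ R) (hR : ∀ j, tder G (0, ray j R) = 0)
    (hR2 : ∀ j, tder (tder G) (0, ray j R) = 0)
    (hm : ∀ j : Fin 3, (∫ s in (-(Real.pi / 6))..(Real.pi / 6), Lw1 (cur G (arc c j)) (0, s)) +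
      (∫ s in r0..R, Lw1 (cur G (ray j)) (0, s)) -
      (∫ s in r0..R, Lw1 (cur G (ray (j + 2))) (0, s)) = 0) :
    0 ≤ ∑ j : Fin 3, ((∫ s in (-(Real.pi / 6))..(Real.pi / 6), La2 (cur G (arc c j)) (0, s)) -
      lam * (∫ s in (-(Real.pi / 6))..(Real.pi / 6), Lw2 (cur G (arc c j)) (0, s))) +
    ∑ j : Fin 3, (∫ s in r0..R, La2 (cur G (ray j)) (0, s)) := by
  have AF := A.toArcFun hε
  have ka : ∀ j, ContDiff ℝ ∞ (cur G (arc c j)) := fun j => contDiff_cur hG (contDiff_arc' A j)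
  have kr : ∀ j, ContDiff ℝ ∞ (cur G (ray j)) := fun j => contDiff_cur hG (contDiff_ray' j)
  have h1 : ∀ j, (∫ s in (-(Real.pi / 6))..(Real.pi / 6), La2 (cur G (arc c j)) (0, s)) -
      lam * (∫ s in (-(Real.pi / 6))..(Real.pi / 6), Lw2 (cur G (arc c j)) (0, s)) = _ := fun j =>
    arc_second_int A (norm_om j) (ka j) (fun s => hG0 _) hε
  have h2 : ∀ j, (∫ s in r0..R, La2 (cur G (ray j)) (0, s)) = _ := fun j =>
    ray_second_int (norm_ray_dir j) (kr j) (fun s => hG0 _) r0 R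
  have hz1 : ∀ j, rcp (dt (cur G (ray j))) (om j * e3) R = 0 := by
    intro j
    unfold rcp
    rw [dt_cur hG (contDiff_ray' j)]
    unfold cur
    simp only
    rw [hR j, zero_mul]
  have hz2 : ∀ j, rcp (dt (dt (cur G (ray j)))) (om j * e3) R = 0 := by
    intro j
    unfold rcp
    rw [dt_cur hG (contDiff_ray' j), dt_cur (contDiff_tder hG) (contDiff_ray' j)]
    unfold cur
    simp only
    rw [hR2 j, zero_mul]
  have hBR : ∀ j, BRay (om j * e3) (cur G (ray j)) R = 0 := by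
    intro j
    unfold BRay
    rw [hz1, hz2]
    simp
  have h3 : ∀ j : Fin 3, T2 ε lam c (om j) (cur G (arc c j)) (Real.pi / 6) -
      T2 ε lam c (om (j + 1)) (cur G (arc c (j + 1))) (-(Real.pi / 6)) -
      BRay (om j * e3) (cur G (ray j)) r0 =
      1 / (√3 * ε) * ((fc (dt (cur G (arc c j))) (om j) (Real.pi / 6)).re ^ 2 +
      (fc (dt (cur G (arc c (j + 1)))) (om (j + 1)) (-(Real.pi / 6))).re ^ 2 -
      4 * (fc (dt (cur G (arc c j))) (om j) (Real.pi / 6)).re *
        (fc (dt (cur G (arc c (j + 1)))) (om (j + 1)) (-(Real.pi / 6))).re) := by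
    intro j
    have := vertex_second (lam := lam) A hG (om j)
    rw [← om_next] at this
    exact this
  have h4 : ∀ j : Fin 3, (rcp (dt (cur G (ray j))) (om j * e3) r0).re =
      (fc (dt (cur G (arc c j))) (om j) (Real.pi / 6)).re -
      (fc (dt (cur G (arc c (j + 1)))) (om (j + 1)) (-(Real.pi / 6))).re := by
    intro j
    have := vertex_ray A hG (om j)
    rw [← om_next] at this
    exact this
  -- masses
  have pv : ∀ j : Fin 3, pot (cur G (arc c j) (0, Real.pi / 6)) *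
      (dt (cur G (arc c j)) (0, Real.pi / 6)).im = pot (cur G (ray j) (0, r0)) *
      (dt (cur G (ray j)) (0, r0)).im := by
    intro j
    rw [dt_cur hG (contDiff_arc' A j), dt_cur hG (contDiff_ray' j)]
    unfold cur
    simp only
    rw [(arc_next A j).1]
  have pv' : ∀ j : Fin 3, pot (cur G (arc c (j + 1)) (0, -(Real.pi / 6))) *
      (dt (cur G (arc c (j + 1))) (0, -(Real.pi / 6))).im = pot (cur G (ray j) (0, r0)) *
      (dt (cur G (ray j)) (0, r0)).im := by
    intro j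
    rw [dt_cur hG (contDiff_arc' A _), dt_cur hG (contDiff_ray' j)]
    unfold cur
    simp only
    rw [(arc_next A j).2]
  have pR : ∀ j : Fin 3, pot (cur G (ray j) (0, R)) * (dt (cur G (ray j)) (0, R)).im = 0 := by
    intro j
    rw [dt_cur hG (contDiff_ray' j)]
    unfold cur
    simp only
    rw [hR j]
    simp
  have m1 : ∀ j, (∫ s in (-(Real.pi / 6))..(Real.pi / 6), Lw1 (cur G (arc c j)) (0, s)) = _ :=
    fun j => arc_mass A (norm_om j) (ka j) (fun s => hG0 _)
  have m2 : ∀ j, (∫ s in r0..R, Lw1 (cur G (ray j)) (0, s)) = _ := fun j =>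
    ray_mass (norm_ray_dir j) (kr j) (fun s => hG0 _) r0 R
  have pv0 := pv 0
  have pv1 := pv 1
  have pv2 := pv 2
  have pv0' := pv' 0
  have pv1' := pv' 1
  have pv2' := pv' 2
  have v0 := h4 0
  have v1 := h4 1
  have v2 := h4 2
  have t0 := h3 0
  have t1 := h3 1
  have t2 := h3 2
  have hm0 := hm 0
  have hm1 := hm 1
  have hm2 := hm 2
  rw [show (0 : Fin 3) + 1 = 1 from rfl] at v0 t0 pv0'
  rw [show (1 : Fin 3) + 1 = 2 from rfl] at v1 t1 pv1'
  rw [show (2 : Fin 3) + 1 = 0 from rfl] at v2 t2 pv2'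
  rw [show (0 : Fin 3) + 2 = 2 from rfl] at hm0
  rw [show (1 : Fin 3) + 2 = 0 from rfl] at hm1
  rw [show (2 : Fin 3) + 2 = 1 from rfl] at hm2
  rw [m1, m2, m2, pR, pR, pv0, pv2'] at hm0
  rw [m1, m2, m2, pR, pR, pv1, pv0'] at hm1
  rw [m1, m2, m2, pR, pR, pv2, pv1'] at hm2
  have dre : ∀ {f : ℝ → ℂ} {f' : ℝ → ℂ}, (∀ x, HasDerivAt f (f' x) x) →
      ∀ x, HasDerivAt (fun x => (f x).re) (f' x).re x := fun h x => hasDerivAt_re (h x)
  have cre : ∀ {f : ℝ → ℂ}, Continuous f → Continuous fun x => (f x).re := fun h =>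
    Complex.continuous_re.comp h
  have fin := quad_nonneg (R := R) AF hR1
    (f0 := fun x => (fc (dt (cur G (arc c 0))) (om 0) x).re)
    (f0' := fun x => (fc' (dt (cur G (arc c 0))) (om 0) x).re)
    (f1 := fun x => (fc (dt (cur G (arc c 1))) (om 1) x).re)
    (f1' := fun x => (fc' (dt (cur G (arc c 1))) (om 1) x).re)
    (f2 := fun x => (fc (dt (cur G (arc c 2))) (om 2) x).re)
    (f2' := fun x => (fc' (dt (cur G (arc c 2))) (om 2) x).re)
    (h0 := fun x => (rcp (dt (cur G (ray 0))) (om 0 * e3) x).re)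
    (h0' := fun x => (rcp' (dt (cur G (ray 0))) (om 0 * e3) x).re)
    (h1 := fun x => (rcp (dt (cur G (ray 1))) (om 1 * e3) x).re)
    (h1' := fun x => (rcp' (dt (cur G (ray 1))) (om 1 * e3) x).re)
    (h2 := fun x => (rcp (dt (cur G (ray 2))) (om 2 * e3) x).re)
    (h2' := fun x => (rcp' (dt (cur G (ray 2))) (om 2 * e3) x).re)
    (dre fun x => hasDerivAt_fc (contDiff_dt (ka 0)) _ x) (cre (continuous_fc' (contDiff_dt (ka 0)) _))
    (dre fun x => hasDerivAt_fc (contDiff_dt (ka 1)) _ x) (cre (continuous_fc' (contDiff_dt (ka 1)) _))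
    (dre fun x => hasDerivAt_fc (contDiff_dt (ka 2)) _ x) (cre (continuous_fc' (contDiff_dt (ka 2)) _))
    (dre fun x => hasDerivAt_rcp (contDiff_dt (kr 0)) _ x) (cre (continuous_rcp' (contDiff_dt (kr 0)) _))
    (by simp only [hz1]; simp)
    (dre fun x => hasDerivAt_rcp (contDiff_dt (kr 1)) _ x) (cre (continuous_rcp' (contDiff_dt (kr 1)) _))
    (by simp only [hz1]; simp)
    (dre fun x => hasDerivAt_rcp (contDiff_dt (kr 2)) _ x) (cre (continuous_rcp' (contDiff_dt (kr 2)) _))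
    (by simp only [hz1]; simp)
    v0 v1 v2 (by linarith) (by linarith) (by linarith)
  simp only [h1, h2, hBR, Fin.sum_univ_three]
  linarith

end

end Pool.Agent.MP_845d3b_gt
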