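import Pool.Agent.MP_845d3b_gt.Defs
import Pool.Agent.MP_845d3b_gt.Cells
import Pool.Agent.MP_845d3b_gt.Green

open Set Filter Topology MeasureTheory
open scoped ContDiff

namespace Pool.Agent.MP_845d3b_gt

/-- uncurried isotopy -/
def unc (F : ℝ → ℂ → ℂ) (p : ℝ × ℂ) : ℂ := F p.1 p.2

section

variable {F : ℝ → ℂ → ℂ}

lemma contDiff_unc (hF : IsVariation F) : ContDiff ℝ ∞ (unc F) := hF.smooth

lemma contDiff_F (hF : IsVariation F) (t : ℝ) : ContDiff ℝ ∞ (F t) :=
  (contDiff_unc hF).comp (contDiff_const.prodMk contDiff_id)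

lemma F_inj (hF : IsVariation F) (t : ℝ) : Function.Injective (F t) := by
  obtain ⟨H, _, h1, _⟩ := hF.diffeo t
  intro x y h
  rw [← h1 x, ← h1 y, h]

/-- the homeomorphism at time `t` -/
lemma exists_homeo (hF : IsVariation F) (t : ℝ) : ∃ e : ℂ ≃ₜ ℂ, ⇑e = F t := by
  obtain ⟨H, hH, h1, h2⟩ := hF.diffeo t
  exact ⟨{ toFun := F t, invFun := H, left_inv := h1, right_inv := h2,
           continuous_toFun := (contDiff_F hF t).continuous,
           continuous_invFun := hH.continuous }, rfl⟩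

lemma frontier_image (hF : IsVariation F) (t : ℝ) (S : Set ℂ) :
    frontier (F t '' S) = F t '' frontier S := by
  obtain ⟨e, he⟩ := exists_homeo hF t
  rw [← he, e.image_frontier]

lemma iface_moved {q : ℕ} (hF : IsVariation F) (Ω : Fin q → Set ℂ) (t : ℝ) (i j : Fin q) :
    iface (moved F Ω t) i j = F t '' iface Ω i j := by
  unfold iface moved
  rw [frontier_image hF, frontier_image hF, image_inter (F_inj hF t)]

lemma isOpen_image (hF : IsVariation F) (t : ℝ) {S : Set ℂ} (hS : IsOpen S) :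
    IsOpen (F t '' S) := by
  obtain ⟨e, he⟩ := exists_homeo hF t
  rw [← he]
  exact e.isOpenMap S hS

lemma measurableSet_image (hF : IsVariation F) (t : ℝ) {S : Set ℂ} (hS : MeasurableSet S) :
    MeasurableSet (F t '' S) := by
  obtain ⟨e, he⟩ := exists_homeo hF t
  rw [← he]
  exact (e.measurableEmbedding.measurableSet_image).mpr hS

lemma wedge_lin (L : ℂ →L[ℝ] ℂ) (a b : ℂ) :
    wedge (L a) (L b) = wedge (L 1) (L Complex.I) * wedge a b := by
  have e : ∀ z : ℂ, L z = z.re • L 1 + z.im • L Complex.I := by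
    intro z
    rw [← L.map_smul, ← L.map_smul, ← map_add]
    congr 1
    apply Complex.ext <;> simp
  rw [e a, e b]
  unfold wedge
  simp only [Complex.add_re, Complex.add_im, Complex.real_smul, Complex.re_ofReal_mul,
    Complex.im_ofReal_mul]
  ring

/-- the space derivative -/
noncomputable def DF (F : ℝ → ℂ → ℂ) (t : ℝ) (x : ℂ) : ℂ →L[ℝ] ℂ := fderiv ℝ (F t) x

lemma DF_apply (hF : IsVariation F) (t : ℝ) (x v : ℂ) :
    DF F t x v = fderiv ℝ (unc F) (t, x) (0, v) := by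
  have h1 : HasFDerivAt (unc F) (fderiv ℝ (unc F) (t, x)) (t, x) :=
    ((contDiff_unc hF).differentiable (by simp) _).hasFDerivAt
  have h2 : HasFDerivAt (fun x : ℂ => ((t, x) : ℝ × ℂ))
      ((0 : ℂ →L[ℝ] ℝ).prod (ContinuousLinearMap.id ℝ ℂ)) x :=
    (hasFDerivAt_const t x).prodMk (hasFDerivAt_id x)
  have h3 := h1.comp x h2
  have h4 : fderiv ℝ (F t) x = (fderiv ℝ (unc F) (t, x)).comp
      ((0 : ℂ →L[ℝ] ℝ).prod (ContinuousLinearMap.id ℝ ℂ)) := h3.fderiv
  unfold DF
  rw [h4]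
  rfl

/-- Jacobian determinant -/
noncomputable def Jac (F : ℝ → ℂ → ℂ) (t : ℝ) (x : ℂ) : ℝ :=
  wedge (DF F t x 1) (DF F t x Complex.I)

lemma continuous_Jac (hF : IsVariation F) (x : ℂ) : Continuous fun t => Jac F t x := by
  have h : ∀ v : ℂ, Continuous fun t => DF F t x v := by
    intro v
    have e : (fun t => DF F t x v) = fun t => fderiv ℝ (unc F) (t, x) (0, v) :=
      funext fun t => DF_apply hF t x v
    rw [e]
    have h1 : Continuous (fderiv ℝ (unc F)) := (contDiff_unc hF).continuous_fderiv (by simp)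
    exact (h1.comp (by fun_prop)).clm_apply continuous_const
  exact continuous_wedge (h 1) (h Complex.I)

lemma Jac_ne (hF : IsVariation F) (t : ℝ) (x : ℂ) : Jac F t x ≠ 0 := by
  obtain ⟨H, hH, h1, h2⟩ := hF.diffeo t
  have d1 : HasFDerivAt (F t) (DF F t x) x :=
    ((contDiff_F hF t).differentiable (by simp) x).hasFDerivAt
  have d2 : HasFDerivAt H (fderiv ℝ H (F t x)) (F t x) :=
    (hH.differentiable (by simp) _).hasFDerivAt
  have d3 := d2.comp x d1
  have e : H ∘ F t = id := funext h1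
  rw [e] at d3
  have d4 := d3.unique (hasFDerivAt_id x)
  have e1 : fderiv ℝ H (F t x) (DF F t x 1) = 1 := congrArg (fun L => L 1) d4
  have e2 : fderiv ℝ H (F t x) (DF F t x Complex.I) = Complex.I :=
    congrArg (fun L => L Complex.I) d4
  have e3 := wedge_lin (fderiv ℝ H (F t x)) (DF F t x 1) (DF F t x Complex.I)
  rw [e1, e2] at e3
  intro h0
  unfold Jac at h0
  rw [h0, mul_zero] at e3
  unfold wedge at e3
  simp at e3

lemma Jac_zero (hF : IsVariation F) (x : ℂ) : Jac F 0 x = 1 := by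
  have e : F 0 = id := funext hF.zero
  unfold Jac DF
  rw [e, fderiv_id]
  simp [wedge]

lemma Jac_pos (hF : IsVariation F) (t : ℝ) (x : ℂ) : 0 < Jac F t x := by
  by_contra hneg
  push Not at hneg
  have hc := continuous_Jac hF x
  have h0 := Jac_zero hF x
  have hmem : (0 : ℝ) ∈ uIcc (Jac F 0 x) (Jac F t x) := by
    rw [h0, uIcc_of_ge (by linarith)]
    exact ⟨hneg, zero_le_one⟩
  obtain ⟨s, _, hs⟩ := intermediate_value_uIcc (a := 0) (b := t) hc.continuousOn hmem
  exact Jac_ne hF s x hs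

lemma DF_ne (hF : IsVariation F) (t : ℝ) (x : ℂ) {v : ℂ} (hv : v ≠ 0) : DF F t x v ≠ 0 := by
  intro h
  have h1 := wedge_lin (DF F t x) v (Complex.I * v)
  rw [h] at h1
  have h2 : wedge v (Complex.I * v) = dot v v := by
    unfold wedge dot
    simp
  have h3 := Jac_pos hF t x
  rw [h2] at h1
  have h4 := dot_self_pos hv
  have h5 : wedge 0 (DF F t x (Complex.I * v)) = 0 := by unfold wedge; simp
  rw [h5] at h1
  have h6 : 0 < wedge (DF F t x 1) (DF F t x Complex.I) * dot v v := mul_pos h3 h4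
  linarith

lemma ds_cur (hF : IsVariation F) {γ : ℝ → ℂ} (k : ContDiff ℝ ∞ γ) (t s : ℝ) :
    ds (cur (unc F) γ) (t, s) = DF F t (γ s) (deriv γ s) := by
  have h1 := hasDerivAt_ds (contDiff_cur (contDiff_unc hF) k) t s
  have d1 : HasFDerivAt (F t) (DF F t (γ s)) (γ s) :=
    ((contDiff_F hF t).differentiable (by simp) _).hasFDerivAt
  have d2 : HasDerivAt γ (deriv γ s) s := (k.differentiable (by simp) s).hasDerivAt
  exact h1.unique (d1.comp_hasDerivAt s d2)

lemma ds_cur_ne (hF : IsVariation F) {γ : ℝ → ℂ} (k : ContDiff ℝ ∞ γ) (t : ℝ) {s : ℝ}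
    (hs : deriv γ s ≠ 0) : ds (cur (unc F) γ) (t, s) ≠ 0 := by
  rw [ds_cur hF k]
  exact DF_ne hF t _ hs

lemma fix_tder (hF : IsVariation F) {z : ℂ} (hz : ∀ t, F t z = z) (t : ℝ) :
    tder (unc F) (t, z) = 0 ∧ tder (tder (unc F)) (t, z) = 0 := by
  have key : ∀ G : ℝ × ℂ → ℂ, ContDiff ℝ ∞ G → (∃ w, ∀ t, G (t, z) = w) → ∀ t, tder G (t, z) = 0 := by
    rintro G hG ⟨w, hw⟩ t
    have h2 : HasFDerivAt G (fderiv ℝ G (t, z)) (t, z) :=
      (hG.differentiable (by simp) _).hasFDerivAt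
    have h3 : HasDerivAt (fun t : ℝ => (t, z)) ((1 : ℝ), (0 : ℂ)) t :=
      (hasDerivAt_id t).prodMk (hasDerivAt_const t z)
    have h4 := h2.comp_hasDerivAt t h3
    have h5 : (fun t : ℝ => G (t, z)) = fun _ => w := funext hw
    have h6 : HasDerivAt (fun t : ℝ => G (t, z)) 0 t := by
      rw [h5]; exact hasDerivAt_const t w
    exact h4.unique h6
  have k1 := key (unc F) (contDiff_unc hF) ⟨z, hz⟩
  exact ⟨k1 t, key _ (contDiff_tder (contDiff_unc hF)) ⟨0, k1⟩ t⟩

end

end Pool.Agent.MP_845d3b_gt
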