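import Pool.Agent.MP_845d3b_gt.Volume
import Pool.Agent.MP_845d3b_gt.CurveLen

open Set Filter Topology MeasureTheory Measure
open scoped ContDiff

namespace Pool.Agent.MP_845d3b_gt

/-- The partition. -/
def Om (ε r0 : ℝ) (c : ℝ → ℂ) : Fin 4 → Set ℂ :=
  ![cell ε r0 c 0, cell ε r0 c 1, cell ε r0 c 2, tri ε r0 c]

/-- length integral of an arc -/
noncomputable def Aa (F : ℝ → ℂ → ℂ) (c : ℝ → ℂ) (j : Fin 3) (t : ℝ) : ℝ :=
  ∫ s in (-(Real.pi / 6))..(Real.pi / 6), La (cur (unc F) (arc c j)) (t, s)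

/-- length integral of a piece of a ray -/
noncomputable def Ar (F : ℝ → ℂ → ℂ) (j : Fin 3) (r1 r2 t : ℝ) : ℝ :=
  ∫ s in r1..r2, La (cur (unc F) (ray j)) (t, s)

section

variable {ε r0 lam : ℝ} {c : ℝ → ℂ} {F : ℝ → ℂ → ℂ}

lemma glen_curve (hF : IsVariation F) {γ : ℝ → ℂ} (k : ContDiff ℝ ∞ γ) {a b : ℝ} (hab : a ≤ b)
    (hinj : InjOn γ (Icc a b)) (t : ℝ) :
    glen (F t '' (γ '' Icc a b)) =
      ENNReal.ofReal ((2 * Real.pi)⁻¹ * ∫ s in a..b, La (cur (unc F) γ) (t, s)) := by
  have k1 : ContDiff ℝ ∞ (F t ∘ γ) := (contDiff_F hF t).comp k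
  have hd : ∀ s, HasDerivAt (F t ∘ γ) (ds (cur (unc F) γ) (t, s)) s := fun s =>
    hasDerivAt_ds (contDiff_cur (contDiff_unc hF) k) t s
  have hcont : Continuous fun s => ds (cur (unc F) γ) (t, s) :=
    (contDiff_ds (contDiff_cur (contDiff_unc hF) k)).continuous.comp (by fun_prop)
  have hs : ∀ s ∈ Icc a b, HasStrictDerivAt (F t ∘ γ) (ds (cur (unc F) γ) (t, s)) s := by
    intro s _
    have h1 := (k1.contDiffAt (x := s)).hasStrictDerivAt (by simp)
    rwa [(hd s).deriv] at h1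
  have hi : InjOn (F t ∘ γ) (Icc a b) := (F_inj hF t).comp_injOn hinj
  have hg : Measurable fun z => ENNReal.ofReal (gdens z) :=
    ENNReal.measurable_ofReal.comp continuous_gdens.measurable
  unfold glen
  rw [← image_comp, curve_measure hab hs hcont.continuousOn hi hg,
    ← intervalIntegral.integral_const_mul, intervalIntegral.integral_of_le hab,
    ofReal_integral_eq_lintegral_ofReal]
  · refine setLIntegral_congr_fun measurableSet_Ioc fun s _ => ?_
    rw [← ENNReal.ofReal_mul (gdens_pos _).le]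
    congr 1
    rw [gdens_eq, mul_assoc]
    rfl
  · have : Continuous fun s => (2 * Real.pi)⁻¹ * La (cur (unc F) γ) (t, s) :=
      continuous_const.mul
        ((continuous_La (contDiff_cur (contDiff_unc hF) k)).comp (by fun_prop))
    exact (this.integrableOn_Icc (a := a) (b := b)).mono_set Ioc_subset_Icc_self
  · refine Eventually.of_forall fun s => ?_
    unfold La
    have := (ph_pos (cur (unc F) γ (t, s))).le
    positivity

lemma isometry_ray (j : Fin 3) : Isometry (ray j) := by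
  refine Isometry.of_dist_eq fun x y => ?_
  rw [dist_eq_norm, dist_eq_norm]
  have : ray j x - ray j y = ((x - y : ℝ) : ℂ) * (om j * e3) := by
    unfold ray; push_cast; ring
  rw [this, norm_mul, norm_ray_dir, mul_one, Complex.norm_real]

lemma glen_tail (j : Fin 3) (R : ℝ) : glen (ray j '' Ioi R) ≠ ⊤ := by
  have hg : Measurable fun z => ENNReal.ofReal (gdens z) :=
    ENNReal.measurable_ofReal.comp continuous_gdens.measurable
  have h1 : glen (ray j '' Ioi R) ≤ ∫⁻ z in range (ray j), ENNReal.ofReal (gdens z) ∂μH[1] :=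
    lintegral_mono_set (image_subset_range _ _)
  refine ne_top_of_le_ne_top ?_ h1
  rw [← (isometry_ray j).map_hausdorffMeasure (Or.inl zero_le_one),
    lintegral_map hg (isometry_ray j).continuous.measurable, hausdorffMeasure_real]
  have h2 : Integrable fun s : ℝ => gdens (ray j s) := by
    have h3 : (fun s : ℝ => gdens (ray j s)) = fun s : ℝ =>
        (2 * Real.pi)⁻¹ * Real.exp (-(1 / 2) * s ^ 2) := by
      funext s
      unfold gdens ray
      rw [norm_mul, norm_ray_dir, mul_one, Complex.norm_real, Real.norm_eq_abs, sq_abs]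
      congr 2
      ring
    rw [h3]
    exact (integrable_exp_neg_mul_sq (by norm_num)).const_mul _
  exact h2.lintegral_lt_top.ne

lemma ray_inj (j : Fin 3) : Function.Injective (ray j) := (isometry_ray j).injective

/-- length of a moved ray -/
lemma glen_ray (A : IsArc ε c r0 lam) (hF : IsVariation F) {R : ℝ} (hR : r0 ≤ R)
    (hfix : ∀ z, R ≤ gau ε r0 c z → ∀ t, F t z = z) (j : Fin 3) (t : ℝ) :
    glen (F t '' (ray j '' Ici r0)) =
      ENNReal.ofReal ((2 * Real.pi)⁻¹ * Ar F j r0 R t) + glen (ray j '' Ioi R) := by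
  have e1 : ray j '' Ici r0 = ray j '' Ioi R ∪ ray j '' Icc r0 R := by
    rw [← image_union]
    congr 1
    ext x
    simp only [mem_Ici, mem_union, mem_Ioi, mem_Icc]
    constructor
    · intro h
      rcases lt_or_ge R x with h1 | h1
      · exact Or.inl h1
      · exact Or.inr ⟨h, h1⟩
    · rintro (h | h)
      · exact hR.trans h.le
      · exact h.1
  have e2 : F t '' (ray j '' Ioi R) = ray j '' Ioi R := by
    have h : ∀ x ∈ Ioi R, F t (ray j x) = ray j x := by
      intro x hx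
      refine hfix _ ?_ t
      rw [gau_ray A j (A.r0_pos.le.trans (hR.trans (le_of_lt hx)))]
      exact le_of_lt hx
    rw [image_image]
    exact image_congr h
  have hm : MeasurableSet (F t '' (ray j '' Icc r0 R)) :=
    ((isCompact_Icc.image (isometry_ray j).continuous).image
      (contDiff_F hF t).continuous).isClosed.measurableSet
  have hd : Disjoint (F t '' (ray j '' Ioi R)) (F t '' (ray j '' Icc r0 R)) := by
    refine (disjoint_image_iff (F_inj hF t)).mpr ((disjoint_image_iff (ray_inj j)).mpr ?_)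
    rw [Set.disjoint_left]
    intro x hx hx'
    exact absurd hx'.2 (not_le.mpr hx)
  rw [e1, image_union]
  unfold glen
  rw [lintegral_union hm hd, add_comm]
  have := glen_curve hF (contDiff_ray' j) hR ((ray_inj j).injOn) t
  unfold glen at this
  rw [this, e2]
  rfl

lemma glen_arc (A : IsArc ε c r0 lam) (hF : IsVariation F) (j : Fin 3) (t : ℝ) :
    glen (F t '' (arc c j '' Iv)) = ENNReal.ofReal ((2 * Real.pi)⁻¹ * Aa F c j t) := by
  refine glen_curve hF (contDiff_arc' A j) (by linarith [pi6_facts.1]) ?_ t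
  intro x hx y hy h
  unfold arc at h
  have hne : om j ≠ 0 := by rw [← norm_ne_zero_iff, norm_om]; norm_num
  exact c_inj A hx hy (mul_left_cancel₀ hne h)

/-- all interfaces -/
lemma ifaces (A : IsArc ε c r0 lam) :
    iface (Om ε r0 c) 0 1 = ray 0 '' Ici r0 ∧ iface (Om ε r0 c) 0 2 = ray 2 '' Ici r0 ∧
    iface (Om ε r0 c) 1 2 = ray 1 '' Ici r0 ∧ iface (Om ε r0 c) 0 3 = arc c 0 '' Iv ∧
    iface (Om ε r0 c) 1 3 = arc c 1 '' Iv ∧ iface (Om ε r0 c) 2 3 = arc c 2 '' Iv := by
  refine ⟨iface_ray A 0, ?_, iface_ray A 1, iface_arc A 0, iface_arc A 1, iface_arc A 2⟩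
  rw [← iface_ray A 2]
  exact inter_comm _ _

lemma garea_moved (A : IsArc ε c r0 lam) (hF : IsVariation F) {R : ℝ} (hR : r0 ≤ R)
    (hfix : ∀ z, R ≤ gau ε r0 c z → ∀ t, F t z = z) (t : ℝ) :
    garea (moved F (Om ε r0 c) t) =
      ∑ j : Fin 3, ENNReal.ofReal ((2 * Real.pi)⁻¹ * Aa F c j t) +
      ∑ j : Fin 3, (ENNReal.ofReal ((2 * Real.pi)⁻¹ * Ar F j r0 R t) + glen (ray j '' Ioi R)) := by
  obtain ⟨i01, i02, i12, i03, i13, i23⟩ := ifaces A
  unfold garea
  simp only [Fin.sum_univ_four, Fin.sum_univ_three, iface_moved hF]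
  rw [i01, i02, i12, i03, i13, i23]
  simp only [glen_ray A hF hR hfix, glen_arc A hF]
  have f1 : ∀ a b : Fin 4, ¬ (a < b) → ∀ x : ENNReal, (if a < b then x else 0) = 0 :=
    fun a b h x => if_neg h
  have f2 : ∀ a b : Fin 4, (a < b) → ∀ x : ENNReal, (if a < b then x else 0) = x :=
    fun a b h x => if_pos h
  rw [f1 0 0 (by decide), f2 0 1 (by decide), f2 0 2 (by decide), f2 0 3 (by decide),
    f1 1 0 (by decide), f1 1 1 (by decide), f2 1 2 (by decide), f2 1 3 (by decide),
    f1 2 0 (by decide), f1 2 1 (by decide), f1 2 2 (by decide), f2 2 3 (by decide),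
    f1 3 0 (by decide), f1 3 1 (by decide), f1 3 2 (by decide), f1 3 3 (by decide)]
  ring

lemma int_La_nonneg {Φ : ℝ × ℝ → ℂ} {a b t : ℝ} (hab : a ≤ b) :
    0 ≤ ∫ s in a..b, La Φ (t, s) := by
  refine intervalIntegral.integral_nonneg hab fun s _ => ?_
  unfold La
  have := (ph_pos (Φ (t, s))).le
  positivity

lemma garea_finite (A : IsArc ε c r0 lam) (hF : IsVariation F) (t : ℝ) :
    garea (moved F (Om ε r0 c) t) ≠ ⊤ := by
  obtain ⟨R, _, hR, hfix⟩ := exists_radius A hF
  rw [garea_moved A hF hR hfix]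
  refine ENNReal.add_ne_top.mpr ⟨?_, ?_⟩
  · exact ENNReal.sum_ne_top.mpr fun j _ => ENNReal.ofReal_ne_top
  · exact ENNReal.sum_ne_top.mpr fun j _ =>
      ENNReal.add_ne_top.mpr ⟨ENNReal.ofReal_ne_top, glen_tail j R⟩

lemma areaAt_eq (A : IsArc ε c r0 lam) (hF : IsVariation F) {R : ℝ} (hR : r0 ≤ R)
    (hfix : ∀ z, R ≤ gau ε r0 c z → ∀ t, F t z = z) (t : ℝ) :
    areaAt F (Om ε r0 c) t = (2 * Real.pi)⁻¹ * (∑ j : Fin 3, Aa F c j t + ∑ j : Fin 3, Ar F j r0 R t) +
      ∑ j : Fin 3, (glen (ray j '' Ioi R)).toReal := by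
  unfold areaAt
  rw [garea_moved A hF hR hfix, ENNReal.toReal_add, ENNReal.toReal_sum, ENNReal.toReal_sum]
  · have e1 : ∀ j : Fin 3, (ENNReal.ofReal ((2 * Real.pi)⁻¹ * Aa F c j t)).toReal =
        (2 * Real.pi)⁻¹ * Aa F c j t := fun j =>
      ENNReal.toReal_ofReal (mul_nonneg (by positivity) (int_La_nonneg (by linarith [pi6_facts.1])))
    have e2 : ∀ j : Fin 3, (ENNReal.ofReal ((2 * Real.pi)⁻¹ * Ar F j r0 R t) +
        glen (ray j '' Ioi R)).toReal =
        (2 * Real.pi)⁻¹ * Ar F j r0 R t + (glen (ray j '' Ioi R)).toReal := fun j => by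
      have h0 : 0 ≤ Ar F j r0 R t := int_La_nonneg hR
      rw [ENNReal.toReal_add ENNReal.ofReal_ne_top (glen_tail j R),
        ENNReal.toReal_ofReal (mul_nonneg (by positivity) h0)]
    simp only [e1, e2, Finset.sum_add_distrib, ← Finset.mul_sum]
    ring
  · exact fun j _ => ENNReal.add_ne_top.mpr ⟨ENNReal.ofReal_ne_top, glen_tail j R⟩
  · exact fun j _ => ENNReal.ofReal_ne_top
  · exact ENNReal.sum_ne_top.mpr fun j _ => ENNReal.ofReal_ne_top
  · exact ENNReal.sum_ne_top.mpr fun j _ =>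
      ENNReal.add_ne_top.mpr ⟨ENNReal.ofReal_ne_top, glen_tail j R⟩

end

end Pool.Agent.MP_845d3b_gt
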