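import Pool.Agent.MP_845d3b_gt.Variation

open Set Filter Topology MeasureTheory Measure
open scoped ContDiff

namespace Pool.Agent.MP_845d3b_gt

lemma trace_wedge (L : ℂ →L[ℝ] ℂ) (a b : ℂ) :
    wedge (L a) b + wedge a (L b) = ((L 1).re + (L Complex.I).im) * wedge a b := by
  have e : ∀ z : ℂ, L z = z.re • L 1 + z.im • L Complex.I := by
    intro z
    rw [← L.map_smul, ← L.map_smul, ← map_add]
    congr 1
    apply Complex.ext <;> simp
  rw [e a, e b]
  unfold wedge
  simp only [Complex.add_re, Complex.add_im, Complex.real_smul, Complex.re_ofReal_mul,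
    Complex.im_ofReal_mul]
  ring

lemma wedge_anti (a b : ℂ) : wedge a b = -wedge b a := by unfold wedge; ring

lemma abs_wedge_le (a b : ℂ) : |wedge a b| ≤ ‖a‖ * ‖b‖ := by
  have h1 : wedge a b = ((starRingEnd ℂ) a * b).im := by
    unfold wedge
    simp only [Complex.mul_im, Complex.conj_re, Complex.conj_im]
    ring
  rw [h1]
  refine (Complex.abs_im_le_norm _).trans ?_
  rw [norm_mul, Complex.norm_conj]

/-- divergence -/
noncomputable def dvg (Y : ℂ → ℂ) (x : ℂ) : ℝ := (fderiv ℝ Y x 1).re + (fderiv ℝ Y x Complex.I).im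

/-- Divergence theorem on a parametrised rectangle. -/
theorem div_green {Ψ : ℝ × ℝ → ℂ} (h : ContDiff ℝ ∞ Ψ) {Y : ℂ → ℂ} (hY : ContDiff ℝ ∞ Y)
    (r1 r2 a b : ℝ) :
    ∫ x in r1..r2, ∫ y in a..b, dvg Y (Ψ (x, y)) * wedge (dt Ψ (x, y)) (ds Ψ (x, y)) =
      (((∫ x in r1..r2, wedge (dt Ψ (x, b)) (Y (Ψ (x, b)))) -
        ∫ x in r1..r2, wedge (dt Ψ (x, a)) (Y (Ψ (x, a)))) +
        ∫ y in a..b, wedge (Y (Ψ (r2, y))) (ds Ψ (r2, y))) -
        ∫ y in a..b, wedge (Y (Ψ (r1, y))) (ds Ψ (r1, y)) := by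
  have kY : ContDiff ℝ ∞ (Y ∘ Ψ) := hY.comp h
  have cw : ∀ {f g : ℝ × ℝ → ℂ}, ContDiff ℝ ∞ f → ContDiff ℝ ∞ g →
      ContDiff ℝ ∞ fun p => wedge (f p) (g p) := by
    intro f g hf hg
    unfold wedge
    exact ((Complex.reCLM.contDiff.comp hf).mul (Complex.imCLM.contDiff.comp hg)).sub
      ((Complex.imCLM.contDiff.comp hf).mul (Complex.reCLM.contDiff.comp hg))
  have kf := cw kY (contDiff_ds h)
  have kg := cw (contDiff_dt h) kY
  have df : ∀ p, DifferentiableAt ℝ (fun p => wedge ((Y ∘ Ψ) p) (ds Ψ p)) p :=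
    fun p => kf.differentiable (by simp) p
  have dg : ∀ p, DifferentiableAt ℝ (fun p => wedge (dt Ψ p) ((Y ∘ Ψ) p)) p :=
    fun p => kg.differentiable (by simp) p
  have dY : ∀ z, HasFDerivAt Y (fderiv ℝ Y z) z := fun z => (hY.differentiable (by simp) z).hasFDerivAt
  have e1 : ∀ p : ℝ × ℝ, fderiv ℝ (fun p => wedge ((Y ∘ Ψ) p) (ds Ψ p)) p (1, 0) +
      fderiv ℝ (fun p => wedge (dt Ψ p) ((Y ∘ Ψ) p)) p (0, 1) =
      dvg Y (Ψ p) * wedge (dt Ψ p) (ds Ψ p) := by
    rintro ⟨x, y⟩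
    have a1 : HasDerivAt (fun t => (Y ∘ Ψ) (t, y)) (fderiv ℝ Y (Ψ (x, y)) (dt Ψ (x, y))) x :=
      (dY (Ψ (x, y))).comp_hasDerivAt x (hasDerivAt_dt h x y)
    have a2 : HasDerivAt (fun s => (Y ∘ Ψ) (x, s)) (fderiv ℝ Y (Ψ (x, y)) (ds Ψ (x, y))) y :=
      (dY (Ψ (x, y))).comp_hasDerivAt y (hasDerivAt_ds h x y)
    have b1 := hasDerivAt_dt (contDiff_ds h) x y
    have b2 := hasDerivAt_ds (contDiff_dt h) x y
    rw [fderiv_slice1 (p := (x, y)) (df _) (hasDerivAt_wedge a1 b1),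
      fderiv_slice2 (p := (x, y)) (dg _) (hasDerivAt_wedge b2 a2), ← dt_ds_comm h]
    have t1 := trace_wedge (fderiv ℝ Y (Ψ (x, y))) (dt Ψ (x, y)) (ds Ψ (x, y))
    have t2 := wedge_anti ((Y ∘ Ψ) (x, y)) (dt (ds Ψ) (x, y))
    unfold dvg
    linarith
  have hcd : Continuous fun p : ℝ × ℝ => dvg Y (Ψ p) := by
    unfold dvg
    have hf : Continuous fun p => fderiv ℝ Y (Ψ p) :=
      (hY.continuous_fderiv (by simp)).comp h.continuous
    exact (Complex.continuous_re.comp (hf.clm_apply continuous_const)).add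
      (Complex.continuous_im.comp (hf.clm_apply continuous_const))
  have hcont : Continuous fun p : ℝ × ℝ => dvg Y (Ψ p) * wedge (dt Ψ p) (ds Ψ p) :=
    hcd.mul (continuous_wedge (contDiff_dt h).continuous (contDiff_ds h).continuous)
  have key := integral2_divergence_prod_of_hasFDerivAt (fun p => wedge ((Y ∘ Ψ) p) (ds Ψ p))
    (fun p => wedge (dt Ψ p) ((Y ∘ Ψ) p))
    (fun p => fderiv ℝ (fun p => wedge ((Y ∘ Ψ) p) (ds Ψ p)) p)
    (fun p => fderiv ℝ (fun p => wedge (dt Ψ p) ((Y ∘ Ψ) p)) p) r1 a r2 b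
    kf.continuous.continuousOn kg.continuous.continuousOn
    (fun p _ => (df p).hasFDerivAt) (fun p _ => (dg p).hasFDerivAt) (by
      have : (fun p : ℝ × ℝ => fderiv ℝ (fun p => wedge ((Y ∘ Ψ) p) (ds Ψ p)) p (1, 0) +
          fderiv ℝ (fun p => wedge (dt Ψ p) ((Y ∘ Ψ) p)) p (0, 1)) =
          fun p => dvg Y (Ψ p) * wedge (dt Ψ p) (ds Ψ p) := funext e1
      rw [this]
      exact hcont.continuousOn.integrableOn_compact (isCompact_uIcc.prod isCompact_uIcc))
  simp only [e1] at key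
  exact key

section

variable {ε r0 lam : ℝ} {c : ℝ → ℂ}

/-- Integral of a divergence over a parametrised rectangle. -/
lemma div_rect (A : IsArc ε c r0 lam) (j : Fin 3) {Y : ℂ → ℂ} (hY : ContDiff ℝ ∞ Y) {r1 r2 : ℝ}
    (h1 : 0 ≤ r1) (h12 : r1 ≤ r2) :
    ∫ z in Kp r0 c j '' (Ioo r1 r2 ×ˢ Io), dvg Y z =
      (((∫ x in r1..r2, wedge (dt (Kp r0 c j) (x, Real.pi / 6)) (Y (Kp r0 c j (x, Real.pi / 6)))) -
        ∫ x in r1..r2, wedge (dt (Kp r0 c j) (x, -(Real.pi / 6)))
          (Y (Kp r0 c j (x, -(Real.pi / 6))))) +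
        ∫ y in (-(Real.pi / 6))..(Real.pi / 6),
          wedge (Y (Kp r0 c j (r2, y))) (ds (Kp r0 c j) (r2, y))) -
        ∫ y in (-(Real.pi / 6))..(Real.pi / 6),
          wedge (Y (Kp r0 c j (r1, y))) (ds (Kp r0 c j) (r1, y)) := by
  have hb := pi6_facts
  have hS : MeasurableSet (Ioo r1 r2 ×ˢ Io) := measurableSet_Ioo.prod measurableSet_Io
  have hsub := rect_sub (r2 := r2) h1
  have hKs := contDiff_Kp A j
  have hcd : Continuous fun p : ℝ × ℝ => dvg Y (Kp r0 c j p) := by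
    unfold dvg
    have hf : Continuous fun p => fderiv ℝ Y (Kp r0 c j p) :=
      (hY.continuous_fderiv (by simp)).comp hKs.continuous
    exact (Complex.continuous_re.comp (hf.clm_apply continuous_const)).add
      (Complex.continuous_im.comp (hf.clm_apply continuous_const))
  have hcont : Continuous fun p : ℝ × ℝ => dvg Y (Kp r0 c j p) *
      wedge (dt (Kp r0 c j) p) (ds (Kp r0 c j) p) :=
    hcd.mul (continuous_wedge (contDiff_dt hKs).continuous (contDiff_ds hKs).continuous)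
  rw [← div_green hKs hY, int_image hKs hS ((Kp_inj A j).mono hsub)]
  have e1 : ∫ p in Ioo r1 r2 ×ˢ Io, |wedge (dt (Kp r0 c j) p) (ds (Kp r0 c j) p)| *
      dvg Y (Kp r0 c j p) = ∫ p in Ioo r1 r2 ×ˢ Io,
        dvg Y (Kp r0 c j p) * wedge (dt (Kp r0 c j) p) (ds (Kp r0 c j) p) := by
    refine setIntegral_congr_fun hS fun p hp => ?_
    have hp' := hsub hp
    have hpos : 0 < wedge (dt (Kp r0 c j) p) (ds (Kp r0 c j) p) := by
      obtain ⟨r, α⟩ := p
      rw [wedge_Kp A j r (Iv_abs1 hp'.2)]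
      have g1 := A.hN_ge α (Iv_abs hp'.2)
      have g2 : 0 < (wv c α).re := lt_of_lt_of_le (by have := A.eps_pos; positivity) g1
      have g3 := A.r0_pos
      have g4 := mul_pos A.eps_pos (ph_pos (c α))
      have g5 : (0 : ℝ) < r := hp'.1
      positivity
    change |wedge (dt (Kp r0 c j) p) (ds (Kp r0 c j) p)| * dvg Y (Kp r0 c j p) = _
    rw [abs_of_pos hpos, mul_comm]
  rw [e1]
  have hint : IntegrableOn (fun p : ℝ × ℝ => dvg Y (Kp r0 c j p) *
      wedge (dt (Kp r0 c j) p) (ds (Kp r0 c j) p)) (Ioo r1 r2 ×ˢ Io)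
      ((volume : Measure ℝ).prod volume) := by
    have : IntegrableOn (fun p : ℝ × ℝ => dvg Y (Kp r0 c j p) *
      wedge (dt (Kp r0 c j) p) (ds (Kp r0 c j) p)) (Icc r1 r2 ×ˢ Iv) :=
      hcont.continuousOn.integrableOn_compact (isCompact_Icc.prod isCompact_Icc)
    exact this.mono_set (prod_mono Ioo_subset_Icc_self Ioo_subset_Icc_self)
  rw [Measure.volume_eq_prod, setIntegral_prod _ hint, intervalIntegral.integral_of_le h12,
    integral_Ioc_eq_integral_Ioo]
  refine setIntegral_congr_fun measurableSet_Ioo fun x _ => ?_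
  rw [intervalIntegral.integral_of_le (by linarith), integral_Ioc_eq_integral_Ioo]
  rfl

/-- the weighted field -/
noncomputable def wf (X : ℂ → ℂ) (z : ℂ) : ℂ := (ph z : ℂ) * X z

lemma contDiff_wf {X : ℂ → ℂ} (hX : ContDiff ℝ ∞ X) : ContDiff ℝ ∞ (wf X) :=
  (Complex.ofRealCLM.contDiff.comp contDiff_ph).mul hX

lemma fderiv_ph (z v : ℂ) : fderiv ℝ ph z v = -(ph z * dot z v) := by
  have h1 : HasFDerivAt ph (fderiv ℝ ph z) z :=
    (contDiff_ph.differentiable (by simp) z).hasFDerivAt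
  have h2 : HasDerivAt (fun t : ℝ => z + (t : ℂ) * v) v 0 := by
    have h3 : HasDerivAt (fun t : ℝ => (t : ℂ) * v) (1 * v) 0 :=
      (Complex.ofRealCLM.hasDerivAt (x := 0)).mul_const v
    rw [one_mul] at h3
    exact h3.const_add z
  have h4 : HasDerivAt (fun t : ℝ => ph (z + (t : ℂ) * v)) (fderiv ℝ ph z v) 0 := by
    have h5 : HasFDerivAt ph (fderiv ℝ ph z) (z + ((0 : ℝ) : ℂ) * v) := by simpa using h1
    exact h5.comp_hasDerivAt 0 h2
  have h6 := hasDerivAt_ph h2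
  simp only [Complex.ofReal_zero, zero_mul, add_zero] at h6
  exact h4.unique h6

lemma dvg_wf {X : ℂ → ℂ} (hX : ContDiff ℝ ∞ X) (z : ℂ) :
    ((fderiv ℝ X z 1).re + (fderiv ℝ X z Complex.I).im -
      (z.re * (X z).re + z.im * (X z).im)) * gdens z = (2 * Real.pi)⁻¹ * dvg (wf X) z := by
  have h1 : HasFDerivAt ph (fderiv ℝ ph z) z :=
    (contDiff_ph.differentiable (by simp) z).hasFDerivAt
  have h2 : HasFDerivAt X (fderiv ℝ X z) z := (hX.differentiable (by simp) z).hasFDerivAt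
  have h3 : HasFDerivAt (fun z => (ph z : ℂ)) (Complex.ofRealCLM.comp (fderiv ℝ ph z)) z :=
    Complex.ofRealCLM.hasFDerivAt.comp z h1
  have h4 := (h3.mul h2).fderiv
  have h5 : ∀ v, fderiv ℝ (wf X) z v = (ph z : ℂ) * fderiv ℝ X z v +
      ((-(ph z * dot z v) : ℝ) : ℂ) * X z := by
    intro v
    have : fderiv ℝ (wf X) z = _ := h4
    rw [this]
    simp only [_root_.add_apply, _root_.smul_apply, ContinuousLinearMap.comp_apply,
      Complex.ofRealCLM_apply, smul_eq_mul]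
    rw [fderiv_ph]
    ring
  unfold dvg
  rw [h5, h5, gdens_eq, Complex.add_re, Complex.add_im, Complex.re_ofReal_mul,
    Complex.re_ofReal_mul, Complex.im_ofReal_mul, Complex.im_ofReal_mul]
  unfold dot
  simp only [Complex.one_re, Complex.one_im, Complex.I_re, Complex.I_im]
  ring

lemma norm_wf_le {X : ℂ → ℂ} (hX : ∀ x, ‖X x‖ ≤ 1) (z : ℂ) : ‖wf X z‖ ≤ ph z := by
  unfold wf
  rw [norm_mul, Complex.norm_real, Real.norm_eq_abs, abs_of_pos (ph_pos z)]
  have := hX z
  have := ph_pos z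
  nlinarith

lemma integrable_gw : Integrable gw := by
  have h : gw = fun s : ℝ => Real.exp (-(1 / 2) * s ^ 2) := by
    funext s
    unfold gw
    congr 1
    ring
  rw [h]
  exact integrable_exp_neg_mul_sq (by norm_num)

/-- bound of the side terms -/
lemma side_bound (A : IsArc ε c r0 lam) (j : Fin 3) {X : ℂ → ℂ} (hXs : ContDiff ℝ ∞ X)
    (hX : ∀ x, ‖X x‖ ≤ 1) {α : ℝ} (hα : |α| = Real.pi / 6) {r1 r2 : ℝ} (h12 : r1 ≤ r2) :
    |∫ x in r1..r2, wedge (dt (Kp r0 c j) (x, α)) (wf X (Kp r0 c j (x, α)))| ≤ ∫ x, gw x := by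
  have hr0 := A.r0_pos
  have hc : ‖c α‖ = r0 := by
    have h1 : ‖c (Real.pi / 6)‖ = r0 := by
      rw [c_end A, norm_mul, norm_e3, mul_one, Complex.norm_real, Real.norm_eq_abs, abs_of_pos hr0]
    rcases abs_cases α with ⟨h2, _⟩ | ⟨h2, _⟩
    · rw [← hα, h2] at h1; exact h1
    · have h3 : α = -(Real.pi / 6) := by rw [← hα, h2]; ring
      rw [h3, A.conj, Complex.norm_conj]; exact h1
  have hbd : ∀ x, ‖wedge (dt (Kp r0 c j) (x, α)) (wf X (Kp r0 c j (x, α)))‖ ≤ gw x := by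
    intro x
    rw [Real.norm_eq_abs]
    refine (abs_wedge_le _ _).trans ?_
    have h4 : ‖dt (Kp r0 c j) (x, α)‖ = 1 := by
      rw [dt_Kp A, norm_mul, norm_mul, norm_om, hc, Complex.norm_real, Real.norm_eq_abs,
        abs_of_pos (by positivity)]
      field_simp
    have h5 : ph (Kp r0 c j (x, α)) = gw x := by
      unfold ph gw Kp
      rw [norm_mul, norm_mul, norm_om, hc, Complex.norm_real, Real.norm_eq_abs, one_mul]
      congr 2
      rw [mul_pow, sq_abs]
      field_simp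
    rw [h4, one_mul, ← h5]
    exact norm_wf_le hX _
  have h6 := intervalIntegral.norm_integral_le_integral_norm (μ := volume)
    (f := fun x => wedge (dt (Kp r0 c j) (x, α)) (wf X (Kp r0 c j (x, α)))) h12
  rw [Real.norm_eq_abs] at h6
  refine h6.trans ?_
  rw [intervalIntegral.integral_of_le h12]
  calc _ ≤ ∫ x in Ioc r1 r2, gw x := by
        refine integral_mono_of_nonneg (Eventually.of_forall fun x => norm_nonneg _)
          integrable_gw.integrableOn (Eventually.of_forall hbd)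
    _ ≤ ∫ x, gw x := setIntegral_le_integral integrable_gw
        (Eventually.of_forall fun x => (gw_pos x).le)

/-- bound of the arc term -/
lemma arc_bound (A : IsArc ε c r0 lam) (j : Fin 3) {X : ℂ → ℂ}
    (hX : ∀ x, ‖X x‖ ≤ 1) :
    |∫ y in (-(Real.pi / 6))..(Real.pi / 6),
      wedge (wf X (Kp r0 c j (r0, y))) (ds (Kp r0 c j) (r0, y))| ≤ 2 := by
  have hb := pi6_facts
  have hr0 := A.r0_pos
  have h1 : ‖∫ y in (-(Real.pi / 6))..(Real.pi / 6),
      wedge (wf X (Kp r0 c j (r0, y))) (ds (Kp r0 c j) (r0, y))‖ ≤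
      1 * |Real.pi / 6 - -(Real.pi / 6)| := by
    refine intervalIntegral.norm_integral_le_of_norm_le_const fun y hy => ?_
    rw [uIoc_of_le (by linarith)] at hy
    have hy' : y ∈ Iv := ⟨hy.1.le, hy.2⟩
    rw [Real.norm_eq_abs]
    refine (abs_wedge_le _ _).trans ?_
    have h2 : ‖wf X (Kp r0 c j (r0, y))‖ ≤ 1 := (norm_wf_le hX _).trans (ph_le_one _)
    have h3 : ‖ds (Kp r0 c j) (r0, y)‖ ≤ 1 := by
      rw [ds_Kp A j r0 (Iv_abs1 hy'), div_self hr0.ne', norm_mul, norm_mul, norm_om, norm_mul,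
        norm_mul, Complex.norm_I, Complex.norm_exp_ofReal_mul_I, Complex.norm_real,
        Complex.norm_real, Real.norm_eq_abs, Real.norm_eq_abs, abs_one,
        abs_of_pos (mul_pos A.eps_pos (ph_pos _))]
      have h4 := ph_le_one (c y)
      have h5 := A.eps_pos
      have h6 := A.eps_le
      have h7 := (ph_pos (c y)).le
      nlinarith
    have := norm_nonneg (ds (Kp r0 c j) (r0, y))
    nlinarith [norm_nonneg (wf X (Kp r0 c j (r0, y)))]
  rw [Real.norm_eq_abs] at h1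
  refine h1.trans ?_
  rw [abs_of_pos (by linarith)]
  linarith

theorem perimeter_cell (A : IsArc ε c r0 lam) (j : Fin 3) : FinitePerimeter (cell ε r0 c j) := by
  have hb := pi6_facts
  have hr0 := A.r0_pos
  refine ⟨(2 * Real.pi)⁻¹ * (2 * (∫ x, gw x) + 2), fun X hXs hXc hX => ?_⟩
  simp only [dvg_wf hXs]
  rw [integral_const_mul]
  refine mul_le_mul_of_nonneg_left ?_ (by positivity)
  -- radius
  obtain ⟨ρ, hρ⟩ := hXc.isCompact.isBounded.exists_norm_le
  set R := max r0 (3 * ρ + 3) with hR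
  have hRr : r0 ≤ R := le_max_left _ _
  have hout : ∀ z, R ≤ gau ε r0 c z → z ∉ tsupport X := by
    intro z hz hzX
    have h1 := (gau_norm A z).1
    have h2 := hρ z hzX
    have h3 : 3 * ρ + 3 ≤ gau ε r0 c z := (le_max_right _ _).trans hz
    linarith
  have hwz : ∀ z, z ∉ tsupport X → wf X z = 0 ∧ dvg (wf X) z = 0 := by
    intro z hz
    have hx0 : X z = 0 := image_eq_zero_of_notMem_tsupport hz
    refine ⟨by unfold wf; rw [hx0, mul_zero], ?_⟩
    have h1 : fderiv ℝ X z = 0 := fderiv_of_notMem_tsupport ℝ hz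
    have h2 := dvg_wf hXs z
    rw [h1, hx0] at h2
    simp only [_root_.zero_apply, Complex.zero_re, Complex.zero_im, mul_zero,
      add_zero, sub_zero, zero_mul] at h2
    have h3 : (0 : ℝ) < (2 * Real.pi)⁻¹ := by positivity
    exact (mul_eq_zero.mp h2.symm).resolve_left h3.ne'
  have hsub : Kp r0 c j '' (Ioo r0 R ×ˢ Io) ⊆ cell ε r0 c j := by
    rw [cell_eq A j]
    exact image_mono (prod_mono Ioo_subset_Ioi_self subset_rfl)
  have h4 : ∫ z in cell ε r0 c j, dvg (wf X) z =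
      ∫ z in Kp r0 c j '' (Ioo r0 R ×ˢ Io), dvg (wf X) z := by
    refine setIntegral_eq_of_subset_of_forall_sdiff_eq_zero (isOpen_cell A j).measurableSet hsub ?_
    rintro z ⟨hz1, hz2⟩
    refine (hwz z (hout z ?_)).2
    rw [cell_eq A j] at hz1
    obtain ⟨⟨r, α⟩, ⟨h5, h6⟩, rfl⟩ := hz1
    have hr : (0 : ℝ) < r := hr0.trans h5
    rw [gau_Kp A j hr.le ⟨h6.1.le, h6.2.le⟩]
    by_contra h7
    exact hz2 ⟨(r, α), ⟨⟨h5, not_le.mp h7⟩, h6⟩, rfl⟩
  rw [h4, div_rect A j (contDiff_wf hXs) hr0.le hRr]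
  have b1 := abs_le.mp (side_bound A j hXs hX (α := Real.pi / 6) (abs_of_pos hb.1) hRr)
  have b2 := abs_le.mp (side_bound A j hXs hX (α := -(Real.pi / 6))
    (by rw [abs_neg, abs_of_pos hb.1]) hRr)
  have b3 := abs_le.mp (arc_bound A j hX)
  have b4 : ∫ y in (-(Real.pi / 6))..(Real.pi / 6),
      wedge (wf X (Kp r0 c j (R, y))) (ds (Kp r0 c j) (R, y)) = 0 := by
    refine (intervalIntegral.integral_congr (g := fun _ => (0 : ℝ)) fun y hy => ?_).trans
      intervalIntegral.integral_zero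
    rw [uIcc_of_le (by linarith)] at hy
    have h8 : wf X (Kp r0 c j (R, y)) = 0 := by
      refine (hwz _ (hout _ ?_)).1
      rw [gau_Kp A j (hr0.le.trans hRr) hy]
    change wedge (wf X (Kp r0 c j (R, y))) (ds (Kp r0 c j) (R, y)) = 0
    rw [h8]
    unfold wedge
    simp
  rw [b4]
  linarith [b1.2, b2.1, b3.1]

theorem perimeter_tri (A : IsArc ε c r0 lam) : FinitePerimeter (tri ε r0 c) := by
  have hb := pi6_facts
  have hr0 := A.r0_pos
  refine ⟨(2 * Real.pi)⁻¹ * (3 * (2 * (∫ x, gw x) + 2)), fun X hXs hXc hX => ?_⟩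
  simp only [dvg_wf hXs]
  rw [integral_const_mul]
  refine mul_le_mul_of_nonneg_left ?_ (by positivity)
  set N : Set ℂ := tri ε r0 c \ ⋃ j, Sec j with hN
  have hNnull : volume N = 0 := by
    refine measure_mono_null (t := ⋃ j, ray j '' (univ : Set ℝ)) ?_
      (measure_iUnion_null fun j => null_ray j)
    intro z hz
    obtain ⟨j, hj⟩ := not_Sec_ray A (z := z) (fun j hj => hz.2 (mem_iUnion.mpr ⟨j, hj⟩))
    exact mem_iUnion.mpr ⟨j, hj⟩
  have hdec : tri ε r0 c = (⋃ j, (tri ε r0 c ∩ Sec j)) ∪ N := by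
    rw [← inter_iUnion, inter_union_sdiff]
  have hbdd : Bornology.IsBounded (tri ε r0 c) := by
    rw [isBounded_iff_forall_norm_le]
    refine ⟨r0 * (2 * ε / r0), fun z hz => ?_⟩
    have h1 := (gau_norm A z).2
    have h2 : gau ε r0 c z < r0 := hz
    have h3 : 0 ≤ 2 * ε / r0 := by have := A.eps_pos; positivity
    nlinarith
  have hcd : Continuous (dvg (wf X)) := by
    unfold dvg
    have hf : Continuous (fderiv ℝ (wf X)) := (contDiff_wf hXs).continuous_fderiv (by simp)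
    exact (Complex.continuous_re.comp (hf.clm_apply continuous_const)).add
      (Complex.continuous_im.comp (hf.clm_apply continuous_const))
  have hint : IntegrableOn (dvg (wf X)) (tri ε r0 c) :=
    (hcd.continuousOn.integrableOn_compact hbdd.isCompact_closure).mono_set subset_closure
  have h2 : ∫ z in tri ε r0 c, dvg (wf X) z = ∫ z in ⋃ j, (tri ε r0 c ∩ Sec j), dvg (wf X) z := by
    nth_rw 1 [hdec]
    refine setIntegral_congr_set ?_
    exact union_ae_eq_left_of_ae_eq_empty (ae_eq_empty.mpr hNnull)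
  have h3 : ∫ z in ⋃ j, (tri ε r0 c ∩ Sec j), dvg (wf X) z =
      ∑ j, ∫ z in tri ε r0 c ∩ Sec j, dvg (wf X) z := by
    refine integral_iUnion_fintype (fun j => ?_) ?_ fun j => hint.mono_set inter_subset_left
    · exact ((isOpen_tri A).inter (isOpen_Sec j)).measurableSet
    · intro j k hjk
      change Disjoint _ _
      rw [Set.disjoint_left]
      rintro z ⟨_, h4⟩ ⟨_, h5⟩
      exact Sec_disj hjk h4 (Sec_subset k h5)
  rw [h2, h3]
  have h4 : ∀ j : Fin 3, ∫ z in tri ε r0 c ∩ Sec j, dvg (wf X) z ≤ 2 * (∫ x, gw x) + 2 := by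
    intro j
    rw [tri_inter A j, div_rect A j (contDiff_wf hXs) le_rfl hr0.le]
    have b1 := abs_le.mp (side_bound A j hXs hX (α := Real.pi / 6) (abs_of_pos hb.1) hr0.le)
    have b2 := abs_le.mp (side_bound A j hXs hX (α := -(Real.pi / 6))
      (by rw [abs_neg, abs_of_pos hb.1]) hr0.le)
    have b3 := abs_le.mp (arc_bound A j hX)
    have b4 : ∫ y in (-(Real.pi / 6))..(Real.pi / 6),
        wedge (wf X (Kp r0 c j (0, y))) (ds (Kp r0 c j) (0, y)) = 0 := by
      refine (intervalIntegral.integral_congr (g := fun _ => (0 : ℝ)) fun y hy => ?_).trans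
        intervalIntegral.integral_zero
      rw [uIcc_of_le (by linarith)] at hy
      have h8 : ds (Kp r0 c j) (0, y) = 0 := by
        rw [ds_Kp A j 0 (Iv_abs1 hy)]
        simp
      change wedge (wf X (Kp r0 c j (0, y))) (ds (Kp r0 c j) (0, y)) = 0
      rw [h8]
      unfold wedge
      simp
    rw [b4]
    linarith [b1.2, b2.1, b3.2]
  calc ∑ j, ∫ z in tri ε r0 c ∩ Sec j, dvg (wf X) z ≤ ∑ _j : Fin 3, (2 * (∫ x, gw x) + 2) :=
        Finset.sum_le_sum fun j _ => h4 j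
    _ = 3 * (2 * (∫ x, gw x) + 2) := by
        rw [Finset.sum_const, Finset.card_univ, Fintype.card_fin]
        simp
        ring

end

end Pool.Agent.MP_845d3b_gt
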