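import Pool.Agent.MP_845d3b_gt.EIneq

open Set Filter Topology MeasureTheory

namespace Pool.Agent.MP_845d3b_gt

noncomputable def arcQ (q v v' : ℝ → ℝ) : ℝ :=
  ∫ x in (0 : ℝ)..(Real.pi / 6), (v' x ^ 2 - (1 + q x ^ 2) * v x ^ 2)

noncomputable def rayQ (r0 R : ℝ) (h h' : ℝ → ℝ) : ℝ :=
  ∫ x in r0..R, (gw x * h' x ^ 2 - gw x * h x ^ 2)

lemma int_sum3 {a b : ℝ} {F0 F1 F2 G G0 G1 G2 : ℝ → ℝ}
    (h0 : IntervalIntegrable F0 volume a b) (h1 : IntervalIntegrable F1 volume a b)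
    (h2 : IntervalIntegrable F2 volume a b) (g : IntervalIntegrable G volume a b)
    (g0 : IntervalIntegrable G0 volume a b) (g1 : IntervalIntegrable G1 volume a b)
    (g2 : IntervalIntegrable G2 volume a b)
    (hid : ∀ x, F0 x + F1 x + F2 x = 3 * G x + (G0 x + G1 x + G2 x)) :
    (∫ x in a..b, F0 x) + (∫ x in a..b, F1 x) + (∫ x in a..b, F2 x) =
      3 * (∫ x in a..b, G x) +
        ((∫ x in a..b, G0 x) + (∫ x in a..b, G1 x) + ∫ x in a..b, G2 x) := by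
  rw [← intervalIntegral.integral_add h0 h1, ← intervalIntegral.integral_add (h0.add h1) h2,
    ← intervalIntegral.integral_const_mul, ← intervalIntegral.integral_add g0 g1,
    ← intervalIntegral.integral_add (g0.add g1) g2,
    ← intervalIntegral.integral_add (g.const_mul 3) ((g0.add g1).add g2)]
  exact intervalIntegral.integral_congr fun x _ => hid x

lemma arcQ_split {q : ℝ → ℝ} (hq : ContinuousOn q (Icc 0 (Real.pi / 6)))
    {v0 v0' v1 v1' v2 v2' : ℝ → ℝ} (c0 : Continuous v0) (c0' : Continuous v0')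
    (c1 : Continuous v1) (c1' : Continuous v1') (c2 : Continuous v2) (c2' : Continuous v2') :
    arcQ q v0 v0' + arcQ q v1 v1' + arcQ q v2 v2' =
      3 * arcQ q (fun x => (v0 x + v1 x + v2 x) / 3) (fun x => (v0' x + v1' x + v2' x) / 3) +
      (arcQ q (fun x => v0 x - (v0 x + v1 x + v2 x) / 3)
          (fun x => v0' x - (v0' x + v1' x + v2' x) / 3) +
        arcQ q (fun x => v1 x - (v0 x + v1 x + v2 x) / 3)
          (fun x => v1' x - (v0' x + v1' x + v2' x) / 3) +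
        arcQ q (fun x => v2 x - (v0 x + v1 x + v2 x) / 3)
          (fun x => v2' x - (v0' x + v1' x + v2' x) / 3)) := by
  have hb := pi6_facts.1.le
  have key : ∀ {v v' : ℝ → ℝ}, Continuous v → Continuous v' →
      IntervalIntegrable (fun x => v' x ^ 2 - (1 + q x ^ 2) * v x ^ 2) volume 0 (Real.pi / 6) := by
    intro v v' hv hv'
    refine ContinuousOn.intervalIntegrable_of_Icc hb ?_
    exact ((hv'.pow 2).continuousOn).sub
      ((continuousOn_const.add (hq.pow 2)).mul (hv.pow 2).continuousOn)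
  unfold arcQ
  refine int_sum3 (key c0 c0') (key c1 c1') (key c2 c2')
    (key (v := fun x => (v0 x + v1 x + v2 x) / 3) (by fun_prop) (by fun_prop))
    (key (v := fun x => v0 x - (v0 x + v1 x + v2 x) / 3) (by fun_prop) (by fun_prop))
    (key (v := fun x => v1 x - (v0 x + v1 x + v2 x) / 3) (by fun_prop) (by fun_prop))
    (key (v := fun x => v2 x - (v0 x + v1 x + v2 x) / 3) (by fun_prop) (by fun_prop))
    fun x => ?_
  ring

lemma rayQ_split {r0 R : ℝ}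
    {v0 v0' v1 v1' v2 v2' : ℝ → ℝ} (c0 : Continuous v0) (c0' : Continuous v0')
    (c1 : Continuous v1) (c1' : Continuous v1') (c2 : Continuous v2) (c2' : Continuous v2') :
    rayQ r0 R v0 v0' + rayQ r0 R v1 v1' + rayQ r0 R v2 v2' =
      3 * rayQ r0 R (fun x => (v0 x + v1 x + v2 x) / 3) (fun x => (v0' x + v1' x + v2' x) / 3) +
      (rayQ r0 R (fun x => v0 x - (v0 x + v1 x + v2 x) / 3)
          (fun x => v0' x - (v0' x + v1' x + v2' x) / 3) +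
        rayQ r0 R (fun x => v1 x - (v0 x + v1 x + v2 x) / 3)
          (fun x => v1' x - (v0' x + v1' x + v2' x) / 3) +
        rayQ r0 R (fun x => v2 x - (v0 x + v1 x + v2 x) / 3)
          (fun x => v2' x - (v0' x + v1' x + v2' x) / 3)) := by
  have hg := continuous_gw
  have key : ∀ {v v' : ℝ → ℝ}, Continuous v → Continuous v' →
      IntervalIntegrable (fun x => gw x * v' x ^ 2 - gw x * v x ^ 2) volume r0 R := by
    intro v v' hv hv'
    exact Continuous.intervalIntegrable (by fun_prop) _ _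
  unfold rayQ
  refine int_sum3 (key c0 c0') (key c1 c1') (key c2 c2')
    (key (v := fun x => (v0 x + v1 x + v2 x) / 3) (by fun_prop) (by fun_prop))
    (key (v := fun x => v0 x - (v0 x + v1 x + v2 x) / 3) (by fun_prop) (by fun_prop))
    (key (v := fun x => v1 x - (v0 x + v1 x + v2 x) / 3) (by fun_prop) (by fun_prop))
    (key (v := fun x => v2 x - (v0 x + v1 x + v2 x) / 3) (by fun_prop) (by fun_prop))
    fun x => ?_
  ring

/-- Even and odd parts. -/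
noncomputable def ev (f : ℝ → ℝ) (x : ℝ) : ℝ := (f x + f (-x)) / 2
noncomputable def od (f : ℝ → ℝ) (x : ℝ) : ℝ := (f x - f (-x)) / 2

lemma ev_cont {f : ℝ → ℝ} (hf : Continuous f) : Continuous (ev f) := by
  unfold ev; fun_prop
lemma od_cont {f : ℝ → ℝ} (hf : Continuous f) : Continuous (od f) := by
  unfold od; fun_prop

lemma ev_der {f f' : ℝ → ℝ} (hf : ∀ x, HasDerivAt f (f' x) x) (x : ℝ) :
    HasDerivAt (ev f) (od f' x) x := by
  unfold ev od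
  have h2 : HasDerivAt (fun x => f (-x)) (-(f' (-x))) x := by
    have := (hf (-x)).scomp x (hasDerivAt_neg x)
    refine this.congr_deriv ?_
    simp
  refine (((hf x).add h2).div_const 2).congr_deriv ?_
  ring

lemma od_der {f f' : ℝ → ℝ} (hf : ∀ x, HasDerivAt f (f' x) x) (x : ℝ) :
    HasDerivAt (od f) (ev f' x) x := by
  unfold ev od
  have h2 : HasDerivAt (fun x => f (-x)) (-(f' (-x))) x := by
    have := (hf (-x)).scomp x (hasDerivAt_neg x)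
    refine this.congr_deriv ?_
    simp
  refine (((hf x).sub h2).div_const 2).congr_deriv ?_
  ring

lemma int_fold {b : ℝ} {F : ℝ → ℝ} (hF : ContinuousOn F (Icc (-b) b)) (hb : 0 ≤ b) :
    ∫ x in (-b)..b, F x = ∫ x in (0 : ℝ)..b, (F x + F (-x)) := by
  have h1 : ContinuousOn F (Icc 0 b) := hF.mono (Icc_subset_Icc_left (by linarith))
  have h2 : ContinuousOn F (Icc (-b) 0) := hF.mono (Icc_subset_Icc_right hb)
  have h3 : ContinuousOn (fun x => F (-x)) (Icc 0 b) := by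
    refine h2.comp continuous_neg.continuousOn fun x hx => ?_
    exact ⟨by linarith [hx.2], by linarith [hx.1]⟩
  rw [intervalIntegral.integral_add (h1.intervalIntegrable_of_Icc hb)
    (h3.intervalIntegrable_of_Icc hb), intervalIntegral.integral_comp_neg (fun x => F x), neg_zero,
    ← intervalIntegral.integral_add_adjacent_intervals (b := 0)
    (h2.intervalIntegrable_of_Icc (by linarith)) (h1.intervalIntegrable_of_Icc hb)]
  ring

lemma full_split {q f f' : ℝ → ℝ} (hq : ContinuousOn q (Icc (-(Real.pi / 6)) (Real.pi / 6)))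
    (hqe : ∀ x, q (-x) = q x) (hf : Continuous f) (hf' : Continuous f') :
    ∫ x in (-(Real.pi / 6))..(Real.pi / 6), (f' x ^ 2 - (1 + q x ^ 2) * f x ^ 2) =
      2 * arcQ q (ev f) (od f') + 2 * arcQ q (od f) (ev f') := by
  have hb := pi6_facts.1.le
  have hc : ContinuousOn (fun x => f' x ^ 2 - (1 + q x ^ 2) * f x ^ 2)
      (Icc (-(Real.pi / 6)) (Real.pi / 6)) :=
    ((hf'.pow 2).continuousOn).sub ((continuousOn_const.add (hq.pow 2)).mul (hf.pow 2).continuousOn)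
  have hq0 : ContinuousOn q (Icc 0 (Real.pi / 6)) := hq.mono (Icc_subset_Icc_left (by linarith))
  have key : ∀ {v v' : ℝ → ℝ}, Continuous v → Continuous v' →
      IntervalIntegrable (fun x => v' x ^ 2 - (1 + q x ^ 2) * v x ^ 2) volume 0 (Real.pi / 6) := by
    intro v v' hv hv'
    refine ContinuousOn.intervalIntegrable_of_Icc hb ?_
    exact ((hv'.pow 2).continuousOn).sub
      ((continuousOn_const.add (hq0.pow 2)).mul (hv.pow 2).continuousOn)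
  rw [int_fold hc hb]
  unfold arcQ
  rw [← intervalIntegral.integral_const_mul, ← intervalIntegral.integral_const_mul,
    ← intervalIntegral.integral_add ((key (ev_cont hf) (od_cont hf')).const_mul 2)
      ((key (od_cont hf) (ev_cont hf')).const_mul 2)]
  refine intervalIntegral.integral_congr fun x _ => ?_
  simp only [hqe, ev, od]
  ring

lemma mass_split {q f : ℝ → ℝ} {ε : ℝ}
    (hq : ContinuousOn q (Icc (-(Real.pi / 6)) (Real.pi / 6)))
    (hqe : ∀ x, q (-x) = q x) (hf : Continuous f) :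
    ∫ x in (-(Real.pi / 6))..(Real.pi / 6), q x ^ 2 / ε * f x =
      2 * ∫ x in (0 : ℝ)..(Real.pi / 6), q x ^ 2 / ε * ev f x := by
  have hb := pi6_facts.1.le
  have hc : ContinuousOn (fun x => q x ^ 2 / ε * f x) (Icc (-(Real.pi / 6)) (Real.pi / 6)) :=
    ((hq.pow 2).div_const ε).mul hf.continuousOn
  rw [int_fold hc hb, ← intervalIntegral.integral_const_mul]
  refine intervalIntegral.integral_congr fun x _ => ?_
  simp only [hqe, ev]
  ring

/-- Hypotheses on the arc functions. -/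
structure ArcFun (ε r0 : ℝ) (q u n : ℝ → ℝ) : Prop where
  eps_pos : 0 < ε
  eps_le : ε ≤ 1 / 1000
  r0_pos : 0 < r0
  r0_le : r0 ≤ ε
  dq : ∀ x, |x| ≤ 1 → HasDerivAt q (-(q x ^ 2 * u x)) x
  du : ∀ x, |x| ≤ 1 → HasDerivAt u (q x - n x) x
  dn : ∀ x, |x| ≤ 1 → HasDerivAt n (u x) x
  q_pos : ∀ x, 0 < q x
  q_le : ∀ x, q x ≤ ε
  q_even : ∀ x, q (-x) = q x
  u0 : u 0 = 0
  pos : ∀ x ∈ Icc 0 (Real.pi / 6), 0 < q x - n x
  ub : u (Real.pi / 6) = r0 / 2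
  nb : n (Real.pi / 6) = √3 / 2 * r0
  qb : q (Real.pi / 6) = ε * gw r0

lemma ArcFun.qcont {ε r0 : ℝ} {q u n : ℝ → ℝ} (A : ArcFun ε r0 q u n) :
    ContinuousOn q (Icc (-(Real.pi / 6)) (Real.pi / 6)) := fun x hx =>
  (A.dq x (by rw [abs_le]; have := pi6_facts; constructor <;> linarith [hx.1, hx.2])
    ).continuousAt.continuousWithinAt

/-- Rotation invariant sector. -/
lemma sector_A {ε r0 R : ℝ} {q u n : ℝ → ℝ} (A : ArcFun ε r0 q u n) (hR : 1 ≤ R)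
    {e e' o o' h h' : ℝ → ℝ} (he : ∀ x, HasDerivAt e (e' x) x) (hce : Continuous e')
    (ho : ∀ x, HasDerivAt o (o' x) x) (hco : Continuous o') (ho0 : o 0 = 0)
    (hh : ∀ x, HasDerivAt h (h' x) x) (hch : Continuous h') (hR0 : h R = 0)
    (hv : h r0 = 2 * o (Real.pi / 6))
    (hmean : ∫ x in (0 : ℝ)..(Real.pi / 6), q x ^ 2 / ε * e x = 0) :
    0 ≤ 2 / ε * (arcQ q e e' + arcQ q o o') + 1 / (√3 * ε) *
      ((e (Real.pi / 6) + o (Real.pi / 6)) ^ 2 + (e (Real.pi / 6) - o (Real.pi / 6)) ^ 2 -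
        4 * (e (Real.pi / 6) + o (Real.pi / 6)) * (e (Real.pi / 6) - o (Real.pi / 6))) +
      rayQ r0 R h h' := by
  obtain ⟨hb0, hb1, hb2⟩ := pi6_facts
  obtain ⟨s1, s2, s3⟩ := sqrt3_facts
  have hε := A.eps_pos
  have hε1 := A.eps_le
  have hr0 := A.r0_pos
  have hr1 := A.r0_le
  have hq0 : ContinuousOn q (Icc 0 (Real.pi / 6)) :=
    A.qcont.mono (Icc_subset_Icc_left (by linarith))
  have hwc : ContinuousOn (fun x => q x ^ 2 / ε) (Icc 0 (Real.pi / 6)) :=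
    (hq0.pow 2).div_const ε
  have h1 := even_mean hb0 hb1.le hε (by linarith) hq0
    (fun x _ => pow_le_pow_left₀ (A.q_pos x).le (A.q_le x) 2)
    hwc (fun x _ => by have := A.q_pos x; positivity) he hce hmean
  have h2 := odd_rot hb0 hb2 A.dq A.du A.dn A.u0 A.pos ho hco ho0
  have h3 := ray_rot hr0 (by linarith) hh hch hR0 (R := R)
  rw [A.ub, A.nb, A.qb] at h2
  rw [hv] at h3
  change _ ≤ arcQ q e e' at h1
  change _ ≤ arcQ q o o' at h2
  change _ ≤ rayQ r0 R h h' at h3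
  set E := e (Real.pi / 6)
  set O := o (Real.pi / 6)
  have hs : 0 < √3 := by linarith
  have hinv : 1 / (√3 * ε) = 1 / √3 * (1 / ε) := by field_simp
  have k1 : 2 / ε * (1 / √3 * E ^ 2 + (ε * gw r0 - √3 / 2 * r0) / (r0 / 2) * O ^ 2) ≤
      2 / ε * (arcQ q e e' + arcQ q o o') :=
    mul_le_mul_of_nonneg_left (add_le_add h1 h2) (by positivity)
  have k2 : 2 / ε * (1 / √3 * E ^ 2 + (ε * gw r0 - √3 / 2 * r0) / (r0 / 2) * O ^ 2) +
      1 / (√3 * ε) * ((E + O) ^ 2 + (E - O) ^ 2 - 4 * (E + O) * (E - O)) +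
      -(gw r0 / r0 * (2 * O) ^ 2) = 0 := by
    have hs3 : √3 ^ 2 = 3 := by rw [sq]; exact s3
    field_simp
    ring_nf
    rw [hs3]
    ring
  linarith

/-- Two dimensional sector. -/
lemma sector_E {ε r0 R : ℝ} {q u n : ℝ → ℝ} (A : ArcFun ε r0 q u n) (hR : 1 ≤ R)
    {e0 e0' e1 e1' e2 e2' o0 o0' o1 o1' o2 o2' h0 h0' h1 h1' h2 h2' : ℝ → ℝ}
    (de0 : ∀ x, HasDerivAt e0 (e0' x) x) (ce0 : Continuous e0')
    (de1 : ∀ x, HasDerivAt e1 (e1' x) x) (ce1 : Continuous e1')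
    (de2 : ∀ x, HasDerivAt e2 (e2' x) x) (ce2 : Continuous e2')
    (do0 : ∀ x, HasDerivAt o0 (o0' x) x) (co0 : Continuous o0') (z0 : o0 0 = 0)
    (do1 : ∀ x, HasDerivAt o1 (o1' x) x) (co1 : Continuous o1') (z1 : o1 0 = 0)
    (do2 : ∀ x, HasDerivAt o2 (o2' x) x) (co2 : Continuous o2') (z2 : o2 0 = 0)
    (dh0 : ∀ x, HasDerivAt h0 (h0' x) x) (ch0 : Continuous h0')
    (dh1 : ∀ x, HasDerivAt h1 (h1' x) x) (ch1 : Continuous h1')
    (dh2 : ∀ x, HasDerivAt h2 (h2' x) x) (ch2 : Continuous h2')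
    (hE : e0 (Real.pi / 6) + e1 (Real.pi / 6) + e2 (Real.pi / 6) = 0)
    (hO : o0 (Real.pi / 6) + o1 (Real.pi / 6) + o2 (Real.pi / 6) = 0)
    (v0 : h0 r0 = (e0 (Real.pi / 6) + o0 (Real.pi / 6)) - (e1 (Real.pi / 6) - o1 (Real.pi / 6)))
    (v1 : h1 r0 = (e1 (Real.pi / 6) + o1 (Real.pi / 6)) - (e2 (Real.pi / 6) - o2 (Real.pi / 6)))
    (v2 : h2 r0 = (e2 (Real.pi / 6) + o2 (Real.pi / 6)) - (e0 (Real.pi / 6) - o0 (Real.pi / 6)))
    {H0 H1 H2 : ℝ} (hH0 : ∫ x in r0..R, gw x * h0 x = H0) (hH1 : ∫ x in r0..R, gw x * h1 x = H1)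
    (hH2 : ∫ x in r0..R, gw x * h2 x = H2) (hHs : H0 + H1 + H2 = 0)
    (m0 : 2 * (∫ x in (0 : ℝ)..(Real.pi / 6), q x ^ 2 / ε * e0 x) = H2 - H0)
    (m1 : 2 * (∫ x in (0 : ℝ)..(Real.pi / 6), q x ^ 2 / ε * e1 x) = H0 - H1)
    (m2 : 2 * (∫ x in (0 : ℝ)..(Real.pi / 6), q x ^ 2 / ε * e2 x) = H1 - H2) :
    0 ≤ 2 / ε * ((arcQ q e0 e0' + arcQ q e1 e1' + arcQ q e2 e2') +
        (arcQ q o0 o0' + arcQ q o1 o1' + arcQ q o2 o2')) +
      1 / (√3 * ε) *
        (((e0 (Real.pi / 6) + o0 (Real.pi / 6)) ^ 2 + (e1 (Real.pi / 6) - o1 (Real.pi / 6)) ^ 2 -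
        4 * (e0 (Real.pi / 6) + o0 (Real.pi / 6)) * (e1 (Real.pi / 6) - o1 (Real.pi / 6))) +
        ((e1 (Real.pi / 6) + o1 (Real.pi / 6)) ^ 2 + (e2 (Real.pi / 6) - o2 (Real.pi / 6)) ^ 2 -
        4 * (e1 (Real.pi / 6) + o1 (Real.pi / 6)) * (e2 (Real.pi / 6) - o2 (Real.pi / 6))) +
        ((e2 (Real.pi / 6) + o2 (Real.pi / 6)) ^ 2 + (e0 (Real.pi / 6) - o0 (Real.pi / 6)) ^ 2 -
        4 * (e2 (Real.pi / 6) + o2 (Real.pi / 6)) * (e0 (Real.pi / 6) - o0 (Real.pi / 6)))) +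
      (rayQ r0 R h0 h0' + rayQ r0 R h1 h1' + rayQ r0 R h2 h2') := by
  obtain ⟨hb0, hb1, hb2⟩ := pi6_facts
  have hε := A.eps_pos
  have hε1 := A.eps_le
  have hr0 := A.r0_pos
  have hr1 := A.r0_le
  have hq0 : ContinuousOn q (Icc 0 (Real.pi / 6)) :=
    A.qcont.mono (Icc_subset_Icc_left (by linarith))
  have hq2 : ∀ x ∈ Icc 0 (Real.pi / 6), q x ^ 2 ≤ ε ^ 2 :=
    fun x _ => pow_le_pow_left₀ (A.q_pos x).le (A.q_le x) 2
  have ec : ∀ {e e' : ℝ → ℝ}, (∀ x, HasDerivAt e (e' x) x) → Continuous e := fun h =>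
    continuous_iff_continuousAt.mpr fun x => (h x).continuousAt
  have a0 := even_E hε (by linarith) hq0 hq2 de0 ce0
  have a1 := even_E hε (by linarith) hq0 hq2 de1 ce1
  have a2 := even_E hε (by linarith) hq0 hq2 de2 ce2
  have b0 := odd_E hε (by linarith) hq0 hq2 do0 co0 z0
  have b1 := odd_E hε (by linarith) hq0 hq2 do1 co1 z1
  have b2 := odd_E hε (by linarith) hq0 hq2 do2 co2 z2
  have c0 := ray_bound hr0 (by linarith) hR dh0 ch0 hH0
  have c1 := ray_bound hr0 (by linarith) hR dh1 ch1 hH1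
  have c2 := ray_bound hr0 (by linarith) hR dh2 ch2 hH2
  have hw0 : ∀ x ∈ Icc 0 (Real.pi / 6), 0 ≤ q x ^ 2 / ε := fun x _ => by positivity
  have hw1 : ∀ x ∈ Icc 0 (Real.pi / 6), q x ^ 2 / ε ≤ ε := fun x hx => by
    rw [div_le_iff₀ hε]; have := hq2 x hx; linarith [sq ε]
  have hwc : ContinuousOn (fun x => q x ^ 2 / ε) (Icc 0 (Real.pi / 6)) :=
    (hq0.pow 2).div_const ε
  have d0 := mean_bound hb0 hb1.le hε hwc hw0 hw1 (ec de0)
  have d1 := mean_bound hb0 hb1.le hε hwc hw0 hw1 (ec de1)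
  have d2 := mean_bound hb0 hb1.le hε hwc hw0 hw1 (ec de2)
  rw [m0] at d0
  rw [m1] at d1
  rw [m2] at d2
  change _ ≤ arcQ q _ _ at a0 a1 a2 b0 b1 b2
  change _ ≤ rayQ r0 R _ _ at c0 c1 c2
  have halg := alg_E hε hε1 (e0 (Real.pi / 6)) (e1 (Real.pi / 6)) (e2 (Real.pi / 6))
    (o0 (Real.pi / 6)) (o1 (Real.pi / 6)) (o2 (Real.pi / 6)) hE hO
  rw [v0] at c0
  rw [v1] at c1
  rw [v2] at c2
  set I0 := ∫ x in (0 : ℝ)..(Real.pi / 6), e0 x ^ 2 with hI0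
  set I1 := ∫ x in (0 : ℝ)..(Real.pi / 6), e1 x ^ 2 with hI1
  set I2 := ∫ x in (0 : ℝ)..(Real.pi / 6), e2 x ^ 2 with hI2
  have hI0' : 0 ≤ I0 := intervalIntegral.integral_nonneg hb0.le fun x _ => sq_nonneg _
  have hI1' : 0 ≤ I1 := intervalIntegral.integral_nonneg hb0.le fun x _ => sq_nonneg _
  have hI2' : 0 ≤ I2 := intervalIntegral.integral_nonneg hb0.le fun x _ => sq_nonneg _
  have hHH : 3 * (H0 ^ 2 + H1 ^ 2 + H2 ^ 2) = (H2 - H0) ^ 2 + (H0 - H1) ^ 2 + (H1 - H2) ^ 2 := by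
    have : H2 = -H0 - H1 := by linarith
    rw [this]; ring
  have k1 : 2 / ε * (((-((√3 / 3 + 2 * ε ^ 2) * e0 (Real.pi / 6) ^ 2) + ε ^ 2 * I0) +
      (-((√3 / 3 + 2 * ε ^ 2) * e1 (Real.pi / 6) ^ 2) + ε ^ 2 * I1) +
      (-((√3 / 3 + 2 * ε ^ 2) * e2 (Real.pi / 6) ^ 2) + ε ^ 2 * I2)) +
      ((√3 - 8 * ε ^ 2) * o0 (Real.pi / 6) ^ 2 + (√3 - 8 * ε ^ 2) * o1 (Real.pi / 6) ^ 2 +
      (√3 - 8 * ε ^ 2) * o2 (Real.pi / 6) ^ 2)) ≤
      2 / ε * ((arcQ q e0 e0' + arcQ q e1 e1' + arcQ q e2 e2') +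
        (arcQ q o0 o0' + arcQ q o1 o1' + arcQ q o2 o2')) := by
    apply mul_le_mul_of_nonneg_left _ (by positivity)
    linarith
  have k2 : 2 / ε * (((-((√3 / 3 + 2 * ε ^ 2) * e0 (Real.pi / 6) ^ 2) + ε ^ 2 * I0) +
      (-((√3 / 3 + 2 * ε ^ 2) * e1 (Real.pi / 6) ^ 2) + ε ^ 2 * I1) +
      (-((√3 / 3 + 2 * ε ^ 2) * e2 (Real.pi / 6) ^ 2) + ε ^ 2 * I2)) +
      ((√3 - 8 * ε ^ 2) * o0 (Real.pi / 6) ^ 2 + (√3 - 8 * ε ^ 2) * o1 (Real.pi / 6) ^ 2 +
      (√3 - 8 * ε ^ 2) * o2 (Real.pi / 6) ^ 2)) =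
      2 / ε * ((-((√3 / 3 + 2 * ε ^ 2) * e0 (Real.pi / 6) ^ 2) +
          (√3 - 8 * ε ^ 2) * o0 (Real.pi / 6) ^ 2) +
        (-((√3 / 3 + 2 * ε ^ 2) * e1 (Real.pi / 6) ^ 2) +
          (√3 - 8 * ε ^ 2) * o1 (Real.pi / 6) ^ 2) +
        (-((√3 / 3 + 2 * ε ^ 2) * e2 (Real.pi / 6) ^ 2) +
          (√3 - 8 * ε ^ 2) * o2 (Real.pi / 6) ^ 2)) + 2 * ε * (I0 + I1 + I2) := by
    field_simp
    ring
  have k3 : 5 / 2 * (H0 ^ 2 + H1 ^ 2 + H2 ^ 2) ≤ 2 * ε * (I0 + I1 + I2) := by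
    have k4 : 3 * (H0 ^ 2 + H1 ^ 2 + H2 ^ 2) ≤ 12 / 5 * ε ^ 2 * (I0 + I1 + I2) := by
      rw [hHH]; linarith
    have k5 : ε ^ 2 * (I0 + I1 + I2) ≤ ε * (I0 + I1 + I2) := by
      apply mul_le_mul_of_nonneg_right _ (by positivity)
      nlinarith
    linarith
  linarith

end Pool.Agent.MP_845d3b_gt
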