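import Pool.Agent.MP_845d3b_gt.ArcVar

open Set Filter Topology MeasureTheory
open scoped ContDiff

namespace Pool.Agent.MP_845d3b_gt

/-- frame components along a ray with unit direction `e` -/
noncomputable def rcp (Y : ℝ × ℝ → ℂ) (e : ℂ) (s : ℝ) : ℂ :=
  Y (0, s) * (Complex.I * (starRingEnd ℂ) e)

noncomputable def rcp' (Y : ℝ × ℝ → ℂ) (e : ℂ) (s : ℝ) : ℂ :=
  ds Y (0, s) * (Complex.I * (starRingEnd ℂ) e)

lemma hasDerivAt_rcp {Y : ℝ × ℝ → ℂ} (h : ContDiff ℝ ∞ Y) (e : ℂ) (s : ℝ) :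
    HasDerivAt (rcp Y e) (rcp' Y e s) s := (hasDerivAt_ds h 0 s).mul_const _

lemma continuous_rcp {Y : ℝ × ℝ → ℂ} (h : Continuous Y) (e : ℂ) : Continuous (rcp Y e) :=
  (h.comp (by fun_prop)).mul continuous_const

lemma continuous_rcp' {Y : ℝ × ℝ → ℂ} (h : ContDiff ℝ ∞ Y) (e : ℂ) : Continuous (rcp' Y e) :=
  ((contDiff_ds h).continuous.comp (by fun_prop)).mul continuous_const

/-- Everything at time zero, along a ray, in the frame. -/
structure RayAt (e : ℂ) (Φ : ℝ × ℝ → ℂ) (s : ℝ) : Prop where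
  pos : Φ (0, s) = (-Complex.I * e) * (Complex.I * s)
  vel : ds Φ (0, s) = (-Complex.I * e) * Complex.I
  nvel : ‖ds Φ (0, s)‖ = 1
  phv : ph (Φ (0, s)) = gw s
  xi : dt Φ (0, s) = (-Complex.I * e) * rcp (dt Φ) e s
  eta : dt (ds Φ) (0, s) = (-Complex.I * e) * rcp' (dt Φ) e s
  zeta : dt (dt Φ) (0, s) = (-Complex.I * e) * rcp (dt (dt Φ)) e s
  theta : dt (dt (ds Φ)) (0, s) = (-Complex.I * e) * rcp' (dt (dt Φ)) e s

lemma rayAt {e : ℂ} (he : ‖e‖ = 1) {Φ : ℝ × ℝ → ℂ} (h : ContDiff ℝ ∞ Φ)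
    (h0 : ∀ s : ℝ, Φ (0, s) = s * e) (s : ℝ) : RayAt e Φ s := by
  have hee := mul_conj_one he
  have hI := Complex.I_mul_I
  have key : ∀ x : ℂ, x = (-Complex.I * e) * (x * (Complex.I * (starRingEnd ℂ) e)) := by
    intro x
    linear_combination x * e * (starRingEnd ℂ) e * hI - x * hee
  have hv : ds Φ (0, s) = e := by
    have h1 := hasDerivAt_ds h 0 s
    have h2 : HasDerivAt (fun s : ℝ => (s : ℂ) * e) (1 * e) s :=
      (Complex.ofRealCLM.hasDerivAt (x := s)).mul_const e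
    have h3 : (fun s : ℝ => Φ (0, s)) = fun s : ℝ => (s : ℂ) * e := funext h0
    rw [h3] at h1
    rw [h1.unique h2, one_mul]
  refine ⟨?_, ?_, ?_, ?_, key _, ?_, key _, ?_⟩
  · rw [h0]
    linear_combination (s : ℂ) * e * hI
  · rw [hv]
    linear_combination e * hI
  · rw [hv, he]
  · rw [h0, ph, norm_mul, he, mul_one, Complex.norm_real, Real.norm_eq_abs, sq_abs, gw]
  · rw [dt_ds_comm h]
    exact key _
  · have c2 : ds (dt (dt Φ)) (0, s) = dt (dt (ds Φ)) (0, s) := by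
      rw [← dt_ds_comm (contDiff_dt h)]
      congr 1
      exact (funext fun p => (dt_ds_comm h p)).symm
    rw [← c2]
    exact key _

/-- boundary term of the second variation along a ray -/
noncomputable def BRay (e : ℂ) (Φ : ℝ × ℝ → ℂ) (s : ℝ) : ℝ :=
  -(gw s * s * (rcp (dt Φ) e s).im ^ 2) + gw s * (rcp (dt (dt Φ)) e s).im

variable {e : ℂ} {Φ : ℝ × ℝ → ℂ}

lemma dot_Ie (he : ‖e‖ = 1) : dot (-Complex.I * e) (-Complex.I * e) = 1 := by
  rw [dot_self_eq, norm_mul, he, norm_neg, Complex.norm_I]; norm_num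

lemma ray_first_pt (he : ‖e‖ = 1) (h : ContDiff ℝ ∞ Φ)
    (h0 : ∀ s : ℝ, Φ (0, s) = s * e) (s : ℝ) :
    HasDerivAt (fun s => gw s * (rcp (dt Φ) e s).im) (La1 Φ (0, s)) s := by
  have B := rayAt he h h0 s
  refine ((hasDerivAt_gw s).mul
    (hasDerivAt_im (hasDerivAt_rcp (contDiff_dt h) e s))).congr_deriv ?_
  have hN := dot_Ie he
  unfold La1
  rw [B.nvel, B.phv, B.vel, B.eta, B.xi, B.pos, dot_mul hN, dot_mul hN]
  unfold dot
  simp only [Complex.mul_re, Complex.mul_im, Complex.I_re,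
    Complex.I_im, Complex.ofReal_re, Complex.ofReal_im]
  ring

lemma ray_second_pt (he : ‖e‖ = 1) (h : ContDiff ℝ ∞ Φ)
    (h0 : ∀ s : ℝ, Φ (0, s) = s * e) (s : ℝ) :
    HasDerivAt (BRay e Φ) (La2 Φ (0, s) -
      (gw s * (rcp' (dt Φ) e s).re ^ 2 - gw s * (rcp (dt Φ) e s).re ^ 2)) s := by
  have B := rayAt he h h0 s
  have d2 := hasDerivAt_im (hasDerivAt_rcp (contDiff_dt h) e s)
  have d3 := hasDerivAt_im (hasDerivAt_rcp (contDiff_dt (contDiff_dt h)) e s)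
  have dg := hasDerivAt_gw s
  have hD := ((dg.mul (hasDerivAt_id s)).mul (d2.pow 2)).neg.add (dg.mul d3)
  refine HasDerivAt.congr_deriv (f := BRay e Φ) hD ?_
  have hN := dot_Ie he
  unfold La2
  rw [B.nvel, B.phv, B.theta, B.vel, B.eta, B.zeta, B.xi, B.pos]
  simp only [dot_mul hN]
  unfold dot
  simp only [Complex.mul_re, Complex.mul_im, Complex.I_re,
    Complex.I_im, Complex.ofReal_re, Complex.ofReal_im, Pi.mul_apply, Pi.pow_apply, id]
  ring

lemma ray_cont_La1 (he : ‖e‖ = 1) (h : ContDiff ℝ ∞ Φ)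
    (h0 : ∀ s : ℝ, Φ (0, s) = s * e) (a b : ℝ) :
    IntervalIntegrable (fun s => La1 Φ (0, s)) volume a b := by
  refine ContinuousOn.intervalIntegrable (slice_contOn (continuousOn_La1 h ?_))
  rintro ⟨t, s⟩ ⟨h1, h2⟩
  have ht : t = 0 := h1
  subst ht
  rw [← norm_ne_zero_iff, (rayAt he h h0 s).nvel]
  norm_num

lemma ray_cont_La2 (he : ‖e‖ = 1) (h : ContDiff ℝ ∞ Φ)
    (h0 : ∀ s : ℝ, Φ (0, s) = s * e) (a b : ℝ) :
    IntervalIntegrable (fun s => La2 Φ (0, s)) volume a b := by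
  refine ContinuousOn.intervalIntegrable (slice_contOn (continuousOn_La2 h ?_))
  rintro ⟨t, s⟩ ⟨h1, h2⟩
  have ht : t = 0 := h1
  subst ht
  rw [← norm_ne_zero_iff, (rayAt he h h0 s).nvel]
  norm_num

lemma ray_first_int (he : ‖e‖ = 1) (h : ContDiff ℝ ∞ Φ)
    (h0 : ∀ s : ℝ, Φ (0, s) = s * e) (a b : ℝ) :
    (∫ s in a..b, La1 Φ (0, s)) =
      gw b * (rcp (dt Φ) e b).im - gw a * (rcp (dt Φ) e a).im :=
  intervalIntegral.integral_eq_sub_of_hasDerivAt (fun s _ => ray_first_pt he h h0 s)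
    (ray_cont_La1 he h h0 a b)

lemma ray_second_int (he : ‖e‖ = 1) (h : ContDiff ℝ ∞ Φ)
    (h0 : ∀ s : ℝ, Φ (0, s) = s * e) (a b : ℝ) :
    (∫ s in a..b, La2 Φ (0, s)) =
      (∫ s in a..b, (gw s * (rcp' (dt Φ) e s).re ^ 2 - gw s * (rcp (dt Φ) e s).re ^ 2)) +
      (BRay e Φ b - BRay e Φ a) := by
  have i1 := ray_cont_La2 he h h0 a b
  have k1 := continuous_rcp (contDiff_dt h).continuous e
  have k2 := continuous_rcp' (contDiff_dt h) e
  have i3 : IntervalIntegrable (fun s => gw s * (rcp' (dt Φ) e s).re ^ 2 -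
      gw s * (rcp (dt Φ) e s).re ^ 2) volume a b := by
    refine Continuous.intervalIntegrable ?_ _ _
    exact (continuous_gw.mul ((Complex.continuous_re.comp k2).pow 2)).sub
      (continuous_gw.mul ((Complex.continuous_re.comp k1).pow 2))
  have key : ∫ s in a..b, (La2 Φ (0, s) - (gw s * (rcp' (dt Φ) e s).re ^ 2 -
      gw s * (rcp (dt Φ) e s).re ^ 2)) = BRay e Φ b - BRay e Φ a :=
    intervalIntegral.integral_eq_sub_of_hasDerivAt (fun s _ => ray_second_pt he h h0 s) (i1.sub i3)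
  rw [intervalIntegral.integral_sub i1 i3] at key
  linarith

lemma ray_mass (he : ‖e‖ = 1) (h : ContDiff ℝ ∞ Φ)
    (h0 : ∀ s : ℝ, Φ (0, s) = s * e) (a b : ℝ) :
    (∫ s in a..b, Lw1 Φ (0, s)) = (∫ s in a..b, gw s * (rcp (dt Φ) e s).re) +
      (pot (Φ (0, b)) * (dt Φ (0, b)).im - pot (Φ (0, a)) * (dt Φ (0, a)).im) := by
  have i2 : IntervalIntegrable (fun s => Lw1 Φ (0, s)) volume a b :=
    (slice_cont (continuous_Lw1 h)).intervalIntegrable _ _
  have k1 := continuous_rcp (contDiff_dt h).continuous e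
  have i3 : IntervalIntegrable (fun s => gw s * (rcp (dt Φ) e s).re) volume a b :=
    (continuous_gw.mul (Complex.continuous_re.comp k1)).intervalIntegrable _ _
  have key : ∫ s in a..b, (Lw1 Φ (0, s) - gw s * (rcp (dt Φ) e s).re) =
      (pot (Φ (0, b)) * (dt Φ (0, b)).im - pot (Φ (0, a)) * (dt Φ (0, a)).im) := by
    refine intervalIntegral.integral_eq_sub_of_hasDerivAt
      (f := fun s => pot (Φ (0, s)) * (dt Φ (0, s)).im) (fun s hs => ?_) (i2.sub i3)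
    refine (Lw1_split h 0 s).congr_deriv ?_
    have B := rayAt he h h0 s
    have hN := dot_Ie he
    rw [B.phv, B.xi, B.vel, wedge_mul hN]
    unfold wedge
    simp only [Complex.I_re, Complex.I_im]
    ring
  rw [intervalIntegral.integral_sub i2 i3] at key
  linarith

end Pool.Agent.MP_845d3b_gt
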