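import Pool.Agent.MP_845d3b_gt.Perimeter

open Set Filter Topology MeasureTheory Measure
open scoped ContDiff

namespace Pool.Agent.MP_845d3b_gt

lemma exists_equiv (L : ℝ × ℝ →L[ℝ] ℂ) (h : wedge (L (1, 0)) (L (0, 1)) ≠ 0) :
    ∃ f : (ℝ × ℝ) ≃L[ℝ] ℂ, (f : ℝ × ℝ →L[ℝ] ℂ) = L := by
  have hinj : Function.Injective (L : ℝ × ℝ →ₗ[ℝ] ℂ) := by
    rw [← LinearMap.ker_eq_bot, LinearMap.ker_eq_bot']
    rintro ⟨x, y⟩ hxy
    have hxy' : L (x, y) = 0 := hxy
    have e : ((x, y) : ℝ × ℝ) = x • (1, 0) + y • (0, 1) := by simp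
    rw [e, map_add, map_smul, map_smul] at hxy'
    have h1 : wedge (x • L (1, 0) + y • L (0, 1)) (L (0, 1)) = x * wedge (L (1, 0)) (L (0, 1)) := by
      unfold wedge
      simp only [Complex.add_re, Complex.add_im, Complex.real_smul, Complex.re_ofReal_mul,
        Complex.im_ofReal_mul]
      ring
    have h2 : wedge (L (1, 0)) (x • L (1, 0) + y • L (0, 1)) = y * wedge (L (1, 0)) (L (0, 1)) := by
      unfold wedge
      simp only [Complex.add_re, Complex.add_im, Complex.real_smul, Complex.re_ofReal_mul,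
        Complex.im_ofReal_mul]
      ring
    have z1 : ∀ w : ℂ, wedge 0 w = 0 := fun w => by unfold wedge; simp
    have z2 : ∀ w : ℂ, wedge w 0 = 0 := fun w => by unfold wedge; simp
    rw [hxy', z1] at h1
    rw [hxy', z2] at h2
    have hx := (mul_eq_zero.mp h1.symm).resolve_right h
    have hy := (mul_eq_zero.mp h2.symm).resolve_right h
    rw [hx, hy]
    rfl
  have hf : Module.finrank ℝ (ℝ × ℝ) = Module.finrank ℝ ℂ := by
    rw [Complex.finrank_real_complex]
    simp
  refine ⟨(LinearEquiv.ofInjectiveOfFinrankEq (L : ℝ × ℝ →ₗ[ℝ] ℂ) hinj hf).toContinuousLinearEquiv,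
    ?_⟩
  ext <;> rfl

section

variable {ε r0 lam : ℝ} {c : ℝ → ℂ}

/-- The gauge is smooth in the open sectors, with nonvanishing derivative. -/
lemma gau_smooth (A : IsArc ε c r0 lam) {j : Fin 3} {z : ℂ} (hz : z ∈ Sec j) :
    ContDiffAt ℝ ∞ (gau ε r0 c) z ∧ fderiv ℝ (gau ε r0 c) z ≠ 0 := by
  obtain ⟨r, hr, α, hα, rfl⟩ := (mem_Sec_iff A).mp hz
  have hα' : α ∈ Iv := ⟨hα.1.le, hα.2.le⟩
  have hK := contDiff_Kp A j
  have hw : wedge (fderiv ℝ (Kp r0 c j) (r, α) (1, 0)) (fderiv ℝ (Kp r0 c j) (r, α) (0, 1)) ≠ 0 := by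
    have h1 := wedge_Kp A j r (Iv_abs1 hα')
    change wedge (dt (Kp r0 c j) (r, α)) (ds (Kp r0 c j) (r, α)) ≠ 0
    rw [h1]
    have g1 := A.hN_ge α (Iv_abs hα')
    have g2 : 0 < (wv c α).re := lt_of_lt_of_le (by have := A.eps_pos; positivity) g1
    have g3 := A.r0_pos
    have g4 := mul_pos A.eps_pos (ph_pos (c α))
    positivity
  obtain ⟨f', hf'⟩ := exists_equiv _ hw
  have hd : HasFDerivAt (Kp r0 c j) (f' : ℝ × ℝ →L[ℝ] ℂ) (r, α) := by
    rw [hf']
    exact (hK.differentiable (by simp) _).hasFDerivAt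
  have hn : (∞ : WithTop ℕ∞) ≠ 0 := by simp
  have hKa : ContDiffAt ℝ ∞ (Kp r0 c j) (r, α) := hK.contDiffAt
  set loc := hKa.localInverse hd hn with hloc
  have l1 : loc (Kp r0 c j (r, α)) = (r, α) := hKa.localInverse_apply_image hd hn
  have l2 : ContDiffAt ℝ ∞ loc (Kp r0 c j (r, α)) := hKa.to_localInverse hd hn
  have l3 : ∀ᶠ y in 𝓝 (Kp r0 c j (r, α)), Kp r0 c j (loc y) = y :=
    (hKa.hasStrictFDerivAt' hd hn).eventually_right_inverse
  have hopen : Ioi (0 : ℝ) ×ˢ Io ∈ 𝓝 (loc (Kp r0 c j (r, α))) := by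
    rw [l1]
    exact (isOpen_Ioi.prod isOpen_Ioo).mem_nhds ⟨hr, hα⟩
  have l4 := l2.continuousAt.eventually_mem hopen
  have hev : gau ε r0 c =ᶠ[𝓝 (Kp r0 c j (r, α))] fun y => (loc y).1 := by
    filter_upwards [l3, l4] with y h3 h4
    nth_rw 1 [← h3]
    have h5 : (0 : ℝ) < (loc y).1 := h4.1
    have h6 : (loc y).2 ∈ Iv := ⟨h4.2.1.le, h4.2.2.le⟩
    exact gau_Kp A j h5.le h6
  have hsm : ContDiffAt ℝ ∞ (gau ε r0 c) (Kp r0 c j (r, α)) :=
    (contDiffAt_fst.comp _ l2).congr_of_eventuallyEq hev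
  refine ⟨hsm, fun h0 => ?_⟩
  have d1 : HasFDerivAt (gau ε r0 c) (fderiv ℝ (gau ε r0 c) (Kp r0 c j (r, α)))
      (Kp r0 c j (r, α)) := (hsm.differentiableAt (by simp)).hasFDerivAt
  have d2 := d1.comp_hasDerivAt r (hasDerivAt_dt hK r α)
  have d3 : HasDerivAt (gau ε r0 c ∘ fun t => Kp r0 c j (t, α)) 1 r := by
    refine (hasDerivAt_id r).congr_of_eventuallyEq ?_
    filter_upwards [isOpen_Ioi.mem_nhds (show r ∈ Ioi (0 : ℝ) from hr)] with t ht
    exact gau_Kp A j (le_of_lt ht) hα'
  have d4 := d2.unique d3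
  rw [h0] at d4
  simp at d4

lemma regularPoint_symm {q : ℕ} {Ω : Fin q → Set ℂ} {i j : Fin q} {x : ℂ}
    (h : RegularPoint Ω i j x) : RegularPoint Ω j i x := by
  obtain ⟨U, h1, h2, φ, h3, h4, h5, h6⟩ := h
  refine ⟨U, h1, h2, fun y => -φ y, h3.neg, fun y hy => ?_, fun y hy => ?_,
    fun k hk1 hk2 => h6 k hk2 hk1⟩
  · have : fderiv ℝ (fun y => -φ y) y = -fderiv ℝ φ y := fderiv_neg
    rw [this]
    exact neg_ne_zero.mpr (h4 y hy)
  · obtain ⟨h7, h8⟩ := h5 y hy
    exact ⟨h8.trans (by constructor <;> intro h <;> linarith),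
      h7.trans (by constructor <;> intro h <;> linarith)⟩

lemma Om_castSucc (j : Fin 3) : Om ε r0 c (Fin.castSucc j) = cell ε r0 c j := by
  fin_cases j <;> rfl

lemma Om_last : Om ε r0 c (Fin.last 3) = tri ε r0 c := rfl

/-- interior points of arcs are regular -/
lemma regular_arc (A : IsArc ε c r0 lam) (j : Fin 3) {α : ℝ} (hα : α ∈ Io) :
    RegularPoint (Om ε r0 c) (Fin.castSucc j) (Fin.last 3) (arc c j α) := by
  refine ⟨Sec j, isOpen_Sec j, ?_, fun y => r0 - gau ε r0 c y, ?_, ?_, ?_, ?_⟩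
  · rw [arc_eq_Kp A]
    exact Kp_mem_Sec A j A.r0_pos hα
  · intro y hy
    exact (contDiffAt_const.sub (gau_smooth A hy).1).contDiffWithinAt
  · intro y hy
    have : fderiv ℝ (fun y => r0 - gau ε r0 c y) y = -fderiv ℝ (gau ε r0 c) y :=
      fderiv_const_sub r0
    rw [this]
    exact neg_ne_zero.mpr (gau_smooth A hy).2
  · intro y hy
    rw [Om_castSucc, Om_last]
    constructor
    · constructor
      · intro h
        have := h.2
        linarith
      · intro h
        exact ⟨hy, by linarith⟩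
    · constructor
      · intro h
        have h' : gau ε r0 c y < r0 := h
        linarith
      · intro h
        change gau ε r0 c y < r0
        linarith
  · intro k hk1 hk2
    obtain ⟨k', rfl⟩ := Fin.exists_castSucc_eq.mpr hk2
    rw [Om_castSucc, Set.disjoint_left]
    intro y hy hy'
    refine Sec_disj ?_ hy (Sec_subset k' hy'.1)
    rintro rfl
    exact hk1 rfl

/-- coordinate along the ray -/
noncomputable def yj (j : Fin 3) (y : ℂ) : ℂ := y * (starRingEnd ℂ) (om j * e3)

lemma yj_ray (j : Fin 3) (r : ℝ) : yj j (ray j r) = r := by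
  unfold yj ray
  have := mul_conj_one (norm_ray_dir j)
  linear_combination (r : ℂ) * this

lemma mem_Sec_yj (j : Fin 3) (y : ℂ) :
    (y ∈ Sec j ↔ (yj j y).im < 0 ∧ (yj j y).im < √3 * (yj j y).re) ∧
    (y ∈ Sec (j + 1) ↔ 0 < (yj j y).im ∧ -(yj j y).im < √3 * (yj j y).re) ∧
    (y ∈ Sec (j + 2) → (yj j y).re < 0) := by
  obtain ⟨s1, s2, hs⟩ := sqrt3_facts
  have he := mul_conj_one norm_e3
  have h0 : rot j y = yj j y * e3 := by
    unfold rot yj
    rw [map_mul]
    linear_combination -(y * (starRingEnd ℂ) (om j)) * he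
  have hw : e3 * (starRingEnd ℂ) w3 = (starRingEnd ℂ) e3 := by
    have := congrArg (starRingEnd ℂ) w3_conj_e3
    rw [map_mul, Complex.conj_conj] at this
    linear_combination this
  have h1 : rot (j + 1) y = yj j y * (starRingEnd ℂ) e3 := by
    have : rot (j + 1) y = rot j y * (starRingEnd ℂ) w3 := by
      unfold rot
      rw [om_next, map_mul]
      ring
    rw [this, h0]
    linear_combination yj j y * hw
  have h2 : rot (j + 2) y = -(yj j y) := by
    have h3 : rot (j + 2) y = rot (j + 1) y * (starRingEnd ℂ) w3 := by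
      unfold rot
      rw [show j + 2 = (j + 1) + 1 by fin_cases j <;> rfl, om_next (j + 1), map_mul]
      ring
    have h4 : (starRingEnd ℂ) e3 * (starRingEnd ℂ) w3 = -1 := by
      apply Complex.ext
      · simp only [Complex.mul_re, Complex.conj_re, Complex.conj_im, w3_re, w3_im, e3_re, e3_im,
          Complex.neg_re, Complex.one_re]
        linear_combination -hs / 4
      · simp only [Complex.mul_im, Complex.conj_re, Complex.conj_im, w3_re, w3_im, e3_re, e3_im,
          Complex.neg_im, Complex.one_im]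
        ring
    rw [h3, h1]
    linear_combination yj j y * h4
  have r0 : (rot j y).re = (yj j y).re / 2 - √3 / 2 * (yj j y).im ∧
      (rot j y).im = √3 / 2 * (yj j y).re + (yj j y).im / 2 := by
    rw [h0]
    simp only [Complex.mul_re, Complex.mul_im, e3_re, e3_im]
    constructor <;> ring
  have r1 : (rot (j + 1) y).re = (yj j y).re / 2 + √3 / 2 * (yj j y).im ∧
      (rot (j + 1) y).im = -(√3 / 2 * (yj j y).re) + (yj j y).im / 2 := by
    rw [h1]
    simp only [Complex.mul_re, Complex.mul_im, Complex.conj_re, Complex.conj_im, e3_re, e3_im]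
    constructor <;> ring
  have k0 : √3 * ((yj j y).re / 2 - √3 / 2 * (yj j y).im) =
      √3 / 2 * (yj j y).re - 3 / 2 * (yj j y).im := by
    linear_combination -((yj j y).im) / 2 * hs
  have k1 : √3 * ((yj j y).re / 2 + √3 / 2 * (yj j y).im) =
      √3 / 2 * (yj j y).re + 3 / 2 * (yj j y).im := by
    linear_combination ((yj j y).im) / 2 * hs
  refine ⟨?_, ?_, ?_⟩
  · change |(rot j y).im| < √3 * (rot j y).re ↔ _
    rw [r0.1, r0.2, k0, abs_lt]
    constructor
    · rintro ⟨a1, a2⟩; constructor <;> linarith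
    · rintro ⟨a1, a2⟩; constructor <;> linarith
  · change |(rot (j + 1) y).im| < √3 * (rot (j + 1) y).re ↔ _
    rw [r1.1, r1.2, k1, abs_lt]
    constructor
    · rintro ⟨a1, a2⟩; constructor <;> linarith
    · rintro ⟨a1, a2⟩; constructor <;> linarith
  · intro h
    have h' : |(rot (j + 2) y).im| < √3 * (rot (j + 2) y).re := h
    rw [h2] at h'
    have h3 := abs_nonneg (-(yj j y)).im
    simp only [Complex.neg_re] at h'
    nlinarith

lemma continuous_yj (j : Fin 3) : Continuous (yj j) := continuous_id.mul continuous_const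

/-- interior points of rays are regular -/
lemma regular_ray (A : IsArc ε c r0 lam) (j : Fin 3) {r : ℝ} (hr : r0 < r) :
    RegularPoint (Om ε r0 c) (Fin.castSucc j) (Fin.castSucc (j + 1)) (ray j r) := by
  have hr0 := A.r0_pos
  have hs3 : (0 : ℝ) < √3 := by positivity
  refine ⟨{y | r0 < gau ε r0 c y} ∩ {y | 0 < (yj j y).re},
    (isOpen_lt continuous_const (continuous_gau A)).inter
      (isOpen_lt continuous_const (Complex.continuous_re.comp (continuous_yj j))), ?_,
    fun y => (yj j y).im, ?_, ?_, ?_, ?_⟩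
  · constructor
    · change r0 < gau ε r0 c (ray j r)
      rw [gau_ray A j (hr0.le.trans hr.le)]
      exact hr
    · change 0 < (yj j (ray j r)).re
      rw [yj_ray, Complex.ofReal_re]
      linarith
  · refine ContDiff.contDiffOn ?_
    exact Complex.imCLM.contDiff.comp (contDiff_id.mul contDiff_const)
  · intro y _ h0
    have d1 : HasFDerivAt (fun y => (yj j y).im) (fderiv ℝ (fun y => (yj j y).im) y) y := by
      refine DifferentiableAt.hasFDerivAt ?_
      have : ContDiff ℝ ∞ fun y => (yj j y).im :=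
        Complex.imCLM.contDiff.comp (contDiff_id.mul contDiff_const)
      exact this.differentiable (by simp) y
    have d2 : HasDerivAt (fun t : ℝ => y + (t : ℂ) * (Complex.I * (om j * e3)))
        (Complex.I * (om j * e3)) 0 := by
      have h3 : HasDerivAt (fun t : ℝ => (t : ℂ) * (Complex.I * (om j * e3)))
          (1 * (Complex.I * (om j * e3))) 0 := (Complex.ofRealCLM.hasDerivAt (x := 0)).mul_const _
      rw [one_mul] at h3
      exact h3.const_add y
    have d1' : HasFDerivAt (fun y => (yj j y).im) (fderiv ℝ (fun y => (yj j y).im) y)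
        (y + ((0 : ℝ) : ℂ) * (Complex.I * (om j * e3))) := by simpa using d1
    have d3 := d1'.comp_hasDerivAt 0 d2
    have d4 : HasDerivAt (fun t : ℝ => (yj j y).im + t) 1 0 := (hasDerivAt_id 0).const_add _
    have e : ((fun y => (yj j y).im) ∘ fun t : ℝ => y + (t : ℂ) * (Complex.I * (om j * e3))) =
        fun t : ℝ => (yj j y).im + t := by
      funext t
      have hh := mul_conj_one (norm_ray_dir j)
      have e2 : yj j (y + (t : ℂ) * (Complex.I * (om j * e3))) = yj j y + (t : ℂ) * Complex.I := by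
        unfold yj
        linear_combination (t : ℂ) * Complex.I * hh
      simp only [Function.comp_apply]
      rw [e2]
      simp
    rw [e] at d3
    have d5 := d3.unique d4
    rw [h0] at d5
    simp at d5
  · rintro y ⟨hy1, hy2⟩
    have hy1' : r0 < gau ε r0 c y := hy1
    have hy2' : 0 < (yj j y).re := hy2
    obtain ⟨m1, m2, m3⟩ := mem_Sec_yj j y
    have hp : 0 < √3 * (yj j y).re := mul_pos hs3 hy2'
    rw [Om_castSucc, Om_castSucc]
    constructor
    · constructor
      · intro h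
        exact (m1.mp h.1).1
      · intro h
        exact ⟨m1.mpr ⟨h, by linarith⟩, hy1'⟩
    · constructor
      · intro h
        exact (m2.mp h.1).1
      · intro h
        exact ⟨m2.mpr ⟨h, by linarith⟩, hy1'⟩
  · intro k hk1 hk2
    rw [Set.disjoint_left]
    rintro y ⟨hy1, hy2⟩ hy3
    have hy1' : r0 < gau ε r0 c y := hy1
    have hy2' : 0 < (yj j y).re := hy2
    revert hk1 hk2 hy3
    refine Fin.lastCases ?_ (fun k' => ?_) k
    · intro _ _ hy3
      rw [Om_last] at hy3
      have : gau ε r0 c y < r0 := hy3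
      linarith
    · intro hk1 hk2 hy3
      rw [Om_castSucc] at hy3
      have hk : k' = j + 2 := by
        have a1 : k' ≠ j := fun h => hk1 (by rw [h])
        have a2 : k' ≠ j + 1 := fun h => hk2 (by rw [h])
        revert a1 a2
        fin_cases j <;> fin_cases k' <;> simp
      rw [hk] at hy3
      have := (mem_Sec_yj j y).2.2 hy3.1
      linarith

end

end Pool.Agent.MP_845d3b_gt
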