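import Pool.Agent.MP_845d3b_gt.Index

open Set Filter Topology MeasureTheory
open scoped ContDiff

namespace Pool.Agent.MP_845d3b_gt

/-- rotated coordinate -/
noncomputable def rot (j : Fin 3) (z : ℂ) : ℂ := z * (starRingEnd ℂ) (om j)

/-- open sector -/
def Sec (j : Fin 3) : Set ℂ := {z | |(rot j z).im| < √3 * (rot j z).re}

/-- closed sector -/
def cSec (j : Fin 3) : Set ℂ := {z | |(rot j z).im| ≤ √3 * (rot j z).re}

lemma continuous_rot (j : Fin 3) : Continuous (rot j) := continuous_id.mul continuous_const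

lemma isOpen_Sec (j : Fin 3) : IsOpen (Sec j) :=
  isOpen_lt ((Complex.continuous_im.comp (continuous_rot j)).abs)
    (continuous_const.mul (Complex.continuous_re.comp (continuous_rot j)))

lemma isClosed_cSec (j : Fin 3) : IsClosed (cSec j) :=
  isClosed_le ((Complex.continuous_im.comp (continuous_rot j)).abs)
    (continuous_const.mul (Complex.continuous_re.comp (continuous_rot j)))

lemma Sec_subset (j : Fin 3) : Sec j ⊆ cSec j := by
  intro z hz
  have h : |(rot j z).im| < √3 * (rot j z).re := hz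
  exact h.le

lemma om_zero : om 0 = 1 := rfl
lemma om_one : om 1 = w3 := rfl
lemma om_two : om 2 = w3 * w3 := rfl

lemma w3sq_re : (w3 * w3).re = -(1 / 2) := by
  obtain ⟨_, _, h⟩ := sqrt3_facts
  simp only [Complex.mul_re, w3_re, w3_im]
  linear_combination -h / 4

lemma w3sq_im : (w3 * w3).im = -(√3 / 2) := by
  simp only [Complex.mul_im, w3_re, w3_im]
  ring

lemma rot_zero (z : ℂ) : (rot 0 z).re = z.re ∧ (rot 0 z).im = z.im := by
  unfold rot
  rw [om_zero]
  simp

lemma rot_one (z : ℂ) : (rot 1 z).re = -(z.re / 2) + √3 / 2 * z.im ∧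
    (rot 1 z).im = -(z.im / 2) - √3 / 2 * z.re := by
  unfold rot
  rw [om_one]
  simp only [Complex.mul_re, Complex.mul_im, Complex.conj_re, Complex.conj_im, w3_re, w3_im]
  constructor <;> ring

lemma rot_two (z : ℂ) : (rot 2 z).re = -(z.re / 2) - √3 / 2 * z.im ∧
    (rot 2 z).im = -(z.im / 2) + √3 / 2 * z.re := by
  unfold rot
  rw [om_two]
  simp only [Complex.mul_re (z), Complex.mul_im (z), Complex.conj_re, Complex.conj_im, w3sq_re,
    w3sq_im]
  constructor <;> ring

lemma mem_Sec_zero (z : ℂ) : z ∈ Sec 0 ↔ z.im < √3 * z.re ∧ -z.im < √3 * z.re := by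
  change |(rot 0 z).im| < √3 * (rot 0 z).re ↔ _
  rw [(rot_zero z).1, (rot_zero z).2, abs_lt]
  constructor
  · rintro ⟨h1, h2⟩; exact ⟨by linarith, by linarith⟩
  · rintro ⟨h1, h2⟩; exact ⟨by linarith, by linarith⟩

lemma mem_cSec_zero (z : ℂ) : z ∈ cSec 0 ↔ z.im ≤ √3 * z.re ∧ -z.im ≤ √3 * z.re := by
  change |(rot 0 z).im| ≤ √3 * (rot 0 z).re ↔ _
  rw [(rot_zero z).1, (rot_zero z).2, abs_le]
  constructor
  · rintro ⟨h1, h2⟩; exact ⟨by linarith, by linarith⟩
  · rintro ⟨h1, h2⟩; exact ⟨by linarith, by linarith⟩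

lemma mem_Sec_one (z : ℂ) : z ∈ Sec 1 ↔ 0 < z.im ∧ √3 * z.re < z.im := by
  obtain ⟨_, _, h⟩ := sqrt3_facts
  change |(rot 1 z).im| < √3 * (rot 1 z).re ↔ _
  rw [(rot_one z).1, (rot_one z).2, abs_lt]
  have e : √3 * (-(z.re / 2) + √3 / 2 * z.im) = 3 / 2 * z.im - √3 / 2 * z.re := by
    linear_combination z.im / 2 * h
  rw [e]
  constructor
  · rintro ⟨h1, h2⟩; exact ⟨by linarith, by linarith⟩
  · rintro ⟨h1, h2⟩; exact ⟨by linarith, by linarith⟩

lemma mem_cSec_one (z : ℂ) : z ∈ cSec 1 ↔ 0 ≤ z.im ∧ √3 * z.re ≤ z.im := by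
  obtain ⟨_, _, h⟩ := sqrt3_facts
  change |(rot 1 z).im| ≤ √3 * (rot 1 z).re ↔ _
  rw [(rot_one z).1, (rot_one z).2, abs_le]
  have e : √3 * (-(z.re / 2) + √3 / 2 * z.im) = 3 / 2 * z.im - √3 / 2 * z.re := by
    linear_combination z.im / 2 * h
  rw [e]
  constructor
  · rintro ⟨h1, h2⟩; exact ⟨by linarith, by linarith⟩
  · rintro ⟨h1, h2⟩; exact ⟨by linarith, by linarith⟩

lemma mem_Sec_two (z : ℂ) : z ∈ Sec 2 ↔ z.im < 0 ∧ √3 * z.re < -z.im := by
  obtain ⟨_, _, h⟩ := sqrt3_facts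
  change |(rot 2 z).im| < √3 * (rot 2 z).re ↔ _
  rw [(rot_two z).1, (rot_two z).2, abs_lt]
  have e : √3 * (-(z.re / 2) - √3 / 2 * z.im) = -(3 / 2 * z.im) - √3 / 2 * z.re := by
    linear_combination -(z.im) / 2 * h
  rw [e]
  constructor
  · rintro ⟨h1, h2⟩; exact ⟨by linarith, by linarith⟩
  · rintro ⟨h1, h2⟩; exact ⟨by linarith, by linarith⟩

lemma mem_cSec_two (z : ℂ) : z ∈ cSec 2 ↔ z.im ≤ 0 ∧ √3 * z.re ≤ -z.im := by
  obtain ⟨_, _, h⟩ := sqrt3_facts
  change |(rot 2 z).im| ≤ √3 * (rot 2 z).re ↔ _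
  rw [(rot_two z).1, (rot_two z).2, abs_le]
  have e : √3 * (-(z.re / 2) - √3 / 2 * z.im) = -(3 / 2 * z.im) - √3 / 2 * z.re := by
    linear_combination -(z.im) / 2 * h
  rw [e]
  constructor
  · rintro ⟨h1, h2⟩; exact ⟨by linarith, by linarith⟩
  · rintro ⟨h1, h2⟩; exact ⟨by linarith, by linarith⟩

lemma cSec_cover (z : ℂ) : ∃ j, z ∈ cSec j := by
  by_cases h : z ∈ cSec 0
  · exact ⟨0, h⟩
  · rw [mem_cSec_zero, not_and_or, not_le, not_le] at h
    rcases le_total 0 z.im with h1 | h1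
    · refine ⟨1, (mem_cSec_one z).mpr ⟨h1, ?_⟩⟩
      rcases h with h | h
      · exact h.le
      · linarith
    · refine ⟨2, (mem_cSec_two z).mpr ⟨h1, ?_⟩⟩
      rcases h with h | h
      · linarith
      · exact h.le

lemma Sec_disj {j k : Fin 3} (hjk : j ≠ k) {z : ℂ} (hj : z ∈ Sec j) : z ∉ cSec k := by
  intro hk
  fin_cases j <;> fin_cases k
  · exact hjk rfl
  · have h1 := (mem_Sec_zero z).mp hj
    have h2 := (mem_cSec_one z).mp hk
    linarith [h1.1, h2.2]
  · have h1 := (mem_Sec_zero z).mp hj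
    have h2 := (mem_cSec_two z).mp hk
    linarith [h1.2, h2.2]
  · have h1 := (mem_Sec_one z).mp hj
    have h2 := (mem_cSec_zero z).mp hk
    linarith [h1.2, h2.1]
  · exact hjk rfl
  · have h1 := (mem_Sec_one z).mp hj
    have h2 := (mem_cSec_two z).mp hk
    linarith [h1.1, h2.1]
  · have h1 := (mem_Sec_two z).mp hj
    have h2 := (mem_cSec_zero z).mp hk
    linarith [h1.2, h2.2]
  · have h1 := (mem_Sec_two z).mp hj
    have h2 := (mem_cSec_one z).mp hk
    linarith [h1.1, h2.1]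
  · exact hjk rfl

/-- adjacent closed sectors meet in the ray -/
lemma cSec_inter (j : Fin 3) (z : ℂ) :
    (z ∈ cSec j ∧ z ∈ cSec (j + 1)) ↔ ∃ r : ℝ, 0 ≤ r ∧ z = ray j r := by
  obtain ⟨s1, s2, hs⟩ := sqrt3_facts
  unfold ray
  fin_cases j
  · change (z ∈ cSec 0 ∧ z ∈ cSec 1) ↔ ∃ r : ℝ, 0 ≤ r ∧ z = r * (om 0 * e3)
    rw [mem_cSec_zero, mem_cSec_one, om_zero, one_mul]
    constructor
    · rintro ⟨⟨h1, h2⟩, h3, h4⟩
      refine ⟨2 * z.re, ?_, ?_⟩
      · nlinarith
      · apply Complex.ext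
        · simp only [Complex.mul_re, Complex.ofReal_re, Complex.ofReal_im, e3_re, e3_im]
          ring
        · simp only [Complex.mul_im, Complex.ofReal_re, Complex.ofReal_im, e3_re, e3_im]
          linarith
    · rintro ⟨r, hr, rfl⟩
      simp only [Complex.mul_re, Complex.mul_im, Complex.ofReal_re, Complex.ofReal_im, e3_re, e3_im]
      have : 0 ≤ r * √3 := by positivity
      refine ⟨⟨by nlinarith, by nlinarith⟩, by nlinarith, by nlinarith⟩
  · change (z ∈ cSec 1 ∧ z ∈ cSec 2) ↔ ∃ r : ℝ, 0 ≤ r ∧ z = r * (om 1 * e3)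
    have hd : om 1 * e3 = -1 := by
      rw [om_one]
      apply Complex.ext
      · simp only [Complex.mul_re, w3_re, w3_im, e3_re, e3_im, Complex.neg_re, Complex.one_re]
        linear_combination -hs / 4
      · simp only [Complex.mul_im, w3_re, w3_im, e3_re, e3_im, Complex.neg_im, Complex.one_im]
        ring
    rw [mem_cSec_one, mem_cSec_two, hd]
    constructor
    · rintro ⟨⟨h1, h2⟩, h3, h4⟩
      refine ⟨-z.re, ?_, ?_⟩
      · nlinarith
      · apply Complex.ext
        · simp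
        · simp; linarith
    · rintro ⟨r, hr, rfl⟩
      simp only [Complex.mul_re, Complex.mul_im, Complex.ofReal_re, Complex.ofReal_im,
        Complex.neg_re, Complex.neg_im, Complex.one_re, Complex.one_im]
      have : 0 ≤ r * √3 := by positivity
      refine ⟨⟨by nlinarith, by nlinarith⟩, by nlinarith, by nlinarith⟩
  · change (z ∈ cSec 2 ∧ z ∈ cSec 0) ↔ ∃ r : ℝ, 0 ≤ r ∧ z = r * (om 2 * e3)
    have hd : om 2 * e3 = (1 / 2 : ℝ) - (√3 / 2 : ℝ) * Complex.I := by
      rw [om_two]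
      apply Complex.ext
      · simp only [Complex.mul_re, Complex.mul_im, w3_re, w3_im, e3_re, e3_im, Complex.sub_re,
          Complex.ofReal_re, Complex.ofReal_im, Complex.I_re, Complex.I_im]
        linear_combination hs / 8
      · simp only [Complex.mul_re, Complex.mul_im, w3_re, w3_im, e3_re, e3_im, Complex.sub_im,
          Complex.ofReal_re, Complex.ofReal_im, Complex.I_re, Complex.I_im]
        linear_combination -(√3 / 8) * hs
    rw [mem_cSec_two, mem_cSec_zero, hd]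
    constructor
    · rintro ⟨⟨h1, h2⟩, h3, h4⟩
      refine ⟨2 * z.re, ?_, ?_⟩
      · nlinarith
      · apply Complex.ext
        · simp
          ring
        · simp only [Complex.mul_im, Complex.sub_re, Complex.sub_im, Complex.mul_re,
            Complex.ofReal_re, Complex.ofReal_im, Complex.I_re, Complex.I_im]
          linarith
    · rintro ⟨r, hr, rfl⟩
      simp only [Complex.mul_re, Complex.mul_im, Complex.ofReal_re, Complex.ofReal_im,
        Complex.sub_re, Complex.sub_im, Complex.I_re, Complex.I_im]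
      have : 0 ≤ r * √3 := by positivity
      refine ⟨⟨by nlinarith, by nlinarith⟩, by nlinarith, by nlinarith⟩

end Pool.Agent.MP_845d3b_gt
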