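import Pool.Agent.MP_845d3b_gt.Length

open Set Filter Topology MeasureTheory Measure
open scoped ContDiff

namespace Pool.Agent.MP_845d3b_gt

section

variable {ε r0 lam : ℝ} {c : ℝ → ℂ} {F : ℝ → ℂ → ℂ}

lemma deriv_arc_ne (A : IsArc ε c r0 lam) (j : Fin 3) {s : ℝ} (hs : |s| ≤ 1) :
    deriv (arc c j) s ≠ 0 := by
  have h := (A.der s hs).const_mul (om j)
  have e : deriv (arc c j) s = _ := h.deriv
  rw [e, ← norm_ne_zero_iff, norm_mul, norm_om, norm_mul, norm_mul, Complex.norm_I,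
    Complex.norm_exp_ofReal_mul_I, Complex.norm_real, Real.norm_eq_abs,
    abs_of_pos (mul_pos A.eps_pos (ph_pos _))]
  have := mul_pos A.eps_pos (ph_pos (c s))
  simpa using this.ne'

lemma hasDerivAt_ray (j : Fin 3) (s : ℝ) : HasDerivAt (ray j) (om j * e3) s := by
  have h2 : HasDerivAt (fun s : ℝ => (s : ℂ) * (om j * e3)) (1 * (om j * e3)) s :=
    (Complex.ofRealCLM.hasDerivAt (x := s)).mul_const _
  rw [one_mul] at h2
  exact h2

lemma deriv_ray_ne (j : Fin 3) (s : ℝ) : deriv (ray j) s ≠ 0 := by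
  rw [(hasDerivAt_ray j s).deriv, ← norm_ne_zero_iff, norm_ray_dir]
  norm_num

/-- derivatives of curve integrals -/
lemma deriv_curve (hF : IsVariation F) {γ : ℝ → ℂ} (k : ContDiff ℝ ∞ γ) {a b : ℝ} (hab : a ≤ b)
    (hne : ∀ s ∈ Icc a b, deriv γ s ≠ 0) (t : ℝ) :
    HasDerivAt (fun t => ∫ s in a..b, La (cur (unc F) γ) (t, s))
      (∫ s in a..b, La1 (cur (unc F) γ) (t, s)) t ∧
    HasDerivAt (fun t => ∫ s in a..b, La1 (cur (unc F) γ) (t, s))
      (∫ s in a..b, La2 (cur (unc F) γ) (t, s)) t := by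
  have kc := contDiff_cur (contDiff_unc hF) k
  have hU : ∀ p ∈ (univ : Set ℝ) ×ˢ Icc a b, ds (cur (unc F) γ) p ≠ 0 := by
    rintro ⟨t, s⟩ ⟨_, hs⟩
    exact ds_cur_ne hF k t (hne s hs)
  constructor
  · exact param_deriv hab (continuous_La kc).continuousOn (continuousOn_La1 kc hU)
      (fun t s hs => hasDerivAt_La kc (hU (t, s) ⟨mem_univ _, hs⟩)) t
  · exact param_deriv hab (continuousOn_La1 kc hU) (continuousOn_La2 kc hU)
      (fun t s hs => hasDerivAt_La1 kc (hU (t, s) ⟨mem_univ _, hs⟩)) t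

lemma deriv_pot (hF : IsVariation F) {γ : ℝ → ℂ} (k : ContDiff ℝ ∞ γ) {a b : ℝ} (hab : a ≤ b)
    (t : ℝ) :
    HasDerivAt (fun t => ∫ s in a..b, Lw (cur (unc F) γ) (t, s))
      (∫ s in a..b, Lw1 (cur (unc F) γ) (t, s)) t ∧
    HasDerivAt (fun t => ∫ s in a..b, Lw1 (cur (unc F) γ) (t, s))
      (∫ s in a..b, Lw2 (cur (unc F) γ) (t, s)) t := by
  have kc := contDiff_cur (contDiff_unc hF) k
  constructor
  · exact param_deriv hab (continuous_Lw kc).continuousOn (continuous_Lw1 kc).continuousOn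
      (fun t s _ => hasDerivAt_Lw kc t s) t
  · exact param_deriv hab (continuous_Lw1 kc).continuousOn (continuous_Lw2 kc).continuousOn
      (fun t s _ => hasDerivAt_Lw1 kc t s) t

lemma volAt_succ (A : IsArc ε c r0 lam) (hF : IsVariation F) {R : ℝ} (hR : r0 ≤ R)
    (hfix : ∀ z, R ≤ gau ε r0 c z → ∀ t, F t z = z) (j : Fin 3) : ∃ C : ℝ, ∀ t,
    volAt F (Om ε r0 c) (Fin.castSucc j) t = (2 * Real.pi)⁻¹ *
      (C - Wa F c j t - Wr F j r0 R t + Wr F (j + 2) r0 R t) := by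
  obtain ⟨C, hC⟩ := vol_cell A hF hR hfix j
  refine ⟨C, fun t => ?_⟩
  rw [← hC t]
  fin_cases j <;> rfl

lemma volAt_last (A : IsArc ε c r0 lam) (hF : IsVariation F) (t : ℝ) :
    volAt F (Om ε r0 c) (Fin.last 3) t = (2 * Real.pi)⁻¹ * ∑ j, Wa F c j t := by
  rw [← vol_tri A hF t]
  rfl

/-- All derivatives along a variation, and the index inequality. -/
theorem index_main (A : IsArc ε c r0 lam) (hε : ε ≤ 1 / 1000) (hF : IsVariation F) :
    ∃ (A' : ℝ → ℝ) (a : ℝ) (V' : Fin 4 → ℝ → ℝ) (v : Fin 4 → ℝ),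
      (∀ t, HasDerivAt (areaAt F (Om ε r0 c)) (A' t) t) ∧ HasDerivAt A' a 0 ∧
      (∀ i t, HasDerivAt (volAt F (Om ε r0 c) i) (V' i t) t) ∧
      (∀ i, HasDerivAt (V' i) (v i) 0) ∧
      A' 0 = lam * V' (Fin.last 3) 0 ∧
      ((∀ i, V' i 0 = 0) → 0 ≤ a - lam * v (Fin.last 3)) := by
  obtain ⟨R, hR1, hR, hfix⟩ := exists_radius A hF
  have hb := pi6_facts
  have hbb : -(Real.pi / 6) ≤ Real.pi / 6 := by linarith
  have hG := contDiff_unc hF
  have hG0 : ∀ z, unc F (0, z) = z := hF.zero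
  have harcne : ∀ j : Fin 3, ∀ s ∈ Icc (-(Real.pi / 6)) (Real.pi / 6), deriv (arc c j) s ≠ 0 :=
    fun j s hs => deriv_arc_ne A j (Iv_abs1 hs)
  have hrayne : ∀ j : Fin 3, ∀ s ∈ Icc r0 R, deriv (ray j) s ≠ 0 := fun j s _ => deriv_ray_ne j s
  have dA := fun (j : Fin 3) t => deriv_curve hF (contDiff_arc' A j) hbb (harcne j) t
  have dR := fun (j : Fin 3) t => deriv_curve hF (contDiff_ray' j) hR (hrayne j) t
  have dW := fun (j : Fin 3) t => deriv_pot hF (contDiff_arc' A j) hbb t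
  have dV := fun (j : Fin 3) t => deriv_pot hF (contDiff_ray' j) hR t
  choose C hC using fun j => volAt_succ A hF hR hfix j
  have earea : areaAt F (Om ε r0 c) = fun t => (2 * Real.pi)⁻¹ *
      (∑ j : Fin 3, Aa F c j t + ∑ j : Fin 3, Ar F j r0 R t) +
      ∑ j : Fin 3, (glen (ray j '' Ioi R)).toReal := funext (areaAt_eq A hF hR hfix)
  have evs : ∀ j : Fin 3, volAt F (Om ε r0 c) (Fin.castSucc j) = fun t => (2 * Real.pi)⁻¹ *
      (C j - Wa F c j t - Wr F j r0 R t + Wr F (j + 2) r0 R t) := fun j => funext (hC j)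
  have evl : volAt F (Om ε r0 c) (Fin.last 3) = fun t => (2 * Real.pi)⁻¹ * ∑ j, Wa F c j t :=
    funext (volAt_last A hF)
  refine ⟨fun t => (2 * Real.pi)⁻¹ * (∑ j : Fin 3, (∫ s in (-(Real.pi / 6))..(Real.pi / 6),
      La1 (cur (unc F) (arc c j)) (t, s)) +
      ∑ j : Fin 3, ∫ s in r0..R, La1 (cur (unc F) (ray j)) (t, s)),
    (2 * Real.pi)⁻¹ * (∑ j : Fin 3, (∫ s in (-(Real.pi / 6))..(Real.pi / 6),
      La2 (cur (unc F) (arc c j)) (0, s)) +
      ∑ j : Fin 3, ∫ s in r0..R, La2 (cur (unc F) (ray j)) (0, s)),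
    Fin.snoc (α := fun _ => ℝ → ℝ) (fun (j : Fin 3) t => (2 * Real.pi)⁻¹ *
      (0 - (∫ s in (-(Real.pi / 6))..(Real.pi / 6), Lw1 (cur (unc F) (arc c j)) (t, s)) -
        (∫ s in r0..R, Lw1 (cur (unc F) (ray j)) (t, s)) +
        (∫ s in r0..R, Lw1 (cur (unc F) (ray (j + 2))) (t, s))))
      (fun t => (2 * Real.pi)⁻¹ * ∑ j : Fin 3, ∫ s in (-(Real.pi / 6))..(Real.pi / 6),
        Lw1 (cur (unc F) (arc c j)) (t, s)),
    Fin.snoc (α := fun _ => ℝ) (fun (j : Fin 3) => (2 * Real.pi)⁻¹ *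
      (0 - (∫ s in (-(Real.pi / 6))..(Real.pi / 6), Lw2 (cur (unc F) (arc c j)) (0, s)) -
        (∫ s in r0..R, Lw2 (cur (unc F) (ray j)) (0, s)) +
        (∫ s in r0..R, Lw2 (cur (unc F) (ray (j + 2))) (0, s))))
      ((2 * Real.pi)⁻¹ * ∑ j : Fin 3, ∫ s in (-(Real.pi / 6))..(Real.pi / 6),
        Lw2 (cur (unc F) (arc c j)) (0, s)), ?_, ?_, ?_, ?_, ?_, ?_⟩
  · intro t
    rw [earea]
    refine HasDerivAt.add_const _ (HasDerivAt.const_mul _ (HasDerivAt.add ?_ ?_))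
    · exact HasDerivAt.fun_sum fun j _ => (dA j t).1
    · exact HasDerivAt.fun_sum fun j _ => (dR j t).1
  · refine HasDerivAt.const_mul _ (HasDerivAt.add ?_ ?_)
    · exact HasDerivAt.fun_sum fun j _ => (dA j 0).2
    · exact HasDerivAt.fun_sum fun j _ => (dR j 0).2
  · intro i t
    refine Fin.lastCases ?_ (fun j => ?_) i
    · rw [evl, Fin.snoc_last]
      exact HasDerivAt.const_mul _ (HasDerivAt.fun_sum fun j _ => (dW j t).1)
    · rw [evs j, Fin.snoc_castSucc]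
      exact HasDerivAt.const_mul _ ((((hasDerivAt_const t (C j)).sub (dW j t).1).sub
        (dV j t).1).add (dV (j + 2) t).1)
  · intro i
    refine Fin.lastCases ?_ (fun j => ?_) i
    · rw [Fin.snoc_last, Fin.snoc_last]
      exact HasDerivAt.const_mul _ (HasDerivAt.fun_sum fun j _ => (dW j 0).2)
    · rw [Fin.snoc_castSucc, Fin.snoc_castSucc]
      exact HasDerivAt.const_mul _ ((((hasDerivAt_const (0 : ℝ) (0 : ℝ)).sub (dW j 0).2).sub
        (dV j 0).2).add (dV (j + 2) 0).2)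
  · rw [Fin.snoc_last]
    have h := first_zero A hε hG hG0 (R := R) (fun j => (fix_tder hF
      (hfix _ (gau_ray A j (A.r0_pos.le.trans hR)).ge) 0).1)
    rw [Finset.sum_sub_distrib, ← Finset.mul_sum] at h
    simp only
    have h2 : ∑ j : Fin 3, (∫ s in (-(Real.pi / 6))..(Real.pi / 6),
      La1 (cur (unc F) (arc c j)) (0, s)) +
      ∑ j : Fin 3, ∫ s in r0..R, La1 (cur (unc F) (ray j)) (0, s) =
      lam * ∑ j : Fin 3, ∫ s in (-(Real.pi / 6))..(Real.pi / 6),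
        Lw1 (cur (unc F) (arc c j)) (0, s) := by linarith
    rw [h2]
    ring
  · intro hV
    rw [Fin.snoc_last]
    have hpi : (0 : ℝ) < (2 * Real.pi)⁻¹ := by positivity
    have hm : ∀ j : Fin 3, (∫ s in (-(Real.pi / 6))..(Real.pi / 6),
        Lw1 (cur (unc F) (arc c j)) (0, s)) +
        (∫ s in r0..R, Lw1 (cur (unc F) (ray j)) (0, s)) -
        (∫ s in r0..R, Lw1 (cur (unc F) (ray (j + 2))) (0, s)) = 0 := by
      intro j
      have h1 := hV (Fin.castSucc j)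
      rw [Fin.snoc_castSucc] at h1
      have h2 := (mul_eq_zero.mp h1).resolve_left hpi.ne'
      linarith
    have h := index_nonneg A hε hG hG0 hR1 (fun j => (fix_tder hF
      (hfix _ (gau_ray A j (A.r0_pos.le.trans hR)).ge) 0).1) (fun j => (fix_tder hF
      (hfix _ (gau_ray A j (A.r0_pos.le.trans hR)).ge) 0).2) hm
    rw [Finset.sum_sub_distrib, ← Finset.mul_sum] at h
    have h3 := mul_nonneg hpi.le h
    refine h3.trans (le_of_eq ?_)
    ring

theorem indexStable (A : IsArc ε c r0 lam) (hε : ε ≤ 1 / 1000) : IndexStable (Om ε r0 c) := by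
  refine ⟨Fin.snoc (α := fun _ => ℝ) (fun _ => 0) lam, fun F hF => ?_⟩
  obtain ⟨A', a, V', v, h1, h2, h3, h4, h5, h6⟩ := index_main A hε hF
  have hs : ∀ w : Fin 4 → ℝ, ∑ i, (Fin.snoc (α := fun _ => ℝ) (fun _ => (0 : ℝ)) lam : Fin 4 → ℝ) i *
      w i = lam * w (Fin.last 3) := by
    intro w
    rw [Fin.sum_univ_castSucc]
    simp only [Fin.snoc_castSucc, Fin.snoc_last, zero_mul, Finset.sum_const_zero, zero_add]
  refine ⟨A', a, V', v, h1, h2, h3, h4, ?_, ?_⟩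
  · rw [hs fun i => V' i 0]; exact h5
  · intro hV
    rw [hs v]
    exact h6 hV

theorem stationary (A : IsArc ε c r0 lam) (hε : ε ≤ 1 / 1000) : Stationary (Om ε r0 c) := by
  intro F hF
  refine ⟨garea_finite A hF, fun hV => ?_⟩
  obtain ⟨A', a, V', v, h1, h2, h3, h4, h5, h6⟩ := index_main A hε hF
  have hl : V' (Fin.last 3) 0 = 0 := (h3 _ 0).unique (hV _)
  have := h1 0
  rwa [h5, hl, mul_zero] at this

theorem stable (A : IsArc ε c r0 lam) (hε : ε ≤ 1 / 1000) : Stable (Om ε r0 c) := by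
  refine ⟨stationary A hε, fun F hF hV => ?_⟩
  obtain ⟨A', a, V', v, h1, h2, h3, h4, h5, h6⟩ := index_main A hε hF
  have hz : ∀ i, ∀ᶠ t in 𝓝 (0 : ℝ), V' i t = 0 := by
    intro i
    have h7 := hV i
    rw [← eventually_eventually_nhds] at h7
    filter_upwards [h7] with t ht
    have h8 : HasDerivAt (volAt F (Om ε r0 c) i) 0 t :=
      (hasDerivAt_const t (volAt F (Om ε r0 c) i 0)).congr_of_eventuallyEq ht
    exact (h3 i t).unique h8
  have hv0 : ∀ i, V' i 0 = 0 := fun i => (hz i).self_of_nhds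
  have hv : v (Fin.last 3) = 0 := by
    have h9 : HasDerivAt (V' (Fin.last 3)) 0 0 :=
      (hasDerivAt_const (0 : ℝ) (0 : ℝ)).congr_of_eventuallyEq (hz _)
    exact (h4 _).unique h9
  refine ⟨A', a, h1, h2, ?_⟩
  have := h6 hv0
  rw [hv] at this
  linarith

end

end Pool.Agent.MP_845d3b_gt
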