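import Pool.Agent.MP_845d3b_gt.Isotopy

open Set Filter Topology MeasureTheory
open scoped ContDiff

namespace Pool.Agent.MP_845d3b_gt

/-- moved parametrisation -/
noncomputable def Kt (F : ℝ → ℂ → ℂ) (r0 : ℝ) (c : ℝ → ℂ) (j : Fin 3) (t : ℝ) (p : ℝ × ℝ) : ℂ :=
  F t (Kp r0 c j p)

/-- area potential of an arc -/
noncomputable def Wa (F : ℝ → ℂ → ℂ) (c : ℝ → ℂ) (j : Fin 3) (t : ℝ) : ℝ :=
  ∫ s in (-(Real.pi / 6))..(Real.pi / 6), Lw (cur (unc F) (arc c j)) (t, s)

/-- area potential of a piece of a ray -/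
noncomputable def Wr (F : ℝ → ℂ → ℂ) (j : Fin 3) (r1 r2 t : ℝ) : ℝ :=
  ∫ s in r1..r2, Lw (cur (unc F) (ray j)) (t, s)

lemma gdens_eq (z : ℂ) : gdens z = (2 * Real.pi)⁻¹ * ph z := rfl

lemma gdens_pos (z : ℂ) : 0 < gdens z := mul_pos (by positivity) (ph_pos z)

lemma continuous_gdens : Continuous gdens := continuous_const.mul continuous_ph

lemma integrable_ph : Integrable ph := by
  have h := GaussianFourier.integrable_cexp_neg_mul_sq_norm_add (V := ℂ) (b := 1 / 2)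
    (by norm_num) 0 0
  have h2 := h.re
  refine h2.congr (Eventually.of_forall fun z => ?_)
  simp only [inner_zero_left, Complex.ofReal_zero, mul_zero, add_zero]
  unfold ph
  have e : (-(1 / 2) * (‖z‖ : ℂ) ^ 2 : ℂ) = ((-‖z‖ ^ 2 / 2 : ℝ) : ℂ) := by
    push_cast; ring
  rw [e]
  simp only [RCLike.re_eq_complex_re]
  rw [← Complex.ofReal_exp, Complex.ofReal_re]

lemma integrable_gdens : Integrable gdens := integrable_ph.const_mul _

section

variable {ε r0 lam : ℝ} {c : ℝ → ℂ} {F : ℝ → ℂ → ℂ}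

lemma contDiff_Kp (A : IsArc ε c r0 lam) (j : Fin 3) : ContDiff ℝ ∞ (Kp r0 c j) := by
  unfold Kp
  exact (Complex.ofRealCLM.contDiff.comp (contDiff_fst.div_const r0)).mul
    (contDiff_const.mul (A.smooth.comp contDiff_snd))

lemma contDiff_Kt (A : IsArc ε c r0 lam) (hF : IsVariation F) (j : Fin 3) (t : ℝ) :
    ContDiff ℝ ∞ (Kt F r0 c j t) := (contDiff_F hF t).comp (contDiff_Kp A j)

lemma dt_Kp (A : IsArc ε c r0 lam) (j : Fin 3) (r α : ℝ) :
    dt (Kp r0 c j) (r, α) = ((1 / r0 : ℝ) : ℂ) * (om j * c α) := by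
  have h1 := hasDerivAt_dt (contDiff_Kp A j) r α
  have h2 : HasDerivAt (fun r : ℝ => Kp r0 c j (r, α)) (((1 / r0 : ℝ) : ℂ) * (om j * c α)) r := by
    unfold Kp
    have h3 : HasDerivAt (fun r : ℝ => r / r0) (1 / r0) r := (hasDerivAt_id r).div_const r0
    exact (Complex.ofRealCLM.hasFDerivAt.comp_hasDerivAt r h3).mul_const (om j * c α)
  exact h1.unique h2

lemma ds_Kp (A : IsArc ε c r0 lam) (j : Fin 3) (r : ℝ) {α : ℝ} (hα : |α| ≤ 1) :
    ds (Kp r0 c j) (r, α) = ((r / r0 : ℝ) : ℂ) * (om j *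
      (((ε * ph (c α) : ℝ) : ℂ) * (Complex.I * Complex.exp (α * Complex.I)))) := by
  have h1 := hasDerivAt_ds (contDiff_Kp A j) r α
  have h2 : HasDerivAt (fun α : ℝ => Kp r0 c j (r, α)) (((r / r0 : ℝ) : ℂ) * (om j *
      (((ε * ph (c α) : ℝ) : ℂ) * (Complex.I * Complex.exp (α * Complex.I))))) α := by
    have h3 := ((A.der α hα).const_mul (om j)).const_mul (((r / r0 : ℝ) : ℂ))
    exact h3
  exact h1.unique h2

lemma wedge_real_mul (x y : ℝ) (a b : ℂ) : wedge ((x : ℂ) * a) ((y : ℂ) * b) = x * y * wedge a b := by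
  unfold wedge
  rw [Complex.re_ofReal_mul, Complex.im_ofReal_mul, Complex.re_ofReal_mul, Complex.im_ofReal_mul]
  ring

lemma wedge_Kp (A : IsArc ε c r0 lam) (j : Fin 3) (r : ℝ) {α : ℝ} (hα : |α| ≤ 1) :
    wedge (dt (Kp r0 c j) (r, α)) (ds (Kp r0 c j) (r, α)) =
      1 / r0 * (r / r0) * ((wv c α).re * (ε * ph (c α))) := by
  rw [dt_Kp A, ds_Kp A j r hα, wedge_real_mul, wedge_mul (by rw [dot_self_eq, norm_om]; norm_num)]
  congr 1
  have h1 : c α = Complex.exp (α * Complex.I) * wv c α := by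
    unfold wv
    linear_combination -(c α) * exp_mul_expn α
  have h2 : ((ε * ph (c α) : ℝ) : ℂ) * (Complex.I * Complex.exp (α * Complex.I)) =
      Complex.exp (α * Complex.I) * (((ε * ph (c α) : ℝ) : ℂ) * Complex.I) := by ring
  rw [h2]
  nth_rw 1 [h1]
  rw [wedge_mul (by rw [dot_self_eq, Complex.norm_exp_ofReal_mul_I]; norm_num)]
  unfold wedge
  simp

lemma fderiv_Kt (A : IsArc ε c r0 lam) (hF : IsVariation F) (j : Fin 3) (t : ℝ) (p : ℝ × ℝ) :
    fderiv ℝ (Kt F r0 c j t) p = (DF F t (Kp r0 c j p)).comp (fderiv ℝ (Kp r0 c j) p) := by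
  have d1 : HasFDerivAt (F t) (DF F t (Kp r0 c j p)) (Kp r0 c j p) :=
    ((contDiff_F hF t).differentiable (by simp) _).hasFDerivAt
  have d2 : HasFDerivAt (Kp r0 c j) (fderiv ℝ (Kp r0 c j) p) p :=
    ((contDiff_Kp A j).differentiable (by simp) p).hasFDerivAt
  exact (d1.comp p d2).fderiv

lemma wedge_Kt_pos (A : IsArc ε c r0 lam) (hF : IsVariation F) (j : Fin 3) (t : ℝ) {r α : ℝ}
    (hr : 0 < r) (hα : α ∈ Iv) :
    0 < wedge (dt (Kt F r0 c j t) (r, α)) (ds (Kt F r0 c j t) (r, α)) := by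
  have e : wedge (dt (Kt F r0 c j t) (r, α)) (ds (Kt F r0 c j t) (r, α)) =
      Jac F t (Kp r0 c j (r, α)) * wedge (dt (Kp r0 c j) (r, α)) (ds (Kp r0 c j) (r, α)) := by
    unfold dt ds
    rw [fderiv_Kt A hF]
    exact wedge_lin _ _ _
  rw [e, wedge_Kp A j r (Iv_abs1 hα)]
  have h1 := A.hN_ge α (Iv_abs hα)
  have h2 : 0 < (wv c α).re := lt_of_lt_of_le (by have := A.eps_pos; positivity) h1
  have h3 := A.r0_pos
  have h4 := mul_pos A.eps_pos (ph_pos (c α))
  exact mul_pos (Jac_pos hF t _) (by positivity)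

lemma measurableSet_Io : MeasurableSet Io := measurableSet_Ioo

lemma Kt_injOn (A : IsArc ε c r0 lam) (hF : IsVariation F) (j : Fin 3) (t : ℝ) {S : Set (ℝ × ℝ)}
    (hS : S ⊆ Ioi 0 ×ˢ Iv) : InjOn (Kt F r0 c j t) S := by
  intro p hp q hq h
  exact Kp_inj A j (hS hp) (hS hq) (F_inj hF t h)

lemma rect_sub {r1 r2 : ℝ} (h1 : 0 ≤ r1) : Ioo r1 r2 ×ˢ Io ⊆ Ioi 0 ×ˢ Iv := by
  rintro ⟨r, α⟩ ⟨ha, hb⟩
  exact ⟨lt_of_le_of_lt h1 ha.1, ⟨hb.1.le, hb.2.le⟩⟩

/-- Gaussian measure of the image of a rectangle. -/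
lemma gvol_rect (A : IsArc ε c r0 lam) (hF : IsVariation F) (j : Fin 3) (t : ℝ) {r1 r2 : ℝ}
    (h1 : 0 ≤ r1) (h12 : r1 ≤ r2) :
    gvol (F t '' (Kp r0 c j '' (Ioo r1 r2 ×ˢ Io))) = (2 * Real.pi)⁻¹ *
      ((∫ y in (-(Real.pi / 6))..(Real.pi / 6), Lw (Kt F r0 c j t) (r2, y)) -
        (∫ y in (-(Real.pi / 6))..(Real.pi / 6), Lw (Kt F r0 c j t) (r1, y)) -
        ((∫ x in r1..r2, Lt (Kt F r0 c j t) (x, Real.pi / 6)) -
          ∫ x in r1..r2, Lt (Kt F r0 c j t) (x, -(Real.pi / 6)))) := by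
  have hb := pi6_facts
  have hS : MeasurableSet (Ioo r1 r2 ×ˢ Io) := measurableSet_Ioo.prod measurableSet_Io
  have hsub := rect_sub (r2 := r2) h1
  have hKs := contDiff_Kt A hF j t
  have e0 : F t '' (Kp r0 c j '' (Ioo r1 r2 ×ˢ Io)) = Kt F r0 c j t '' (Ioo r1 r2 ×ˢ Io) := by
    rw [image_image]; rfl
  have hcont : Continuous fun p : ℝ × ℝ => ph (Kt F r0 c j t p) *
      wedge (dt (Kt F r0 c j t) p) (ds (Kt F r0 c j t) p) :=
    (continuous_ph.comp hKs.continuous).mul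
      (continuous_wedge (contDiff_dt hKs).continuous (contDiff_ds hKs).continuous)
  rw [← green hKs r1 r2 (-(Real.pi / 6)) (Real.pi / 6)]
  unfold gvol
  rw [e0, int_image hKs hS (Kt_injOn A hF j t hsub)]
  have e1 : ∫ p in Ioo r1 r2 ×ˢ Io, |wedge (dt (Kt F r0 c j t) p) (ds (Kt F r0 c j t) p)| *
      gdens (Kt F r0 c j t p) = ∫ p in Ioo r1 r2 ×ˢ Io, (2 * Real.pi)⁻¹ *
        (ph (Kt F r0 c j t p) * wedge (dt (Kt F r0 c j t) p) (ds (Kt F r0 c j t) p)) := by
    refine setIntegral_congr_fun hS fun p hp => ?_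
    have hp' := hsub hp
    have := wedge_Kt_pos A hF j t hp'.1 hp'.2
    change |wedge (dt (Kt F r0 c j t) p) (ds (Kt F r0 c j t) p)| * gdens (Kt F r0 c j t p) = _
    rw [abs_of_pos this, gdens_eq]
    ring
  rw [e1, integral_const_mul]
  congr 1
  have hint : IntegrableOn (fun p : ℝ × ℝ => ph (Kt F r0 c j t p) *
      wedge (dt (Kt F r0 c j t) p) (ds (Kt F r0 c j t) p)) (Ioo r1 r2 ×ˢ Io)
      ((volume : Measure ℝ).prod volume) := by
    have : IntegrableOn (fun p : ℝ × ℝ => ph (Kt F r0 c j t p) *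
      wedge (dt (Kt F r0 c j t) p) (ds (Kt F r0 c j t) p)) (Icc r1 r2 ×ˢ Iv) :=
      hcont.continuousOn.integrableOn_compact (isCompact_Icc.prod isCompact_Icc)
    exact this.mono_set (prod_mono Ioo_subset_Icc_self Ioo_subset_Icc_self)
  rw [Measure.volume_eq_prod, setIntegral_prod _ hint, intervalIntegral.integral_of_le h12,
    integral_Ioc_eq_integral_Ioo]
  refine setIntegral_congr_fun measurableSet_Ioo fun x _ => ?_
  rw [intervalIntegral.integral_of_le (by linarith), integral_Ioc_eq_integral_Ioo]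
  rfl

lemma Lw_Kt (A : IsArc ε c r0 lam) (hF : IsVariation F) (j : Fin 3) (t r y : ℝ) :
    Lw (Kt F r0 c j t) (r, y) = Lw (cur (unc F) (fun s => Kp r0 c j (r, s))) (t, y) := by
  have k : ContDiff ℝ ∞ (fun s => Kp r0 c j (r, s)) :=
    (contDiff_Kp A j).comp (contDiff_const.prodMk contDiff_id)
  have h1 := hasDerivAt_ds (contDiff_Kt A hF j t) r y
  have h2 := hasDerivAt_ds (contDiff_cur (contDiff_unc hF) k) t y
  have h3 := h1.unique h2
  unfold Lw
  rw [h3]
  rfl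

lemma Lt_Kt (A : IsArc ε c r0 lam) (hF : IsVariation F) (j : Fin 3) (t : ℝ) {γ : ℝ → ℂ}
    (k : ContDiff ℝ ∞ γ) {y : ℝ} (hγ : ∀ x, Kp r0 c j (x, y) = γ x) (x : ℝ) :
    Lt (Kt F r0 c j t) (x, y) = Lw (cur (unc F) γ) (t, x) := by
  have h1 := hasDerivAt_dt (contDiff_Kt A hF j t) x y
  have h2 := hasDerivAt_ds (contDiff_cur (contDiff_unc hF) k) t x
  have e : (fun x => Kt F r0 c j t (x, y)) = fun s => cur (unc F) γ (t, s) := by
    funext s
    unfold Kt cur unc
    rw [hγ s]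
  rw [e] at h1
  have h3 := h1.unique h2
  unfold Lw Lt
  rw [h3]
  have h4 : Kt F r0 c j t (x, y) = cur (unc F) γ (t, x) := congrFun e x
  rw [h4]

/-- Gaussian measure of the image of a rectangle, in terms of boundary curves. -/
lemma gvol_rect' (A : IsArc ε c r0 lam) (hF : IsVariation F) (j : Fin 3) (t : ℝ) {r1 r2 : ℝ}
    (h1 : 0 ≤ r1) (h12 : r1 ≤ r2) :
    gvol (F t '' (Kp r0 c j '' (Ioo r1 r2 ×ˢ Io))) = (2 * Real.pi)⁻¹ *
      ((∫ y in (-(Real.pi / 6))..(Real.pi / 6),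
          Lw (cur (unc F) (fun s => Kp r0 c j (r2, s))) (t, y)) -
        (∫ y in (-(Real.pi / 6))..(Real.pi / 6),
          Lw (cur (unc F) (fun s => Kp r0 c j (r1, s))) (t, y)) -
        Wr F j r1 r2 t + Wr F (j + 2) r1 r2 t) := by
  rw [gvol_rect A hF j t h1 h12]
  simp only [Lw_Kt A hF]
  have e1 : ∀ x, Lt (Kt F r0 c j t) (x, Real.pi / 6) = Lw (cur (unc F) (ray j)) (t, x) :=
    Lt_Kt A hF j t (contDiff_ray' j) (fun x => (Kp_b A j x).1)
  have e2 : ∀ x, Lt (Kt F r0 c j t) (x, -(Real.pi / 6)) =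
      Lw (cur (unc F) (ray (j + 2))) (t, x) := by
    refine Lt_Kt A hF j t (contDiff_ray' _) (fun x => ?_)
    have := (Kp_b A (j + 2) x).2
    rwa [show j + 2 + 1 = j by fin_cases j <;> rfl] at this
  simp only [e1, e2]
  unfold Wr
  ring

lemma gvol_union {S T : Set ℂ} (hd : Disjoint S T) (hT : MeasurableSet T) :
    gvol (S ∪ T) = gvol S + gvol T := by
  unfold gvol
  exact setIntegral_union hd hT integrable_gdens.integrableOn integrable_gdens.integrableOn

/-- a radius beyond which the variation is trivial -/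
lemma exists_radius (A : IsArc ε c r0 lam) (hF : IsVariation F) :
    ∃ R : ℝ, 1 ≤ R ∧ r0 ≤ R ∧ ∀ z, R ≤ gau ε r0 c z → ∀ t, F t z = z := by
  obtain ⟨K, hK, hsup⟩ := hF.support
  obtain ⟨ρ, hρ⟩ := hK.isBounded.exists_norm_le
  refine ⟨max (max 1 r0) (3 * ρ + 3), (le_max_left _ _).trans (le_max_left _ _),
    (le_max_right _ _).trans (le_max_left _ _), fun z hz t => hsup t z fun hzK => ?_⟩
  have h1 := (gau_norm A z).1
  have h2 := hρ z hzK
  have h3 : 3 * ρ + 3 ≤ gau ε r0 c z := (le_max_right _ _).trans hz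
  linarith

lemma gau_ray (A : IsArc ε c r0 lam) (j : Fin 3) {r : ℝ} (hr : 0 ≤ r) :
    gau ε r0 c (ray j r) = r := by
  rw [← (Kp_b A j r).1, gau_Kp A j hr Iv_facts.2.1]

/-- volume of an outer cell along a variation -/
lemma vol_cell (A : IsArc ε c r0 lam) (hF : IsVariation F) {R : ℝ} (hR : r0 ≤ R)
    (hfix : ∀ z, R ≤ gau ε r0 c z → ∀ t, F t z = z) (j : Fin 3) : ∃ C : ℝ, ∀ t,
    gvol (F t '' cell ε r0 c j) = (2 * Real.pi)⁻¹ *
      (C - Wa F c j t - Wr F j r0 R t + Wr F (j + 2) r0 R t) := by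
  have hr0 := A.r0_pos
  set T : Set ℂ := {z | z ∈ cell ε r0 c j ∧ R ≤ gau ε r0 c z} with hT
  have hTm : MeasurableSet T := (isOpen_cell A j).measurableSet.inter
    (isClosed_le continuous_const (continuous_gau A)).measurableSet
  have hsplit : ∀ t, gvol (F t '' cell ε r0 c j) =
      gvol (F t '' (Kp r0 c j '' (Ioo r0 R ×ˢ Io))) + gvol T := by
    intro t
    have e1 : cell ε r0 c j = Kp r0 c j '' (Ioo r0 R ×ˢ Io) ∪ T := by
      ext z
      constructor
      · intro hz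
        rcases lt_or_ge (gau ε r0 c z) R with h | h
        · left
          rw [cell_eq A j] at hz
          obtain ⟨⟨r, α⟩, ⟨ha, hb⟩, rfl⟩ := hz
          have hr : (0 : ℝ) < r := hr0.trans ha
          rw [gau_Kp A j hr.le ⟨hb.1.le, hb.2.le⟩] at h
          exact ⟨(r, α), ⟨⟨ha, h⟩, hb⟩, rfl⟩
        · exact Or.inr ⟨hz, h⟩
      · rintro (h | h)
        · rw [cell_eq A j]
          exact image_mono (prod_mono Ioo_subset_Ioi_self subset_rfl) h
        · exact h.1
    have hTF : F t '' T = T := by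
      ext z
      constructor
      · rintro ⟨w, hw, rfl⟩
        rw [hfix w hw.2]
        exact hw
      · intro hz
        exact ⟨z, hz, hfix z hz.2 t⟩
    have hdis : Disjoint (Kp r0 c j '' (Ioo r0 R ×ˢ Io)) T := by
      rw [Set.disjoint_left]
      rintro _ ⟨⟨r, α⟩, ⟨ha, hb⟩, rfl⟩ h
      have hr : (0 : ℝ) < r := hr0.trans ha.1
      have h2 := h.2
      rw [gau_Kp A j hr.le ⟨hb.1.le, hb.2.le⟩] at h2
      exact absurd ha.2 (not_lt.mpr h2)
    nth_rw 1 [e1]
    rw [image_union, hTF]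
    refine gvol_union ?_ hTm
    rw [← hTF]
    exact (disjoint_image_iff (F_inj hF t)).mpr hdis
  have k : ContDiff ℝ ∞ (fun s => Kp r0 c j (R, s)) :=
    (contDiff_Kp A j).comp (contDiff_const.prodMk contDiff_id)
  have hfx : ∀ t, ∀ s ∈ Io, F t (Kp r0 c j (R, s)) = Kp r0 c j (R, s) := by
    intro t s hs
    refine hfix _ ?_ t
    rw [gau_Kp A j (hr0.le.trans hR) ⟨hs.1.le, hs.2.le⟩]
  have hds : ∀ t, ∀ y ∈ Io, ds (cur (unc F) (fun s => Kp r0 c j (R, s))) (t, y) =
      deriv (fun s => Kp r0 c j (R, s)) y := by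
    intro t y hy
    have h1 := hasDerivAt_ds (contDiff_cur (contDiff_unc hF) k) t y
    have h2 : HasDerivAt (fun s => Kp r0 c j (R, s)) (deriv (fun s => Kp r0 c j (R, s)) y) y :=
      (k.differentiable (by simp) y).hasDerivAt
    refine h1.unique (h2.congr_of_eventuallyEq ?_)
    filter_upwards [isOpen_Ioo.mem_nhds hy] with s hs
    exact hfx t s hs
  have hcon : ∀ t, ∀ y ∈ Io, Lw (cur (unc F) (fun s => Kp r0 c j (R, s))) (t, y) =
      Lw (cur (unc F) (fun s => Kp r0 c j (R, s))) (0, y) := by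
    intro t y hy
    unfold Lw
    rw [hds t y hy, hds 0 y hy]
    congr 2
    change F t (Kp r0 c j (R, y)) = F 0 (Kp r0 c j (R, y))
    rw [hfx t y hy, hfx 0 y hy]
  have hcon2 : ∀ t, (∫ y in (-(Real.pi / 6))..(Real.pi / 6),
      Lw (cur (unc F) (fun s => Kp r0 c j (R, s))) (t, y)) =
      ∫ y in (-(Real.pi / 6))..(Real.pi / 6),
        Lw (cur (unc F) (fun s => Kp r0 c j (R, s))) (0, y) := by
    intro t
    have hb := pi6_facts
    rw [intervalIntegral.integral_of_le (by linarith), intervalIntegral.integral_of_le (by linarith),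
      integral_Ioc_eq_integral_Ioo, integral_Ioc_eq_integral_Ioo]
    exact setIntegral_congr_fun measurableSet_Ioo fun y hy => hcon t y hy
  refine ⟨(∫ y in (-(Real.pi / 6))..(Real.pi / 6),
    Lw (cur (unc F) (fun s => Kp r0 c j (R, s))) (0, y)) + (2 * Real.pi) * gvol T, fun t => ?_⟩
  have harc : (fun s => Kp r0 c j (r0, s)) = arc c j := funext fun s => (arc_eq_Kp A j s).symm
  rw [hsplit t, gvol_rect' A hF j t hr0.le hR, hcon2 t, harc]
  unfold Wa
  have hpi : (2 * Real.pi) ≠ 0 := by positivity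
  field_simp
  ring

/-- the lines carrying the rays are null -/
lemma null_ray (j : Fin 3) : volume (ray j '' (univ : Set ℝ)) = 0 := by
  set e := om j * e3 with he
  have hne : e ≠ 0 := by
    rw [← norm_ne_zero_iff, norm_ray_dir]; norm_num
  have hsub : ray j '' (univ : Set ℝ) ⊆ (Submodule.span ℝ {e} : Submodule ℝ ℂ) := by
    rintro _ ⟨s, _, rfl⟩
    have : ray j s = s • e := by unfold ray; rw [Complex.real_smul]
    rw [this]
    exact Submodule.smul_mem _ _ (Submodule.mem_span_singleton_self e)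
  refine measure_mono_null hsub (Measure.addHaar_submodule volume _ ?_)
  intro h
  have h1 : Module.finrank ℝ (Submodule.span ℝ {e} : Submodule ℝ ℂ) = 1 :=
    finrank_span_singleton hne
  rw [h, finrank_top, Complex.finrank_real_complex] at h1
  norm_num at h1

lemma not_Sec_ray (A : IsArc ε c r0 lam) {z : ℂ} (hz : ∀ j, z ∉ Sec j) :
    ∃ j, z ∈ ray j '' (univ : Set ℝ) := by
  obtain ⟨j, hj⟩ := cSec_cover z
  obtain ⟨r, hr, α, hα, rfl⟩ := polar A hj
  rcases hr.eq_or_lt with h0 | h0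
  · refine ⟨j, 0, mem_univ _, ?_⟩
    rw [← h0]
    unfold ray Kp
    simp
  · by_cases h1 : α ∈ Io
    · exact absurd (Kp_mem_Sec A j h0 h1) (hz j)
    · have h2 : α = -(Real.pi / 6) ∨ α = Real.pi / 6 := by
        by_contra hcon
        rw [not_or] at hcon
        exact h1 ⟨lt_of_le_of_ne hα.1 (Ne.symm hcon.1), lt_of_le_of_ne hα.2 hcon.2⟩
      rcases h2 with h2 | h2
      · refine ⟨j + 2, r, mem_univ _, ?_⟩
        have := (Kp_b A (j + 2) r).2
        rw [show j + 2 + 1 = j by fin_cases j <;> rfl] at this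
        rw [h2, this]
      · refine ⟨j, r, mem_univ _, ?_⟩
        rw [h2, (Kp_b A j r).1]

/-- volume of the triangle along a variation -/
lemma vol_tri (A : IsArc ε c r0 lam) (hF : IsVariation F) (t : ℝ) :
    gvol (F t '' tri ε r0 c) = (2 * Real.pi)⁻¹ * ∑ j, Wa F c j t := by
  have hr0 := A.r0_pos
  -- the null part
  set N : Set ℂ := tri ε r0 c \ ⋃ j, Sec j with hN
  have hNnull : volume (F t '' N) = 0 := by
    have h1 : volume N = 0 := by
      refine measure_mono_null (t := ⋃ j, ray j '' (univ : Set ℝ)) ?_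
        (measure_iUnion_null fun j => null_ray j)
      intro z hz
      obtain ⟨j, hj⟩ := not_Sec_ray A (z := z) (fun j hj => hz.2 (mem_iUnion.mpr ⟨j, hj⟩))
      exact mem_iUnion.mpr ⟨j, hj⟩
    exact addHaar_image_eq_zero_of_differentiableOn_of_addHaar_eq_zero volume
      ((contDiff_F hF t).differentiable (by simp)).differentiableOn h1
  have hdec : F t '' tri ε r0 c = (⋃ j, F t '' (tri ε r0 c ∩ Sec j)) ∪ F t '' N := by
    rw [← image_iUnion, ← image_union, ← inter_iUnion, inter_union_sdiff]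
  have h2 : gvol (F t '' tri ε r0 c) = gvol (⋃ j, F t '' (tri ε r0 c ∩ Sec j)) := by
    unfold gvol
    rw [hdec]
    refine setIntegral_congr_set ?_
    exact union_ae_eq_left_of_ae_eq_empty (ae_eq_empty.mpr hNnull)
  have h3 : gvol (⋃ j, F t '' (tri ε r0 c ∩ Sec j)) = ∑ j, gvol (F t '' (tri ε r0 c ∩ Sec j)) := by
    unfold gvol
    refine integral_iUnion_fintype (fun j => ?_) ?_ fun j => integrable_gdens.integrableOn
    · exact measurableSet_image hF t ((isOpen_tri A).inter (isOpen_Sec j)).measurableSet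
    · intro j k hjk
      refine (disjoint_image_iff (F_inj hF t)).mpr ?_
      rw [Set.disjoint_left]
      rintro z ⟨_, h4⟩ ⟨_, h5⟩
      exact Sec_disj hjk h4 (Sec_subset k h5)
  rw [h2, h3]
  have h4 : ∀ j, gvol (F t '' (tri ε r0 c ∩ Sec j)) = (2 * Real.pi)⁻¹ *
      (Wa F c j t - Wr F j 0 r0 t + Wr F (j + 2) 0 r0 t) := by
    intro j
    have harc : (fun s => Kp r0 c j (r0, s)) = arc c j := funext fun s => (arc_eq_Kp A j s).symm
    have hzero : (fun s => Kp r0 c j (0, s)) = fun _ => (0 : ℂ) := by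
      funext s
      unfold Kp
      simp
    rw [tri_inter A j, gvol_rect' A hF j t le_rfl hr0.le, harc, hzero]
    have hz : ∀ y, Lw (cur (unc F) (fun _ => (0 : ℂ))) (t, y) = 0 := by
      intro y
      have h5 := hasDerivAt_ds (contDiff_cur (contDiff_unc hF) (contDiff_const (c := (0 : ℂ)))) t y
      have h6 : HasDerivAt (fun s : ℝ => cur (unc F) (fun _ => (0 : ℂ)) (t, s)) 0 y :=
        hasDerivAt_const y (unc F (t, 0))
      unfold Lw
      rw [h5.unique h6]
      simp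
    simp only [hz, intervalIntegral.integral_zero]
    unfold Wa
    ring
  simp only [h4]
  rw [← Finset.mul_sum]
  congr 1
  simp only [Fin.sum_univ_three]
  rw [show (0 : Fin 3) + 2 = 2 from rfl, show (1 : Fin 3) + 2 = 0 from rfl,
    show (2 : Fin 3) + 2 = 1 from rfl]
  ring

end

end Pool.Agent.MP_845d3b_gt
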